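import Pool.Agent.H295R2.Beu.Defs

/-! Task B5a of helper295: bound of the transform on the line. -/

set_option autoImplicit false

open MeasureTheory Filter Topology Set

namespace Pool.Agent.H766R2.HatL2

open Pool.Agent.H295R2.Beu

lemma norm_MN_le (N : ℕ) (s : ℂ) (hs : 0 ≤ s.re) : ‖MN N s‖ ≤ N := by
  unfold MN
  have h1 : ∀ n ∈ Finset.Icc 1 N, ‖(H295R2.mu n : ℂ) * (n : ℂ) ^ (-s)‖ ≤ 1 := by
    intro n hn
    have hn1 : 1 ≤ n := (Finset.mem_Icc.1 hn).1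
    have hn0 : (0 : ℝ) < n := by exact_mod_cast hn1
    rw [norm_mul]
    have h2 : ‖(H295R2.mu n : ℂ)‖ ≤ 1 := by
      rw [Complex.norm_real, Real.norm_eq_abs]
      exact H295R2.abs_mu_le n
    have h3 : ‖(n : ℂ) ^ (-s)‖ ≤ 1 := by
      have h4 : ((n : ℂ)) = ((n : ℝ) : ℂ) := by push_cast; rfl
      rw [h4, Complex.norm_cpow_eq_rpow_re_of_pos hn0]
      apply Real.rpow_le_one_of_one_le_of_nonpos
      · exact_mod_cast hn1
      · simpa using hs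
    calc ‖(H295R2.mu n : ℂ)‖ * ‖(n : ℂ) ^ (-s)‖ ≤ 1 * 1 :=
          mul_le_mul h2 h3 (norm_nonneg _) zero_le_one
      _ = 1 := one_mul 1
  calc ‖∑ n ∈ Finset.Icc 1 N, (H295R2.mu n : ℂ) * (n : ℂ) ^ (-s)‖
      ≤ ∑ n ∈ Finset.Icc 1 N, ‖(H295R2.mu n : ℂ) * (n : ℂ) ^ (-s)‖ := norm_sum_le _ _
    _ ≤ ∑ _n ∈ Finset.Icc 1 N, (1 : ℝ) := Finset.sum_le_sum h1
    _ = N := by simp

lemma norm_sq_s {σ t : ℝ} (hσ : 1 / 4 ≤ σ) :
    (1 + |t|) ^ 2 / 32 ≤ ‖(σ : ℂ) + t * Complex.I‖ ^ 2 := by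
  have h1 : ‖(σ : ℂ) + t * Complex.I‖ ^ 2 = σ ^ 2 + t ^ 2 := by
    rw [← Complex.normSq_eq_norm_sq, Complex.normSq_add_mul_I]
  rw [h1]
  have h2 : |t| ^ 2 = t ^ 2 := sq_abs t
  nlinarith [abs_nonneg t, sq_nonneg (|t| - 1)]

theorem hatL2 (hRM : RMellin) (hZL : ZetaLine) (hTE : TailEq) (hTL : TailL2) (hMm : MmBound) :
    HatL2 := by
  intro θ σ δ hθ hθσ hσ1 hZF hδ
  have hσ : 1 / 4 ≤ σ := by linarith
  have hσ0 : 0 < σ := by linarith
  set ε : ℝ := min (δ / 16) (1 / 8) with hε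
  have hε0 : 0 < ε := lt_min (by linarith) (by norm_num)
  have hε1 : ε ≤ δ / 16 := min_le_left _ _
  have hε2 : ε ≤ 1 / 8 := min_le_right _ _
  obtain ⟨C1, hC1, hz⟩ := hZL θ σ ε hθ hθσ hσ1 hZF hε0
  obtain ⟨C3, hC3, hG⟩ := hTL θ σ hθ hθσ hσ1 hZF
  obtain ⟨C4, hC4, hm⟩ := hMm θ σ hθ hθσ hσ1 hZF
  have hz8 : ∀ t : ℝ, ‖riemannZeta (σ + t * Complex.I)‖ ≤ C1 * (1 + |t|) ^ (1 / 8 : ℝ) := by
    intro t
    refine (hz t).trans ?_
    apply mul_le_mul_of_nonneg_left _ hC1.le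
    apply Real.rpow_le_rpow_of_exponent_le _ hε2
    have := abs_nonneg t
    linarith
  -- integrals of the elementary majorants
  have hint1 : Integrable (fun t : ℝ => (1 + |t|) ^ (-(5 / 4) : ℝ)) := by
    have := integrable_one_add_norm (E := ℝ) (μ := volume) (r := 5 / 4) (by norm_num)
    simpa [Real.norm_eq_abs] using this
  have hint2 : Integrable (fun t : ℝ => (1 + |t|) ^ (-(7 / 4) : ℝ)) := by
    have := integrable_one_add_norm (E := ℝ) (μ := volume) (r := 7 / 4) (by norm_num)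
    simpa [Real.norm_eq_abs] using this
  set I1 : ℝ := ∫ t : ℝ, (1 + |t|) ^ (-(5 / 4) : ℝ) with hI1
  set I2 : ℝ := ∫ t : ℝ, (1 + |t|) ^ (-(7 / 4) : ℝ) with hI2
  have hI1n : 0 ≤ I1 := integral_nonneg fun t => by positivity
  have hI2n : 0 ≤ I2 := integral_nonneg fun t => by positivity
  refine ⟨2 * (C1 ^ 2 * 2 * C3) + 64 * (1 + C1) ^ 2 * I1 + 64 * (C4 ^ 2 * C1 ^ 2) * I2 + 1,
    by positivity, ?_⟩
  intro N hN
  have hNr : (1 : ℝ) ≤ N := by exact_mod_cast hN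
  have hN0 : (0 : ℝ) < N := by linarith
  have hGN := hG N hN
  -- the majorant
  set K : ℝ := C1 ^ 2 * (1 + (N : ℝ) ^ 4) ^ (2 * ε) with hK
  have hK0 : 0 ≤ K := by positivity
  set g : ℝ → ℝ := fun t =>
    2 * (K * ‖GG N (σ + t * Complex.I)‖ ^ 2) + 64 * (1 + C1) ^ 2 * (1 + |t|) ^ (-(5 / 4) : ℝ) +
      64 * (C4 ^ 2 * C1 ^ 2) * (1 + |t|) ^ (-(7 / 4) : ℝ) with hg
  have hgint : Integrable g := by
    have h1 := (hGN.1.const_mul K).const_mul 2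
    have h2 := hint1.const_mul (64 * (1 + C1) ^ 2)
    have h3 := hint2.const_mul (64 * (C4 ^ 2 * C1 ^ 2))
    exact (h1.add h2).add h3
  have hgval : ∫ t, g t = 2 * (K * ∫ t : ℝ, ‖GG N (σ + t * Complex.I)‖ ^ 2) +
      64 * (1 + C1) ^ 2 * I1 + 64 * (C4 ^ 2 * C1 ^ 2) * I2 := by
    have h1 := (hGN.1.const_mul K).const_mul 2
    have h2 := hint1.const_mul (64 * (1 + C1) ^ 2)
    have h3 := hint2.const_mul (64 * (C4 ^ 2 * C1 ^ 2))
    have e1 : ∫ t, g t = ∫ t : ℝ, ((2 * (K * ‖GG N (σ + t * Complex.I)‖ ^ 2) +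
        64 * (1 + C1) ^ 2 * (1 + |t|) ^ (-(5 / 4) : ℝ)) +
        64 * (C4 ^ 2 * C1 ^ 2) * (1 + |t|) ^ (-(7 / 4) : ℝ)) := rfl
    have e2 : ∫ t : ℝ, ((2 * (K * ‖GG N (σ + t * Complex.I)‖ ^ 2) +
        64 * (1 + C1) ^ 2 * (1 + |t|) ^ (-(5 / 4) : ℝ)) +
        64 * (C4 ^ 2 * C1 ^ 2) * (1 + |t|) ^ (-(7 / 4) : ℝ)) =
        (∫ t : ℝ, (2 * (K * ‖GG N (σ + t * Complex.I)‖ ^ 2) +
        64 * (1 + C1) ^ 2 * (1 + |t|) ^ (-(5 / 4) : ℝ))) +
        ∫ t : ℝ, 64 * (C4 ^ 2 * C1 ^ 2) * (1 + |t|) ^ (-(7 / 4) : ℝ) := integral_add (h1.add h2) h3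
    have e3 : ∫ t : ℝ, (2 * (K * ‖GG N (σ + t * Complex.I)‖ ^ 2) +
        64 * (1 + C1) ^ 2 * (1 + |t|) ^ (-(5 / 4) : ℝ)) =
        (∫ t : ℝ, 2 * (K * ‖GG N (σ + t * Complex.I)‖ ^ 2)) +
        ∫ t : ℝ, 64 * (1 + C1) ^ 2 * (1 + |t|) ^ (-(5 / 4) : ℝ) := integral_add h1 h2
    rw [e1, e2, e3]
    simp only [integral_const_mul]
    rfl
  -- pointwise bound
  have hpt : ∀ t : ℝ,
      ‖∫ y in Ioi (1:ℝ), (RR N y : ℂ) * (y : ℂ) ^ (-((σ:ℂ) + t * Complex.I) - 1)‖ ^ 2 ≤ g t := by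
    intro t
    set s : ℂ := (σ : ℂ) + t * Complex.I with hs
    have hsre : s.re = σ := by simp [hs]
    rw [hRM N hN s (by rw [hsre]; exact hσ0) (by rw [hsre]; exact hσ1)]
    have hs0 : s ≠ 0 := by
      intro h
      have : s.re = 0 := by rw [h]; simp
      rw [hsre] at this
      linarith
    have hsn : 0 < ‖s‖ := norm_pos_iff.2 hs0
    set X : ℝ := 1 + |t| with hX
    have hX1 : 1 ≤ X := by have := abs_nonneg t; linarith
    have hX0 : 0 < X := by linarith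
    have hinv : (‖s‖ ^ 2)⁻¹ ≤ 32 * X ^ (-2 : ℝ) := by
      have h1 : X ^ 2 / 32 ≤ ‖s‖ ^ 2 := norm_sq_s hσ
      have h2 : 0 < X ^ 2 / 32 := by positivity
      calc (‖s‖ ^ 2)⁻¹ ≤ (X ^ 2 / 32)⁻¹ := inv_anti₀ h2 h1
        _ = 32 * X ^ (-2 : ℝ) := by
          rw [Real.rpow_neg hX0.le]
          norm_num
          field_simp
    -- split
    set P : ℂ := (1 - riemannZeta s * MN N s) / s with hP
    set Q : ℂ := (mm N * (N : ℂ) ^ (1 - s) * riemannZeta s) / s with hQ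
    have hsplit : (1 - riemannZeta s * MN N s + mm N * (N : ℂ) ^ (1 - s) * riemannZeta s) / s = P + Q := by
      rw [hP, hQ, ← add_div]
    rw [hsplit]
    have h2 : ‖P + Q‖ ^ 2 ≤ 2 * ‖P‖ ^ 2 + 2 * ‖Q‖ ^ 2 := by
      have h3 := norm_add_le P Q
      have h4 : ‖P + Q‖ ^ 2 ≤ (‖P‖ + ‖Q‖) ^ 2 := pow_le_pow_left₀ (norm_nonneg _) h3 2
      nlinarith [sq_nonneg (‖P‖ - ‖Q‖)]
    -- bound for Q
    have hQb : ‖Q‖ ^ 2 ≤ 32 * (C4 ^ 2 * C1 ^ 2) * X ^ (-(7 / 4) : ℝ) := by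
      have h5 : ‖(N : ℂ) ^ (1 - s)‖ = (N : ℝ) ^ (1 - σ) := by
        have h6 : ((N : ℂ)) = ((N : ℝ) : ℂ) := by push_cast; rfl
        rw [h6, Complex.norm_cpow_eq_rpow_re_of_pos hN0]
        congr 1
        simp [hsre]
      have h7 : ‖Q‖ ≤ (C4 * (C1 * X ^ (1 / 8 : ℝ))) / ‖s‖ := by
        rw [hQ, norm_div, norm_mul, norm_mul, h5]
        apply div_le_div_of_nonneg_right _ hsn.le
        have h8 : ‖(mm N : ℂ)‖ ≤ C4 * (N : ℝ) ^ (σ - 1) := by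
          rw [Complex.norm_real, Real.norm_eq_abs]
          exact hm N hN
        have h9 : ‖(mm N : ℂ)‖ * (N : ℝ) ^ (1 - σ) ≤ C4 := by
          calc ‖(mm N : ℂ)‖ * (N : ℝ) ^ (1 - σ) ≤ (C4 * (N : ℝ) ^ (σ - 1)) * (N : ℝ) ^ (1 - σ) :=
                mul_le_mul_of_nonneg_right h8 (by positivity)
            _ = C4 := by
                rw [mul_assoc, ← Real.rpow_add hN0]
                have : σ - 1 + (1 - σ) = 0 := by ring
                rw [this, Real.rpow_zero, mul_one]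
        exact mul_le_mul h9 (hz8 t) (norm_nonneg _) hC4.le
      calc ‖Q‖ ^ 2 ≤ ((C4 * (C1 * X ^ (1 / 8 : ℝ))) / ‖s‖) ^ 2 := pow_le_pow_left₀ (norm_nonneg _) h7 2
        _ = (C4 ^ 2 * C1 ^ 2 * X ^ (1 / 4 : ℝ)) * (‖s‖ ^ 2)⁻¹ := by
          have e1 : X ^ (1 / 4 : ℝ) = (X ^ (1 / 8 : ℝ)) ^ 2 := by
            rw [← Real.rpow_natCast, ← Real.rpow_mul hX0.le]
            norm_num
          rw [e1, div_pow, div_eq_mul_inv]
          ring
        _ ≤ (C4 ^ 2 * C1 ^ 2 * X ^ (1 / 4 : ℝ)) * (32 * X ^ (-2 : ℝ)) :=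
          mul_le_mul_of_nonneg_left hinv (by positivity)
        _ = 32 * (C4 ^ 2 * C1 ^ 2) * (X ^ (1 / 4 : ℝ) * X ^ (-2 : ℝ)) := by ring
        _ = 32 * (C4 ^ 2 * C1 ^ 2) * X ^ (-(7 / 4) : ℝ) := by
          rw [← Real.rpow_add hX0]
          norm_num
    -- bound for P
    have hPb : ‖P‖ ^ 2 ≤ K * ‖GG N s‖ ^ 2 + 32 * (1 + C1) ^ 2 * X ^ (-(5 / 4) : ℝ) := by
      rcases le_or_gt |t| ((N : ℝ) ^ 4) with hT | hT
      · have h3 : P = riemannZeta s * GG N s := by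
          have h4 := hTE θ σ hθ hθσ hσ1 hZF N hN t
          rw [← hs] at h4
          rw [hP, h4]
          field_simp
        have h4 : ‖P‖ ^ 2 ≤ K * ‖GG N s‖ ^ 2 := by
          rw [h3, norm_mul, mul_pow]
          apply mul_le_mul_of_nonneg_right _ (by positivity)
          calc ‖riemannZeta s‖ ^ 2 ≤ (C1 * X ^ ε) ^ 2 := pow_le_pow_left₀ (norm_nonneg _) (hz t) 2
            _ = C1 ^ 2 * X ^ (2 * ε) := by
              rw [mul_pow, ← Real.rpow_natCast (X ^ ε), ← Real.rpow_mul hX0.le]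
              congr 2
              push_cast
              ring
            _ ≤ C1 ^ 2 * (1 + (N : ℝ) ^ 4) ^ (2 * ε) := by
              apply mul_le_mul_of_nonneg_left _ (by positivity)
              apply Real.rpow_le_rpow hX0.le _ (by positivity)
              rw [hX]
              linarith
        have h5 : 0 ≤ 32 * (1 + C1) ^ 2 * X ^ (-(5 / 4) : ℝ) := by positivity
        linarith
      · have hNX : (N : ℝ) ≤ X ^ (1 / 4 : ℝ) := by
          have h3 : (N : ℝ) ^ 4 ≤ X := by rw [hX]; linarith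
          calc (N : ℝ) = ((N : ℝ) ^ 4) ^ (1 / 4 : ℝ) := by
                rw [← Real.rpow_natCast, ← Real.rpow_mul hN0.le]
                norm_num
            _ ≤ X ^ (1 / 4 : ℝ) := Real.rpow_le_rpow (by positivity) h3 (by norm_num)
        have h6 : ‖1 - riemannZeta s * MN N s‖ ≤ (1 + C1) * X ^ (3 / 8 : ℝ) := by
          have h7 : ‖riemannZeta s * MN N s‖ ≤ C1 * X ^ (1 / 8 : ℝ) * X ^ (1 / 4 : ℝ) := by
            rw [norm_mul]
            exact mul_le_mul (hz8 t) ((norm_MN_le N s (by rw [hsre]; exact hσ0.le)).trans hNX)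
              (norm_nonneg _) (by positivity)
          have h8 : X ^ (1 / 8 : ℝ) * X ^ (1 / 4 : ℝ) = X ^ (3 / 8 : ℝ) := by
            rw [← Real.rpow_add hX0]
            norm_num
          have h9 : 1 ≤ X ^ (3 / 8 : ℝ) := Real.one_le_rpow hX1 (by norm_num)
          calc ‖1 - riemannZeta s * MN N s‖ ≤ ‖(1 : ℂ)‖ + ‖riemannZeta s * MN N s‖ := norm_sub_le _ _
            _ ≤ 1 + C1 * X ^ (1 / 8 : ℝ) * X ^ (1 / 4 : ℝ) := by
              rw [norm_one]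
              linarith
            _ = 1 + C1 * X ^ (3 / 8 : ℝ) := by rw [mul_assoc, h8]
            _ ≤ (1 + C1) * X ^ (3 / 8 : ℝ) := by nlinarith
        have h10 : ‖P‖ ^ 2 ≤ 32 * (1 + C1) ^ 2 * X ^ (-(5 / 4) : ℝ) := by
          rw [hP, norm_div, div_pow]
          calc ‖1 - riemannZeta s * MN N s‖ ^ 2 / ‖s‖ ^ 2
              ≤ ((1 + C1) * X ^ (3 / 8 : ℝ)) ^ 2 / ‖s‖ ^ 2 := by
                apply div_le_div_of_nonneg_right _ (by positivity)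
                exact pow_le_pow_left₀ (norm_nonneg _) h6 2
            _ = (1 + C1) ^ 2 * X ^ (3 / 4 : ℝ) * (‖s‖ ^ 2)⁻¹ := by
                have e1 : X ^ (3 / 4 : ℝ) = (X ^ (3 / 8 : ℝ)) ^ 2 := by
                  rw [← Real.rpow_natCast, ← Real.rpow_mul hX0.le]
                  norm_num
                rw [e1, div_eq_mul_inv]
                ring
            _ ≤ (1 + C1) ^ 2 * X ^ (3 / 4 : ℝ) * (32 * X ^ (-2 : ℝ)) :=
                mul_le_mul_of_nonneg_left hinv (by positivity)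
            _ = 32 * (1 + C1) ^ 2 * (X ^ (3 / 4 : ℝ) * X ^ (-2 : ℝ)) := by ring
            _ = 32 * (1 + C1) ^ 2 * X ^ (-(5 / 4) : ℝ) := by
                rw [← Real.rpow_add hX0]
                norm_num
        have h11 : 0 ≤ K * ‖GG N s‖ ^ 2 := by positivity
        linarith
    have hgt : g t = 2 * (K * ‖GG N s‖ ^ 2) + 64 * (1 + C1) ^ 2 * X ^ (-(5 / 4) : ℝ) +
      64 * (C4 ^ 2 * C1 ^ 2) * X ^ (-(7 / 4) : ℝ) := rfl
    rw [hgt]
    linarith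
  -- integrate
  have hfin : ∫ t : ℝ, ‖∫ y in Ioi (1:ℝ), (RR N y : ℂ) * (y : ℂ) ^ (-((σ:ℂ) + t * Complex.I) - 1)‖ ^ 2
      ≤ ∫ t, g t :=
    integral_mono_of_nonneg (Eventually.of_forall fun t => by positivity) hgint
      (Eventually.of_forall hpt)
  refine hfin.trans ?_
  rw [hgval]
  have hNδ : 1 ≤ (N : ℝ) ^ δ := Real.one_le_rpow hNr hδ.le
  have hKb : K ≤ C1 ^ 2 * 2 * (N : ℝ) ^ δ := by
    rw [hK, mul_assoc]
    apply mul_le_mul_of_nonneg_left _ (by positivity)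
    have h1 : (1 + (N : ℝ) ^ 4) ≤ 2 * (N : ℝ) ^ 4 := by
      have : (1 : ℝ) ≤ (N : ℝ) ^ 4 := one_le_pow₀ hNr
      linarith
    calc (1 + (N : ℝ) ^ 4) ^ (2 * ε) ≤ (2 * (N : ℝ) ^ 4) ^ (2 * ε) :=
          Real.rpow_le_rpow (by positivity) h1 (by positivity)
      _ = (2 : ℝ) ^ (2 * ε) * ((N : ℝ) ^ 4) ^ (2 * ε) := Real.mul_rpow (by norm_num) (by positivity)
      _ ≤ 2 * (N : ℝ) ^ δ := by
          apply mul_le_mul _ _ (by positivity) (by norm_num)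
          · calc (2 : ℝ) ^ (2 * ε) ≤ (2 : ℝ) ^ (1 : ℝ) :=
                  Real.rpow_le_rpow_of_exponent_le (by norm_num) (by linarith)
              _ = 2 := Real.rpow_one 2
          · rw [← Real.rpow_natCast, ← Real.rpow_mul hN0.le]
            apply Real.rpow_le_rpow_of_exponent_le hNr
            push_cast
            linarith
  have h1 : K * ∫ t : ℝ, ‖GG N (σ + t * Complex.I)‖ ^ 2 ≤ (C1 ^ 2 * 2 * (N : ℝ) ^ δ) * C3 := by
    apply mul_le_mul hKb hGN.2 (integral_nonneg fun t => by positivity) (by positivity)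
  have h2 : 64 * (1 + C1) ^ 2 * I1 ≤ 64 * (1 + C1) ^ 2 * I1 * (N : ℝ) ^ δ :=
    le_mul_of_one_le_right (by positivity) hNδ
  have h3 : 64 * (C4 ^ 2 * C1 ^ 2) * I2 ≤ 64 * (C4 ^ 2 * C1 ^ 2) * I2 * (N : ℝ) ^ δ :=
    le_mul_of_one_le_right (by positivity) hNδ
  have h4 : 0 ≤ (N : ℝ) ^ δ := by positivity
  nlinarith [h1, h2, h3, h4]

end Pool.Agent.H766R2.HatL2
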