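import Mathlib

set_option autoImplicit false

/-!
Illumination of block-symmetric convex bodies: abstract part.
-/

namespace Pool.Agent.H766R2.Illum

open Set

/-- `K` is covered by at most `N` translates of its interior. -/
def CoveredBy {E : Type*} [NormedAddCommGroup E] (K : Set E) (N : ℕ) : Prop :=
  ∃ T : Finset E, T.card ≤ N ∧ K ⊆ ⋃ t ∈ T, (fun x => t + x) '' interior K

section basic

variable {E : Type*} [NormedAddCommGroup E] [NormedSpace ℝ E]

theorem coveredBy_of_illum {K : Set E} (hK : Convex ℝ K) (hc : IsCompact K) (D : Finset E)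
    (h : ∀ x ∈ K, ∃ v ∈ D, ∃ t : ℝ, 0 < t ∧ x + t • v ∈ interior K) : CoveredBy K D.card := by
  classical
  choose! v hv t ht hin using h
  have hU : ∀ x ∈ K, {y : E | y + t x • v x ∈ interior K} ∈ nhds x := by
    intro x hx
    apply IsOpen.mem_nhds
    · exact isOpen_interior.preimage (by fun_prop)
    · exact hin x hx
  obtain ⟨F, hFK, hF⟩ := hc.elim_nhds_subcover _ hU
  obtain ⟨s, hs0, hs⟩ : ∃ s : ℝ, 0 < s ∧ ∀ x ∈ F, s ≤ t x := by
    rcases F.eq_empty_or_nonempty with h | h
    · exact ⟨1, one_pos, by simp [h]⟩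
    · refine ⟨F.inf' h t, ?_, fun x hx => Finset.inf'_le t hx⟩
      rw [Finset.lt_inf'_iff]
      exact fun x hx => ht x (hFK x hx)
  refine ⟨D.image (fun v => -(s • v)), Finset.card_image_le, ?_⟩
  intro y hy
  obtain ⟨x, hxF, hxy⟩ := mem_iUnion₂.1 (hF hy)
  have hxK := hFK x hxF
  have hxy : y + t x • v x ∈ interior K := hxy
  have key : y + s • v x ∈ interior K := by
    have h1 := hK.add_smul_sub_mem_interior hy hxy (t := s / t x)
      ⟨div_pos hs0 (ht x hxK), (div_le_one (ht x hxK)).2 (hs x hxF)⟩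
    have h2 : y + (s / t x) • (y + t x • v x - y) = y + s • v x := by
      rw [add_sub_cancel_left, smul_smul, div_mul_cancel₀ _ (ht x hxK).ne']
    rwa [h2] at h1
  refine mem_iUnion₂.2 ⟨-(s • v x), Finset.mem_image_of_mem _ (hv x hxK), ?_⟩
  exact ⟨y + s • v x, key, by simp⟩

/-- Pointed directions: for every nonzero `y` with norm at most `R` some direction `u ∈ D` points
strictly into the hull `A y`, at a definite rate. -/
def Good {V : Type*} [NormedAddCommGroup V] [NormedSpace ℝ V] (A : V → Set V) (D : Finset V) :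
    Prop :=
  (0 : V) ∉ D ∧ ∀ R : ℝ, ∃ c : ℝ, 0 < c ∧ ∀ y : V, y ≠ 0 → ‖y‖ ≤ R → ∃ u ∈ D, ∃ t0 : ℝ, 0 < t0 ∧
    ∀ t : ℝ, 0 < t → t ≤ t0 → c * t < 1 ∧ ∃ z ∈ A y, y + t • u = (1 - c * t) • z

theorem add_mem_interior_of_shrink {K : Set E} (hK : Convex ℝ K) (h0 : (0 : E) ∈ interior K)
    {z : E} (hz : z ∈ K) {s : ℝ} (hs0 : 0 < s) (hs1 : s ≤ 1) : (1 - s) • z ∈ interior K := by
  have h1 := hK.add_smul_sub_mem_interior hz h0 (t := s) ⟨hs0, hs1⟩
  have h2 : z + s • (0 - z) = (1 - s) • z := by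
    rw [zero_sub, smul_neg, sub_smul, one_smul, sub_eq_add_neg]
  rwa [h2] at h1

theorem exists_move {K : Set E} {x : E} (hx : x ∈ interior K) (v : E) :
    ∃ t : ℝ, 0 < t ∧ x + t • v ∈ interior K := by
  have hcont : Continuous fun t : ℝ => x + t • v := by fun_prop
  have h1 : ∀ᶠ t in nhds (0 : ℝ), x + t • v ∈ interior K := by
    apply hcont.tendsto' 0 x (by simp)
    exact isOpen_interior.mem_nhds hx
  have h2 : ∀ᶠ t in nhdsWithin (0 : ℝ) (Ioi 0), x + t • v ∈ interior K :=
    h1.filter_mono nhdsWithin_le_nhds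
  obtain ⟨t, ht1, ht2⟩ := (h2.and self_mem_nhdsWithin).exists
  exact ⟨t, ht2, ht1⟩

theorem covered_even {K : Set E} (hK : Convex ℝ K) (hc : IsCompact K) (h0 : (0 : E) ∈ interior K)
    {A : E → Set E} {D : Finset E} (hD : Good A D) (hne : D.Nonempty)
    (hA : ∀ x ∈ K, A x ⊆ K) : CoveredBy K D.card := by
  obtain ⟨R, hR⟩ := hc.isBounded.exists_norm_le
  obtain ⟨c, hc0, hgood⟩ := hD.2 R
  apply coveredBy_of_illum hK hc
  intro x hx
  by_cases hxi : x ∈ interior K
  · obtain ⟨v, hv⟩ := hne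
    obtain ⟨t, ht, ht'⟩ := exists_move hxi v
    exact ⟨v, hv, t, ht, ht'⟩
  · have hx0 : x ≠ 0 := by
      rintro rfl; exact hxi h0
    obtain ⟨u, hu, t0, ht0, h⟩ := hgood x hx0 (hR x hx)
    obtain ⟨h1, z, hz, he⟩ := h t0 ht0 le_rfl
    refine ⟨u, hu, t0, ht0, ?_⟩
    rw [he]
    exact add_mem_interior_of_shrink hK h0 (hA x hx hz) (by positivity) h1.le

end basic

section odd

variable {E : Type*} [NormedAddCommGroup E] [NormedSpace ℝ E]

theorem covered_odd {K : Set (ℝ × E)} (hK : Convex ℝ K) (hc : IsCompact K)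
    (h0 : (0 : ℝ × E) ∈ interior K)
    {A : E → Set E} {D : Finset E} (hD : Good A D) 
    (hstar : ∀ y z, z ∈ A y → ∀ a : ℝ, 0 ≤ a → a ≤ 1 → a • z ∈ A y)
    (hself : ∀ y, y ∈ A y)
    (hneg : ∀ s x, (s, x) ∈ K → (-s, x) ∈ K)
    (hA : ∀ s x, (s, x) ∈ K → ∀ z ∈ A x, (s, z) ∈ K) : CoveredBy K (2 * (D.card + 1)) := by
  classical
  obtain ⟨R, hR⟩ := hc.isBounded.exists_norm_le
  have hR0 : 0 ≤ R := (norm_nonneg _).trans (hR 0 (interior_subset h0))
  obtain ⟨c, hc0, hgood⟩ := hD.2 R
  -- a ball in K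
  obtain ⟨r, hr0, hr⟩ := Metric.isOpen_iff.1 isOpen_interior _ h0
  -- the interval property in the first coordinate
  have hint : ∀ s s' x, (s, x) ∈ K → |s'| ≤ |s| → (s', x) ∈ K := by
    intro s s' x hs hs'
    have hs2 := hneg s x hs
    rcases eq_or_ne s 0 with h | h
    · have : s' = 0 := by rw [h] at hs'; simpa using hs'
      rw [this, ← h]; exact hs
    · have hsa : 0 < |s| := abs_pos.2 h
      -- s' = a s + b (-s), a = (1+s'/s)/2
      have hq : |s' / s| ≤ 1 := by rw [abs_div]; exact (div_le_one hsa).2 hs'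
      rw [abs_le] at hq
      have := hK hs hs2 (a := (1 + s'/s)/2) (b := (1 - s'/s)/2) (by linarith) (by linarith)
        (by ring)
      convert this using 1
      ext
      · simp; field_simp; ring
      · simp only [Prod.smul_mk, Prod.mk_add_mk]
        rw [← add_smul]; 
        have : (1 + s' / s) / 2 + (1 - s' / s) / 2 = 1 := by ring
        rw [this, one_smul]
  set lam : ℝ := min (c * r / 2) 1 with hlam
  have hlam0 : 0 < lam := by rw [hlam]; positivity
  set Dt : Finset (ℝ × E) :=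
    (({lam, -lam} : Finset ℝ) ×ˢ D) ∪ (({1, -1} : Finset ℝ) ×ˢ ({0} : Finset E)) with hDt
  have hcard : Dt.card ≤ 2 * (D.card + 1) := by
    refine (Finset.card_union_le _ _).trans ?_
    rw [Finset.card_product, Finset.card_product, Finset.card_singleton]
    have h1 : ({lam, -lam} : Finset ℝ).card ≤ 2 := Finset.card_le_two
    have h2 : ({1, -1} : Finset ℝ).card ≤ 2 := Finset.card_le_two
    nlinarith [h1, h2, Nat.zero_le D.card]
  suffices CoveredBy K Dt.card by
    obtain ⟨T, hT, h⟩ := this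
    exact ⟨T, hT.trans hcard, h⟩
  apply coveredBy_of_illum hK hc
  rintro ⟨s, x⟩ hx
  by_cases hxi : (s, x) ∈ interior K
  · obtain ⟨t, ht, ht'⟩ := exists_move hxi ((1 : ℝ), (0 : E))
    refine ⟨(1, 0), ?_, t, ht, ht'⟩
    rw [hDt]; simp
  have hnorm := hR _ hx
  rcases eq_or_ne x 0 with hx0 | hx0
  · -- x = 0
    have hs : s ≠ 0 := by
      intro h
      apply hxi
      rw [h, hx0]; exact h0
    have hsR : |s| ≤ R := by
      rw [Prod.norm_def] at hnorm
      exact (le_max_left _ _).trans hnorm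
    have hsa : 0 < |s| := abs_pos.2 hs
    rcases lt_or_gt_of_ne hs with hneg' | hpos'
    · refine ⟨(1, 0), by rw [hDt]; simp, |s| / 2, by positivity, ?_⟩
      have e : (s, x) + (|s| / 2) • ((1 : ℝ), (0 : E)) = (1 - 1/2 : ℝ) • (s, x) := by
        rw [hx0]; ext
        · simp [abs_of_neg hneg']; ring
        · simp
      rw [e]
      exact add_mem_interior_of_shrink hK h0 hx (by norm_num) (by norm_num)
    · refine ⟨(-1, 0), by rw [hDt]; simp, |s| / 2, by positivity, ?_⟩
      have e : (s, x) + (|s| / 2) • ((-1 : ℝ), (0 : E)) = (1 - 1/2 : ℝ) • (s, x) := by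
        rw [hx0]; ext
        · simp [abs_of_pos hpos']; ring
        · simp
      rw [e]
      exact add_mem_interior_of_shrink hK h0 hx (by norm_num) (by norm_num)
  · have hxR : ‖x‖ ≤ R := by
      rw [Prod.norm_def] at hnorm
      exact (le_max_right _ _).trans hnorm
    obtain ⟨u, hu, t0, ht0, h⟩ := hgood x hx0 hxR
    rcases eq_or_ne s 0 with hs | hs
    · -- s = 0
      obtain ⟨h1, z, hz, he⟩ := h t0 ht0 le_rfl
      refine ⟨(lam, u), by rw [hDt]; simp [hu], t0, ht0, ?_⟩
      -- (t0 lam, (1 - c t0) z) = (1 - c t0) (0, z) + c t0 (lam / c, 0)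
      have hz' : ((0 : ℝ), z) ∈ K := hs ▸ hA s x hx z hz
      have hb : (lam / c, (0 : E)) ∈ interior K := by
        apply hr
        rw [Metric.mem_ball, dist_zero_right, Prod.norm_def]
        simp only [norm_zero]
        rw [max_eq_left (norm_nonneg _), Real.norm_eq_abs, abs_of_pos (by positivity),
          div_lt_iff₀ hc0]
        calc lam ≤ c * r / 2 := min_le_left _ _
          _ < r * c := by nlinarith
      have h2 := hK.add_smul_sub_mem_interior hz' hb (t := c * t0) ⟨by positivity, h1.le⟩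
      have e : (s, x) + t0 • (lam, u) = ((0 : ℝ), z) + (c * t0) • ((lam / c, (0 : E)) - (0, z)) := by
        ext
        · simp [hs]; field_simp
        · simp only [Prod.smul_mk, Prod.mk_add_mk, Prod.mk_sub_mk, zero_sub]
          rw [he, sub_smul, one_smul, smul_neg, sub_eq_add_neg]
      rw [e]; exact h2
    · -- s ≠ 0
      have hsa : 0 < |s| := abs_pos.2 hs
      -- choose t small
      set t : ℝ := min t0 (|s| / (2 * lam)) with ht
      have htpos : 0 < t := by rw [ht]; positivity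
      have htt0 : t ≤ t0 := min_le_left _ _
      have hts : lam * t ≤ |s| / 2 := by
        have : t ≤ |s| / (2 * lam) := min_le_right _ _
        rw [le_div_iff₀ (by positivity)] at this
        linarith
      obtain ⟨h1, z, hz, he⟩ := h t htpos htt0
      -- ρ = min (c t) (lam t / |s|)
      set ρ : ℝ := min (c * t) (lam * t / |s|) with hρ
      have hρ0 : 0 < ρ := by rw [hρ]; positivity
      have hρ1 : ρ < 1 := (min_le_left _ _).trans_lt h1
      have hρ2 : ρ ≤ lam * t / |s| := min_le_right _ _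
      have hρ3 : ρ ≤ c * t := min_le_left _ _
      have h1ρ : 0 < 1 - ρ := by linarith
      set σ : ℝ := ((SignType.sign s : SignType) : ℝ) with hσ
      have hσs : σ * |s| = s := sign_mul_abs s
      -- the new first coordinate
      have hfirst : |(s - t * lam * σ) / (1 - ρ)| ≤ |s| := by
        have e1 : s - t * lam * σ = σ * (|s| - t * lam) := by
          rw [mul_sub, hσs]; ring
        have e2 : |σ| = 1 := by
          rcases lt_or_gt_of_ne hs with h' | h'
          · rw [hσ, sign_neg h']; simp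
          · rw [hσ, sign_pos h']; simp
        rw [abs_div, e1, abs_mul, e2, one_mul, abs_of_pos h1ρ, div_le_iff₀ h1ρ,
          abs_of_nonneg (by nlinarith)]
        have : ρ * |s| ≤ lam * t := by rwa [le_div_iff₀ hsa] at hρ2
        nlinarith
      have hz2 : ((1 - c * t) / (1 - ρ)) • z ∈ A x := by
        apply hstar x z hz
        · apply div_nonneg <;> linarith
        · rw [div_le_one h1ρ]; linarith
      have hmem : ((s - t * lam * σ) / (1 - ρ), ((1 - c * t) / (1 - ρ)) • z) ∈ K :=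
        hint s _ _ (hA s x hx _ hz2) hfirst
      have hfin := add_mem_interior_of_shrink hK h0 hmem hρ0 hρ1.le
      refine ⟨(-lam * σ, u), ?_, t, htpos, ?_⟩
      · rw [hDt]
        simp only [Finset.mem_union, Finset.mem_product, Finset.mem_insert, Finset.mem_singleton]
        left
        refine ⟨?_, hu⟩
        rcases lt_or_gt_of_ne hs with h' | h'
        · left; rw [hσ, sign_neg h']; simp
        · right; rw [hσ, sign_pos h']; simp
      · convert hfin using 1
        ext
        · simp only [Prod.smul_mk, Prod.mk_add_mk, smul_eq_mul]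
          field_simp; ring
        · simp only [Prod.smul_mk, Prod.mk_add_mk]
          rw [he, smul_smul, mul_div_cancel₀ _ h1ρ.ne']

end odd

section product

variable {ι : Type*} [Fintype ι] [DecidableEq ι] {V : ι → Type*}
  [∀ i, NormedAddCommGroup (V i)] [∀ i, NormedSpace ℝ (V i)]

/-- product of hulls -/
def prodHull (A : ∀ i, V i → Set (V i)) (x : ∀ i, V i) : Set (∀ i, V i) :=
  {z | ∀ i, z i ∈ A i (x i)}

/-- directions for the product -/
noncomputable def prodDir [∀ i, DecidableEq (V i)] (D : ∀ i, Finset (V i)) : Finset (∀ i, V i) :=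
  (Fintype.piFinset fun i => insert 0 (D i)).erase 0

omit [∀ i, NormedSpace ℝ (V i)] in
theorem card_prodDir [∀ i, DecidableEq (V i)] (D : ∀ i, Finset (V i)) {n : ι → ℕ}
    (h : ∀ i, (D i).card ≤ n i) : (prodDir D).card ≤ ∏ i, (n i + 1) - 1 := by
  classical
  unfold prodDir
  rw [Finset.card_erase_of_mem (by simp [Fintype.mem_piFinset]), Fintype.card_piFinset]
  apply Nat.sub_le_sub_right
  apply Finset.prod_le_prod'
  intro i _
  exact (Finset.card_insert_le _ _).trans (Nat.add_le_add_right (h i) 1)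

theorem good_prod [∀ i, DecidableEq (V i)] {A : ∀ i, V i → Set (V i)} {D : ∀ i, Finset (V i)}
    (hD : ∀ i, Good (A i) (D i))
    (hstar : ∀ i y z, z ∈ A i y → ∀ a : ℝ, 0 ≤ a → a ≤ 1 → a • z ∈ A i y)
    (hself : ∀ i y, y ∈ A i y) : Good (prodHull A) (prodDir D) := by
  classical
  refine ⟨by simp [prodDir], ?_⟩
  intro R
  choose c hc0 hgood using fun i => (hD i).2 R
  obtain ⟨C, hC0, hC⟩ : ∃ C : ℝ, 0 < C ∧ ∀ i, C ≤ c i := by
    rcases isEmpty_or_nonempty ι with h | h
    · exact ⟨1, one_pos, fun i => h.elim i⟩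
    · refine ⟨Finset.univ.inf' Finset.univ_nonempty c, ?_, fun i =>
        Finset.inf'_le c (Finset.mem_univ i)⟩
      rw [Finset.lt_inf'_iff]
      exact fun i _ => hc0 i
  refine ⟨C, hC0, ?_⟩
  intro y hy hyR
  have hyi : ∀ i, ‖y i‖ ≤ R := fun i => (norm_le_pi_norm y i).trans hyR
  -- choose directions
  have hex : ∀ i, ∃ u : V i, u ∈ insert 0 (D i) ∧ (y i ≠ 0 → u ≠ 0) ∧ ∃ t0 : ℝ, 0 < t0 ∧
      ∀ t : ℝ, 0 < t → t ≤ t0 → C * t < 1 ∧ ∃ z ∈ A i (y i), y i + t • u = (1 - C * t) • z := by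
    intro i
    rcases eq_or_ne (y i) 0 with h | h
    · refine ⟨0, Finset.mem_insert_self _ _, fun h' => absurd h h', 1 / (2 * C), by positivity,
        ?_⟩
      intro t ht0 ht
      constructor
      · rw [le_div_iff₀ (by positivity)] at ht; linarith
      · refine ⟨0, ?_, by simp [h]⟩
        have := hstar i (y i) (y i) (hself i _) 0 le_rfl zero_le_one
        simpa using this
    · obtain ⟨u, hu, t0, ht0, ht⟩ := hgood i (y i) h (hyi i)
      refine ⟨u, Finset.mem_insert_of_mem hu, fun _ h' => (hD i).1 (h' ▸ hu), t0, ht0, ?_⟩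
      intro t h1 h2
      obtain ⟨h3, z, hz, he⟩ := ht t h1 h2
      have h4 : C * t ≤ c i * t := by nlinarith [hC i]
      refine ⟨by linarith, ((1 - c i * t) / (1 - C * t)) • z, ?_, ?_⟩
      · apply hstar i _ z hz
        · apply div_nonneg <;> linarith
        · rw [div_le_one (by linarith)]; linarith
      · rw [he, smul_smul, mul_div_cancel₀ _ (by linarith)]
  choose u hu hune t0 ht0 ht using hex
  obtain ⟨T, hT0, hT⟩ : ∃ T : ℝ, 0 < T ∧ ∀ i, T ≤ t0 i := by
    rcases isEmpty_or_nonempty ι with h | h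
    · exact ⟨1, one_pos, fun i => h.elim i⟩
    · refine ⟨Finset.univ.inf' Finset.univ_nonempty t0, ?_, fun i =>
        Finset.inf'_le t0 (Finset.mem_univ i)⟩
      rw [Finset.lt_inf'_iff]
      exact fun i _ => ht0 i
  have hne : ∃ i, y i ≠ 0 := by
    by_contra h
    push Not at h
    exact hy (funext h)
  obtain ⟨i0, hi0⟩ := hne
  refine ⟨u, ?_, T, hT0, ?_⟩
  · unfold prodDir
    rw [Finset.mem_erase]
    refine ⟨fun h => hune i0 hi0 (congrFun h i0), ?_⟩
    rw [Fintype.mem_piFinset]; exact hu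
  · intro t h1 h2
    have h3 : ∀ i, C * t < 1 ∧ ∃ z ∈ A i (y i), y i + t • u i = (1 - C * t) • z :=
      fun i => ht i t h1 (h2.trans (hT i))
    refine ⟨(h3 i0).1, ?_⟩
    choose z hz he using fun i => (h3 i).2
    exact ⟨z, hz, funext he⟩

omit [∀ i, NormedSpace ℝ (V i)] in
theorem prodHull_subset {A : ∀ i, V i → Set (V i)} {K : Set (∀ i, V i)}
    (h : ∀ x ∈ K, ∀ i, ∀ z ∈ A i (x i), Function.update x i z ∈ K) :
    ∀ x ∈ K, prodHull A x ⊆ K := by
  classical
  intro x hx z hz
  have key : ∀ s : Finset ι, (fun i => if i ∈ s then z i else x i) ∈ K := by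
    intro s
    induction s using Finset.induction_on with
    | empty => simpa using hx
    | insert a s ha ih =>
      have h1 := h _ ih a (z a) (by simpa [ha] using hz a)
      convert h1 using 1
      ext i
      by_cases hi : i = a
      · subst hi; simp
      · simp [hi]
  have := key Finset.univ
  simpa using this

end product

section binary

variable {V W : Type*} [NormedAddCommGroup V] [NormedSpace ℝ V] [NormedAddCommGroup W]
  [NormedSpace ℝ W]

/-- hull of a pair -/
def pairHull (A : V → Set V) (B : W → Set W) (x : V × W) : Set (V × W) :=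
  {z | z.1 ∈ A x.1 ∧ z.2 ∈ B x.2}

/-- directions for a pair -/
noncomputable def pairDir [DecidableEq V] [DecidableEq W] (D : Finset V) (D' : Finset W) :
    Finset (V × W) :=
  ((insert 0 D) ×ˢ (insert 0 D')).erase 0

omit [NormedSpace ℝ V] [NormedSpace ℝ W] in
theorem card_pairDir [DecidableEq V] [DecidableEq W] (D : Finset V) (D' : Finset W) {a b : ℕ}
    (ha : D.card + 1 ≤ a) (hb : D'.card + 1 ≤ b) : (pairDir D D').card + 1 ≤ a * b := by
  unfold pairDir
  rw [Finset.card_erase_of_mem (by simp), Finset.card_product]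
  have h1 : (insert (0 : V) D).card ≤ a := (Finset.card_insert_le _ _).trans ha
  have h2 : (insert (0 : W) D').card ≤ b := (Finset.card_insert_le _ _).trans hb
  have h3 : 0 < (insert (0 : V) D).card := Finset.card_pos.2 ⟨0, Finset.mem_insert_self _ _⟩
  have h4 : 0 < (insert (0 : W) D').card := Finset.card_pos.2 ⟨0, Finset.mem_insert_self _ _⟩
  have h5 := Nat.mul_pos h3 h4
  have h6 := Nat.mul_le_mul h1 h2
  omega

/-- one block, possibly zero -/
theorem block_ext {A : V → Set V} {D : Finset V} [DecidableEq V] (hD : Good A D)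
    (hstar : ∀ y z, z ∈ A y → ∀ a : ℝ, 0 ≤ a → a ≤ 1 → a • z ∈ A y)
    (hself : ∀ y, y ∈ A y) (R : ℝ) :
    ∃ c : ℝ, 0 < c ∧ ∀ c', 0 < c' → c' ≤ c → ∀ y : V, ‖y‖ ≤ R → ∃ u ∈ insert 0 D,
      (y ≠ 0 → u ≠ 0) ∧ ∃ t0 : ℝ, 0 < t0 ∧
      ∀ t : ℝ, 0 < t → t ≤ t0 → c' * t < 1 ∧ ∃ z ∈ A y, y + t • u = (1 - c' * t) • z := by
  obtain ⟨c, hc0, hgood⟩ := hD.2 R
  refine ⟨c, hc0, fun C hC0 hC y hyR => ?_⟩
  rcases eq_or_ne y 0 with h | h
  · refine ⟨0, Finset.mem_insert_self _ _, fun h' => absurd h h', 1 / (2 * C), by positivity,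
        ?_⟩
    intro t ht0 ht
    constructor
    · rw [le_div_iff₀ (by positivity)] at ht; linarith
    · refine ⟨0, ?_, by simp [h]⟩
      have := hstar y y (hself _) 0 le_rfl zero_le_one
      simpa using this
  · obtain ⟨u, hu, t0, ht0, ht⟩ := hgood y h hyR
    refine ⟨u, Finset.mem_insert_of_mem hu, fun _ h' => hD.1 (h' ▸ hu), t0, ht0, ?_⟩
    intro t h1 h2
    obtain ⟨h3, z, hz, he⟩ := ht t h1 h2
    have h4 : C * t ≤ c * t := by nlinarith
    refine ⟨by linarith, ((1 - c * t) / (1 - C * t)) • z, ?_, ?_⟩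
    · apply hstar _ z hz
      · apply div_nonneg <;> linarith
      · rw [div_le_one (by linarith)]; linarith
    · rw [he, smul_smul, mul_div_cancel₀ _ (by linarith)]

theorem good_pair [DecidableEq V] [DecidableEq W] {A : V → Set V} {B : W → Set W}
    {D : Finset V} {D' : Finset W} (hD : Good A D) (hD' : Good B D')
    (hstar : ∀ y z, z ∈ A y → ∀ a : ℝ, 0 ≤ a → a ≤ 1 → a • z ∈ A y) (hself : ∀ y, y ∈ A y)
    (hstar' : ∀ y z, z ∈ B y → ∀ a : ℝ, 0 ≤ a → a ≤ 1 → a • z ∈ B y) (hself' : ∀ y, y ∈ B y) :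
    Good (pairHull A B) (pairDir D D') := by
  refine ⟨by simp [pairDir], ?_⟩
  intro R
  obtain ⟨c1, hc1, h1⟩ := block_ext hD hstar hself R
  obtain ⟨c2, hc2, h2⟩ := block_ext hD' hstar' hself' R
  refine ⟨min c1 c2, lt_min hc1 hc2, ?_⟩
  rintro ⟨y, y'⟩ hy hyR
  have hyR1 : ‖y‖ ≤ R := (norm_fst_le (y, y')).trans hyR
  have hyR2 : ‖y'‖ ≤ R := (norm_snd_le (y, y')).trans hyR
  obtain ⟨u, hu, hu0, t1, ht1, k1⟩ := h1 _ (lt_min hc1 hc2) (min_le_left _ _) y hyR1
  obtain ⟨u', hu', hu0', t2, ht2, k2⟩ := h2 _ (lt_min hc1 hc2) (min_le_right _ _) y' hyR2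
  refine ⟨(u, u'), ?_, min t1 t2, lt_min ht1 ht2, ?_⟩
  · unfold pairDir
    rw [Finset.mem_erase, Finset.mem_product]
    refine ⟨?_, hu, hu'⟩
    intro h
    rw [Prod.mk_eq_zero] at h
    apply hy
    rw [Prod.mk_eq_zero]
    constructor
    · by_contra hne; exact hu0 hne h.1
    · by_contra hne; exact hu0' hne h.2
  · intro t ha hb
    obtain ⟨h3, z, hz, he⟩ := k1 t ha (hb.trans (min_le_left _ _))
    obtain ⟨_, z', hz', he'⟩ := k2 t ha (hb.trans (min_le_right _ _))
    refine ⟨h3, (z, z'), ⟨hz, hz'⟩, ?_⟩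
    ext1
    · exact he
    · exact he'

end binary

section transfer

variable {E F : Type*} [NormedAddCommGroup E] [NormedSpace ℝ E] [NormedAddCommGroup F]
  [NormedSpace ℝ F]

theorem coveredBy_transfer (L : E ≃L[ℝ] F) {K : Set E} {N : ℕ} (h : CoveredBy (L '' K) N) :
    CoveredBy K N := by
  classical
  obtain ⟨T, hT, hK⟩ := h
  refine ⟨T.image L.symm, Finset.card_image_le.trans hT, ?_⟩
  intro x hx
  obtain ⟨t, ht, y, hy, he⟩ := mem_iUnion₂.1 (hK (mem_image_of_mem L hx))
  have hint : interior (L '' K) = L '' interior K := (L.toHomeomorph.image_interior K).symm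
  rw [hint] at hy
  obtain ⟨w, hw, rfl⟩ := hy
  refine mem_iUnion₂.2 ⟨L.symm t, Finset.mem_image_of_mem _ ht, w, hw, ?_⟩
  apply L.injective
  have he : t + L w = L x := he
  show L (L.symm t + w) = L x
  rw [map_add, L.apply_symm_apply, he]

end transfer

end Pool.Agent.H766R2.Illum
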