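import Mathlib

/-! Second moment method for finitely many events; elementary sums. -/

set_option autoImplicit false

namespace H766SM

open Finset MeasureTheory

theorem step_pow (d : ℕ) (hd : 1 ≤ d) :
    ((d:ℝ)) ^ (-(19/20) : ℝ) ≤ 20 * ((d:ℝ) ^ (1/20 : ℝ) - ((d:ℝ) - 1) ^ (1/20 : ℝ)) := by
  have hd0 : (0:ℝ) < d := by exact_mod_cast hd
  have hd1 : (1:ℝ) ≤ d := by exact_mod_cast hd
  have h1 := rpow_one_add_le_one_add_mul_self (s := -(1/(d:ℝ)))
    (by rw [neg_le_neg_iff, div_le_one hd0]; exact hd1) (p := 1/20) (by norm_num) (by norm_num)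
  have h2 : (d:ℝ) - 1 = d * (1 + -(1/(d:ℝ))) := by field_simp; ring
  have h3 : 0 ≤ 1 + -(1/(d:ℝ)) := by
    have : 1/(d:ℝ) ≤ 1 := by rw [div_le_one hd0]; exact hd1
    linarith
  have h4 : ((d:ℝ) - 1) ^ (1/20 : ℝ) ≤ (d:ℝ) ^ (1/20 : ℝ) * (1 + 1/20 * -(1/(d:ℝ))) := by
    rw [h2, Real.mul_rpow hd0.le h3]
    exact mul_le_mul_of_nonneg_left h1 (by positivity)
  have h5 : (d:ℝ) ^ (-(19/20) : ℝ) = (d:ℝ) ^ (1/20 : ℝ) * (1/(d:ℝ)) := by
    rw [show (-(19/20) : ℝ) = 1/20 + (-1) by norm_num, Real.rpow_add hd0, Real.rpow_neg_one,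
      one_div (d:ℝ)]
  rw [h5]
  nlinarith [h4]

theorem sum_pow (N : ℕ) :
    ∑ d ∈ Icc 1 N, ((d:ℝ)) ^ (-(19/20) : ℝ) ≤ 20 * (N:ℝ) ^ (1/20 : ℝ) := by
  induction N with
  | zero => simp [Real.zero_rpow]
  | succ N ih =>
    rw [Finset.sum_Icc_succ_top (by omega)]
    have h := step_pow (N+1) (by omega)
    have e : (((N+1 : ℕ) : ℝ) - 1) = N := by push_cast; ring
    rw [e] at h
    linarith

theorem pair_sum (N : ℕ) (f : ℕ → ℕ → ℝ) (G : ℕ → ℝ) (p : ℝ) (hG : ∀ d, 0 ≤ G d)
    (h0 : ∀ i < N, f i i ≤ p)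
    (h1 : ∀ i j, i < j → j < N → f i j ≤ G (j - i) ∧ f j i ≤ G (j - i)) :
    ∑ i ∈ range N, ∑ j ∈ range N, f i j ≤ N * p + 2 * N * ∑ d ∈ Icc 1 N, G d := by
  have key : ∀ i ∈ range N, ∑ j ∈ range N, f i j ≤ p + 2 * ∑ d ∈ Icc 1 N, G d := by
    intro i hi
    have hi' := Finset.mem_range.1 hi
    have hb : ∀ j ∈ range N, f i j ≤ (if j = i then p else 0) +
        ∑ d ∈ Icc 1 N, G d * ((if j + d = i then 1 else 0) + (if j = i + d then 1 else 0)) := by
      intro j hj
      have hj' := Finset.mem_range.1 hj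
      have hnn : ∀ d ∈ Icc 1 N,
          0 ≤ G d * ((if j + d = i then (1:ℝ) else 0) + (if j = i + d then 1 else 0)) := by
        intro d _
        refine mul_nonneg (hG d) ?_
        split_ifs <;> norm_num
      rcases lt_trichotomy i j with h | h | h
      · rw [if_neg (by omega), zero_add]
        refine (h1 i j h hj').1.trans ?_
        have := Finset.single_le_sum hnn (a := j - i) (by rw [Finset.mem_Icc]; omega)
        refine le_trans ?_ this
        rw [if_neg (by omega), if_pos (by omega)]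
        simp
      · subst h
        rw [if_pos rfl]
        have := Finset.sum_nonneg hnn
        linarith [h0 i hi']
      · rw [if_neg (by omega), zero_add]
        refine (h1 j i h hi').2.trans ?_
        have := Finset.single_le_sum hnn (a := i - j) (by rw [Finset.mem_Icc]; omega)
        refine le_trans ?_ this
        rw [if_pos (by omega), if_neg (by omega)]
        simp
    refine (Finset.sum_le_sum hb).trans ?_
    rw [Finset.sum_add_distrib, Finset.sum_ite_eq' (range N) i, if_pos hi, Finset.sum_comm]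
    refine add_le_add le_rfl ?_
    rw [Finset.mul_sum]
    refine Finset.sum_le_sum fun d _ => ?_
    rw [← Finset.mul_sum, Finset.sum_add_distrib]
    have e1 : ∑ j ∈ range N, (if j + d = i then (1:ℝ) else 0) ≤ 1 := by
      by_cases hd : d ≤ i
      · have : ∀ j ∈ range N, (if j + d = i then (1:ℝ) else 0) = if j = i - d then 1 else 0 := by
          intro j _
          by_cases h : j + d = i
          · rw [if_pos h, if_pos (by omega)]
          · rw [if_neg h, if_neg (by omega)]
        rw [Finset.sum_congr rfl this, Finset.sum_ite_eq']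
        split_ifs <;> norm_num
      · rw [Finset.sum_eq_zero (fun j _ => by rw [if_neg (by omega)])]
        norm_num
    have e2 : ∑ j ∈ range N, (if j = i + d then (1:ℝ) else 0) ≤ 1 := by
      rw [Finset.sum_ite_eq']
      split_ifs <;> norm_num
    have := hG d
    nlinarith
  refine (Finset.sum_le_sum key).trans ?_
  rw [Finset.sum_const, Finset.card_range, nsmul_eq_mul]
  have : (0:ℝ) ≤ N := Nat.cast_nonneg _
  linarith

theorem second_moment {Ω : Type*} [MeasurableSpace Ω] (μ : Measure Ω) [IsProbabilityMeasure μ]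
    (N : ℕ) (E : ℕ → Set Ω) (hE : ∀ i, MeasurableSet (E i)) (A B : ℝ)
    (hA : ∑ i ∈ range N, μ.real (E i) = A)
    (hB : ∑ i ∈ range N, ∑ j ∈ range N, μ.real (E i ∩ E j) ≤ B) (hBp : 0 < B) :
    A^2 / B ≤ μ.real {w | ∃ i, i < N ∧ w ∈ E i} := by
  classical
  set U : Set Ω := {w | ∃ i, i < N ∧ w ∈ E i} with hU
  have hUm : MeasurableSet U := by
    have : U = ⋃ i ∈ Set.Iio N, E i := by
      ext w
      simp [hU]
    rw [this]
    exact MeasurableSet.biUnion (Set.to_countable _) (fun i _ => hE i)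
  set s : ℝ := A / B with hs
  have hpt : ∀ w, 2 * s * (∑ i ∈ range N, (E i).indicator (fun _ => (1:ℝ)) w) -
      s^2 * (∑ i ∈ range N, ∑ j ∈ range N, (E i ∩ E j).indicator (fun _ => (1:ℝ)) w) ≤
      U.indicator (fun _ => (1:ℝ)) w := by
    intro w
    set X := ∑ i ∈ range N, (E i).indicator (fun _ => (1:ℝ)) w with hX
    have h2 : ∑ i ∈ range N, ∑ j ∈ range N, (E i ∩ E j).indicator (fun _ => (1:ℝ)) w = X^2 := by
      rw [hX, sq, Finset.sum_mul_sum]
      refine Finset.sum_congr rfl fun i _ => Finset.sum_congr rfl fun j _ => ?_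
      by_cases h1 : w ∈ E i <;> by_cases h2 : w ∈ E j <;>
        simp [h1, h2]
    rw [h2]
    by_cases hw : w ∈ U
    · rw [Set.indicator_of_mem hw]
      nlinarith [sq_nonneg (1 - s * X)]
    · have hX0 : X = 0 := by
        rw [hX]
        refine Finset.sum_eq_zero fun i hi => ?_
        rw [Set.indicator_of_notMem]
        intro h
        exact hw ⟨i, Finset.mem_range.1 hi, h⟩
      rw [hX0, Set.indicator_of_notMem hw]
      simp
  have hint1 : ∀ S : Set Ω, MeasurableSet S → Integrable (S.indicator (fun _ => (1:ℝ))) μ :=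
    fun S hS => (integrable_const (1:ℝ)).indicator hS
  have hval : ∀ S : Set Ω, MeasurableSet S → ∫ w, S.indicator (fun _ => (1:ℝ)) w ∂μ = μ.real S := by
    intro S hS
    rw [integral_indicator hS]
    simp
  have hI1 : Integrable (fun w => 2 * s * (∑ i ∈ range N, (E i).indicator (fun _ => (1:ℝ)) w)) μ :=
    (integrable_finsetSum _ fun i _ => hint1 _ (hE i)).const_mul _
  have hI2 : Integrable (fun w => s^2 * (∑ i ∈ range N, ∑ j ∈ range N,
      (E i ∩ E j).indicator (fun _ => (1:ℝ)) w)) μ :=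
    (integrable_finsetSum _ fun i _ => integrable_finsetSum _ fun j _ =>
      hint1 _ ((hE i).inter (hE j))).const_mul _
  have h3 := integral_mono (hI1.sub hI2) (hint1 U hUm) hpt
  have h4 : ∫ w, (fun w => 2 * s * (∑ i ∈ range N, (E i).indicator (fun _ => (1:ℝ)) w)) w -
      (fun w => s^2 * (∑ i ∈ range N, ∑ j ∈ range N,
      (E i ∩ E j).indicator (fun _ => (1:ℝ)) w)) w ∂μ =
      2 * s * A - s^2 * (∑ i ∈ range N, ∑ j ∈ range N, μ.real (E i ∩ E j)) := by
    rw [integral_sub hI1 hI2]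
    simp only [integral_const_mul]
    rw [integral_finsetSum _ (fun i _ => hint1 _ (hE i)),
      integral_finsetSum _ (fun i _ => integrable_finsetSum _ fun j _ =>
        hint1 _ ((hE i).inter (hE j)))]
    congr 2
    · rw [← hA]
      exact Finset.sum_congr rfl fun i _ => hval _ (hE i)
    · refine Finset.sum_congr rfl fun i _ => ?_
      rw [integral_finsetSum _ (fun j _ => hint1 _ ((hE i).inter (hE j)))]
      exact Finset.sum_congr rfl fun j _ => hval _ ((hE i).inter (hE j))
  rw [hval U hUm] at h3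
  have h5 : 2 * s * A - s^2 * (∑ i ∈ range N, ∑ j ∈ range N, μ.real (E i ∩ E j)) ≤ μ.real U := by
    rw [← h4]; exact h3
  have h6 : s^2 * (∑ i ∈ range N, ∑ j ∈ range N, μ.real (E i ∩ E j)) ≤ s^2 * B :=
    mul_le_mul_of_nonneg_left hB (sq_nonneg s)
  have h7 : 2 * s * A - s^2 * B = A^2 / B := by
    rw [hs]; field_simp; ring
  linarith

end H766SM
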