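import Mathlib

/-!
# Rolle's theorem with multiplicities on `(0,1)`, and a Chebyshev system
-/

open Finset Polynomial

namespace Pool.Agent.H766R2.Berg

/-- number of roots in `(0,1)` counted with multiplicity -/
noncomputable def M (p : ℝ[X]) : ℕ := Multiset.card (p.roots.filter (fun x => 0 < x ∧ x < 1))

lemma M_eq_sum (p : ℝ[X]) : M p = ∑ x ∈ p.roots.toFinset.filter (fun x => 0 < x ∧ x < 1), p.rootMultiplicity x := by
  unfold M
  rw [← Multiset.toFinset_sum_count_eq, Multiset.toFinset_filter]
  refine sum_congr rfl fun x hx => ?_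
  rw [Multiset.count_filter, if_pos (mem_filter.mp hx).2, count_roots]

lemma M_mul {p q : ℝ[X]} (h : p * q ≠ 0) : M (p * q) = M p + M q := by
  unfold M
  rw [roots_mul h, Multiset.filter_add, Multiset.card_add]

lemma M_eq_zero_iff {p : ℝ[X]} (hp : p ≠ 0) : M p = 0 ↔ ∀ x, 0 < x → x < 1 → p.eval x ≠ 0 := by
  unfold M
  rw [Multiset.card_eq_zero, Multiset.filter_eq_nil]
  constructor
  · intro h x h0 h1 h2
    exact h x ((mem_roots hp).mpr h2) ⟨h0, h1⟩
  · intro h x hx hx2
    exact h x hx2.1 hx2.2 ((mem_roots hp).mp hx)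

/-- Rolle with multiplicities -/
lemma rolle (p : ℝ[X]) (hp' : derivative p ≠ 0) :
    M p + (if p.eval 0 = 0 then 1 else 0) + (if p.eval 1 = 0 then 1 else 0) ≤ M (derivative p) + 1 := by
  have hp : p ≠ 0 := by rintro rfl; simp at hp'
  set S := p.roots.toFinset.filter (fun x => 0 ≤ x ∧ x ≤ 1) with hS
  set So := p.roots.toFinset.filter (fun x => 0 < x ∧ x < 1) with hSo
  set T := (derivative p).roots.toFinset.filter (fun x => 0 < x ∧ x < 1) with hT
  have hmemS : ∀ x, x ∈ S ↔ p.eval x = 0 ∧ 0 ≤ x ∧ x ≤ 1 := by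
    intro x; rw [hS, mem_filter, Multiset.mem_toFinset, mem_roots hp, IsRoot.def]
  have hmemSo : ∀ x, x ∈ So ↔ p.eval x = 0 ∧ 0 < x ∧ x < 1 := by
    intro x; rw [hSo, mem_filter, Multiset.mem_toFinset, mem_roots hp, IsRoot.def]
  have hmemT : ∀ x, x ∈ T ↔ (derivative p).eval x = 0 ∧ 0 < x ∧ x < 1 := by
    intro x; rw [hT, mem_filter, Multiset.mem_toFinset, mem_roots hp', IsRoot.def]
  have h1 : S.card ≤ (T \ S).card + 1 := by
    apply card_le_sdiff_of_interleaved
    intro x hx y hy hxy _
    rw [hmemS] at hx hy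
    obtain ⟨z, hz1, hz2⟩ := exists_deriv_eq_zero hxy p.continuousOn (by rw [hx.1, hy.1])
    refine ⟨z, ?_, hz1.1, hz1.2⟩
    rw [hmemT]
    rw [Polynomial.deriv] at hz2
    exact ⟨hz2, lt_of_le_of_lt hx.2.1 hz1.1, lt_of_lt_of_le hz1.2 hy.2.2⟩
  have h2 : S.card = So.card + (if p.eval 0 = 0 then 1 else 0) + (if p.eval 1 = 0 then 1 else 0) := by
    have e0 : (S.filter (fun x => x = 0)).card = if p.eval 0 = 0 then 1 else 0 := by
      split_ifs with h
      · rw [card_eq_one]
        refine ⟨0, ?_⟩
        ext x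
        simp only [mem_filter, mem_singleton, hmemS]
        constructor
        · rintro ⟨_, rfl⟩; rfl
        · rintro rfl; exact ⟨⟨h, le_rfl, zero_le_one⟩, rfl⟩
      · rw [card_eq_zero]
        ext x
        simp only [mem_filter, hmemS, Finset.notMem_empty, iff_false]
        rintro ⟨hx, rfl⟩
        exact h hx.1
    have e1 : (S.filter (fun x => x = 1)).card = if p.eval 1 = 0 then 1 else 0 := by
      split_ifs with h
      · rw [card_eq_one]
        refine ⟨1, ?_⟩
        ext x
        simp only [mem_filter, mem_singleton, hmemS]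
        constructor
        · rintro ⟨_, rfl⟩; rfl
        · rintro rfl; exact ⟨⟨h, zero_le_one, le_rfl⟩, rfl⟩
      · rw [card_eq_zero]
        ext x
        simp only [mem_filter, hmemS, Finset.notMem_empty, iff_false]
        rintro ⟨hx, rfl⟩
        exact h hx.1
    have e2 : S = So ∪ S.filter (fun x => x = 0) ∪ S.filter (fun x => x = 1) := by
      ext x
      simp only [mem_union, mem_filter, hmemS, hmemSo]
      constructor
      · rintro ⟨h, h0, h1⟩
        rcases eq_or_lt_of_le h0 with h0 | h0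
        · exact Or.inl (Or.inr ⟨⟨h, by linarith, h1⟩, h0.symm⟩)
        · rcases eq_or_lt_of_le h1 with h1 | h1
          · exact Or.inr ⟨⟨h, h0.le, h1.le⟩, h1⟩
          · exact Or.inl (Or.inl ⟨h, h0, h1⟩)
      · rintro ((⟨h, h0, h1⟩ | ⟨h, _⟩) | ⟨h, _⟩)
        · exact ⟨h, h0.le, h1.le⟩
        · exact h
        · exact h
    have d1 : Disjoint So (S.filter (fun x => x = 0)) := by
      rw [Finset.disjoint_left]
      intro x hx hx2
      rw [hmemSo] at hx
      rw [mem_filter] at hx2
      linarith [hx.2.1, hx2.2]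
    have d2 : Disjoint (So ∪ S.filter (fun x => x = 0)) (S.filter (fun x => x = 1)) := by
      rw [Finset.disjoint_left]
      intro x hx hx2
      rw [mem_filter] at hx2
      rw [mem_union, hmemSo, mem_filter] at hx
      rcases hx with hx | hx
      · linarith [hx.2.2, hx2.2]
      · linarith [hx.2, hx2.2]
    calc S.card = (So ∪ S.filter (fun x => x = 0) ∪ S.filter (fun x => x = 1)).card := by rw [← e2]
      _ = _ := by rw [card_union_of_disjoint d2, card_union_of_disjoint d1, e0, e1]
  have h3 : M p = ∑ x ∈ So, (p.rootMultiplicity x - 1) + So.card := by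
    rw [M_eq_sum, ← hSo, card_eq_sum_ones, ← sum_add_distrib]
    refine sum_congr rfl fun x hx => ?_
    have : 0 < p.rootMultiplicity x := (rootMultiplicity_pos hp).mpr ((hmemSo x).mp hx).1
    omega
  have h4 : ∑ x ∈ So, (p.rootMultiplicity x - 1) + (T \ S).card ≤ M (derivative p) := by
    rw [M_eq_sum, ← hT]
    have e1 : ∑ x ∈ So, (p.rootMultiplicity x - 1) ≤ ∑ x ∈ T ∩ S, (derivative p).rootMultiplicity x := by
      have e2 : ∀ x ∈ So, p.rootMultiplicity x - 1 = (derivative p).rootMultiplicity x := by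
        intro x hx
        rw [derivative_rootMultiplicity_of_root ((hmemSo x).mp hx).1]
      rw [sum_congr rfl e2]
      rw [← sum_filter_ne_zero (s := So)]
      apply sum_le_sum_of_subset
      intro x hx
      rw [mem_filter] at hx
      rw [mem_inter, hmemT, hmemS]
      have hx1 := (hmemSo x).mp hx.1
      refine ⟨⟨?_, hx1.2⟩, hx1.1, hx1.2.1.le, hx1.2.2.le⟩
      exact (rootMultiplicity_pos hp').mp (Nat.pos_of_ne_zero hx.2)
    have e3 : (T \ S).card ≤ ∑ x ∈ T \ S, (derivative p).rootMultiplicity x := by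
      rw [card_eq_sum_ones]
      apply sum_le_sum
      intro x hx
      exact (rootMultiplicity_pos hp').mpr ((hmemT x).mp (mem_sdiff.mp hx).1).1
    have e4 : ∑ x ∈ T \ S, (derivative p).rootMultiplicity x + ∑ x ∈ T ∩ S, (derivative p).rootMultiplicity x
        = ∑ x ∈ T, (derivative p).rootMultiplicity x := by
      rw [add_comm]
      exact sum_inter_add_sum_sdiff T S _
    omega
  omega

/-- iterated Rolle -/
lemma rolle_iter (p : ℝ[X]) (n : ℕ) (hp : derivative^[n] p ≠ 0) :
    M p + ∑ s ∈ range n, ((if (derivative^[s] p).eval 0 = 0 then 1 else 0) +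
      (if (derivative^[s] p).eval 1 = 0 then 1 else 0)) ≤ M (derivative^[n] p) + n := by
  induction n with
  | zero => simp
  | succ n ih =>
    have h1 : derivative^[n] p ≠ 0 := by
      intro h
      apply hp
      rw [Function.iterate_succ_apply', h, derivative_zero]
    have h2 := ih h1
    rw [Function.iterate_succ_apply'] at hp ⊢
    have h3 := rolle (derivative^[n] p) hp
    rw [sum_range_succ]
    omega

/-- the coefficientwise imaginary part of a complex polynomial -/
noncomputable def imP (H : ℂ[X]) : ℝ[X] := ∑ i ∈ range (H.natDegree + 1), C (H.coeff i).im * X ^ i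

lemma imP_coeff (H : ℂ[X]) (i : ℕ) : (imP H).coeff i = (H.coeff i).im := by
  unfold imP
  rw [finsetSum_coeff]
  simp only [coeff_C_mul, coeff_X_pow]
  by_cases hi : i < H.natDegree + 1
  · rw [sum_eq_single_of_mem i (by simpa using hi)]
    · simp
    · intro b _ hb
      rw [if_neg (Ne.symm hb), mul_zero]
  · rw [coeff_eq_zero_of_natDegree_lt (p := H) (by omega)]
    apply sum_eq_zero
    intro b hb
    have : b < H.natDegree + 1 := by simpa using hb
    rw [if_neg (by omega), mul_zero]

lemma imP_eval (H : ℂ[X]) (y : ℝ) : (imP H).eval y = (H.eval (y : ℂ)).im := by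
  unfold imP
  rw [eval_finsetSum, eval_eq_sum_range, Complex.im_sum]
  refine sum_congr rfl fun i _ => ?_
  simp only [eval_mul, eval_C, eval_pow, eval_X]
  rw [← Complex.ofReal_pow, mul_comm (H.coeff i), Complex.im_ofReal_mul, mul_comm]

lemma imP_derivative (H : ℂ[X]) : derivative (imP H) = imP (derivative H) := by
  ext i
  rw [coeff_derivative, imP_coeff, imP_coeff, coeff_derivative]
  have : ((i : ℂ) + 1) = ((i + 1 : ℝ) : ℂ) := by push_cast; ring
  rw [this, mul_comm (H.coeff (i + 1)), Complex.im_ofReal_mul]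
  ring

/-- The functions `y ↦ Im (ω^s G(1 + ω y))` as real polynomials -/
noncomputable def Fn (ω : ℂ) (s : ℕ) (G : ℝ[X]) : ℝ[X] :=
  imP (C (ω ^ s) * (G.map (algebraMap ℝ ℂ)).comp (1 + C ω * X))

lemma Fn_eval (ω : ℂ) (s : ℕ) (G : ℝ[X]) (y : ℝ) :
    (Fn ω s G).eval y = (ω ^ s * (G.map (algebraMap ℝ ℂ)).eval (1 + ω * y)).im := by
  unfold Fn
  rw [imP_eval]
  simp [eval_comp]

lemma Fn_derivative (ω : ℂ) (s : ℕ) (G : ℝ[X]) : derivative (Fn ω s G) = Fn ω (s + 1) (derivative G) := by
  unfold Fn
  rw [imP_derivative]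
  congr 1
  rw [derivative_C_mul, derivative_comp]
  simp [pow_succ, derivative_map]
  ring

lemma Fn_iterate (ω : ℂ) (n s : ℕ) (G : ℝ[X]) :
    derivative^[n] (Fn ω s G) = Fn ω (s + n) (derivative^[n] G) := by
  induction n generalizing s G with
  | zero => simp
  | succ n ih =>
    rw [Function.iterate_succ_apply, Fn_derivative, ih, ← Function.iterate_succ_apply]
    congr 1
    omega

/-- `G` has only exponents congruent to its degree modulo `N`. -/
def Homog (N : ℕ) (G : ℝ[X]) : Prop := ∀ i, G.coeff i ≠ 0 → i % N = G.natDegree % N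

/-- numerical data of the polygon: `N = 3` or `N = 4` -/
structure Data (N : ℕ) (ω : ℂ) : Prop where
  hN : 0 < N
  ωN : ω ^ N = 1
  B2 : ∃ ρ : ℝ, ρ ≠ 0 ∧ (1 + ω) ^ 2 = ρ * ω
  BN : ∃ β : ℝ, (1 + ω) ^ N = β
  pos : ∀ D : ℕ, 1 ≤ D → D ≤ N → ∀ y : ℝ, 0 < y → y < 1 → 0 < ((1 + ω * y) ^ D).im
  e0 : ∀ G : ℝ[X], N ≤ (∑ s ∈ range N, if (Fn ω s (derivative^[s] G)).eval 0 = 0 then 1 else 0) + 2

lemma eval_real_of_homog {N : ℕ} {ω : ℂ} (h : Data N ω) (G : ℝ[X]) (s : ℕ)
    (hG : ∀ i, G.coeff i ≠ 0 → (i + 2 * s) % N = 0) :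
    (ω ^ s * (G.map (algebraMap ℝ ℂ)).eval (1 + ω)).im = 0 := by
  obtain ⟨ρ, hρ, hB2⟩ := h.B2
  obtain ⟨β, hBN⟩ := h.BN
  rw [eval_eq_sum_range, mul_sum, Complex.im_sum]
  apply sum_eq_zero
  intro i _
  rw [coeff_map]
  by_cases hi : G.coeff i = 0
  · rw [hi]; simp
  · have h1 := hG i hi
    obtain ⟨t, ht⟩ := Nat.dvd_of_mod_eq_zero h1
    -- (1+ω)^(i+2s) = β^t and (1+ω)^(2s) = ρ^s ω^s
    have h2 : ω ^ s * (1 + ω) ^ i = ((β ^ t / ρ ^ s : ℝ) : ℂ) := by
      have hρ' : (ρ : ℂ) ≠ 0 := by exact_mod_cast hρ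
      push_cast
      rw [eq_div_iff (pow_ne_zero s hρ')]
      calc ω ^ s * (1 + ω) ^ i * (ρ : ℂ) ^ s = (1 + ω) ^ i * ((ρ : ℂ) * ω) ^ s := by rw [mul_pow]; ring
        _ = (1 + ω) ^ i * ((1 + ω) ^ 2) ^ s := by rw [hB2]
        _ = (1 + ω) ^ (i + 2 * s) := by rw [← pow_mul, ← pow_add]
        _ = ((1 + ω) ^ N) ^ t := by rw [ht, pow_mul]
        _ = (β : ℂ) ^ t := by rw [hBN]
    have h3 : ω ^ s * ((algebraMap ℝ ℂ) (G.coeff i) * (1 + ω) ^ i) = ((G.coeff i * (β ^ t / ρ ^ s) : ℝ) : ℂ) := by
      rw [Complex.ofReal_mul, ← h2]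
      simp only [Complex.coe_algebraMap]
      ring
    rw [h3, Complex.ofReal_im]

lemma homog_iterate {N : ℕ} (G : ℝ[X]) (hG : Homog N G) (hD : N < G.natDegree) :
    Homog N (derivative^[N] G) ∧ (derivative^[N] G).natDegree = G.natDegree - N := by
  have h1 : (derivative^[N] G).natDegree = G.natDegree - N := by
    apply le_antisymm (natDegree_iterate_derivative G N)
    apply le_natDegree_of_ne_zero
    rw [coeff_iterate_derivative, Nat.sub_add_cancel hD.le, coeff_natDegree, nsmul_eq_mul]
    apply mul_ne_zero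
    · have : 0 < G.natDegree.descFactorial N := Nat.descFactorial_pos.mpr hD.le
      exact_mod_cast this.ne'
    · have : G ≠ 0 := by rintro rfl; simp at hD
      exact leadingCoeff_ne_zero.mpr this
  refine ⟨?_, h1⟩
  intro i hi
  rw [coeff_iterate_derivative] at hi
  have h2 : G.coeff (i + N) ≠ 0 := by
    intro h; rw [h] at hi; simp at hi
  have h3 := hG (i + N) h2
  rw [h1]
  rw [Nat.add_mod_right] at h3
  rw [h3]
  conv_lhs => rw [← Nat.sub_add_cancel hD.le, Nat.add_mod_right]

/-- **The Chebyshev property.** -/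
theorem cheb {N : ℕ} {ω : ℂ} (h : Data N ω) : ∀ D : ℕ, 1 ≤ D → ∀ G : ℝ[X], G.natDegree = D → Homog N G →
    Fn ω 0 G ≠ 0 ∧ M (Fn ω 0 G) ≤ (D - 1) / N := by
  intro D
  induction D using Nat.strong_induction_on with
  | _ D ih =>
    intro hD G hGD hG
    by_cases hDN : D ≤ N
    · -- base case
      have hc : G.coeff D ≠ 0 := by
        rw [← hGD]
        have : G ≠ 0 := by rintro rfl; simp at hGD; omega
        exact leadingCoeff_ne_zero.mpr this
      have hev : ∀ y : ℝ, (Fn ω 0 G).eval y = G.coeff D * ((1 + ω * y) ^ D).im := by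
        intro y
        rw [Fn_eval, pow_zero, one_mul, eval_eq_sum_range, Complex.im_sum]
        have hnd : (G.map (algebraMap ℝ ℂ)).natDegree = D := by
          rw [natDegree_map, hGD]
        rw [hnd, sum_range_succ]
        have : ∑ x ∈ range D, ((G.map (algebraMap ℝ ℂ)).coeff x * (1 + ω * y) ^ x).im = 0 := by
          apply sum_eq_zero
          intro i hi
          have hiD : i < D := by simpa using hi
          rw [coeff_map]
          by_cases hi0 : G.coeff i = 0
          · rw [hi0]; simp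
          · have h1 := hG i hi0
            rw [hGD] at h1
            have hi00 : i = 0 := by
              rcases Nat.lt_or_ge D N with h2 | h2
              · rw [Nat.mod_eq_of_lt (by omega), Nat.mod_eq_of_lt h2] at h1
                omega
              · have : D = N := by omega
                rw [this, Nat.mod_self, Nat.mod_eq_of_lt (by omega)] at h1
                exact h1
            rw [hi00]
            simp
        rw [this, zero_add, coeff_map]
        simp only [Complex.coe_algebraMap]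
        rw [Complex.im_ofReal_mul]
      have hne : ∀ y : ℝ, 0 < y → y < 1 → (Fn ω 0 G).eval y ≠ 0 := by
        intro y h0 h1
        rw [hev]
        exact mul_ne_zero hc (ne_of_gt (h.pos D hD hDN y h0 h1))
      have hne0 : Fn ω 0 G ≠ 0 := by
        intro h0
        have := hne (1 / 2) (by norm_num) (by norm_num)
        rw [h0] at this
        simp at this
      refine ⟨hne0, ?_⟩
      rw [(M_eq_zero_iff hne0).mpr hne]
      exact Nat.zero_le _
    · push Not at hDN
      have hNpos := h.hN
      have hit := homog_iterate (N := N) G hG (by omega)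
      have IH := ih (D - N) (by omega) (by omega) (derivative^[N] G) (by rw [hit.2, hGD]) hit.1
      have hFN : derivative^[N] (Fn ω 0 G) = Fn ω 0 (derivative^[N] G) := by
        rw [Fn_iterate, zero_add]
        unfold Fn
        rw [h.ωN, pow_zero]
      have hne : derivative^[N] (Fn ω 0 G) ≠ 0 := by rw [hFN]; exact IH.1
      refine ⟨?_, ?_⟩
      · intro h0
        apply hne
        rw [h0]
        simp
      · have hr := rolle_iter (Fn ω 0 G) N hne
        rw [hFN] at hr
        rw [sum_add_distrib] at hr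
        have he0 := h.e0 G
        have he0' : ∑ s ∈ range N, (if (derivative^[s] (Fn ω 0 G)).eval 0 = 0 then 1 else 0) =
            ∑ s ∈ range N, if (Fn ω s (derivative^[s] G)).eval 0 = 0 then 1 else 0 := by
          refine sum_congr rfl fun s _ => ?_
          rw [Fn_iterate, zero_add]
        have he1 : 1 ≤ ∑ s ∈ range N, (if (derivative^[s] (Fn ω 0 G)).eval 1 = 0 then 1 else 0) := by
          -- s with D + s ≡ 0 mod N
          obtain ⟨s, hs, hDs⟩ : ∃ s < N, (D + s) % N = 0 := by
            by_cases h0 : D % N = 0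
            · exact ⟨0, hNpos, by simpa using h0⟩
            · refine ⟨N - D % N, ?_, ?_⟩
              · have := Nat.mod_lt D hNpos; omega
              · have h1 := Nat.mod_lt D hNpos
                have h2 : D + (N - D % N) = N * (D / N) + N := by
                  have := Nat.div_add_mod D N; omega
                rw [h2]
                simp
          have hz : (derivative^[s] (Fn ω 0 G)).eval 1 = 0 := by
            rw [Fn_iterate, zero_add, Fn_eval]
            have := eval_real_of_homog h (derivative^[s] G) s (by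
              intro i hi
              rw [coeff_iterate_derivative] at hi
              have h2 : G.coeff (i + s) ≠ 0 := by
                intro h; rw [h] at hi; simp at hi
              have h3 := hG (i + s) h2
              rw [hGD] at h3
              have h4 : (i + 2 * s) % N = (i + s + s) % N := by congr 1; ring
              rw [h4, Nat.add_mod, h3, ← Nat.add_mod, hDs])
            simpa using this
          calc 1 = if (derivative^[s] (Fn ω 0 G)).eval 1 = 0 then 1 else 0 := by rw [if_pos hz]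
            _ ≤ _ := single_le_sum (f := fun s => if (derivative^[s] (Fn ω 0 G)).eval 1 = 0 then 1 else 0)
                (fun _ _ => Nat.zero_le _) (mem_range.mpr hs)
        have hdiv : (D - 1) / N = (D - N - 1) / N + 1 := by
          have : D - 1 = (D - N - 1) + N := by omega
          rw [this, Nat.add_div_right _ hNpos]
        have := IH.2
        rw [he0'] at hr
        omega

/-- evaluation at the real point `1` -/
lemma Fn_eval_zero (ω : ℂ) (s : ℕ) (G : ℝ[X]) :
    (Fn ω s G).eval 0 = G.eval 1 * (ω ^ s).im := by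
  rw [Fn_eval]
  have h1 : (G.map (algebraMap ℝ ℂ)).eval (1 + ω * ((0 : ℝ) : ℂ)) = ((G.eval 1 : ℝ) : ℂ) := by
    have : (1 + ω * ((0 : ℝ) : ℂ)) = algebraMap ℝ ℂ 1 := by simp
    rw [this, eval_map, eval₂_at_apply]
    rfl
  rw [h1, mul_comm, Complex.im_ofReal_mul]

/-- the cube root of unity -/
noncomputable def ω3 : ℂ := ⟨-1 / 2, Real.sqrt 3 / 2⟩

lemma sqrt3_sq : Real.sqrt 3 * Real.sqrt 3 = 3 := Real.mul_self_sqrt (by norm_num)

lemma ω3_sq : ω3 ^ 2 = ⟨-1 / 2, -(Real.sqrt 3 / 2)⟩ := by
  have h := sqrt3_sq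
  rw [pow_two]
  apply Complex.ext
  · simp only [ω3, Complex.mul_re]; nlinarith
  · simp only [ω3, Complex.mul_im]; ring

lemma ω3_sum : 1 + ω3 + ω3 ^ 2 = 0 := by
  rw [ω3_sq]
  apply Complex.ext
  · simp [ω3]; norm_num
  · simp [ω3]

lemma ω3_cube : ω3 ^ 3 = 1 := by
  have h := ω3_sum
  have : ω3 ^ 3 - 1 = (ω3 - 1) * (1 + ω3 + ω3 ^ 2) := by ring
  rw [h, mul_zero] at this
  linear_combination this

lemma data3 : Data 3 ω3 where
  hN := by norm_num
  ωN := ω3_cube
  B2 := ⟨1, one_ne_zero, by
    have h := ω3_sum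
    push_cast
    linear_combination h⟩
  BN := ⟨-1, by
    have h := ω3_sum
    have h3 := ω3_cube
    push_cast
    linear_combination h3 + 3 * h - 1 + 1⟩
  pos := by
    intro D h1 h3 y hy0 hy1
    have hs : 0 < Real.sqrt 3 := Real.sqrt_pos.mpr (by norm_num)
    have hsq := sqrt3_sq
    interval_cases D
    · simp only [pow_one, Complex.add_im, Complex.one_im, Complex.mul_im, ω3, Complex.ofReal_re,
        Complex.ofReal_im]
      nlinarith [mul_pos hs hy0]
    · have e : (1 + ω3 * y) ^ 2 = 1 + (2 * y : ℝ) * ω3 + (y ^ 2 : ℝ) * ω3 ^ 2 := by push_cast; ring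
      rw [e, ω3_sq]
      simp only [Complex.add_im, Complex.one_im, Complex.im_ofReal_mul, ω3]
      nlinarith [mul_pos hs hy0, mul_pos (mul_pos hs hy0) (sub_pos.mpr hy1)]
    · have e : (1 + ω3 * y) ^ 3 = 1 + (3 * y : ℝ) * ω3 + (3 * y ^ 2 : ℝ) * ω3 ^ 2 + (y ^ 3 : ℝ) * ω3 ^ 3 := by
        push_cast; ring
      rw [e, ω3_sq, ω3_cube]
      simp only [Complex.add_im, Complex.one_im, Complex.im_ofReal_mul, ω3, mul_zero, add_zero]
      nlinarith [mul_pos hs hy0, mul_pos (mul_pos hs hy0) (sub_pos.mpr hy1)]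
  e0 := by
    intro G
    have h0 : (Fn ω3 0 (derivative^[0] G)).eval 0 = 0 := by
      rw [Fn_eval_zero]; simp
    rw [sum_range_succ']
    rw [if_pos h0]
    omega

/-- the fourth root of unity -/
lemma data4 : Data 4 Complex.I where
  hN := by norm_num
  ωN := Complex.I_pow_four
  B2 := ⟨2, two_ne_zero, by
    have h := Complex.I_sq
    push_cast
    linear_combination h⟩
  BN := ⟨-4, by
    have h := Complex.I_sq
    push_cast
    have : (1 + Complex.I) ^ 4 = ((1 + Complex.I) ^ 2) ^ 2 := by ring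
    rw [this]
    have h2 : (1 + Complex.I) ^ 2 = 2 * Complex.I := by linear_combination h
    rw [h2]
    linear_combination 4 * h⟩
  pos := by
    intro D h1 h3 y hy0 hy1
    interval_cases D
    · simp
      exact hy0
    · have e : (1 + Complex.I * y) ^ 2 = (1 - y ^ 2 : ℝ) + (2 * y : ℝ) * Complex.I := by
        push_cast
        linear_combination (y : ℂ) ^ 2 * Complex.I_sq
      rw [e]
      simp only [Complex.add_im, Complex.ofReal_im, Complex.im_ofReal_mul, Complex.I_im]
      linarith
    · have e : (1 + Complex.I * y) ^ 3 = (1 - 3 * y ^ 2 : ℝ) + (3 * y - y ^ 3 : ℝ) * Complex.I := by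
        push_cast
        linear_combination (3 * (y : ℂ) ^ 2 + (y : ℂ) ^ 3 * Complex.I) * Complex.I_sq
      rw [e]
      simp only [Complex.add_im, Complex.ofReal_im, Complex.im_ofReal_mul, Complex.I_im]
      nlinarith [mul_pos hy0 hy0, mul_pos (mul_pos hy0 hy0) hy0]
    · have e : (1 + Complex.I * y) ^ 4 = (1 - 6 * y ^ 2 + y ^ 4 : ℝ) + (4 * y - 4 * y ^ 3 : ℝ) * Complex.I := by
        push_cast
        linear_combination (6 * (y : ℂ) ^ 2 + 4 * (y : ℂ) ^ 3 * Complex.I + (y : ℂ) ^ 4 * (Complex.I ^ 2 - 1)) * Complex.I_sq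
      rw [e]
      simp only [Complex.add_im, Complex.ofReal_im, Complex.im_ofReal_mul, Complex.I_im]
      have : y ^ 3 < y := by nlinarith [mul_pos hy0 hy0, mul_pos hy0 (sub_pos.mpr hy1)]
      linarith
  e0 := by
    intro G
    have h0 : (Fn Complex.I 0 (derivative^[0] G)).eval 0 = 0 := by
      rw [Fn_eval_zero]; simp
    have h2 : (Fn Complex.I 2 (derivative^[2] G)).eval 0 = 0 := by
      rw [Fn_eval_zero]; simp
    simp only [sum_range_succ, sum_range_zero]
    rw [if_pos h0, if_pos h2]
    omega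

end Pool.Agent.H766R2.Berg
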