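import Mathlib
import Pool.Agent.H766R2.BergRolle

/-!
# Area integrals over the regular triangle and square
-/

open Finset Polynomial MeasureTheory

namespace Pool.Agent.H766R2.Berg

/-- the real-linear map `(u,v) ↦ u α + v ᾱ` -/
noncomputable def parL (α : ℂ) : (ℝ × ℝ) →ₗ[ℝ] ℂ where
  toFun p := p.1 * α + p.2 * (starRingEnd ℂ) α
  map_add' p q := by simp; ring
  map_smul' c p := by simp; ring

lemma parL_inj (α : ℂ) (h1 : α.re ≠ 0) (h2 : α.im ≠ 0) : Function.Injective (parL α) := by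
  rw [← LinearMap.ker_eq_bot, LinearMap.ker_eq_bot']
  rintro ⟨u, v⟩ h
  have hre := congrArg Complex.re h
  have him := congrArg Complex.im h
  simp [parL] at hre him
  have e1 : (u + v) * α.re = 0 := by linarith
  have e2 : (u - v) * α.im = 0 := by linarith
  have e3 := (mul_eq_zero.mp e1).resolve_right h1
  have e4 := (mul_eq_zero.mp e2).resolve_right h2
  have : u = 0 := by linarith
  have : v = 0 := by linarith
  simp [*]

/-- the parametrisation as a continuous linear equivalence -/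
noncomputable def parE (α : ℂ) (h1 : α.re ≠ 0) (h2 : α.im ≠ 0) : (ℝ × ℝ) ≃L[ℝ] ℂ :=
  (LinearEquiv.ofInjectiveOfFinrankEq (parL α) (parL_inj α h1 h2)
    (by rw [Complex.finrank_real_complex]; simp)).toContinuousLinearEquiv

lemma parE_apply (α : ℂ) (h1 : α.re ≠ 0) (h2 : α.im ≠ 0) (p : ℝ × ℝ) :
    parE α h1 h2 p = p.1 * α + p.2 * (starRingEnd ℂ) α := rfl

lemma exists_const (α : ℂ) (h1 : α.re ≠ 0) (h2 : α.im ≠ 0) : ∃ c : ℝ, 0 < c ∧ ∀ (g : ℂ → ℂ),
    ∫ z, g z = c * ∫ p : ℝ × ℝ, g (1 + p.1 * α + p.2 * (starRingEnd ℂ) α) := by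
  set L := parE α h1 h2 with hL
  set μ : Measure ℂ := Measure.map L volume with hμ
  have : μ.IsAddHaarMeasure := by rw [hμ]; infer_instance
  have hsc : (volume : Measure ℂ) = Measure.addHaarScalarFactor volume μ • μ :=
    Measure.isAddLeftInvariant_eq_smul volume μ
  have hpos : 0 < Measure.addHaarScalarFactor volume μ :=
    Measure.addHaarScalarFactor_pos_of_isAddHaarMeasure volume μ
  refine ⟨Measure.addHaarScalarFactor volume μ, by exact_mod_cast hpos, ?_⟩
  intro g
  calc ∫ z, g z = ∫ z, g (1 + z) := (integral_add_left_eq_self g 1).symm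
    _ = ∫ z, g (1 + z) ∂(Measure.addHaarScalarFactor volume μ • μ) := by rw [← hsc]
    _ = (Measure.addHaarScalarFactor volume μ : ℝ) * ∫ z, g (1 + z) ∂μ := by
        rw [integral_smul_nnreal_measure]
        rw [NNReal.smul_def, Complex.real_smul]
    _ = _ := by
        congr 1
        rw [hμ]
        have hemb : MeasurableEmbedding L := L.toHomeomorph.measurableEmbedding
        rw [hemb.integral_map]
        refine integral_congr_ae (Filter.Eventually.of_forall fun p => ?_)
        simp only [hL, parE_apply, add_assoc]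

def Tri : Set (ℝ × ℝ) := {p | 0 ≤ p.1 ∧ 0 ≤ p.2 ∧ p.1 + p.2 ≤ 1}

lemma tri_closed : IsClosed Tri := by
  have : Tri = {p : ℝ × ℝ | 0 ≤ p.1} ∩ ({p | 0 ≤ p.2} ∩ {p | p.1 + p.2 ≤ 1}) := rfl
  rw [this]
  exact (isClosed_le continuous_const continuous_fst).inter
    ((isClosed_le continuous_const continuous_snd).inter
      (isClosed_le (continuous_fst.add continuous_snd) continuous_const))

lemma tri_compact : IsCompact Tri := by
  apply (isCompact_Icc (a := ((0 : ℝ), (0 : ℝ))) (b := (1, 1))).of_isClosed_subset tri_closed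
  intro p hp
  obtain ⟨h1, h2, h3⟩ := hp
  exact ⟨⟨h1, h2⟩, ⟨by simp; linarith, by simp; linarith⟩⟩

lemma tri_int (F : ℝ → ℝ → ℂ) (hF : Continuous (fun p : ℝ × ℝ => F p.1 p.2)) :
    ∫ p in Tri, F p.1 p.2 = ∫ u in (0 : ℝ)..1, ∫ v in (0 : ℝ)..(1 - u), F u v := by
  have hint : IntegrableOn (fun p : ℝ × ℝ => F p.1 p.2) Tri := hF.continuousOn.integrableOn_compact tri_compact
  rw [← integral_indicator tri_closed.measurableSet]
  rw [Measure.volume_eq_prod, integral_prod]
  · rw [intervalIntegral.integral_of_le (by norm_num), ← integral_Icc_eq_integral_Ioc,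
      ← integral_indicator measurableSet_Icc]
    refine integral_congr_ae (Filter.Eventually.of_forall fun u => ?_)
    simp only
    by_cases hu : u ∈ Set.Icc (0 : ℝ) 1
    · rw [Set.indicator_of_mem hu, intervalIntegral.integral_of_le (by linarith [hu.2]),
        ← integral_Icc_eq_integral_Ioc, ← integral_indicator measurableSet_Icc]
      refine integral_congr_ae (Filter.Eventually.of_forall fun v => ?_)
      simp only [Set.indicator_apply, Tri, Set.mem_ofPred_eq, Set.mem_Icc]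
      congr 1
      apply propext
      constructor
      · rintro ⟨_, h2, h3⟩; exact ⟨h2, by linarith⟩
      · rintro ⟨h2, h3⟩; exact ⟨hu.1, h2, by linarith⟩
    · rw [Set.indicator_of_notMem hu]
      rw [← integral_zero ℝ ℂ (μ := volume)]
      refine integral_congr_ae (Filter.Eventually.of_forall fun v => ?_)
      simp only [Set.indicator_apply, Tri, Set.mem_ofPred_eq]
      rw [if_neg]
      rintro ⟨h1, h2, h3⟩
      exact hu ⟨h1, by linarith⟩
  · rw [← Measure.volume_eq_prod]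
    exact hint.integrable_indicator tri_closed.measurableSet

lemma tri_int' (F : ℝ → ℝ → ℂ) (hF : Continuous (fun p : ℝ × ℝ => F p.1 p.2)) :
    ∫ p in Tri, F p.1 p.2 = ∫ v in (0 : ℝ)..1, ∫ u in (0 : ℝ)..(1 - v), F u v := by
  have h := tri_int (fun v u => F u v) (hF.comp continuous_swap)
  rw [← h]
  have hmp : MeasurePreserving (Prod.swap : ℝ × ℝ → ℝ × ℝ) volume volume := by
    exact Measure.measurePreserving_swap
  have hemb : MeasurableEmbedding (Prod.swap : ℝ × ℝ → ℝ × ℝ) := MeasurableEquiv.prodComm.measurableEmbedding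
  have := hmp.setIntegral_preimage_emb hemb (fun p => F p.1 p.2) Tri
  rw [← this]
  have hpre : Prod.swap ⁻¹' Tri = Tri := by
    ext p
    simp only [Tri, Set.mem_preimage, Set.mem_ofPred_eq, Prod.fst_swap, Prod.snd_swap]
    constructor
    · rintro ⟨a, b, c⟩; exact ⟨b, a, by linarith⟩
    · rintro ⟨a, b, c⟩; exact ⟨b, a, by linarith⟩
  rw [hpre]
  rfl

def Sq : Set (ℝ × ℝ) := Set.Icc 0 1 ×ˢ Set.Icc 0 1

lemma sq_int (F : ℝ → ℝ → ℂ) (hF : Continuous (fun p : ℝ × ℝ => F p.1 p.2)) :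
    ∫ p in Sq, F p.1 p.2 = ∫ u in (0 : ℝ)..1, ∫ v in (0 : ℝ)..1, F u v := by
  have hint : IntegrableOn (fun p : ℝ × ℝ => F p.1 p.2) Sq :=
    hF.continuousOn.integrableOn_compact (isCompact_Icc.prod isCompact_Icc)
  rw [Measure.volume_eq_prod] at hint ⊢
  unfold Sq at hint ⊢
  rw [setIntegral_prod _ hint, intervalIntegral.integral_of_le (by norm_num), ← integral_Icc_eq_integral_Ioc]
  refine integral_congr_ae (Filter.Eventually.of_forall fun u => ?_)
  simp only
  rw [intervalIntegral.integral_of_le (by norm_num), ← integral_Icc_eq_integral_Ioc]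

lemma sq_int' (F : ℝ → ℝ → ℂ) (hF : Continuous (fun p : ℝ × ℝ => F p.1 p.2)) :
    ∫ p in Sq, F p.1 p.2 = ∫ v in (0 : ℝ)..1, ∫ u in (0 : ℝ)..1, F u v := by
  have h := sq_int (fun v u => F u v) (hF.comp continuous_swap)
  rw [← h]
  have hmp : MeasurePreserving (Prod.swap : ℝ × ℝ → ℝ × ℝ) volume volume := by
    exact Measure.measurePreserving_swap
  have hemb : MeasurableEmbedding (Prod.swap : ℝ × ℝ → ℝ × ℝ) := MeasurableEquiv.prodComm.measurableEmbedding
  have := hmp.setIntegral_preimage_emb hemb (fun p => F p.1 p.2) Sq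
  rw [← this]
  have hpre : Prod.swap ⁻¹' Sq = Sq := by
    ext p
    simp only [Sq, Set.mem_preimage, Set.mem_prod, Prod.fst_swap, Prod.snd_swap]
    exact and_comm
  rw [hpre]
  rfl

/-- `z^A z̄^(B+1)` in the coordinates `(u,v)` -/
noncomputable def Psi (α β : ℂ) (A B : ℕ) (u v : ℝ) : ℂ := (1 + u * α + v * β) ^ A * (1 + u * β + v * α) ^ (B + 1)

noncomputable def PsiD (α β : ℂ) (A B : ℕ) (u v : ℝ) : ℂ :=
  A * (1 + u * α + v * β) ^ (A - 1) * (1 + u * β + v * α) ^ (B + 1)

noncomputable def PsiI (α β : ℂ) (A B : ℕ) (u v : ℝ) : ℂ :=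
  (1 + u * α + v * β) ^ A * (1 + u * β + v * α) ^ B

lemma Psi_u (α β : ℂ) (A B : ℕ) (u v : ℝ) : HasDerivAt (fun u : ℝ => Psi α β A B u v)
    (α * PsiD α β A B u v + (B + 1) * β * PsiI α β A B u v) u := by
  have h1 : HasDerivAt (fun u : ℝ => (1 + u * α + v * β : ℂ)) α u := by
    have := (((hasDerivAt_id u).ofReal_comp.mul_const α).const_add 1).add_const (v * β)
    simpa using this
  have h2 : HasDerivAt (fun u : ℝ => (1 + u * β + v * α : ℂ)) β u := by
    have := (((hasDerivAt_id u).ofReal_comp.mul_const β).const_add 1).add_const (v * α)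
    simpa using this
  have h3 := (h1.pow A).mul (h2.pow (B + 1))
  refine h3.congr_deriv ?_
  simp only [PsiD, PsiI, Nat.add_sub_cancel, Pi.pow_apply]
  push_cast
  ring

lemma Psi_v (α β : ℂ) (A B : ℕ) (u v : ℝ) : HasDerivAt (fun v : ℝ => Psi α β A B u v)
    (β * PsiD α β A B u v + (B + 1) * α * PsiI α β A B u v) v := by
  have h1 : HasDerivAt (fun v : ℝ => (1 + u * α + v * β : ℂ)) β v := by
    have := ((hasDerivAt_id v).ofReal_comp.mul_const β).const_add (1 + u * α : ℂ)
    simpa using this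
  have h2 : HasDerivAt (fun v : ℝ => (1 + u * β + v * α : ℂ)) α v := by
    have := ((hasDerivAt_id v).ofReal_comp.mul_const α).const_add (1 + u * β : ℂ)
    simpa using this
  have h3 := (h1.pow A).mul (h2.pow (B + 1))
  refine h3.congr_deriv ?_
  simp only [PsiD, PsiI, Nat.add_sub_cancel, Pi.pow_apply]
  push_cast
  ring

lemma Psi_cont (α β : ℂ) (A B : ℕ) : Continuous (fun p : ℝ × ℝ => Psi α β A B p.1 p.2) := by
  unfold Psi; fun_prop

lemma PsiD_cont (α β : ℂ) (A B : ℕ) : Continuous (fun p : ℝ × ℝ => PsiD α β A B p.1 p.2) := by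
  unfold PsiD; fun_prop

lemma PsiI_cont (α β : ℂ) (A B : ℕ) : Continuous (fun p : ℝ × ℝ => PsiI α β A B p.1 p.2) := by
  unfold PsiI; fun_prop

lemma int_u (α β : ℂ) (A B : ℕ) (a b v : ℝ) :
    ∫ u in a..b, (α * PsiD α β A B u v + (B + 1) * β * PsiI α β A B u v) = Psi α β A B b v - Psi α β A B a v := by
  apply intervalIntegral.integral_eq_sub_of_hasDerivAt (fun u _ => Psi_u α β A B u v)
  apply Continuous.intervalIntegrable
  unfold PsiD PsiI; fun_prop

lemma int_v (α β : ℂ) (A B : ℕ) (a b u : ℝ) :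
    ∫ v in a..b, (β * PsiD α β A B u v + (B + 1) * α * PsiI α β A B u v) = Psi α β A B u b - Psi α β A B u a := by
  apply intervalIntegral.integral_eq_sub_of_hasDerivAt (fun v _ => Psi_v α β A B u v)
  apply Continuous.intervalIntegrable
  unfold PsiD PsiI; fun_prop

lemma split_int (s : Set (ℝ × ℝ)) (hs : IsCompact s) (α β : ℂ) (A B : ℕ) :
    (B + 1) * (β ^ 2 - α ^ 2) * ∫ p in s, PsiI α β A B p.1 p.2 =
    β * (∫ p in s, (α * PsiD α β A B p.1 p.2 + (B + 1) * β * PsiI α β A B p.1 p.2)) -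
    α * (∫ p in s, (β * PsiD α β A B p.1 p.2 + (B + 1) * α * PsiI α β A B p.1 p.2)) := by
  have hI : IntegrableOn (fun p : ℝ × ℝ => PsiI α β A B p.1 p.2) s :=
    (PsiI_cont α β A B).continuousOn.integrableOn_compact hs
  have hD : IntegrableOn (fun p : ℝ × ℝ => PsiD α β A B p.1 p.2) s :=
    (PsiD_cont α β A B).continuousOn.integrableOn_compact hs
  rw [integral_add (hD.const_mul _) (hI.const_mul _), integral_add (hD.const_mul _) (hI.const_mul _)]
  simp only [integral_const_mul]
  ring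

lemma tri_formula (α β : ℂ) (A B : ℕ) :
    (B + 1) * (β ^ 2 - α ^ 2) * ∫ p in Tri, PsiI α β A B p.1 p.2 =
    β * (∫ v in (0 : ℝ)..1, (Psi α β A B (1 - v) v - Psi α β A B 0 v)) -
    α * (∫ u in (0 : ℝ)..1, (Psi α β A B u (1 - u) - Psi α β A B u 0)) := by
  rw [split_int Tri tri_compact, tri_int' (fun u v => α * PsiD α β A B u v + (B + 1) * β * PsiI α β A B u v),
    tri_int (fun u v => β * PsiD α β A B u v + (B + 1) * α * PsiI α β A B u v)]
  · simp only [int_u, int_v]
  · have h1 := PsiD_cont α β A B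
    have h2 := PsiI_cont α β A B
    fun_prop
  · have h1 := PsiD_cont α β A B
    have h2 := PsiI_cont α β A B
    fun_prop

lemma sq_formula (α β : ℂ) (A B : ℕ) :
    (B + 1) * (β ^ 2 - α ^ 2) * ∫ p in Sq, PsiI α β A B p.1 p.2 =
    β * (∫ v in (0 : ℝ)..1, (Psi α β A B 1 v - Psi α β A B 0 v)) -
    α * (∫ u in (0 : ℝ)..1, (Psi α β A B u 1 - Psi α β A B u 0)) := by
  rw [split_int Sq (isCompact_Icc.prod isCompact_Icc),
    sq_int' (fun u v => α * PsiD α β A B u v + (B + 1) * β * PsiI α β A B u v),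
    sq_int (fun u v => β * PsiD α β A B u v + (B + 1) * α * PsiI α β A B u v)]
  · simp only [int_u, int_v]
  · have h1 := PsiD_cont α β A B
    have h2 := PsiI_cont α β A B
    fun_prop
  · have h1 := PsiD_cont α β A B
    have h2 := PsiI_cont α β A B
    fun_prop

lemma exists_antideriv (P : ℂ[X]) : ∃ Q : ℂ[X], derivative Q = P := by
  induction P using Polynomial.induction_on' with
  | add p q hp hq =>
    obtain ⟨P, hP⟩ := hp
    obtain ⟨Q, hQ⟩ := hq
    exact ⟨P + Q, by rw [derivative_add, hP, hQ]⟩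
  | monomial n a =>
    refine ⟨monomial (n + 1) (a / (n + 1)), ?_⟩
    rw [derivative_monomial]
    congr 1
    have : (n + 1 : ℂ) ≠ 0 := by exact_mod_cast Nat.succ_ne_zero n
    push_cast
    field_simp

lemma ftc (Q : ℂ[X]) (a b : ℂ) :
    b * ∫ x in (0 : ℝ)..1, (derivative Q).eval (a + x * b) = Q.eval (a + b) - Q.eval a := by
  have hd : ∀ x : ℝ, HasDerivAt (fun x : ℝ => Q.eval (a + x * b)) (b * (derivative Q).eval (a + x * b)) x := by
    intro x
    have h1 : HasDerivAt (fun x : ℝ => (a + x * b : ℂ)) b x := by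
      have := ((hasDerivAt_id x).ofReal_comp.mul_const b).const_add a
      simpa using this
    have h2 := (Q.hasDerivAt (a + x * b)).scomp x h1
    simpa [smul_eq_mul, Function.comp_def] using h2
  rw [← intervalIntegral.integral_const_mul,
    intervalIntegral.integral_eq_sub_of_hasDerivAt (fun x _ => hd x)]
  · simp
  · apply Continuous.intervalIntegrable
    have := (derivative Q).continuous
    fun_prop

lemma contour (P : ℂ[X]) (ω : ℂ) :
    (ω - 1) * ∫ x in (0 : ℝ)..1, P.eval (1 + x * (ω - 1)) =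
      ω * (∫ x in (0 : ℝ)..1, P.eval (x * ω)) - ∫ x in (0 : ℝ)..1, P.eval (x : ℂ) := by
  obtain ⟨Q, rfl⟩ := exists_antideriv P
  have h1 := ftc Q 1 (ω - 1)
  have h2 := ftc Q 0 ω
  have h3 := ftc Q 0 1
  simp only [zero_add, mul_one, one_mul] at h2 h3
  rw [h1, h2, h3]
  simp

lemma pow_cancel {N : ℕ} {ω ω' : ℂ} (hN : ω ^ N = 1) (hω : ω * ω' = 1) {A B : ℕ} (hAB : A % N = B % N) :
    ω ^ A * ω' ^ B = 1 := by
  rw [pow_eq_pow_mod A hN, hAB, ← pow_eq_pow_mod B hN, ← mul_pow, hω, one_pow]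

lemma J_formula {N : ℕ} {ω : ℂ} (hN : ω ^ N = 1) (hω : ω * (starRingEnd ℂ) ω = 1) {A B : ℕ} (hAB : A % N = B % N) :
    (ω - 1) * ∫ x in (0 : ℝ)..1, Psi (ω - 1) ((starRingEnd ℂ) ω - 1) A B x 0 =
      2 * Complex.I * ((∫ x in (0 : ℝ)..1, x ^ A * (Fn ω 0 (X ^ (B + 1))).eval (1 - x) : ℝ) : ℂ) := by
  set ω' := (starRingEnd ℂ) ω with hω'
  set P : ℂ[X] := X ^ A * (C (1 + ω') - C ω' * X) ^ (B + 1) with hP
  have h1 : ∀ x : ℝ, Psi (ω - 1) (ω' - 1) A B x 0 = P.eval (1 + x * (ω - 1)) := by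
    intro x
    simp only [Psi, hP, eval_mul, eval_pow, eval_X, eval_sub, eval_C, Complex.ofReal_zero, zero_mul, add_zero]
    congr 2
    linear_combination (x : ℂ) * hω
  simp only [h1]
  rw [contour, ← intervalIntegral.integral_const_mul, ← intervalIntegral.integral_sub,
    ← intervalIntegral.integral_ofReal, ← intervalIntegral.integral_const_mul]
  · refine intervalIntegral.integral_congr fun x _ => ?_
    simp only [hP, eval_mul, eval_pow, eval_X, eval_sub, eval_C, Fn_eval, pow_zero, one_mul, Polynomial.map_pow,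
      map_X]
    set w : ℂ := 1 + ω * ((1 - x : ℝ) : ℂ) with hw
    have hc := pow_cancel hN hω hAB
    have e1 : (1 + ω' - ω' * (x * ω)) = ω' * w := by
      rw [hw]; push_cast; linear_combination -hω
    have e2 : (1 + ω' - ω' * x) = (starRingEnd ℂ) w := by
      rw [hw]; simp only [map_add, map_one, map_mul, Complex.conj_ofReal, ← hω']; push_cast; ring
    have e3 := Complex.sub_conj (w ^ (B + 1))
    rw [e1, e2, ← map_pow]
    have e4 : ω * (((x : ℂ) * ω) ^ A * (ω' * w) ^ (B + 1)) = x ^ A * w ^ (B + 1) := by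
      calc ω * (((x : ℂ) * ω) ^ A * (ω' * w) ^ (B + 1)) = x ^ A * w ^ (B + 1) * ((ω ^ A * ω' ^ B) * (ω * ω')) := by
            rw [mul_pow, mul_pow, pow_succ ω']; ring
        _ = _ := by rw [hc, hω]; ring
    rw [e4]
    push_cast at e3 ⊢
    linear_combination (x : ℂ) ^ A * e3
  · apply Continuous.intervalIntegrable
    have := P.continuous
    fun_prop
  · apply Continuous.intervalIntegrable
    have := P.continuous
    fun_prop

end Pool.Agent.H766R2.Berg
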