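import Mathlib
import Pool.Agent.H766R2.BergArea

/-!
# The regular triangle and square and their complex moments
-/

open Finset Polynomial MeasureTheory

namespace Pool.Agent.H766R2.Berg

/-- the closed regular `N`-gon with vertices the `N`-th roots of unity -/
def K (N : ℕ) : Set ℂ := convexHull ℝ {z : ℂ | z ^ N = 1}

/-- the open regular `N`-gon with vertices the `N`-th roots of unity -/
def ngon (N : ℕ) : Set ℂ := interior (convexHull ℝ {z : ℂ | z ^ N = 1})

lemma ω3_conj : (starRingEnd ℂ) ω3 = ω3 ^ 2 := by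
  rw [ω3_sq]; rfl

lemma roots3 (z : ℂ) : z ^ 3 = 1 ↔ z = 1 ∨ z = ω3 ∨ z = (starRingEnd ℂ) ω3 := by
  rw [ω3_conj]
  have h1 := ω3_sum
  have h2 := ω3_cube
  have e : z ^ 3 - 1 = (z - 1) * ((z - ω3) * (z - ω3 ^ 2)) := by
    have h3 : ω3 ^ 2 = -1 - ω3 := by linear_combination h1
    have h4 : ω3 * ω3 ^ 2 = 1 := by rw [← h2]; ring
    linear_combination (-(z - 1) * (-z)) * h1 - (z - 1) * h4
  rw [← sub_eq_zero, e, mul_eq_zero, mul_eq_zero, sub_eq_zero, sub_eq_zero, sub_eq_zero]

lemma roots4 (z : ℂ) : z ^ 4 = 1 ↔ z = 1 ∨ z = Complex.I ∨ z = -Complex.I ∨ z = -1 := by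
  have e : z ^ 4 - 1 = (z - 1) * ((z - Complex.I) * ((z + Complex.I) * (z + 1))) := by
    linear_combination (z ^ 2 - 1) * Complex.I_sq
  rw [← sub_eq_zero, e, mul_eq_zero, mul_eq_zero, mul_eq_zero, sub_eq_zero, sub_eq_zero,
    add_eq_zero_iff_eq_neg, add_eq_zero_iff_eq_neg]

/-- the affine parametrisation -/
noncomputable def par (α : ℂ) (p : ℝ × ℝ) : ℂ := 1 + p.1 * α + p.2 * (starRingEnd ℂ) α

lemma par_inj (α : ℂ) (h1 : α.re ≠ 0) (h2 : α.im ≠ 0) : Function.Injective (par α) := by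
  intro p q h
  apply parL_inj α h1 h2
  unfold par at h
  simp only [parL, LinearMap.coe_mk, AddHom.coe_mk]
  linear_combination h

lemma par_convex (α : ℂ) (s : Set (ℝ × ℝ)) (hs : Convex ℝ s) : Convex ℝ (par α '' s) := by
  have : par α '' s = (fun z => (1 : ℂ) + z) '' (parL α '' s) := by
    rw [Set.image_image]
    apply Set.image_congr
    intro p _
    simp only [par, parL, LinearMap.coe_mk, AddHom.coe_mk]
    ring
  rw [this]
  exact (hs.linear_image _).translate 1

lemma tri_convex : Convex ℝ Tri := by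
  have : Tri = {p : ℝ × ℝ | 0 ≤ p.1} ∩ ({p | 0 ≤ p.2} ∩ {p | p.1 + p.2 ≤ 1}) := rfl
  rw [this]
  refine (convex_halfSpace_ge (LinearMap.isLinear (LinearMap.fst ℝ ℝ ℝ)) 0).inter
    ((convex_halfSpace_ge (LinearMap.isLinear (LinearMap.snd ℝ ℝ ℝ)) 0).inter
      (convex_halfSpace_le (LinearMap.isLinear (LinearMap.fst ℝ ℝ ℝ + LinearMap.snd ℝ ℝ ℝ)) 1))

lemma sq_convex : Convex ℝ Sq := (convex_Icc 0 1).prod (convex_Icc 0 1)

lemma region3 : par (ω3 - 1) ⁻¹' (K 3) = Tri := by
  have hre : (ω3 - 1).re ≠ 0 := by simp [ω3]; norm_num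
  have him : (ω3 - 1).im ≠ 0 := by simp [ω3]
  have hconj : (starRingEnd ℂ) (ω3 - 1) = (starRingEnd ℂ) ω3 - 1 := by simp
  ext p
  constructor
  · intro hp
    have hsub : K 3 ⊆ par (ω3 - 1) '' Tri := by
      apply convexHull_min _ (par_convex _ _ tri_convex)
      intro z hz
      rcases (roots3 z).mp hz with rfl | rfl | rfl
      · exact ⟨(0, 0), ⟨le_rfl, le_rfl, by norm_num⟩, by simp [par]⟩
      · exact ⟨(1, 0), ⟨by norm_num, le_rfl, by norm_num⟩, by simp [par]⟩
      · exact ⟨(0, 1), ⟨le_rfl, by norm_num, by norm_num⟩, by simp [par]⟩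
    obtain ⟨q, hq, hqp⟩ := hsub hp
    rw [← par_inj _ hre him hqp]
    exact hq
  · rintro ⟨h1, h2, h3⟩
    have hs := (convex_convexHull ℝ {z : ℂ | z ^ 3 = 1}).sum_mem (t := (univ : Finset (Fin 3)))
      (w := ![1 - p.1 - p.2, p.1, p.2]) (z := ![1, ω3, (starRingEnd ℂ) ω3])
      (by intro i _; fin_cases i <;> simp <;> linarith)
      (by simp [Fin.sum_univ_three]; ring)
      (by
        intro i _
        apply subset_convexHull
        show _ ^ 3 = 1
        rw [roots3]
        fin_cases i <;> simp)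
    rw [Fin.sum_univ_three] at hs
    simp only [Matrix.cons_val_zero, Matrix.cons_val_one, Matrix.cons_val, Complex.real_smul] at hs
    show par (ω3 - 1) p ∈ convexHull ℝ {z : ℂ | z ^ 3 = 1}
    convert hs using 1
    unfold par
    rw [hconj]
    push_cast
    ring

lemma region4 : par (Complex.I - 1) ⁻¹' (K 4) = Sq := by
  have hre : (Complex.I - 1).re ≠ 0 := by simp
  have him : (Complex.I - 1).im ≠ 0 := by simp
  have hconj : (starRingEnd ℂ) (Complex.I - 1) = -Complex.I - 1 := by simp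
  ext p
  constructor
  · intro hp
    have hsub : K 4 ⊆ par (Complex.I - 1) '' Sq := by
      apply convexHull_min _ (par_convex _ _ sq_convex)
      intro z hz
      rcases (roots4 z).mp hz with rfl | rfl | rfl | rfl
      · exact ⟨(0, 0), ⟨⟨le_rfl, by norm_num⟩, ⟨le_rfl, by norm_num⟩⟩, by simp [par]⟩
      · exact ⟨(1, 0), ⟨⟨by norm_num, by norm_num⟩, ⟨le_rfl, by norm_num⟩⟩, by simp [par]⟩
      · exact ⟨(0, 1), ⟨⟨le_rfl, by norm_num⟩, ⟨by norm_num, by norm_num⟩⟩, by simp [par]⟩
      · exact ⟨(1, 1), ⟨⟨by norm_num, by norm_num⟩, ⟨by norm_num, by norm_num⟩⟩, by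
          unfold par; rw [hconj]; push_cast; ring⟩
    obtain ⟨q, hq, hqp⟩ := hsub hp
    rw [← par_inj _ hre him hqp]
    exact hq
  · rintro ⟨⟨h1, h2⟩, ⟨h3, h4⟩⟩
    have hs := (convex_convexHull ℝ {z : ℂ | z ^ 4 = 1}).sum_mem (t := (univ : Finset (Fin 4)))
      (w := ![(1 - p.1) * (1 - p.2), p.1 * (1 - p.2), (1 - p.1) * p.2, p.1 * p.2])
      (z := ![1, Complex.I, -Complex.I, -1])
      (by
        intro i _
        fin_cases i
        · exact mul_nonneg (by linarith) (by linarith)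
        · exact mul_nonneg (by linarith) (by linarith)
        · exact mul_nonneg (by linarith) (by linarith)
        · exact mul_nonneg (by linarith) (by linarith))
      (by simp [Fin.sum_univ_four]; ring)
      (by
        intro i _
        apply subset_convexHull
        show _ ^ 4 = 1
        rw [roots4]
        fin_cases i <;> simp)
    rw [Fin.sum_univ_four] at hs
    simp only [Matrix.cons_val_zero, Matrix.cons_val_one, Matrix.cons_val, Complex.real_smul] at hs
    show par (Complex.I - 1) p ∈ convexHull ℝ {z : ℂ | z ^ 4 = 1}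
    convert hs using 1
    unfold par
    rw [hconj]
    push_cast
    ring

end Pool.Agent.H766R2.Berg
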