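import Mathlib
import Pool.Agent.H766R2.BergGeom

/-!
# Complex moments of the regular triangle and square
-/

open Finset Polynomial MeasureTheory

namespace Pool.Agent.H766R2.Berg

/-- everything we need to know about the polygon -/
structure Good (N : ℕ) (ω : ℂ) : Prop where
  data : Data N ω
  inj : ∀ A B : ℕ, ω ^ A = ω ^ B → A % N = B % N
  conj : ω * (starRingEnd ℂ) ω = 1
  compactK : IsCompact (K N)
  moment : ∃ C : ℝ, 0 < C ∧ ∀ A B : ℕ, A % N = B % N →
    ∫ z in K N, z ^ A * ((starRingEnd ℂ) z) ^ B =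
      ((C / (B + 1) * ∫ x in (0 : ℝ)..1, x ^ A * (Fn ω 0 (X ^ (B + 1))).eval (1 - x) : ℝ) : ℂ)

lemma Psi_scale {α β : ℂ} {ω ω' : ℂ} {u v u' v' : ℝ} (A B : ℕ)
    (h1 : (1 + u' * α + v' * β : ℂ) = ω * (1 + u * α + v * β))
    (h2 : (1 + u' * β + v' * α : ℂ) = ω' * (1 + u * β + v * α)) :
    Psi α β A B u' v' = (ω ^ A * ω' ^ B) * ω' * Psi α β A B u v := by
  unfold Psi
  rw [h1, h2, mul_pow, mul_pow, pow_succ ω']
  ring

lemma int_flip (f : ℝ → ℂ) : ∫ v in (0 : ℝ)..1, f (1 - v) = ∫ v in (0 : ℝ)..1, f v := by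
  rw [intervalIntegral.integral_comp_sub_left (fun v => f v) 1]
  norm_num

lemma Psi_ii (α β : ℂ) (A B : ℕ) : IntervalIntegrable (fun v => Psi α β A B v 0) volume 0 1 := by
  apply Continuous.intervalIntegrable
  unfold Psi; fun_prop

lemma Psi_ii' (α β : ℂ) (A B : ℕ) : IntervalIntegrable (fun v => Psi α β A B (1 - v) 0) volume 0 1 := by
  apply Continuous.intervalIntegrable
  unfold Psi; fun_prop

lemma tri_moment (A B : ℕ) (hAB : A % 3 = B % 3) :
    (B + 1) * ∫ p in Tri, PsiI (ω3 - 1) ((starRingEnd ℂ) ω3 - 1) A B p.1 p.2 =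
      (((2 / Real.sqrt 3) * ∫ x in (0 : ℝ)..1, x ^ A * (Fn ω3 0 (X ^ (B + 1))).eval (1 - x) : ℝ) : ℂ) := by
  have hsum := ω3_sum
  have hcube := ω3_cube
  set ω' := (starRingEnd ℂ) ω3 with hω'
  have hω2 : ω' = ω3 ^ 2 := ω3_conj
  have hω : ω3 * ω' = 1 := by rw [hω2, ← hcube]; ring
  have hc := pow_cancel hcube hω hAB
  have hc' : ω' ^ A * ω3 ^ B = 1 := by
    have := pow_cancel hcube hω hAB.symm
    linear_combination this
  have hsq : ω' ^ 2 = ω3 := by rw [hω2]; linear_combination ω3 * hcube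
  have hsq' : ω3 ^ 2 = ω' := hω2.symm
  have key := tri_formula (ω3 - 1) (ω' - 1) A B
  have R1 : ∀ v : ℝ, Psi (ω3 - 1) (ω' - 1) A B (1 - v) v = ω' * Psi (ω3 - 1) (ω' - 1) A B v 0 := by
    intro v
    rw [Psi_scale (u := v) (v := 0) (ω := ω3) (ω' := ω') A B, hc, one_mul]
    · push_cast; linear_combination (-(v : ℂ)) * hsq'
    · push_cast; linear_combination (-(v : ℂ)) * hsq
  have R2 : ∀ v : ℝ, Psi (ω3 - 1) (ω' - 1) A B 0 v = ω3 * Psi (ω3 - 1) (ω' - 1) A B (1 - v) 0 := by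
    intro v
    rw [Psi_scale (u := 1 - v) (v := 0) (ω := ω') (ω' := ω3) A B, hc', one_mul]
    · push_cast; linear_combination (-(1 - v : ℂ)) * hω
    · push_cast; linear_combination (-(1 - v : ℂ)) * hω
  have R3 : ∀ u : ℝ, Psi (ω3 - 1) (ω' - 1) A B u (1 - u) = ω' * Psi (ω3 - 1) (ω' - 1) A B (1 - u) 0 := by
    intro u
    have := R1 (1 - u)
    rw [sub_sub_cancel] at this
    exact this
  simp only [R1, R2, R3] at key
  rw [intervalIntegral.integral_sub ((Psi_ii _ _ A B).const_mul _) ((Psi_ii' _ _ A B).const_mul _),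
    intervalIntegral.integral_sub ((Psi_ii' _ _ A B).const_mul _) (Psi_ii _ _ A B)] at key
  simp only [intervalIntegral.integral_const_mul] at key
  rw [int_flip (fun v => Psi (ω3 - 1) (ω' - 1) A B v 0)] at key
  have hJ := J_formula hcube hω hAB
  rw [← hω'] at hJ
  set J := ∫ x in (0 : ℝ)..1, Psi (ω3 - 1) (ω' - 1) A B x 0
  set I := ∫ p in Tri, PsiI (ω3 - 1) (ω' - 1) A B p.1 p.2
  set R := ∫ x in (0 : ℝ)..1, x ^ A * (Fn ω3 0 (X ^ (B + 1))).eval (1 - x)
  have h3 : (Real.sqrt 3 : ℂ) * Real.sqrt 3 = 3 := by exact_mod_cast sqrt3_sq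
  have hs3 : (Real.sqrt 3 : ℂ) ≠ 0 := by
    intro h0; rw [h0] at h3; norm_num at h3
  have hdiff : ω3 - ω' = Complex.I * Real.sqrt 3 := by
    rw [hω']
    apply Complex.ext
    · simp [ω3]
    · simp [ω3]
  have hsum' : ω3 + ω' = -1 := by rw [hω2]; linear_combination hsum
  have hcoef : (ω' - 1) ^ 2 - (ω3 - 1) ^ 2 = 3 * Complex.I * Real.sqrt 3 := by
    linear_combination (-(ω3 - ω')) * hsum' + 3 * hdiff
  have hrhs : (ω' - 1) * (ω' * J - ω3 * J) - (ω3 - 1) * (ω' * J - J) = 3 * ((ω3 - 1) * J) := by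
    have e1 : ω' * ω' = ω3 := by rw [← hsq]; ring
    linear_combination (J) * e1 + (-2 * J) * hω
  rw [hrhs, hJ, hcoef] at key
  have hI : Complex.I ≠ 0 := Complex.I_ne_zero
  have key2 : (3 * Complex.I * Real.sqrt 3) * ((B + 1) * I) = (3 * Complex.I * Real.sqrt 3) * ((2 / Real.sqrt 3) * R) := by
    have : (3 * Complex.I * Real.sqrt 3) * ((2 / Real.sqrt 3) * R) = 3 * (2 * Complex.I * R) := by
      field_simp
    rw [this, ← key]
    ring
  have key3 := mul_left_cancel₀ (mul_ne_zero (mul_ne_zero (by norm_num) hI) hs3) key2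
  rw [key3]
  push_cast
  ring

lemma sq_moment (A B : ℕ) (hAB : A % 4 = B % 4) :
    (B + 1) * ∫ p in Sq, PsiI (Complex.I - 1) ((starRingEnd ℂ) Complex.I - 1) A B p.1 p.2 =
      ((2 * ∫ x in (0 : ℝ)..1, x ^ A * (Fn Complex.I 0 (X ^ (B + 1))).eval (1 - x) : ℝ) : ℂ) := by
  have hI2 := Complex.I_sq
  have hI4 : Complex.I ^ 4 = 1 := by linear_combination (Complex.I ^ 2 - 1) * hI2
  set ω' := (starRingEnd ℂ) Complex.I with hω'
  have hω2 : ω' = -Complex.I := by rw [hω']; simp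
  have hω : Complex.I * ω' = 1 := by rw [hω2]; linear_combination -hI2
  have hc := pow_cancel hI4 hω hAB
  have hc' : ω' ^ A * Complex.I ^ B = 1 := by
    have := pow_cancel hI4 hω hAB.symm
    linear_combination this
  have hc'' : (-1 : ℂ) ^ A * (-1) ^ B = 1 := by
    have h1 : A % 2 = B % 2 := by omega
    rw [← pow_add]
    apply Even.neg_one_pow
    rw [Nat.even_iff]; omega
  have key := sq_formula (Complex.I - 1) (ω' - 1) A B
  have R1 : ∀ v : ℝ, Psi (Complex.I - 1) (ω' - 1) A B 1 v = ω' * Psi (Complex.I - 1) (ω' - 1) A B v 0 := by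
    intro v
    rw [Psi_scale (u := v) (v := 0) (ω := Complex.I) (ω' := ω') A B, hc, one_mul]
    · rw [hω2]; push_cast; linear_combination (-(v : ℂ)) * hI2
    · rw [hω2]; push_cast; linear_combination (-(v : ℂ)) * hI2
  have R2 : ∀ v : ℝ, Psi (Complex.I - 1) (ω' - 1) A B 0 v = Complex.I * Psi (Complex.I - 1) (ω' - 1) A B (1 - v) 0 := by
    intro v
    rw [Psi_scale (u := 1 - v) (v := 0) (ω := ω') (ω' := Complex.I) A B, hc', one_mul]
    · push_cast; linear_combination (-(1 - v : ℂ)) * hω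
    · push_cast; linear_combination (-(1 - v : ℂ)) * hω
  have R3 : ∀ u : ℝ, Psi (Complex.I - 1) (ω' - 1) A B u 1 = -1 * Psi (Complex.I - 1) (ω' - 1) A B (1 - u) 0 := by
    intro u
    rw [Psi_scale (u := 1 - u) (v := 0) (ω := -1) (ω' := -1) A B, hc'', one_mul]
    · rw [hω2]; push_cast; ring
    · rw [hω2]; push_cast; ring
  simp only [R1, R2, R3] at key
  rw [intervalIntegral.integral_sub ((Psi_ii _ _ A B).const_mul _) ((Psi_ii' _ _ A B).const_mul _),
    intervalIntegral.integral_sub ((Psi_ii' _ _ A B).const_mul _) (Psi_ii _ _ A B)] at key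
  simp only [intervalIntegral.integral_const_mul] at key
  rw [int_flip (fun v => Psi (Complex.I - 1) (ω' - 1) A B v 0)] at key
  have hJ := J_formula hI4 hω hAB
  rw [← hω'] at hJ
  set J := ∫ x in (0 : ℝ)..1, Psi (Complex.I - 1) (ω' - 1) A B x 0
  set I := ∫ p in Sq, PsiI (Complex.I - 1) (ω' - 1) A B p.1 p.2
  set R := ∫ x in (0 : ℝ)..1, x ^ A * (Fn Complex.I 0 (X ^ (B + 1))).eval (1 - x)
  have hcoef : (ω' - 1) ^ 2 - (Complex.I - 1) ^ 2 = 4 * Complex.I := by
    rw [hω2]; ring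
  have hrhs : (ω' - 1) * (ω' * J - Complex.I * J) - (Complex.I - 1) * (-1 * J - J) = 4 * ((Complex.I - 1) * J) := by
    rw [hω2]; linear_combination (2 * J) * hI2
  rw [hrhs, hJ, hcoef] at key
  have hI : Complex.I ≠ 0 := Complex.I_ne_zero
  have key2 : (4 * Complex.I) * ((B + 1) * I) = (4 * Complex.I) * (2 * R) := by
    linear_combination key
  have key3 := mul_left_cancel₀ (mul_ne_zero (by norm_num) hI) key2
  rw [key3]
  push_cast
  ring

end Pool.Agent.H766R2.Berg
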