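import Mathlib
import Pool.Agent.H766R2.BergMoment

/-!
# The numerical data for the triangle and the square
-/

open Finset Polynomial MeasureTheory

namespace Pool.Agent.H766R2.Berg

lemma compactK3 : IsCompact (K 3) := by
  apply Set.Finite.isCompact_convexHull
  apply Set.Finite.subset (s := {1, ω3, (starRingEnd ℂ) ω3}) (by simp)
  intro z hz
  have := (roots3 z).mp hz
  simpa using this

lemma compactK4 : IsCompact (K 4) := by
  apply Set.Finite.isCompact_convexHull
  apply Set.Finite.subset (s := {1, Complex.I, -Complex.I, -1}) (by simp)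
  intro z hz
  have := (roots4 z).mp hz
  simpa using this

lemma transfer {N : ℕ} {ω : ℂ} (hK : IsCompact (K N)) (h1 : (ω - 1).re ≠ 0) (h2 : (ω - 1).im ≠ 0)
    (s : Set (ℝ × ℝ)) (hs : par (ω - 1) ⁻¹' (K N) = s) :
    ∃ c : ℝ, 0 < c ∧ ∀ A B : ℕ, ∫ z in K N, z ^ A * ((starRingEnd ℂ) z) ^ B =
      c * ∫ p in s, PsiI (ω - 1) ((starRingEnd ℂ) ω - 1) A B p.1 p.2 := by
  obtain ⟨c, hc, h⟩ := exists_const (ω - 1) h1 h2
  refine ⟨c, hc, ?_⟩
  intro A B
  have hconj : (starRingEnd ℂ) (ω - 1) = (starRingEnd ℂ) ω - 1 := by simp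
  have hmeas : MeasurableSet (K N) := hK.isClosed.measurableSet
  have hpc : Continuous (par (ω - 1)) := by unfold par; fun_prop
  have hsmeas : MeasurableSet s := by
    rw [← hs]
    exact hpc.measurable hmeas
  have key := h ((K N).indicator (fun z => z ^ A * ((starRingEnd ℂ) z) ^ B))
  rw [integral_indicator hmeas] at key
  rw [key, ← integral_indicator hsmeas]
  congr 1
  refine integral_congr_ae (Filter.Eventually.of_forall fun p => ?_)
  simp only
  have hmem : (1 + (p.1 : ℂ) * (ω - 1) + p.2 * (starRingEnd ℂ) (ω - 1)) ∈ K N ↔ p ∈ s := by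
    rw [← hs]; rfl
  by_cases hp : p ∈ s
  · rw [Set.indicator_of_mem hp, Set.indicator_of_mem (hmem.mpr hp)]
    unfold PsiI
    rw [hconj]
    congr 2
    simp only [map_add, map_mul, map_one, Complex.conj_ofReal, map_sub, Complex.conj_conj]
  · rw [Set.indicator_of_notMem hp, Set.indicator_of_notMem (fun h => hp (hmem.mp h))]

theorem good3 : Good 3 ω3 where
  data := data3
  inj := by
    intro A B h
    have hω3 : ω3 ≠ 1 := by
      intro h0
      have := congrArg Complex.re h0
      simp [ω3] at this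
      norm_num at this
    have h1 : ω3 ^ (A % 3) = ω3 ^ (B % 3) := by
      rw [← pow_eq_pow_mod A ω3_cube, ← pow_eq_pow_mod B ω3_cube]; exact h
    have hprim : IsPrimitiveRoot ω3 3 := by
      apply IsPrimitiveRoot.mk_of_lt _ (by norm_num) ω3_cube
      intro l hl0 hl3 hl
      interval_cases l
      · exact hω3 (by simpa using hl)
      · apply hω3
        calc ω3 = ω3 ^ 3 := by rw [pow_succ, hl, one_mul]
          _ = 1 := ω3_cube
    exact hprim.pow_inj (Nat.mod_lt _ (by norm_num)) (Nat.mod_lt _ (by norm_num)) h1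
  conj := by rw [ω3_conj, ← ω3_cube]; ring
  compactK := compactK3
  moment := by
    have hre : (ω3 - 1).re ≠ 0 := by simp [ω3]; norm_num
    have him : (ω3 - 1).im ≠ 0 := by simp [ω3]
    obtain ⟨c, hc, h⟩ := transfer compactK3 hre him Tri region3
    have hs : 0 < Real.sqrt 3 := by positivity
    refine ⟨c * (2 / Real.sqrt 3), by positivity, ?_⟩
    intro A B hAB
    have hB : (B + 1 : ℂ) ≠ 0 := by exact_mod_cast Nat.succ_ne_zero B
    have h1 := tri_moment A B hAB
    rw [h A B]
    apply mul_left_cancel₀ hB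
    calc (B + 1 : ℂ) * (c * ∫ p in Tri, PsiI (ω3 - 1) ((starRingEnd ℂ) ω3 - 1) A B p.1 p.2)
        = c * ((B + 1) * ∫ p in Tri, PsiI (ω3 - 1) ((starRingEnd ℂ) ω3 - 1) A B p.1 p.2) := by ring
      _ = _ := by
        rw [h1]
        push_cast
        field_simp

theorem good4 : Good 4 Complex.I where
  data := data4
  inj := by
    intro A B h
    have hI4 : Complex.I ^ 4 = 1 := Complex.I_pow_four
    have h1 : Complex.I ^ (A % 4) = Complex.I ^ (B % 4) := by
      rw [← pow_eq_pow_mod A hI4, ← pow_eq_pow_mod B hI4]; exact h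
    have hprim : IsPrimitiveRoot Complex.I 4 := by
      apply IsPrimitiveRoot.mk_of_lt _ (by norm_num) hI4
      intro l hl0 hl3 hl
      interval_cases l
      · have := congrArg Complex.re hl; simp at this
      · rw [Complex.I_sq] at hl; norm_num at hl
      · rw [pow_succ, Complex.I_sq] at hl
        have := congrArg Complex.re hl; simp at this
    exact hprim.pow_inj (Nat.mod_lt _ (by norm_num)) (Nat.mod_lt _ (by norm_num)) h1
  conj := by simp
  compactK := compactK4
  moment := by
    have hre : (Complex.I - 1).re ≠ 0 := by simp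
    have him : (Complex.I - 1).im ≠ 0 := by simp
    obtain ⟨c, hc, h⟩ := transfer compactK4 hre him Sq region4
    refine ⟨c * 2, by positivity, ?_⟩
    intro A B hAB
    have hB : (B + 1 : ℂ) ≠ 0 := by exact_mod_cast Nat.succ_ne_zero B
    have h1 := sq_moment A B hAB
    rw [h A B]
    apply mul_left_cancel₀ hB
    calc (B + 1 : ℂ) * (c * ∫ p in Sq, PsiI (Complex.I - 1) ((starRingEnd ℂ) Complex.I - 1) A B p.1 p.2)
        = c * ((B + 1) * ∫ p in Sq, PsiI (Complex.I - 1) ((starRingEnd ℂ) Complex.I - 1) A B p.1 p.2) := by ring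
      _ = _ := by
        rw [h1]
        push_cast
        field_simp

/-! ### Rotation invariance -/

lemma K_rot {N : ℕ} {ζ : ℂ} (hζ : ζ ^ N = 1) {z : ℂ} (hz : z ∈ K N) : ζ * z ∈ K N := by
  have : K N ⊆ (fun z => ζ * z) ⁻¹' (K N) := by
    apply convexHull_min
    · intro w hw
      apply subset_convexHull
      show (ζ * w) ^ N = 1
      rw [mul_pow, hζ, one_mul]; exact hw
    · have : Convex ℝ ((LinearMap.mulLeft ℝ ζ) ⁻¹' (K N)) := (convex_convexHull ℝ _).linear_preimage _
      exact this
  exact this hz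

lemma moment_diff {N : ℕ} {ω : ℂ} (h : Good N ω) {A B : ℕ} (hAB : A % N ≠ B % N) :
    ∫ z in K N, z ^ A * ((starRingEnd ℂ) z) ^ B = 0 := by
  have hωN := h.data.ωN
  have hnorm : ‖ω‖ = 1 := by
    have := h.conj
    rw [Complex.mul_conj] at this
    have h2 : Complex.normSq ω = 1 := by exact_mod_cast this
    rw [← Complex.sq_norm] at h2
    nlinarith [norm_nonneg ω]
  have hωc : (starRingEnd ℂ) ω ^ N = 1 := by rw [← map_pow, hωN, map_one]
  set a : Circle := ⟨ω, by rw [Submonoid.unitSphere, ← Submonoid.mem_carrier]; simpa using hnorm⟩ with ha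
  have hmp : MeasurePreserving (rotation a) (volume : Measure ℂ) volume :=
    LinearIsometryEquiv.measurePreserving (rotation a)
  have hemb : MeasurableEmbedding (rotation a) := (rotation a).toHomeomorph.measurableEmbedding
  have hpre : (rotation a) ⁻¹' (K N) = K N := by
    ext z
    simp only [Set.mem_preimage, rotation_apply]
    constructor
    · intro hz
      have := K_rot hωc hz
      rw [ha] at this
      simp only at this
      have e : (starRingEnd ℂ) ω * (ω * z) = z := by
        rw [← mul_assoc, mul_comm _ ω, h.conj, one_mul]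
      rw [e] at this
      exact this
    · intro hz
      exact K_rot hωN hz
  have key := hmp.setIntegral_preimage_emb hemb (fun z => z ^ A * ((starRingEnd ℂ) z) ^ B) (K N)
  rw [hpre] at key
  have e : ∀ z : ℂ, (rotation a z) ^ A * ((starRingEnd ℂ) (rotation a z)) ^ B =
      (ω ^ A * ((starRingEnd ℂ) ω) ^ B) * (z ^ A * ((starRingEnd ℂ) z) ^ B) := by
    intro z
    rw [rotation_apply, map_mul, mul_pow, mul_pow, ha]
    ring
  simp only [e] at key
  rw [integral_const_mul] at key
  have hne : ω ^ A * ((starRingEnd ℂ) ω) ^ B ≠ 1 := by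
    intro h0
    apply hAB
    apply h.inj
    calc ω ^ A = ω ^ A * (ω * (starRingEnd ℂ) ω) ^ B := by rw [h.conj]; ring
      _ = (ω ^ A * ((starRingEnd ℂ) ω) ^ B) * ω ^ B := by ring
      _ = ω ^ B := by rw [h0, one_mul]
  have : (ω ^ A * ((starRingEnd ℂ) ω) ^ B - 1) * ∫ z in K N, z ^ A * ((starRingEnd ℂ) z) ^ B = 0 := by
    rw [sub_mul, one_mul, key, sub_self]
  exact (mul_eq_zero.mp this).resolve_left (sub_ne_zero.mpr hne)

end Pool.Agent.H766R2.Berg
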