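import Mathlib
import Pool.Agent.H766R2.BergRolle

/-!
# From orthogonality to real, simple, interlacing zeros
-/

open Finset Polynomial

namespace Pool.Agent.H766R2.Berg

lemma lin_exists {ι : Type*} [Fintype ι] (n : ℕ) (hcard : Fintype.card ι < n) (A : Fin n → ι → ℝ) :
    ∃ c : Fin n → ℝ, c ≠ 0 ∧ ∀ i, ∑ l, c l * A l i = 0 := by
  by_contra hcon
  push Not at hcon
  have hinj : Function.Injective (Fintype.linearCombination ℝ A) := by
    rw [← LinearMap.ker_eq_bot, LinearMap.ker_eq_bot']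
    intro c hc
    by_contra hc0
    obtain ⟨i, hi⟩ := hcon c hc0
    apply hi
    have := congrFun hc i
    simpa [Fintype.linearCombination_apply] using this
  have := LinearMap.finrank_le_finrank_of_injective hinj
  rw [Module.finrank_fin_fun, Module.finrank_fintype_fun_eq_card] at this
  omega

lemma const_sign (v : ℝ[X]) (hv : ∀ x, 0 < x → x < 1 → v.eval x ≠ 0) :
    (∀ x, 0 < x → x < 1 → 0 < v.eval x) ∨ (∀ x, 0 < x → x < 1 → v.eval x < 0) := by
  by_contra hcon
  push Not at hcon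
  obtain ⟨⟨x, hx0, hx1, hx⟩, ⟨y, hy0, hy1, hy⟩⟩ := hcon
  have hx' : v.eval x < 0 := lt_of_le_of_ne hx (hv x hx0 hx1)
  have hy' : 0 < v.eval y := lt_of_le_of_ne hy (hv y hy0 hy1).symm
  have hconn : IsPreconnected (Set.Ioo (0 : ℝ) 1) := isPreconnected_Ioo
  have := hconn.intermediate_value (a := x) (b := y) ⟨hx0, hx1⟩ ⟨hy0, hy1⟩ (f := fun t => v.eval t)
    v.continuous.continuousOn
  obtain ⟨z, hz, hz2⟩ := this ⟨hx'.le, hy'.le⟩
  exact hv z hz.1 hz.2 hz2

/-- factorisation into sign changes and a factor of constant sign -/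
lemma sign_factor : ∀ n : ℕ, ∀ q : ℝ[X], q ≠ 0 → q.natDegree = n → ∃ S : Finset ℝ, (∀ s ∈ S, 0 < s ∧ s < 1) ∧
    ∃ u : ℝ[X], q = (∏ s ∈ S, (X - C s)) * u ∧
      ((∀ x, 0 < x → x < 1 → 0 ≤ u.eval x) ∨ (∀ x, 0 < x → x < 1 → u.eval x ≤ 0)) := by
  intro n
  induction n with
  | zero =>
    intro q hq hn
    refine ⟨∅, by simp, q, by simp, ?_⟩
    rw [eq_C_of_natDegree_eq_zero hn]
    simp only [eval_C]
    rcases le_total 0 (q.coeff 0) with h | h
    · left; intros; exact h
    · right; intros; exact h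
  | succ n ih =>
    intro q hq hn
    by_cases hroot : ∃ s, 0 < s ∧ s < 1 ∧ q.eval s = 0
    · obtain ⟨s, hs0, hs1, hs⟩ := hroot
      obtain ⟨q1, hq1⟩ := dvd_iff_isRoot.mpr hs
      have hq1ne : q1 ≠ 0 := by rintro rfl; simp at hq1; exact hq hq1
      have hdeg : q1.natDegree = n := by
        rw [hq1, natDegree_mul (X_sub_C_ne_zero s) hq1ne, natDegree_X_sub_C] at hn
        omega
      obtain ⟨S, hS, u, hu, hsgn⟩ := ih q1 hq1ne hdeg
      by_cases hsS : s ∈ S
      · refine ⟨S.erase s, fun t ht => hS t (mem_of_mem_erase ht), (X - C s) ^ 2 * u, ?_, ?_⟩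
        · rw [hq1, hu, ← mul_prod_erase S _ hsS]
          ring
        · rcases hsgn with h | h
          · left
            intro x h0 h1
            simp only [eval_mul, eval_pow, eval_sub, eval_X, eval_C]
            exact mul_nonneg (sq_nonneg _) (h x h0 h1)
          · right
            intro x h0 h1
            simp only [eval_mul, eval_pow, eval_sub, eval_X, eval_C]
            exact mul_nonpos_of_nonneg_of_nonpos (sq_nonneg _) (h x h0 h1)
      · refine ⟨insert s S, ?_, u, ?_, hsgn⟩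
        · intro t ht
          rcases mem_insert.mp ht with rfl | ht
          · exact ⟨hs0, hs1⟩
          · exact hS t ht
        · rw [prod_insert hsS, hq1, hu]; ring
    · push Not at hroot
      refine ⟨∅, by simp, q, by simp, ?_⟩
      rcases const_sign q (fun x h0 h1 => hroot x h0 h1) with h | h
      · left; intro x h0 h1; exact (h x h0 h1).le
      · right; intro x h0 h1; exact (h x h0 h1).le

/-- nonzero polynomials that are nonnegative on `(0,1)` have positive integral -/
lemma integral_pos_of_nonneg (H : ℝ[X]) (hH : H ≠ 0) (h : ∀ x, 0 < x → x < 1 → 0 ≤ H.eval x) :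
    0 < ∫ x in (0 : ℝ)..1, H.eval x := by
  have hclosed : ∀ x ∈ Set.Icc (0 : ℝ) 1, 0 ≤ H.eval x := by
    intro x hx
    have hcl : IsClosed {x : ℝ | 0 ≤ H.eval x} := isClosed_le continuous_const H.continuous
    have hsub : Set.Ioo (0 : ℝ) 1 ⊆ {x : ℝ | 0 ≤ H.eval x} := fun x hx => h x hx.1 hx.2
    have := closure_minimal hsub hcl
    rw [closure_Ioo (by norm_num)] at this
    exact this hx
  apply intervalIntegral.integral_pos (by norm_num) H.continuous.continuousOn
  · intro x hx
    exact hclosed x ⟨hx.1.le, hx.2⟩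
  · -- a point which is not a root
    by_contra hcon
    push Not at hcon
    apply hH
    apply Polynomial.eq_zero_of_infinite_isRoot
    apply Set.Infinite.mono (s := Set.Icc (0 : ℝ) 1)
    · intro x hx
      exact le_antisymm (hcon x hx) (hclosed x hx)
    · exact Set.Icc_infinite (by norm_num)

lemma Fn_zero_sum (ω : ℂ) (n : ℕ) (c : Fin n → ℝ) (e : Fin n → ℕ) (y : ℝ) :
    (Fn ω 0 (∑ l, C (c l) * X ^ (e l))).eval y = ∑ l, c l * (Fn ω 0 (X ^ (e l))).eval y := by
  simp only [Fn_eval, pow_zero, one_mul]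
  rw [Polynomial.map_sum, eval_finsetSum, Complex.im_sum]
  refine sum_congr rfl fun l _ => ?_
  simp only [Polynomial.map_mul, map_C, Polynomial.map_pow, map_X, eval_mul, eval_C, eval_pow, eval_X,
    Complex.coe_algebraMap]
  rw [Complex.im_ofReal_mul]

/-- The orthogonality relations in one variable. -/
def Orth (N k : ℕ) (ω : ℂ) (j : ℕ) (q : ℝ[X]) : Prop :=
  ∀ l < j, ∫ x in (0 : ℝ)..1, x ^ k * q.eval (x ^ N) * (Fn ω 0 (X ^ (k + 1 + N * l))).eval (1 - x) = 0

lemma orth_add {N k j : ℕ} {ω : ℂ} {p q : ℝ[X]} (hp : Orth N k ω j p) (hq : Orth N k ω j q) (α : ℝ) :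
    Orth N k ω j (p + C α * q) := by
  intro l hl
  have h1 := hp l hl
  have h2 := hq l hl
  have e : ∀ x : ℝ, x ^ k * (p + C α * q).eval (x ^ N) * (Fn ω 0 (X ^ (k + 1 + N * l))).eval (1 - x) =
      x ^ k * p.eval (x ^ N) * (Fn ω 0 (X ^ (k + 1 + N * l))).eval (1 - x) +
      α * (x ^ k * q.eval (x ^ N) * (Fn ω 0 (X ^ (k + 1 + N * l))).eval (1 - x)) := by
    intro x
    simp only [eval_add, eval_mul, eval_C]
    ring
  simp only [e]
  rw [intervalIntegral.integral_add, intervalIntegral.integral_const_mul, h1, h2]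
  · simp
  · apply Continuous.intervalIntegrable
    have := p.continuous
    have := (Fn ω 0 (X ^ (k + 1 + N * l))).continuous
    fun_prop
  · apply Continuous.intervalIntegrable
    have := q.continuous
    have := (Fn ω 0 (X ^ (k + 1 + N * l))).continuous
    fun_prop

/-- Key lemma: at least `j` sign changes. -/
lemma card_ge {N k : ℕ} {ω : ℂ} (h : Data N ω) (hk : k < N) (j : ℕ) (q : ℝ[X]) (hq : q ≠ 0)
    (ho : Orth N k ω j q) (S : Finset ℝ) (hS : ∀ s ∈ S, 0 < s ∧ s < 1) (u : ℝ[X])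
    (hu : q = (∏ s ∈ S, (X - C s)) * u)
    (hsgn : (∀ x, 0 < x → x < 1 → 0 ≤ u.eval x) ∨ (∀ x, 0 < x → x < 1 → u.eval x ≤ 0)) :
    j ≤ S.card := by
  by_contra hcon
  push Not at hcon
  set r := S.card with hr
  have hN := h.hN
  -- the points
  set rt : ℝ → ℝ := fun s => s ^ ((N : ℝ)⁻¹) with hrt
  have hrtpow : ∀ s, 0 < s → rt s ^ N = s := fun s hs => Real.rpow_inv_natCast_pow hs.le hN.ne'
  have hrtpos : ∀ s, 0 < s → 0 < rt s := fun s hs => Real.rpow_pos_of_pos hs _
  have hrtlt : ∀ s, 0 < s → s < 1 → rt s < 1 := by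
    intro s h0 h1
    exact Real.rpow_lt_one h0.le h1 (by positivity)
  obtain ⟨c, hc0, hc⟩ := lin_exists (ι := S) (r + 1) (by simp [hr])
    (fun l s => (Fn ω 0 (X ^ (k + 1 + N * (l : ℕ)))).eval (1 - rt (s : ℝ)))
  set G : ℝ[X] := ∑ l : Fin (r + 1), C (c l) * X ^ (k + 1 + N * (l : ℕ)) with hG
  have hGc : ∀ i, G.coeff i ≠ 0 → ∃ l : Fin (r + 1), i = k + 1 + N * (l : ℕ) ∧ c l ≠ 0 := by
    intro i hi
    rw [hG, finsetSum_coeff] at hi
    obtain ⟨l, _, hl⟩ := exists_ne_zero_of_sum_ne_zero hi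
    rw [coeff_C_mul, coeff_X_pow] at hl
    refine ⟨l, ?_, left_ne_zero_of_mul hl⟩
    by_contra h1
    rw [if_neg h1] at hl
    simp at hl
  have hGcoef : ∀ l : Fin (r + 1), G.coeff (k + 1 + N * (l : ℕ)) = c l := by
    intro l
    rw [hG, finsetSum_coeff, sum_eq_single l]
    · simp
    · intro b _ hb
      rw [coeff_C_mul, coeff_X_pow, if_neg, mul_zero]
      intro h1
      apply hb
      have h2 : N * (l : ℕ) = N * (b : ℕ) := by omega
      exact (Fin.ext (Nat.eq_of_mul_eq_mul_left hN h2)).symm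
    · simp
  have hG0 : G ≠ 0 := by
    intro h0
    apply hc0
    funext l
    rw [← hGcoef l, h0]
    simp
  obtain ⟨l0, hl0, _⟩ := hGc G.natDegree (by
    rw [coeff_natDegree]; exact leadingCoeff_ne_zero.mpr hG0)
  have hhom : Homog N G := by
    intro i hi
    obtain ⟨l, hl, _⟩ := hGc i hi
    rw [hl0, hl]
    simp [Nat.add_mul_mod_self_left]
  obtain ⟨hF0, hMF⟩ := cheb h G.natDegree (by omega) G rfl hhom
  have hMr : M (Fn ω 0 G) ≤ r := by
    refine hMF.trans ?_
    rw [hl0]
    have h1 : (l0 : ℕ) ≤ r := Nat.lt_succ_iff.mp l0.2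
    have h2 : k + 1 + N * (l0 : ℕ) - 1 ≤ k + N * r := by
      have := Nat.mul_le_mul_left N h1
      omega
    calc (k + 1 + N * (l0 : ℕ) - 1) / N ≤ (k + N * r) / N := Nat.div_le_div_right h2
      _ = r := by rw [Nat.add_mul_div_left _ _ hN, Nat.div_eq_of_lt hk, zero_add]
  set F := Fn ω 0 G with hF
  have hFroot : ∀ s ∈ S, F.eval (1 - rt s) = 0 := by
    intro s hs
    rw [hF, hG, Fn_zero_sum]
    exact hc ⟨s, hs⟩
  set Y : Finset ℝ := S.image (fun s => 1 - rt s) with hY
  have hinj : Set.InjOn (fun s => 1 - rt s) (S : Set ℝ) := by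
    intro s hs t ht hst
    simp only at hst
    have : rt s = rt t := by linarith
    rw [← hrtpow s (hS s hs).1, ← hrtpow t (hS t ht).1, this]
  have hYcard : Y.card = r := by rw [hY, card_image_of_injOn hinj]
  have hYmem : ∀ y ∈ Y, 0 < y ∧ y < 1 := by
    intro y hy
    rw [hY, mem_image] at hy
    obtain ⟨s, hs, rfl⟩ := hy
    have h1 := hrtpos s (hS s hs).1
    have h2 := hrtlt s (hS s hs).1 (hS s hs).2
    constructor <;> linarith
  have hdvd : (∏ y ∈ Y, (X - C y)) ∣ F := by
    apply Finset.prod_dvd_of_coprime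
    · intro x _ y _ hxy
      apply isCoprime_X_sub_C_of_isUnit_sub
      rw [isUnit_iff_ne_zero, sub_ne_zero]
      exact hxy
    · intro y hy
      rw [hY, mem_image] at hy
      obtain ⟨s, hs, rfl⟩ := hy
      exact dvd_iff_isRoot.mpr (hFroot s hs)
  obtain ⟨v, hv⟩ := hdvd
  have hPv : (∏ y ∈ Y, (X - C y)) * v ≠ 0 := by rw [← hv]; exact hF0
  have hv0 : v ≠ 0 := right_ne_zero_of_mul hPv
  have hMY : M (∏ y ∈ Y, (X - C y)) = r := by
    unfold M
    rw [roots_prod_X_sub_C, ← hYcard]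
    have : Multiset.filter (fun x => 0 < x ∧ x < 1) Y.val = Y.val := by
      rw [Multiset.filter_eq_self]
      intro y hy
      exact hYmem y hy
    rw [this]
    rfl
  have hMv : M v = 0 := by
    have := M_mul hPv
    rw [← hv, hMY] at this
    omega
  have hvs := const_sign v ((M_eq_zero_iff hv0).mp hMv)
  -- the product polynomial
  set H : ℝ[X] := X ^ k * q.comp (X ^ N) * F.comp (1 - X) with hH
  have hHne : H ≠ 0 := by
    rw [hH]
    apply mul_ne_zero (mul_ne_zero (pow_ne_zero _ X_ne_zero) _) _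
    · intro h0
      rw [comp_eq_zero_iff] at h0
      rcases h0 with h0 | ⟨_, h0⟩
      · exact hq h0
      · have : (X ^ N : ℝ[X]).natDegree = 0 := by rw [h0]; exact natDegree_C _
        rw [natDegree_X_pow] at this
        omega
    · intro h0
      rw [comp_eq_zero_iff] at h0
      rcases h0 with h0 | ⟨_, h0⟩
      · exact hF0 h0
      · have h1 : (1 - X : ℝ[X]).natDegree = 0 := by rw [h0]; exact natDegree_C _
        have h2 : (1 - X : ℝ[X]).natDegree = 1 := by
          have : (1 - X : ℝ[X]) = -(X - C 1) := by simp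
          rw [this, natDegree_neg, natDegree_X_sub_C]
        omega
  have hHeval : ∀ x, H.eval x = x ^ k * q.eval (x ^ N) * F.eval (1 - x) := by
    intro x; rw [hH]; simp [eval_comp]
  have hHfac : ∀ x, H.eval x = (x ^ k * ∏ s ∈ S, ((x ^ N - s) * (rt s - x))) * (u.eval (x ^ N) * v.eval (1 - x)) := by
    intro x
    rw [hHeval, hu, hv, eval_mul, eval_mul, eval_prod, eval_prod, hY, prod_image hinj, prod_mul_distrib]
    simp only [eval_sub, eval_X, eval_C]
    have : ∏ s ∈ S, (1 - x - (1 - rt s)) = ∏ s ∈ S, (rt s - x) := by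
      refine prod_congr rfl fun s _ => by ring
    rw [this]
    ring
  -- sign of the explicit part
  have hsign1 : ∀ x, 0 < x → 0 ≤ (-1) ^ r * (x ^ k * ∏ s ∈ S, ((x ^ N - s) * (rt s - x))) := by
    intro x hx
    have e : (-1 : ℝ) ^ r * (x ^ k * ∏ s ∈ S, ((x ^ N - s) * (rt s - x))) =
        x ^ k * ∏ s ∈ S, ((x ^ N - s) * (x - rt s)) := by
      have : ∏ s ∈ S, ((x ^ N - s) * (x - rt s)) = (-1) ^ r * ∏ s ∈ S, ((x ^ N - s) * (rt s - x)) := by
        rw [hr, ← prod_const, ← prod_mul_distrib]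
        refine prod_congr rfl fun s _ => by ring
      rw [this]; ring
    rw [e]
    apply mul_nonneg (by positivity)
    apply prod_nonneg
    intro s hs
    have h0 := hrtpos s (hS s hs).1
    have h1 := hrtpow s (hS s hs).1
    rcases le_total x (rt s) with h2 | h2
    · have : x ^ N ≤ s := by rw [← h1]; exact pow_le_pow_left₀ hx.le h2 N
      exact mul_nonneg_of_nonpos_of_nonpos (by linarith) (by linarith)
    · have : s ≤ x ^ N := by rw [← h1]; exact pow_le_pow_left₀ h0.le h2 N
      exact mul_nonneg (by linarith) (by linarith)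
  have hsign2 : (∀ x, 0 < x → x < 1 → 0 ≤ u.eval (x ^ N) * v.eval (1 - x)) ∨
      (∀ x, 0 < x → x < 1 → u.eval (x ^ N) * v.eval (1 - x) ≤ 0) := by
    have hxN : ∀ x : ℝ, 0 < x → x < 1 → 0 < x ^ N ∧ x ^ N < 1 := fun x h0 h1 =>
      ⟨by positivity, pow_lt_one₀ h0.le h1 hN.ne'⟩
    rcases hsgn with h1 | h1 <;> rcases hvs with h2 | h2
    · left; intro x h3 h4
      exact mul_nonneg (h1 _ (hxN x h3 h4).1 (hxN x h3 h4).2) (h2 _ (by linarith) (by linarith)).le
    · right; intro x h3 h4
      exact mul_nonpos_of_nonneg_of_nonpos (h1 _ (hxN x h3 h4).1 (hxN x h3 h4).2) (h2 _ (by linarith) (by linarith)).le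
    · right; intro x h3 h4
      exact mul_nonpos_of_nonpos_of_nonneg (h1 _ (hxN x h3 h4).1 (hxN x h3 h4).2) (h2 _ (by linarith) (by linarith)).le
    · left; intro x h3 h4
      exact mul_nonneg_of_nonpos_of_nonpos (h1 _ (hxN x h3 h4).1 (hxN x h3 h4).2) (h2 _ (by linarith) (by linarith)).le
  -- integral is zero
  have hint : ∫ x in (0 : ℝ)..1, H.eval x = 0 := by
    have e : ∀ x, H.eval x = ∑ l : Fin (r + 1), c l *
        (x ^ k * q.eval (x ^ N) * (Fn ω 0 (X ^ (k + 1 + N * (l : ℕ)))).eval (1 - x)) := by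
      intro x
      rw [hHeval, hF, hG, Fn_zero_sum, mul_sum]
      refine sum_congr rfl fun l _ => by ring
    simp only [e]
    rw [intervalIntegral.integral_finsetSum]
    · apply sum_eq_zero
      intro l _
      rw [intervalIntegral.integral_const_mul, ho l (by have := l.2; omega), mul_zero]
    · intro l _
      apply Continuous.intervalIntegrable
      have := q.continuous
      have := (Fn ω 0 (X ^ (k + 1 + N * (l : ℕ)))).continuous
      fun_prop
  have habs : ((-1 : ℝ) ^ r) * ((-1 : ℝ) ^ r) = 1 := by rw [← mul_pow]; norm_num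
  -- final contradiction
  have key : ∀ ε : ℝ, ε ≠ 0 → (∀ x, 0 < x → x < 1 → 0 ≤ ε * H.eval x) → False := by
    intro ε hε hpos
    have h1 := integral_pos_of_nonneg (C ε * H) (mul_ne_zero (by simpa using hε) hHne)
      (by intro x h0 h1; rw [eval_mul, eval_C]; exact hpos x h0 h1)
    simp only [eval_mul, eval_C] at h1
    rw [intervalIntegral.integral_const_mul, hint] at h1
    simp at h1
  rcases hsign2 with h1 | h1
  · apply key ((-1) ^ r) (pow_ne_zero _ (by norm_num))
    intro x h0 h2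
    rw [hHfac, ← mul_assoc]
    exact mul_nonneg (hsign1 x h0) (h1 x h0 h2)
  · apply key (-(-1) ^ r) (neg_ne_zero.mpr (pow_ne_zero _ (by norm_num)))
    intro x h0 h2
    rw [hHfac]
    have h3 := hsign1 x h0
    have h4 := h1 x h0 h2
    nlinarith [mul_nonneg h3 (neg_nonneg.mpr h4)]

end Pool.Agent.H766R2.Berg
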