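import Mathlib
import Pool.Agent.H766R2.BergZeros

/-!
# Strict interlacing
-/

open Finset Polynomial

namespace Pool.Agent.H766R2.Berg

/-- simple real zeros in `(0,1)` -/
lemma simple_roots {N k : ℕ} {ω : ℂ} (h : Data N ω) (hk : k < N) (j : ℕ) (q : ℝ[X]) (hq : q ≠ 0)
    (hd : q.natDegree = j) (ho : Orth N k ω j q) :
    ∃ S : Finset ℝ, S.card = j ∧ (∀ s ∈ S, 0 < s ∧ s < 1) ∧ q.roots = S.val ∧
      ∀ x, q.eval x = 0 → (derivative q).eval x ≠ 0 := by
  obtain ⟨S, hS, u, hu, hsgn⟩ := sign_factor _ q hq rfl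
  have hc := card_ge h hk j q hq ho S hS u hu hsgn
  have hu0 : u ≠ 0 := by rintro rfl; simp at hu; exact hq hu
  have hP0 : (∏ s ∈ S, (X - C s) : ℝ[X]) ≠ 0 := prod_ne_zero_iff.mpr fun s _ => X_sub_C_ne_zero s
  have hPd : (∏ s ∈ S, (X - C s) : ℝ[X]).natDegree = S.card := by
    rw [natDegree_prod _ _ (fun s _ => X_sub_C_ne_zero s)]
    simp
  have hdeg : q.natDegree = S.card + u.natDegree := by
    rw [hu, natDegree_mul hP0 hu0, hPd]
  have hu1 : u.natDegree = 0 := by omega
  have hcard : S.card = j := by omega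
  rw [eq_C_of_natDegree_eq_zero hu1] at hu
  set c := u.coeff 0
  have hc0 : c ≠ 0 := by
    intro h0
    rw [h0] at hu
    simp at hu
    exact hq hu
  have hroots : q.roots = S.val := by
    rw [hu, mul_comm, roots_C_mul _ hc0, roots_prod_X_sub_C]
  refine ⟨S, hcard, hS, hroots, ?_⟩
  intro x hx hx'
  have h1 : 1 < q.rootMultiplicity x := (one_lt_rootMultiplicity_iff_isRoot hq).mpr ⟨hx, hx'⟩
  rw [← count_roots, hroots] at h1
  have := Multiset.nodup_iff_count_le_one.mp S.nodup x
  omega

/-- quasi-orthogonal combinations have no double real zero -/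
lemma no_double {N k : ℕ} {ω : ℂ} (h : Data N ω) (hk : k < N) (j : ℕ) (q : ℝ[X]) (hq : q ≠ 0)
    (hd : q.natDegree = j + 1) (ho : Orth N k ω j q) :
    ∀ x, q.eval x = 0 → (derivative q).eval x ≠ 0 := by
  intro x hx hx'
  have hmult : 1 < q.rootMultiplicity x := (one_lt_rootMultiplicity_iff_isRoot hq).mpr ⟨hx, hx'⟩
  obtain ⟨S, hS, u, hu, hsgn⟩ := sign_factor _ q hq rfl
  have hc := card_ge h hk j q hq ho S hS u hu hsgn
  have hu0 : u ≠ 0 := by rintro rfl; simp at hu; exact hq hu
  have hP0 : (∏ s ∈ S, (X - C s) : ℝ[X]) ≠ 0 := prod_ne_zero_iff.mpr fun s _ => X_sub_C_ne_zero s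
  have hPd : (∏ s ∈ S, (X - C s) : ℝ[X]).natDegree = S.card := by
    rw [natDegree_prod _ _ (fun s _ => X_sub_C_ne_zero s)]
    simp
  have hdeg : q.natDegree = S.card + u.natDegree := by
    rw [hu, natDegree_mul hP0 hu0, hPd]
  have hu1 : u.natDegree ≤ 1 := by omega
  have hcount : q.rootMultiplicity x = S.val.count x + u.rootMultiplicity x := by
    rw [hu, rootMultiplicity_mul (mul_ne_zero hP0 hu0), ← count_roots, roots_prod_X_sub_C]
  have hScount : S.val.count x ≤ 1 := Multiset.nodup_iff_count_le_one.mp S.nodup x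
  have hucount : u.rootMultiplicity x ≤ 1 := by
    rw [← count_roots]
    exact (Multiset.count_le_card _ _).trans ((card_roots' u).trans hu1)
  have h1 : 0 < S.val.count x := by omega
  have h2 : 0 < u.rootMultiplicity x := by omega
  have hxS : x ∈ S := by
    rw [Multiset.count_pos] at h1; exact h1
  have hux : u.eval x = 0 := by
    have := (rootMultiplicity_pos hu0).mp h2
    exact this
  -- u is linear with root x in (0,1)
  obtain ⟨v, hv⟩ := dvd_iff_isRoot.mpr hux
  have hv0 : v ≠ 0 := by rintro rfl; simp at hv; exact hu0 hv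
  have hvd : v.natDegree = 0 := by
    have : u.natDegree = 1 + v.natDegree := by
      rw [hv, natDegree_mul (X_sub_C_ne_zero x) hv0, natDegree_X_sub_C]
    omega
  rw [eq_C_of_natDegree_eq_zero hvd] at hv
  set c := v.coeff 0
  have hc0 : c ≠ 0 := by
    intro h0
    rw [h0] at hv
    simp at hv
    exact hu0 hv
  have hev : ∀ y, u.eval y = (y - x) * c := by intro y; rw [hv]; simp
  obtain ⟨hx0, hx1⟩ := hS x hxS
  rcases hsgn with h3 | h3
  · have h4 := h3 (x / 2) (by linarith) (by linarith)
    have h5 := h3 ((x + 1) / 2) (by linarith) (by linarith)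
    rw [hev] at h4 h5
    apply hc0
    nlinarith
  · have h4 := h3 (x / 2) (by linarith) (by linarith)
    have h5 := h3 ((x + 1) / 2) (by linarith) (by linarith)
    rw [hev] at h4 h5
    apply hc0
    nlinarith

lemma orth_mono {N k j j' : ℕ} {ω : ℂ} {p : ℝ[X]} (hp : Orth N k ω j p) (hj : j' ≤ j) : Orth N k ω j' p :=
  fun l hl => hp l (by omega)

lemma wronskian_ne {N k : ℕ} {ω : ℂ} (h : Data N ω) (hk : k < N) (j : ℕ) (p q : ℝ[X]) (hp : p ≠ 0) (hq : q ≠ 0)
    (hdp : p.natDegree = j + 1) (hdq : q.natDegree = j) (hop : Orth N k ω (j + 1) p) (hoq : Orth N k ω j q) (x : ℝ) :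
    (derivative p).eval x * q.eval x - p.eval x * (derivative q).eval x ≠ 0 := by
  intro hW
  have key : ∀ α : ℝ, ∀ y, (p + C α * q).eval y = 0 → (derivative (p + C α * q)).eval y ≠ 0 := by
    intro α
    have hlt : (C α * q).natDegree < p.natDegree := by
      calc (C α * q).natDegree ≤ q.natDegree := natDegree_C_mul_le _ _
        _ < p.natDegree := by omega
    have hd : (p + C α * q).natDegree = j + 1 := by
      rw [natDegree_add_eq_left_of_natDegree_lt hlt, hdp]
    apply no_double h hk j _ _ hd (orth_add (orth_mono hop (by omega)) hoq α)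
    intro h0
    rw [h0] at hd
    simp at hd
  by_cases hqx : q.eval x = 0
  · obtain ⟨S, _, _, _, hsimple⟩ := simple_roots h hk j q hq hdq hoq
    have hq' := hsimple x hqx
    have hpx : p.eval x = 0 := by
      rw [hqx, mul_zero, zero_sub, neg_eq_zero] at hW
      exact (mul_eq_zero.mp hW).resolve_right hq'
    refine key (-(derivative p).eval x / (derivative q).eval x) x ?_ ?_
    · simp [hpx, hqx]
    · simp only [derivative_add, derivative_mul, derivative_C, zero_mul, zero_add, eval_add, eval_mul, eval_C]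
      field_simp
      ring
  · refine key (-p.eval x / q.eval x) x ?_ ?_
    · simp only [eval_add, eval_mul, eval_C]
      field_simp
      ring
    · simp only [derivative_add, derivative_mul, derivative_C, zero_mul, zero_add, eval_add, eval_mul, eval_C]
      field_simp
      linear_combination hW

/-- between two zeros of `p` lies a zero of `q` -/
lemma between (p q : ℝ[X]) (hW : ∀ x, (derivative p).eval x * q.eval x - p.eval x * (derivative q).eval x ≠ 0)
    {a b : ℝ} (hab : a < b) (ha : p.eval a = 0) (hb : p.eval b = 0) : ∃ c, a < c ∧ c < b ∧ q.eval c = 0 := by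
  by_contra hcon
  push Not at hcon
  have hqa : q.eval a ≠ 0 := by
    intro h0; apply hW a; rw [h0, ha]; ring
  have hqb : q.eval b ≠ 0 := by
    intro h0; apply hW b; rw [h0, hb]; ring
  have hq : ∀ x ∈ Set.Icc a b, q.eval x ≠ 0 := by
    intro x hx
    rcases eq_or_lt_of_le hx.1 with h1 | h1
    · rw [← h1]; exact hqa
    · rcases eq_or_lt_of_le hx.2 with h2 | h2
      · rw [h2]; exact hqb
      · exact hcon x h1 h2
  have hcont : ContinuousOn (fun x => p.eval x / q.eval x) (Set.Icc a b) :=
    p.continuous.continuousOn.div q.continuous.continuousOn hq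
  have hder : ∀ x ∈ Set.Ioo a b, HasDerivAt (fun x => p.eval x / q.eval x)
      (((derivative p).eval x * q.eval x - p.eval x * (derivative q).eval x) / (q.eval x) ^ 2) x := by
    intro x hx
    exact (p.hasDerivAt x).div (q.hasDerivAt x) (hq x ⟨hx.1.le, hx.2.le⟩)
  obtain ⟨c, hc, hc0⟩ := exists_hasDerivAt_eq_zero hab hcont (by simp [ha, hb]) hder
  rw [div_eq_zero_iff] at hc0
  rcases hc0 with h0 | h0
  · exact hW c h0
  · exact hq c ⟨hc.1.le, hc.2.le⟩ (pow_eq_zero_iff (by norm_num) |>.mp h0)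

theorem interlace {N k : ℕ} {ω : ℂ} (h : Data N ω) (hk : k < N) (q : ℕ → ℝ[X]) (hne : ∀ j, q j ≠ 0)
    (hdeg : ∀ j, (q j).natDegree = j) (ho : ∀ j, Orth N k ω j (q j)) :
    ∃ t : ℕ → ℕ → ℝ, (∀ j, (q j).roots = (Multiset.range j).map (t j)) ∧
      ∀ j, ∀ ν < j, 0 < t (j + 1) ν ∧ t (j + 1) ν < t j ν ∧ t j ν < t (j + 1) (ν + 1) ∧
        t (j + 1) (ν + 1) < 1 := by
  have hS := fun j => simple_roots h hk j (q j) (hne j) (hdeg j) (ho j)
  choose S hcard hS01 hroots _ using hS
  have hmemS : ∀ j x, x ∈ S j ↔ (q j).eval x = 0 := by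
    intro j x
    have : x ∈ (q j).roots ↔ (q j).eval x = 0 := by
      rw [mem_roots (hne j)]; rfl
    rw [← this, hroots j]
    rfl
  set t : ℕ → ℕ → ℝ := fun j ν => if hν : ν < j then (S j).orderEmbOfFin (hcard j) ⟨ν, hν⟩ else 0 with ht
  have htmem : ∀ j ν, ν < j → t j ν ∈ S j := by
    intro j ν hν
    simp only [ht, hν, dif_pos]
    exact orderEmbOfFin_mem _ _ _
  have htmono : ∀ j ν μ, ν < μ → μ < j → t j ν < t j μ := by
    intro j ν μ h1 h2
    simp only [ht, h2, h1.trans h2, dif_pos]
    exact ((S j).orderEmbOfFin (hcard j)).strictMono h1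
  refine ⟨t, ?_, ?_⟩
  · intro j
    rw [hroots j]
    have himg : S j = (Finset.range j).image (t j) := by
      symm
      apply Finset.eq_of_subset_of_card_le
      · intro x hx
        rw [mem_image] at hx
        obtain ⟨ν, hν, rfl⟩ := hx
        exact htmem j ν (mem_range.mp hν)
      · rw [card_image_of_injOn, card_range, hcard]
        intro ν hν μ hμ he
        rcases lt_trichotomy ν μ with h1 | h1 | h1
        · exact absurd he (htmono j ν μ h1 (by simpa using hμ)).ne
        · exact h1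
        · exact absurd he (htmono j μ ν h1 (by simpa using hν)).ne'
    have hinj : Set.InjOn (t j) (Finset.range j : Set ℕ) := by
      intro ν hν μ hμ he
      rcases lt_trichotomy ν μ with h1 | h1 | h1
      · exact absurd he (htmono j ν μ h1 (by simpa using hμ)).ne
      · exact h1
      · exact absurd he (htmono j μ ν h1 (by simpa using hν)).ne'
    conv_lhs => rw [himg]
    rw [Finset.image_val_of_injOn hinj]
    rfl
  · intro j ν hν
    have hW := fun x => wronskian_ne h hk j (q (j + 1)) (q j) (hne _) (hne _) (hdeg _) (hdeg _) (ho _) (ho _) x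
    have hex : ∀ ν : Fin j, ∃ c, t (j + 1) ν < c ∧ c < t (j + 1) (ν + 1) ∧ (q j).eval c = 0 := by
      intro ν
      apply between _ _ hW (htmono (j + 1) _ _ (by omega) (by omega))
      · exact (hmemS _ _).mp (htmem _ _ (by omega))
      · exact (hmemS _ _).mp (htmem _ _ (by omega))
    choose c hc1 hc2 hc3 using hex
    have hcmono : StrictMono c := by
      intro ν μ hνμ
      have h1 : (ν : ℕ) + 1 ≤ μ := hνμ
      rcases eq_or_lt_of_le h1 with h2 | h2
      · calc c ν < t (j + 1) (ν + 1) := hc2 ν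
          _ = t (j + 1) μ := by rw [h2]
          _ < c μ := hc1 μ
      · calc c ν < t (j + 1) (ν + 1) := hc2 ν
          _ < t (j + 1) μ := htmono (j + 1) _ _ h2 (by omega)
          _ < c μ := hc1 μ
    have hce := Finset.orderEmbOfFin_unique (hcard j) (f := c) (fun ν => (hmemS _ _).mpr (hc3 ν)) hcmono
    have hcν : c ⟨ν, hν⟩ = t j ν := by
      simp only [ht, hν, dif_pos, hce]
    refine ⟨(hS01 _ _ (htmem _ _ (by omega))).1, ?_, ?_, (hS01 _ _ (htmem _ _ (by omega))).2⟩
    · rw [← hcν]; exact hc1 ⟨ν, hν⟩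
    · rw [← hcν]; exact hc2 ⟨ν, hν⟩

end Pool.Agent.H766R2.Berg
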