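import Mathlib
import Pool.Agent.H766R2.BergGood
import Pool.Agent.H766R2.BergInter

/-!
# Bergman orthogonal polynomials of the triangle and the square
-/

open Finset Polynomial MeasureTheory

namespace Pool.Agent.H766R2.Berg

/-- the Bergman inner product on the open regular `N`-gon -/
noncomputable def berg (N : ℕ) (p q : ℂ[X]) : ℂ := ∫ z in ngon N, p.eval z * (starRingEnd ℂ) (q.eval z)

structure IsBergmanSystem (N : ℕ) (p : ℕ → ℂ[X]) : Prop where
  natDegree_eq : ∀ m, (p m).natDegree = m
  leading_pos : ∀ m, (p m).leadingCoeff.im = 0 ∧ 0 < (p m).leadingCoeff.re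
  orthonormal : ∀ m l, berg N (p m) (p l) = if m = l then 1 else 0

lemma ngon_ae (N : ℕ) : (ngon N : Set ℂ) =ᵐ[volume] K N :=
  interior_ae_eq_of_null_frontier ((convex_convexHull ℝ {z : ℂ | z ^ N = 1}).addHaar_frontier volume)

lemma berg_eq (N : ℕ) (p q : ℂ[X]) : berg N p q = ∫ z in K N, p.eval z * (starRingEnd ℂ) (q.eval z) :=
  setIntegral_congr_set (ngon_ae N)

lemma berg_int {N : ℕ} (hK : IsCompact (K N)) (p q : ℂ[X]) :
    IntegrableOn (fun z => p.eval z * (starRingEnd ℂ) (q.eval z)) (K N) := by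
  apply ContinuousOn.integrableOn_compact hK
  have h1 := p.continuous
  have h2 := q.continuous
  exact (h1.mul (Complex.continuous_conj.comp h2)).continuousOn

lemma berg_add_left {N : ℕ} (hK : IsCompact (K N)) (p p' q : ℂ[X]) :
    berg N (p + p') q = berg N p q + berg N p' q := by
  rw [berg_eq, berg_eq, berg_eq, ← integral_add (berg_int hK p q) (berg_int hK p' q)]
  refine integral_congr_ae (Filter.Eventually.of_forall fun z => ?_)
  simp only [eval_add]; ring

lemma berg_C_mul_left (N : ℕ) (c : ℂ) (p q : ℂ[X]) : berg N (C c * p) q = c * berg N p q := by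
  unfold berg
  rw [← integral_const_mul]
  refine integral_congr_ae (Filter.Eventually.of_forall fun z => ?_)
  simp only [eval_mul, eval_C]; ring

lemma berg_conj (N : ℕ) (p q : ℂ[X]) : (starRingEnd ℂ) (berg N p q) = berg N q p := by
  unfold berg
  rw [← integral_conj]
  refine integral_congr_ae (Filter.Eventually.of_forall fun z => ?_)
  simp only [map_mul, Complex.conj_conj]; ring

lemma berg_add_right {N : ℕ} (hK : IsCompact (K N)) (p q q' : ℂ[X]) :
    berg N p (q + q') = berg N p q + berg N p q' := by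
  rw [← berg_conj, berg_add_left hK, map_add, berg_conj, berg_conj]

lemma berg_C_mul_right (N : ℕ) (c : ℂ) (p q : ℂ[X]) : berg N p (C c * q) = (starRingEnd ℂ) c * berg N p q := by
  rw [← berg_conj, berg_C_mul_left, map_mul, berg_conj]

lemma berg_zero_right (N : ℕ) (p : ℂ[X]) : berg N p 0 = 0 := by
  unfold berg; simp

/-- orthogonality to monomials gives orthogonality to polynomials -/
lemma berg_of_monomials {N : ℕ} (hK : IsCompact (K N)) (P : ℂ[X]) (m : ℕ)
    (hP : ∀ l < m, berg N P (X ^ l) = 0) (r : ℂ[X]) (hr : r.degree < m) : berg N P r = 0 := by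
  have key : ∀ n ≤ m, ∀ r : ℂ[X], r.degree < n → berg N P r = 0 := by
    intro n
    induction n with
    | zero =>
      intro _ r hr
      have : r = 0 := by
        rw [← degree_eq_bot]
        exact Nat.WithBot.lt_zero_iff.mp (by simpa using hr)
      rw [this, berg_zero_right]
    | succ n ih =>
      intro hn r hr
      have e : r = (r - C (r.coeff n) * X ^ n) + C (r.coeff n) * X ^ n := by ring
      have hd : (r - C (r.coeff n) * X ^ n).degree < (n : WithBot ℕ) := by
        rw [degree_lt_iff_coeff_zero]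
        intro i hi
        rw [coeff_sub, coeff_C_mul, coeff_X_pow]
        rcases eq_or_lt_of_le hi with h1 | h1
        · rw [if_pos h1.symm, h1]; ring
        · rw [if_neg (by omega), mul_zero, sub_zero]
          exact (degree_lt_iff_coeff_zero _ _).mp hr i h1
      rw [e, berg_add_right hK, ih (by omega) _ hd, berg_C_mul_right, hP n (by omega), mul_zero, add_zero]
  exact key m le_rfl r hr

lemma vol_ngon_pos {N : ℕ} {ω : ℂ} (h : Good N ω) : 0 < volume (ngon N) := by
  rw [measure_congr (ngon_ae N)]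
  obtain ⟨C, hC, hm⟩ := h.moment
  have h0 := hm 0 0 rfl
  by_contra hcon
  have hz : volume (K N) = 0 := by simpa using hcon
  rw [Measure.restrict_eq_zero.mpr hz, integral_zero_measure] at h0
  have h1 : 0 < ∫ x in (0 : ℝ)..1, x ^ 0 * (Fn ω 0 (X ^ (0 + 1))).eval (1 - x) := by
    apply intervalIntegral.intervalIntegral_pos_of_pos_on
    · apply Continuous.intervalIntegrable
      have := (Fn ω 0 (X ^ (0 + 1))).continuous
      fun_prop
    · intro x hx
      have := h.data.pos 1 le_rfl h.data.hN (1 - x) (by linarith [hx.2]) (by linarith [hx.1])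
      rw [Fn_eval]
      simpa using this
    · norm_num
  have h2 : (C / ((0 : ℕ) + 1) * ∫ x in (0 : ℝ)..1, x ^ 0 * (Fn ω 0 (X ^ (0 + 1))).eval (1 - x) : ℝ) = 0 := by
    exact_mod_cast h0.symm
  have h3 : 0 < (C / ((0 : ℕ) + 1) * ∫ x in (0 : ℝ)..1, x ^ 0 * (Fn ω 0 (X ^ (0 + 1))).eval (1 - x) : ℝ) := by
    positivity
  linarith

lemma berg_self {N : ℕ} (D : ℂ[X]) : berg N D D = ((∫ z in ngon N, ‖D.eval z‖ ^ 2 : ℝ) : ℂ) := by
  unfold berg
  rw [← integral_complex_ofReal]
  refine integral_congr_ae (Filter.Eventually.of_forall fun z => ?_)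
  simp only
  rw [Complex.mul_conj, Complex.normSq_eq_norm_sq]

lemma berg_pos {N : ℕ} {ω : ℂ} (h : Good N ω) (D : ℂ[X]) (hD : D ≠ 0) : 0 < ∫ z in ngon N, ‖D.eval z‖ ^ 2 := by
  have hcont : Continuous (fun z => ‖D.eval z‖ ^ 2) := by
    have := D.continuous
    fun_prop
  have hint : IntegrableOn (fun z => ‖D.eval z‖ ^ 2) (ngon N) :=
    (hcont.continuousOn.integrableOn_compact h.compactK).mono_set interior_subset
  rw [setIntegral_pos_iff_support_of_nonneg_ae (Filter.Eventually.of_forall fun z => by positivity) hint]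
  have hfin : volume ((D.roots.toFinset : Set ℂ)) = 0 := (Finset.finite_toSet _).measure_zero _
  have hsub : ngon N \ (D.roots.toFinset : Set ℂ) ⊆ Function.support (fun z => ‖D.eval z‖ ^ 2) ∩ ngon N := by
    intro z hz
    refine ⟨?_, hz.1⟩
    rw [Function.mem_support]
    have : D.eval z ≠ 0 := by
      intro h0
      apply hz.2
      simp only [mem_coe, Multiset.mem_toFinset]
      exact (mem_roots hD).mpr h0
    positivity
  calc 0 < volume (ngon N) := vol_ngon_pos h
    _ = volume (ngon N \ (D.roots.toFinset : Set ℂ)) := (measure_sdiff_null hfin).symm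
    _ ≤ _ := measure_mono hsub

lemma berg_zero {N : ℕ} {ω : ℂ} (h : Good N ω) (D : ℂ[X]) (hD : berg N D D = 0) : D = 0 := by
  by_contra h0
  have h1 := berg_pos h D h0
  rw [berg_self] at hD
  have : (∫ z in ngon N, ‖D.eval z‖ ^ 2 : ℝ) = 0 := by exact_mod_cast hD
  linarith

/-- the complex polynomial `z^k q(z^N)` -/
noncomputable def bigP (N k : ℕ) (q : ℝ[X]) : ℂ[X] := X ^ k * (q.map (algebraMap ℝ ℂ)).comp (X ^ N)

lemma bigP_natDegree {N : ℕ} (hN : 0 < N) (k : ℕ) (q : ℝ[X]) (hq : q ≠ 0) :
    (bigP N k q).natDegree = q.natDegree * N + k := by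
  unfold bigP
  have h1 : (q.map (algebraMap ℝ ℂ)).comp (X ^ N) ≠ 0 := by
    intro h0
    rw [comp_eq_zero_iff] at h0
    rcases h0 with h0 | ⟨_, h0⟩
    · rw [Polynomial.map_eq_zero] at h0; exact hq h0
    · have : (X ^ N : ℂ[X]).natDegree = 0 := by rw [h0]; exact natDegree_C _
      rw [natDegree_X_pow] at this
      omega
  rw [natDegree_mul (pow_ne_zero _ X_ne_zero) h1, natDegree_X_pow, natDegree_comp, natDegree_X_pow, natDegree_map]
  ring

lemma bigP_leadingCoeff {N : ℕ} (hN : 0 < N) (k : ℕ) (q : ℝ[X]) :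
    (bigP N k q).leadingCoeff = (q.leadingCoeff : ℂ) := by
  unfold bigP
  rw [leadingCoeff_mul, leadingCoeff_X_pow, one_mul, leadingCoeff_comp (by rw [natDegree_X_pow]; omega),
    leadingCoeff_X_pow, one_pow, mul_one, leadingCoeff_map]
  rfl

lemma bigP_C_mul (N k : ℕ) (c : ℝ) (q : ℝ[X]) : bigP N k (C c * q) = C (c : ℂ) * bigP N k q := by
  unfold bigP
  simp only [Polynomial.map_mul, map_C, mul_comp, C_comp, Complex.coe_algebraMap]
  ring

lemma bigP_eval (N k : ℕ) (q : ℝ[X]) (z : ℂ) :
    (bigP N k q).eval z = ∑ i ∈ range (q.natDegree + 1), (q.coeff i : ℂ) * z ^ (k + N * i) := by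
  unfold bigP
  rw [eval_mul, eval_pow, eval_X, eval_comp, eval_pow, eval_X, eval_map, eval₂_eq_sum_range, mul_sum]
  refine sum_congr rfl fun i _ => ?_
  rw [pow_add, pow_mul, Complex.coe_algebraMap]
  ring

lemma bigP_orth {N k : ℕ} {ω : ℂ} (h : Good N ω) (hk : k < N) {j : ℕ} {q : ℝ[X]} (hq : Orth N k ω j q) :
    ∀ l < j * N + k, berg N (bigP N k q) (X ^ l) = 0 := by
  intro l hl
  rw [berg_eq]
  have e1 : ∀ z : ℂ, (bigP N k q).eval z * (starRingEnd ℂ) ((X ^ l : ℂ[X]).eval z) =
      ∑ i ∈ range (q.natDegree + 1), (q.coeff i : ℂ) * (z ^ (k + N * i) * ((starRingEnd ℂ) z) ^ l) := by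
    intro z
    rw [bigP_eval, eval_pow, eval_X, map_pow, sum_mul]
    refine sum_congr rfl fun i _ => by ring
  simp only [e1]
  rw [integral_finsetSum]
  swap
  · intro i _
    apply Integrable.const_mul
    have := berg_int h.compactK (X ^ (k + N * i)) (X ^ l)
    have h2 : IntegrableOn (fun z : ℂ => z ^ (k + N * i) * ((starRingEnd ℂ) z) ^ l) (K N) := by
      simpa using this
    exact h2
  simp only [integral_const_mul]
  by_cases hlk : l % N = k
  · -- same residue class
    obtain ⟨C, hC, hm⟩ := h.moment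
    obtain ⟨l', hl'⟩ : ∃ l', l' = l / N := ⟨_, rfl⟩
    have hll : l = k + N * l' := by
      have := Nat.mod_add_div l N
      rw [hl']
      omega
    have hl'j : l' < j := by
      by_contra hcon
      push Not at hcon
      have := Nat.mul_le_mul_right N hcon
      rw [mul_comm l' N] at this
      omega
    have ho := hq l' hl'j
    have e2 : ∀ i, ∫ z in K N, z ^ (k + N * i) * ((starRingEnd ℂ) z) ^ l =
        ((C / (l + 1) * ∫ x in (0 : ℝ)..1, x ^ (k + N * i) * (Fn ω 0 (X ^ (l + 1))).eval (1 - x) : ℝ) : ℂ) := by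
      intro i
      apply hm
      rw [Nat.add_mul_mod_self_left, Nat.mod_eq_of_lt hk, hlk]
    simp only [e2]
    have e3 : (∑ i ∈ range (q.natDegree + 1), (q.coeff i : ℂ) *
        ((C / (l + 1) * ∫ x in (0 : ℝ)..1, x ^ (k + N * i) * (Fn ω 0 (X ^ (l + 1))).eval (1 - x) : ℝ) : ℂ)) =
        ((C / (l + 1) * ∫ x in (0 : ℝ)..1, x ^ k * q.eval (x ^ N) * (Fn ω 0 (X ^ (l + 1))).eval (1 - x) : ℝ) : ℂ) := by
      have e4 : ∀ x : ℝ, x ^ k * q.eval (x ^ N) * (Fn ω 0 (X ^ (l + 1))).eval (1 - x) =
          ∑ i ∈ range (q.natDegree + 1), q.coeff i * (x ^ (k + N * i) * (Fn ω 0 (X ^ (l + 1))).eval (1 - x)) := by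
        intro x
        rw [eval_eq_sum_range, mul_sum, sum_mul]
        refine sum_congr rfl fun i _ => ?_
        have : x ^ (k + N * i) = x ^ k * (x ^ N) ^ i := by rw [pow_add, pow_mul]
        rw [this]; ring
      simp only [e4]
      rw [intervalIntegral.integral_finsetSum]
      · simp only [intervalIntegral.integral_const_mul]
        rw [mul_sum]
        push_cast
        refine sum_congr rfl fun i _ => by ring
      · intro i _
        apply Continuous.intervalIntegrable
        have := (Fn ω 0 (X ^ (l + 1))).continuous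
        fun_prop
    rw [e3]
    have e5 : l + 1 = k + 1 + N * l' := by omega
    rw [e5, ho]
    simp
  · apply sum_eq_zero
    intro i _
    rw [moment_diff h, mul_zero]
    rw [Nat.add_mul_mod_self_left, Nat.mod_eq_of_lt hk]
    exact fun h0 => hlk h0.symm

/-- existence of the reduced orthogonal polynomials -/
lemma exists_q {N k : ℕ} {ω : ℂ} (h : Data N ω) (hk : k < N) (j : ℕ) :
    ∃ q : ℝ[X], q ≠ 0 ∧ q.natDegree = j ∧ Orth N k ω j q := by
  obtain ⟨c, hc0, hc⟩ := lin_exists (ι := Fin j) (j + 1) (by simp)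
    (fun l i => ∫ x in (0 : ℝ)..1, x ^ k * (x ^ N) ^ (l : ℕ) * (Fn ω 0 (X ^ (k + 1 + N * (i : ℕ)))).eval (1 - x))
  set q : ℝ[X] := ∑ l : Fin (j + 1), C (c l) * X ^ (l : ℕ) with hq
  have hcoef : ∀ l : Fin (j + 1), q.coeff l = c l := by
    intro l
    rw [hq, finsetSum_coeff, sum_eq_single l]
    · simp
    · intro b _ hb
      rw [coeff_C_mul, coeff_X_pow, if_neg, mul_zero]
      intro h1
      exact hb (Fin.ext h1.symm)
    · simp
  have hq0 : q ≠ 0 := by
    intro h0
    apply hc0
    funext l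
    rw [← hcoef l, h0]; simp
  have hdeg : q.natDegree ≤ j := by
    rw [hq]
    apply natDegree_sum_le_of_forall_le
    intro l _
    exact (natDegree_C_mul_X_pow_le _ _).trans (Nat.lt_succ_iff.mp l.2)
  have ho : Orth N k ω j q := by
    intro l hl
    have e : ∀ x : ℝ, x ^ k * q.eval (x ^ N) * (Fn ω 0 (X ^ (k + 1 + N * l))).eval (1 - x) =
        ∑ i : Fin (j + 1), c i * (x ^ k * (x ^ N) ^ (i : ℕ) * (Fn ω 0 (X ^ (k + 1 + N * l))).eval (1 - x)) := by
      intro x
      rw [hq, eval_finsetSum, mul_sum, sum_mul]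
      refine sum_congr rfl fun i _ => ?_
      simp only [eval_mul, eval_C, eval_pow, eval_X]
      ring
    simp only [e]
    rw [intervalIntegral.integral_finsetSum]
    · simp only [intervalIntegral.integral_const_mul]
      exact hc ⟨l, hl⟩
    · intro i _
      apply Continuous.intervalIntegrable
      have := (Fn ω 0 (X ^ (k + 1 + N * l))).continuous
      fun_prop
  refine ⟨q, hq0, ?_, ho⟩
  apply le_antisymm hdeg
  obtain ⟨S, hS, u, hu, hsgn⟩ := sign_factor _ q hq0 rfl
  have hcard := card_ge h hk j q hq0 ho S hS u hu hsgn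
  have hu0 : u ≠ 0 := by rintro rfl; simp at hu; exact hq0 hu
  have hP0 : (∏ s ∈ S, (X - C s) : ℝ[X]) ≠ 0 := prod_ne_zero_iff.mpr fun s _ => X_sub_C_ne_zero s
  have hPd : (∏ s ∈ S, (X - C s) : ℝ[X]).natDegree = S.card := by
    rw [natDegree_prod _ _ (fun s _ => X_sub_C_ne_zero s)]
    simp
  have hd : q.natDegree = S.card + u.natDegree := by
    conv_lhs => rw [hu]
    rw [natDegree_mul hP0 hu0, hPd]
  omega

lemma orth_C_mul {N k j : ℕ} {ω : ℂ} {q : ℝ[X]} (hq : Orth N k ω j q) (a : ℝ) : Orth N k ω j (C a * q) := by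
  intro l hl
  have h2 := hq l hl
  have e : ∀ x : ℝ, x ^ k * (C a * q).eval (x ^ N) * (Fn ω 0 (X ^ (k + 1 + N * l))).eval (1 - x) =
      a * (x ^ k * q.eval (x ^ N) * (Fn ω 0 (X ^ (k + 1 + N * l))).eval (1 - x)) := by
    intro x
    simp only [eval_mul, eval_C]
    ring
  simp only [e]
  rw [intervalIntegral.integral_const_mul, h2, mul_zero]

/-- uniqueness -/
lemma system_eq {N k : ℕ} {ω : ℂ} (h : Good N ω) (hk : k < N) {p : ℕ → ℂ[X]} (hp : IsBergmanSystem N p)
    (j : ℕ) : ∃ q : ℝ[X], q ≠ 0 ∧ q.natDegree = j ∧ Orth N k ω j q ∧ p (j * N + k) = bigP N k q := by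
  obtain ⟨q, hq0, hqd, hqo⟩ := exists_q h.data hk j
  set m := j * N + k with hm
  have hPd : (bigP N k q).natDegree = m := by rw [bigP_natDegree h.data.hN k q hq0, hqd]
  have hlq : q.leadingCoeff ≠ 0 := leadingCoeff_ne_zero.mpr hq0
  obtain ⟨hl1, hl2⟩ := hp.leading_pos m
  set a : ℝ := (p m).leadingCoeff.re / q.leadingCoeff with ha
  have ha0 : a ≠ 0 := div_ne_zero hl2.ne' hlq
  have hpm : (p m).leadingCoeff = ((p m).leadingCoeff.re : ℂ) := by
    apply Complex.ext <;> simp [hl1]
  have hlt : ∀ n ≤ m, ∀ r : ℂ[X], r.degree < n → berg N (p m) r = 0 := by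
    intro n
    induction n with
    | zero =>
      intro _ r hr
      have : r = 0 := by
        rw [← degree_eq_bot]
        exact Nat.WithBot.lt_zero_iff.mp (by simpa using hr)
      rw [this, berg_zero_right]
    | succ n ih =>
      intro hn r hr
      have hpn0 : (p n).leadingCoeff ≠ 0 := by
        intro h0
        have := (hp.leading_pos n).2
        rw [h0] at this
        simp at this
      set c := r.coeff n / (p n).leadingCoeff with hc
      have e : r = (r - C c * p n) + C c * p n := by ring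
      have hd : (r - C c * p n).degree < (n : WithBot ℕ) := by
        rw [degree_lt_iff_coeff_zero]
        intro i hi
        rw [coeff_sub, coeff_C_mul]
        rcases eq_or_lt_of_le hi with h1 | h1
        · rw [← h1]
          have : (p n).coeff n = (p n).leadingCoeff := by
            rw [leadingCoeff, hp.natDegree_eq n]
          rw [this, hc]
          field_simp
          ring
        · have e1 : (p n).coeff i = 0 := by
            apply coeff_eq_zero_of_natDegree_lt
            rw [hp.natDegree_eq n]; exact h1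
          rw [e1, mul_zero, sub_zero]
          exact (degree_lt_iff_coeff_zero _ _).mp hr i h1
      rw [e, berg_add_right h.compactK, ih (by omega) _ hd, berg_C_mul_right, hp.orthonormal,
        if_neg (by omega), mul_zero, add_zero]
  have hpX : ∀ l < m, berg N (p m) (X ^ l) = 0 := by
    intro l hl
    apply hlt m le_rfl
    rw [degree_X_pow]
    exact_mod_cast hl
  have hD : p m - bigP N k (C a * q) = 0 := by
    apply berg_zero h
    have hortho : ∀ l < m, berg N (p m - bigP N k (C a * q)) (X ^ l) = 0 := by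
      intro l hl
      have e : p m - bigP N k (C a * q) = p m + C (-1) * bigP N k (C a * q) := by
        rw [C_neg, C_1]; ring
      rw [e, berg_add_left h.compactK, berg_C_mul_left, hpX l hl, bigP_orth h hk (orth_C_mul hqo a) l hl]
      simp
    apply berg_of_monomials h.compactK _ m hortho
    rw [degree_lt_iff_coeff_zero]
    intro i hi
    rw [coeff_sub]
    have hPd' : (bigP N k (C a * q)).natDegree = m := by
      rw [bigP_natDegree h.data.hN k _ (mul_ne_zero (by simpa using ha0) hq0), natDegree_C_mul ha0, hqd]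
    rcases eq_or_lt_of_le hi with h1 | h1
    · rw [← h1]
      have e1 : (p m).coeff m = (p m).leadingCoeff := by rw [leadingCoeff, hp.natDegree_eq m]
      have e2 : (bigP N k (C a * q)).coeff m = (bigP N k (C a * q)).leadingCoeff := by
        rw [leadingCoeff, hPd']
      rw [e1, e2, bigP_leadingCoeff h.data.hN, leadingCoeff_mul, leadingCoeff_C, hpm, ha]
      push_cast
      have : (q.leadingCoeff : ℂ) ≠ 0 := by exact_mod_cast hlq
      field_simp
      simp
    · rw [coeff_eq_zero_of_natDegree_lt (by rw [hp.natDegree_eq m]; exact h1),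
        coeff_eq_zero_of_natDegree_lt (by rw [hPd']; exact h1), sub_zero]
  refine ⟨C a * q, mul_ne_zero (by simpa using ha0) hq0, ?_, orth_C_mul hqo a, sub_eq_zero.mp hD⟩
  rw [natDegree_C_mul ha0, hqd]

/-- existence -/
theorem exists_system {N : ℕ} {ω : ℂ} (h : Good N ω) : ∃ p, IsBergmanSystem N p := by
  have hN := h.data.hN
  have hex : ∀ m : ℕ, ∃ P : ℂ[X], P.natDegree = m ∧ (∀ l < m, berg N P (X ^ l) = 0) ∧
      P.leadingCoeff.im = 0 ∧ 0 < P.leadingCoeff.re ∧ berg N P P = 1 := by
    intro m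
    have hk : m % N < N := Nat.mod_lt _ hN
    obtain ⟨q, hq0, hqd, hqo⟩ := exists_q h.data hk (m / N)
    have hm : m / N * N + m % N = m := Nat.div_add_mod' m N
    have hPd : (bigP N (m % N) q).natDegree = m := by rw [bigP_natDegree hN _ q hq0, hqd, hm]
    have hP0 : bigP N (m % N) q ≠ 0 := by
      intro h0
      have h1 := bigP_leadingCoeff hN (m % N) q
      rw [h0, leadingCoeff_zero] at h1
      have : q.leadingCoeff = 0 := by exact_mod_cast h1.symm
      exact hq0 (leadingCoeff_eq_zero.mp this)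
    have hpos := berg_pos h _ hP0
    set I := ∫ z in ngon N, ‖(bigP N (m % N) q).eval z‖ ^ 2 with hI
    have hlq : q.leadingCoeff ≠ 0 := leadingCoeff_ne_zero.mpr hq0
    -- the normalising constant
    set c : ℝ := (q.leadingCoeff / |q.leadingCoeff|) / Real.sqrt I with hc
    have hsI : 0 < Real.sqrt I := Real.sqrt_pos.mpr hpos
    have habs : 0 < |q.leadingCoeff| := abs_pos.mpr hlq
    have hc0 : c ≠ 0 := by rw [hc]; positivity
    have hc2 : c * c * I = 1 := by
      have h1 : Real.sqrt I * Real.sqrt I = I := Real.mul_self_sqrt hpos.le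
      have h2 : q.leadingCoeff * q.leadingCoeff = |q.leadingCoeff| * |q.leadingCoeff| := (abs_mul_abs_self _).symm
      rw [hc]
      field_simp
      nlinarith
    have hcl : 0 < c * q.leadingCoeff := by
      rw [hc]
      have : q.leadingCoeff / |q.leadingCoeff| / Real.sqrt I * q.leadingCoeff =
          (q.leadingCoeff * q.leadingCoeff) / (|q.leadingCoeff| * Real.sqrt I) := by field_simp
      rw [this]
      have : 0 < q.leadingCoeff * q.leadingCoeff := mul_self_pos.mpr hlq
      positivity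
    refine ⟨C (c : ℂ) * bigP N (m % N) q, ?_, ?_, ?_, ?_, ?_⟩
    · rw [natDegree_C_mul (by exact_mod_cast hc0), hPd]
    · intro l hl
      rw [berg_C_mul_left, bigP_orth h hk hqo l (by rw [hm]; exact hl), mul_zero]
    · rw [leadingCoeff_mul, leadingCoeff_C, bigP_leadingCoeff hN, ← Complex.ofReal_mul, Complex.ofReal_im]
    · rw [leadingCoeff_mul, leadingCoeff_C, bigP_leadingCoeff hN, ← Complex.ofReal_mul, Complex.ofReal_re]
      exact hcl
    · rw [berg_C_mul_left, berg_C_mul_right, berg_self, ← hI, Complex.conj_ofReal]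
      have : (c : ℂ) * ((c : ℂ) * (I : ℂ)) = ((c * c * I : ℝ) : ℂ) := by push_cast; ring
      rw [this, hc2, Complex.ofReal_one]
  choose p hp1 hp2 hp3 hp4 hp5 using hex
  refine ⟨p, hp1, fun m => ⟨hp3 m, hp4 m⟩, ?_⟩
  have hlt : ∀ m l, l < m → berg N (p m) (p l) = 0 := by
    intro m l hl
    apply berg_of_monomials h.compactK _ m (hp2 m)
    apply lt_of_le_of_lt degree_le_natDegree
    rw [hp1]
    exact_mod_cast hl
  intro m l
  rcases lt_trichotomy m l with h1 | h1 | h1
  · rw [if_neg h1.ne, ← berg_conj, hlt l m h1, map_zero]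
  · rw [if_pos h1, h1, hp5]
  · rw [if_neg h1.ne', hlt m l h1]

theorem main {N : ℕ} {ω : ℂ} (h : Good N ω) {p : ℕ → ℂ[X]} (hp : IsBergmanSystem N p) {k : ℕ} (hk : k < N) :
    ∃ (q : ℕ → ℝ[X]) (t : ℕ → ℕ → ℝ),
      (∀ j, (q j).natDegree = j) ∧
      (∀ j, p (j * N + k) = X ^ k * ((q j).map (algebraMap ℝ ℂ)).comp (X ^ N)) ∧
      (∀ j, q j = C (q j).leadingCoeff * ∏ ν ∈ range j, (X - C (t j ν))) ∧
      ∀ j, ∀ ν < j, 0 < t (j + 1) ν ∧ t (j + 1) ν < t j ν ∧ t j ν < t (j + 1) (ν + 1) ∧
        t (j + 1) (ν + 1) < 1 := by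
  have hex := fun j => system_eq h hk hp j
  choose q hq0 hqd hqo hqp using hex
  obtain ⟨t, ht1, ht2⟩ := interlace h.data hk q hq0 hqd hqo
  refine ⟨q, t, hqd, hqp, ?_, ht2⟩
  intro j
  have hcard : Multiset.card (q j).roots = (q j).natDegree := by
    rw [ht1, hqd]; simp
  have := C_leadingCoeff_mul_prod_multiset_X_sub_C hcard
  conv_lhs => rw [← this]
  rw [ht1 j, Multiset.map_map]
  rfl

end Pool.Agent.H766R2.Berg
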