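import Pool.Agent.H818R2.Ram.Ratio

/-! Maximum degree of Ramsey-critical graphs (MP_76db9d_co): the dichotomy of helper818 for a given
graph with maximum blue degree `D`. -/

open Finset

namespace Pool.Agent.H766R2.CritDeg

open Pool.Agent.H818R2.Ram

/-- the trivial bound: `n ≤ (k-1)(D+1)` -/
theorem trivial_bound {n k D : ℕ} {G : SimpleGraph (Fin n)}
    (hr : ¬ HasRed G univ k)
    (hD : ∀ v, ∀ S : Finset (Fin n), (∀ u ∈ S, Gᶜ.Adj v u) → S.card ≤ D) :
    n ≤ (k - 1) * (D + 1) := by
  classical
  obtain ⟨A, hA, hmax⟩ := exists_max_clique G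
  have hAk := clique_card_lt hr hA
  have h1 := sum_pat_le G A D hD (univ \ A)
  have h2 : (univ \ A).card ≤ ∑ w ∈ univ \ A, (pat G A w).card := by
    rw [card_eq_sum_ones]
    refine sum_le_sum fun w hw => ?_
    exact card_pos.2 (pat_nonempty hA hmax (mem_sdiff.1 hw).2)
  have h3 : (univ \ A).card = n - A.card := by
    rw [card_sdiff_of_subset (subset_univ A), card_univ, Fintype.card_fin]
  have h4 : A.card ≤ n := by
    have := card_le_univ A
    rwa [Fintype.card_fin] at this
  have h5 : n ≤ A.card * (D + 1) := by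
    rw [mul_add, mul_one]
    omega
  exact h5.trans (Nat.mul_le_mul_right _ (by omega))

/-- the combinatorial dichotomy for one graph -/
theorem dichotomy_graph {n k l q D : ℕ}
    {G : SimpleGraph (Fin n)} (hr : ¬ HasRed G univ k) (hb : ¬ HasBlue G univ (l + 1))
    (hD : ∀ v, ∀ S : Finset (Fin n), (∀ u ∈ S, Gᶜ.Adj v u) → S.card ≤ D) :
    n < (q + 1) * D ∨ ∃ (A : Finset ℕ), A.card < k ∧
      n < (q + 1) * (k + ∑ P ∈ A.powerset.filter (fun P => q * P.card ≤ A.card),
        (P.card + l).choose P.card) := by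
  classical
  obtain ⟨A, hA, hmax⟩ := exists_max_clique G
  have hAk := clique_card_lt hr hA
  rcases lt_or_ge n ((q + 1) * D) with hcase | hcase
  · left
    exact hcase
  right
  set r := A.card with hrdef
  set T := univ \ A with hT
  set X := T.filter (fun w => r < q * (pat G A w).card) with hX
  set Y := T.filter (fun w => ¬ (r < q * (pat G A w).card)) with hY
  have hXY : X.card + Y.card = T.card := card_filter_add_card_filter_not _
  have hTcard : T.card = n - r := by
    rw [hT, card_sdiff_of_subset (subset_univ A), card_univ, Fintype.card_fin]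
  have hrn : r ≤ n := by
    have := card_le_univ A
    rwa [Fintype.card_fin] at this
  -- size of X
  have hX1 : X.card * r ≤ q * (r * D) := by
    have h1 : X.card * r ≤ ∑ w ∈ X, q * (pat G A w).card := by
      rw [← smul_eq_mul, ← sum_const]
      exact sum_le_sum fun w hw => ((mem_filter.1 hw).2).le
    rw [← mul_sum] at h1
    exact h1.trans (Nat.mul_le_mul_left _ (sum_pat_le G A D hD X))
  have hYsum : Y.card ≤ ∑ P ∈ A.powerset.filter (fun P => q * P.card ≤ A.card),
      (P.card + l).choose P.card := by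
    have h1 : Y.card = ∑ P ∈ A.powerset.filter (fun P => q * P.card ≤ A.card),
        (Y.filter (fun w => pat G A w = P)).card := by
      apply card_eq_sum_card_fiberwise
      intro w hw
      have hw' : w ∈ Y := hw
      rw [hY, mem_filter] at hw'
      show pat G A w ∈ ((A.powerset.filter (fun P => q * P.card ≤ A.card) : Finset _) : Set _)
      rw [mem_coe, mem_filter, mem_powerset]
      exact ⟨pat_subset G A w, not_lt.1 hw'.2⟩
    rw [h1]
    refine sum_le_sum fun P hP => ?_
    rw [mem_filter, mem_powerset] at hP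
    refine class_card hb hA hmax P hP.1 _ ?_ ?_
    · intro w hw
      have := (mem_filter.1 hw).1
      rw [hY, mem_filter, hT, mem_sdiff] at this
      exact this.1.2
    · intro w hw
      exact (mem_filter.1 hw).2
  -- r = 0 or r > 0
  have hXle : (q + 1) * X.card ≤ q * n := by
    rcases Nat.eq_zero_or_pos r with h0 | h0
    · -- then T is everything and must be empty
      have hTe : T = ∅ := by
        by_contra hne
        obtain ⟨w, hw⟩ := nonempty_iff_ne_empty.2 hne
        have h1 := pat_nonempty hA hmax (mem_sdiff.1 hw).2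
        have h2 := card_le_card (pat_subset G A w)
        have h3 := card_pos.2 h1
        omega
      have : X.card = 0 := by
        have h4 : X.card ≤ T.card := card_filter_le _ _
        rw [hTe, card_empty] at h4
        omega
      rw [this]
      simp
    · have h1 : X.card ≤ q * D := by
        have h2 : X.card * r ≤ (q * D) * r := by
          calc X.card * r ≤ q * (r * D) := hX1
            _ = (q * D) * r := by ring
        exact Nat.le_of_mul_le_mul_right h2 h0
      calc (q + 1) * X.card ≤ (q + 1) * (q * D) := Nat.mul_le_mul_left _ h1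
        _ = q * ((q + 1) * D) := by ring
        _ ≤ q * n := Nat.mul_le_mul_left _ hcase
  have hfin : n ≤ (q + 1) * (r + Y.card) := by
    have h1 : (q + 1) * n = (q + 1) * X.card + (q + 1) * (r + Y.card) := by
      rw [← mul_add]
      congr 1
      omega
    have h2 : (q + 1) * n = q * n + n := by ring
    omega
  -- transport A to ℕ
  refine ⟨A.map Fin.valEmbedding, by rw [card_map]; exact hAk, ?_⟩
  have hsum : ∑ P ∈ (A.map Fin.valEmbedding).powerset.filter
        (fun P => q * P.card ≤ (A.map Fin.valEmbedding).card), (P.card + l).choose P.card =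
      ∑ P ∈ A.powerset.filter (fun P => q * P.card ≤ A.card), (P.card + l).choose P.card := by
    symm
    refine sum_bij (fun P _ => P.map Fin.valEmbedding) ?_ ?_ ?_ ?_
    · intro P hP
      rw [mem_filter, mem_powerset] at hP ⊢
      rw [card_map, card_map]
      exact ⟨map_subset_map.2 hP.1, hP.2⟩
    · intro P _ Q _ h
      exact map_injective _ h
    · intro Q hQ
      rw [mem_filter, mem_powerset] at hQ
      obtain ⟨P, hPA, hPQ⟩ := subset_map_iff.1 hQ.1
      refine ⟨P, ?_, hPQ.symm⟩
      rw [mem_filter, mem_powerset]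
      refine ⟨hPA, ?_⟩
      have := hQ.2
      rw [hPQ, card_map, card_map] at this
      exact this
    · intro P _
      rw [card_map]
  rw [hsum]
  have h8 : (q + 1) * (r + Y.card) + (q + 1) ≤ (q + 1) * (k + ∑ P ∈ A.powerset.filter
      (fun P => q * P.card ≤ A.card), (P.card + l).choose P.card) := by
    rw [← Nat.mul_succ]
    apply Nat.mul_le_mul_left
    omega
  omega

lemma rho_29 : rho 29 ≤ 1.352 := by
  unfold rho
  have h1 : ((29 : ℕ) : ℝ) * (((29 : ℕ) : ℝ) + 1) ≤ (1.263 : ℝ) ^ 29 := by norm_num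
  have h2 : (((29 : ℕ) : ℝ) * (((29 : ℕ) : ℝ) + 1)) ^ (1 / ((29 : ℕ) : ℝ)) ≤ 1.263 := by
    calc (((29 : ℕ) : ℝ) * (((29 : ℕ) : ℝ) + 1)) ^ (1 / ((29 : ℕ) : ℝ))
        ≤ ((1.263 : ℝ) ^ 29) ^ (1 / ((29 : ℕ) : ℝ)) :=
          Real.rpow_le_rpow (by positivity) h1 (by positivity)
      _ = 1.263 := by
        rw [← Real.rpow_natCast, ← Real.rpow_mul (by norm_num)]
        norm_num
  calc (1 + 1 / ((29 : ℕ) : ℝ)) ^ 2 * (((29 : ℕ) : ℝ) * (((29 : ℕ) : ℝ) + 1)) ^ (1 / ((29 : ℕ) : ℝ))
      ≤ (1 + 1 / ((29 : ℕ) : ℝ)) ^ 2 * 1.263 := mul_le_mul_of_nonneg_left h2 (by positivity)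
    _ ≤ 1.352 := by norm_num

lemma pow_1352 {k : ℕ} (hk : 80 ≤ k) : 30 * ((k : ℝ) + 1.352 ^ k) + 1 ≤ 1.4142 ^ k := by
  induction k, hk using Nat.le_induction with
  | base => norm_num
  | succ k hk ih =>
    have hk' : (80 : ℝ) ≤ k := by exact_mod_cast hk
    have h1 : (0 : ℝ) ≤ 1.352 ^ k := by positivity
    push_cast
    rw [pow_succ, pow_succ]
    nlinarith

/-- the pattern sum, exactly -/
def psum (k : ℕ) : ℕ := ∑ p ∈ range ((k - 1) / 29 + 1), (k - 1).choose p * (p + k).choose p

lemma sum_le_psum {k : ℕ} (A : Finset ℕ) (hA : A.card < k) :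
    ∑ P ∈ A.powerset.filter (fun P => 29 * P.card ≤ A.card), (P.card + k).choose P.card
      ≤ psum k := by
  classical
  have h1 : ∑ P ∈ A.powerset.filter (fun P => 29 * P.card ≤ A.card), (P.card + k).choose P.card
      = ∑ p ∈ range ((k - 1) / 29 + 1),
        ∑ P ∈ (A.powerset.filter (fun P => 29 * P.card ≤ A.card)).filter (fun P => P.card = p),
          (P.card + k).choose P.card := by
    symm
    apply sum_fiberwise_of_maps_to
    intro P hP
    rw [mem_filter, mem_powerset] at hP
    rw [mem_range]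
    have := hP.2
    omega
  rw [h1, psum]
  refine sum_le_sum fun p _ => ?_
  calc ∑ P ∈ (A.powerset.filter (fun P => 29 * P.card ≤ A.card)).filter (fun P => P.card = p),
          (P.card + k).choose P.card
      = ∑ P ∈ (A.powerset.filter (fun P => 29 * P.card ≤ A.card)).filter (fun P => P.card = p),
          (p + k).choose p := by
        refine sum_congr rfl fun P hP => ?_
        rw [(mem_filter.1 hP).2]
    _ ≤ ∑ P ∈ powersetCard p A, (p + k).choose p := by
        apply sum_le_sum_of_subset
        intro P hP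
        rw [mem_filter, mem_filter, mem_powerset] at hP
        rw [mem_powersetCard]
        exact ⟨hP.1.1, hP.2⟩
    _ = A.card.choose p * (p + k).choose p := by
        rw [sum_const, card_powersetCard, smul_eq_mul]
    _ ≤ (k - 1).choose p * (p + k).choose p :=
        Nat.mul_le_mul_right _ (Nat.choose_le_choose p (by omega))

lemma psum_small : ∀ k ∈ Finset.Ico 31 80, (30 * (k + psum k)) ^ 2 ≤ 2 ^ k := by
  decide +kernel

/-- for `k ≥ 31` the sum over patterns is small -/
lemma pattern_sum_le {k : ℕ} (hk : 31 ≤ k) (A : Finset ℕ) (hA : A.card < k) :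
    30 * (k + ∑ P ∈ A.powerset.filter (fun P => 29 * P.card ≤ A.card),
      (P.card + k).choose P.card) + 1 ≤ R k k := by
  rcases lt_or_ge k 80 with h80 | h80
  · have h1 := sum_le_psum A hA
    have h2 := psum_small k (Finset.mem_Ico.2 ⟨hk, h80⟩)
    have h3 := erdos_lower (k := k) (by omega)
    have h4 : (30 * (k + psum k)) ^ 2 < (R k k) ^ 2 := lt_of_le_of_lt h2 h3
    have h5 := lt_of_pow_lt_pow_left₀ 2 (Nat.zero_le _) h4
    omega
  · have h2 := sum_le_real A k 29 k (by norm_num) hA.le le_rfl
    have h3 : rho 29 ^ k ≤ 1.352 ^ k := by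
      apply pow_le_pow_left₀ _ rho_29
      unfold rho
      positivity
    have h4 := pow_1352 h80
    have h5 := lower_real (k := k) (by omega)
    have h6 : ((30 * (k + ∑ P ∈ A.powerset.filter (fun P => 29 * P.card ≤ A.card),
        (P.card + k).choose P.card) + 1 : ℕ) : ℝ) ≤ ((R k k : ℕ) : ℝ) := by
      rw [Nat.cast_add, Nat.cast_mul, Nat.cast_add]
      norm_num
      norm_num at h2
      linarith
    exact_mod_cast h6

/-- `R(k+1,k) ≥ k+1` -/
lemma succ_le_R {k : ℕ} (hk : 2 ≤ k) : k + 1 ≤ R k (k + 1) := by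
  by_contra hlt
  rw [not_le] at hlt
  have h1 := arrows_R k (k + 1)
  rcases h1 ⊥ with ⟨s, hs⟩ | ⟨s, hs⟩
  · rw [SimpleGraph.isNClique_iff] at hs
    have h2 : 1 < s.card := by omega
    obtain ⟨a, ha, b, hb, hab⟩ := Finset.one_lt_card.1 h2
    exact absurd (hs.1 ha hb hab) (by simp)
  · rw [SimpleGraph.isNClique_iff] at hs
    have h2 := card_le_univ s
    rw [Fintype.card_fin] at h2
    omega

/-- **Maximum degree of critical graphs**: blue degrees at most `D` on `R(k,k+1)-1` vertices
force `R(k,k+1) ≤ 30 (D+1)`. -/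
theorem critical_max {k n D : ℕ} (hk : 2 ≤ k) (hn : n + 1 = R k (k + 1)) {G : SimpleGraph (Fin n)}
    (hr : ¬ HasRed G univ k) (hb : ¬ HasBlue G univ (k + 1))
    (hD : ∀ v, ∀ S : Finset (Fin n), (∀ u ∈ S, Gᶜ.Adj v u) → S.card ≤ D) :
    R k (k + 1) ≤ 30 * (D + 1) := by
  rcases lt_or_ge k 31 with h31 | h31
  · have h1 := trivial_bound hr hD
    have h2 := succ_le_R hk
    rw [← hn] at h2 ⊢
    -- n ≤ (k-1)(D+1), n ≥ k
    have h3 : (k - 1) * (D + 1) ≤ 29 * (D + 1) := Nat.mul_le_mul_right _ (by omega)
    omega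
  · rcases dichotomy_graph (q := 29) hr hb hD with h | ⟨A, hA, h⟩
    · omega
    · exfalso
      have h1 := pattern_sum_le h31 A hA
      have h2 : R k k ≤ R k (k + 1) := R_mono le_rfl (Nat.le_succ k)
      omega

end Pool.Agent.H766R2.CritDeg
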