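import Mathlib

/-!
# Lagrange weights at the nodes `1 + 16 i^2`

Weights `w K i` with `f(0) = ∑ w K i * f(1 + 16 i^2)` for all polynomials `f` of degree `< K`, whose
absolute sum is at most `3/2`, uniformly in `K`.
-/

open Finset Polynomial

namespace Pool.Agent.H766R2

/-- the nodes -/
def nd (i : ℕ) : ℕ := 1 + 16 * i ^ 2

/-- the weights -/
noncomputable def wt (K i : ℕ) : ℝ :=
  (Lagrange.basis (range K) (fun i => ((nd i : ℕ) : ℝ)) i).eval 0

lemma nd_injOn (s : Set ℕ) : Set.InjOn (fun i => ((nd i : ℕ) : ℝ)) s := by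
  intro a _ b _ h
  have h' : nd a = nd b := by
    have h1 : ((nd a : ℕ) : ℝ) = ((nd b : ℕ) : ℝ) := h
    exact_mod_cast h1
  unfold nd at h'
  have h2 : a ^ 2 = b ^ 2 := by omega
  exact Nat.pow_left_injective (n := 2) (by norm_num) h2

lemma wt_interp (K : ℕ) (f : ℝ[X]) (hf : f.degree < (K : ℕ)) :
    f.eval 0 = ∑ i ∈ range K, wt K i * f.eval ((nd i : ℕ) : ℝ) := by
  have h := Lagrange.eq_interpolate (s := range K) (v := fun i => ((nd i : ℕ) : ℝ)) (f := f)
    (nd_injOn _) (by simpa using hf)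
  have h2 := congrArg (fun g : ℝ[X] => g.eval 0) h
  simp only [Lagrange.interpolate_apply, eval_finsetSum, eval_mul, eval_C] at h2
  rw [h2]
  refine sum_congr rfl fun i _ => ?_
  unfold wt
  ring

lemma abs_wt (K i : ℕ) : |wt K i| =
    ∏ j ∈ (range K).erase i, ((nd j : ℕ) : ℝ) / |((nd i : ℕ) : ℝ) - ((nd j : ℕ) : ℝ)| := by
  unfold wt Lagrange.basis Lagrange.basisDivisor
  rw [eval_prod, abs_prod]
  refine prod_congr rfl fun j _ => ?_
  simp only [eval_mul, eval_C, eval_sub, eval_X, zero_sub, abs_mul, abs_inv, abs_neg, Nat.abs_cast]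
  rw [div_eq_mul_inv, mul_comm]

/-- the auxiliary factor -/
noncomputable def ph (i j : ℕ) : ℝ := if j = 0 then 1 else (j : ℝ) ^ 2 / |(i : ℝ) ^ 2 - (j : ℝ) ^ 2|

lemma ph_lt {i r : ℕ} (h : r + 1 < i) :
    ph i (r + 1) * (((i : ℝ) - ((r : ℝ) + 1)) * ((i : ℝ) + ((r : ℝ) + 1))) = ((r : ℝ) + 1) ^ 2 := by
  unfold ph
  rw [if_neg (Nat.succ_ne_zero r)]
  push_cast
  have h1 : (r : ℝ) + 1 < i := by exact_mod_cast h
  have h0 : (0 : ℝ) ≤ r := Nat.cast_nonneg r
  have h2 : (0 : ℝ) < (i : ℝ) ^ 2 - ((r : ℝ) + 1) ^ 2 := by nlinarith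
  rw [abs_of_pos h2]
  have h3 : ((i : ℝ) - ((r : ℝ) + 1)) * ((i : ℝ) + ((r : ℝ) + 1)) = (i : ℝ) ^ 2 - ((r : ℝ) + 1) ^ 2 := by
    ring
  rw [h3]
  field_simp

lemma ph_gt {i M : ℕ} (h : i < M + 1) :
    ph i (M + 1) * ((((M : ℝ) + 1) - (i : ℝ)) * (((M : ℝ) + 1) + (i : ℝ))) = ((M : ℝ) + 1) ^ 2 := by
  unfold ph
  rw [if_neg (Nat.succ_ne_zero M)]
  push_cast
  have h1 : (i : ℝ) < (M : ℝ) + 1 := by exact_mod_cast h
  have h0 : (0 : ℝ) ≤ i := Nat.cast_nonneg i
  have h2 : (i : ℝ) ^ 2 - ((M : ℝ) + 1) ^ 2 < 0 := by nlinarith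
  rw [abs_of_neg h2]
  have h3 : (((M : ℝ) + 1) - (i : ℝ)) * (((M : ℝ) + 1) + (i : ℝ)) = -((i : ℝ) ^ 2 - ((M : ℝ) + 1) ^ 2) := by
    ring
  rw [h3]
  have h4 : (i : ℝ) ^ 2 - ((M : ℝ) + 1) ^ 2 ≠ 0 := ne_of_lt h2
  field_simp

lemma base_prod (i r e : ℕ) (h : i = r + 1 + e) :
    (∏ j ∈ range (r + 1), ph i j) * ((i + r).factorial : ℝ) =
      ((r.factorial : ℝ)) ^ 2 * i * (e.factorial : ℝ) := by
  induction r generalizing e with
  | zero =>
    subst h
    simp [ph]
    rw [add_comm 1 e, Nat.factorial_succ]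
    push_cast
    ring
  | succ r ih =>
    have h' : i = r + 1 + (e + 1) := by omega
    have IH := ih (e + 1) h'
    rw [prod_range_succ]
    have hph := ph_lt (i := i) (r := r) (by omega)
    have hi : (i : ℝ) = (r : ℝ) + 1 + ((e : ℝ) + 1) := by
      rw [h']; push_cast; ring
    have e1 : ((i + (r + 1)).factorial : ℝ) = ((i : ℝ) + (r : ℝ) + 1) * ((i + r).factorial : ℝ) := by
      rw [show i + (r + 1) = (i + r) + 1 by ring, Nat.factorial_succ]
      push_cast; ring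
    have e2 : (((r + 1).factorial : ℕ) : ℝ) = ((r : ℝ) + 1) * (r.factorial : ℝ) := by
      rw [Nat.factorial_succ]; push_cast; ring
    have e3 : (((e + 1).factorial : ℕ) : ℝ) = ((e : ℝ) + 1) * (e.factorial : ℝ) := by
      rw [Nat.factorial_succ]; push_cast; ring
    rw [e3] at IH
    rw [e1, e2]
    have hpos : ((i : ℝ) - ((r : ℝ) + 1)) = (e : ℝ) + 1 := by rw [hi]; ring
    rw [hpos] at hph
    have he : ((e : ℝ) + 1) ≠ 0 := by positivity
    have : ((∏ j ∈ range (r + 1), ph i j) * ph i (r + 1) * (((i : ℝ) + (r : ℝ) + 1) * ((i + r).factorial : ℝ))) * ((e : ℝ) + 1)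
        = ((((r : ℝ) + 1) * (r.factorial : ℝ)) ^ 2 * i * (e.factorial : ℝ)) * ((e : ℝ) + 1) := by
      calc _ = ((∏ j ∈ range (r + 1), ph i j) * ((i + r).factorial : ℝ)) *
            (ph i (r + 1) * (((e : ℝ) + 1) * ((i : ℝ) + ((r : ℝ) + 1)))) := by ring
        _ = (((r.factorial : ℝ)) ^ 2 * i * (((e : ℝ) + 1) * (e.factorial : ℝ))) * ((r : ℝ) + 1) ^ 2 := by
            rw [IH, hph]
        _ = _ := by ring
    exact mul_right_cancel₀ he this

lemma full_prod (i d : ℕ) (hi : 1 ≤ i) :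
    (∏ j ∈ (range (i + d + 1)).erase i, ph i j) * ((d.factorial : ℝ) * ((2 * i + d).factorial : ℝ)) =
      2 * (((i + d).factorial : ℝ)) ^ 2 := by
  induction d with
  | zero =>
    obtain ⟨r, rfl⟩ : ∃ r, i = r + 1 := ⟨i - 1, by omega⟩
    have h := base_prod (r + 1) r 0 (by omega)
    have e0 : (range (r + 1 + 0 + 1)).erase (r + 1) = range (r + 1) := by
      ext x; simp; omega
    rw [e0]
    have e1 : ((2 * (r + 1) + 0).factorial : ℝ) = (2 * ((r : ℝ) + 1)) * ((r + 1 + r).factorial : ℝ) := by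
      rw [show 2 * (r + 1) + 0 = (r + 1 + r) + 1 by ring, Nat.factorial_succ]
      push_cast; ring
    have e2 : (((r + 1 + 0).factorial : ℕ) : ℝ) = ((r : ℝ) + 1) * (r.factorial : ℝ) := by
      rw [add_zero, Nat.factorial_succ]; push_cast; ring
    rw [e1, e2]
    push_cast at h ⊢
    simp only [Nat.factorial_zero, Nat.cast_one, mul_one] at h ⊢
    linear_combination (2 * ((r : ℝ) + 1)) * h
  | succ d ih =>
    have e0 : (range (i + (d + 1) + 1)).erase i = insert (i + d + 1) ((range (i + d + 1)).erase i) := by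
      ext x; simp; omega
    have e1 : (i + d + 1) ∉ (range (i + d + 1)).erase i := by simp
    rw [e0, prod_insert e1]
    have hph := ph_gt (i := i) (M := i + d) (by omega)
    push_cast at hph
    have f1 : (((d + 1).factorial : ℕ) : ℝ) = ((d : ℝ) + 1) * (d.factorial : ℝ) := by
      rw [Nat.factorial_succ]; push_cast; ring
    have f2 : ((2 * i + (d + 1)).factorial : ℝ) = (2 * (i : ℝ) + d + 1) * ((2 * i + d).factorial : ℝ) := by
      rw [show 2 * i + (d + 1) = (2 * i + d) + 1 by ring, Nat.factorial_succ]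
      push_cast; ring
    have f3 : (((i + (d + 1)).factorial : ℕ) : ℝ) = ((i : ℝ) + d + 1) * ((i + d).factorial : ℝ) := by
      rw [show i + (d + 1) = (i + d) + 1 by ring, Nat.factorial_succ]
      push_cast; ring
    rw [f1, f2, f3]
    calc _ = (ph i (i + d + 1) * (((i : ℝ) + d + 1 - i) * ((i : ℝ) + d + 1 + i))) *
        ((∏ j ∈ (range (i + d + 1)).erase i, ph i j) * ((d.factorial : ℝ) * ((2 * i + d).factorial : ℝ))) := by
          ring
      _ = _ := by rw [hph, ih]; ring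

lemma fact_sq_le (i d : ℕ) : ((i + d).factorial) ^ 2 ≤ d.factorial * (2 * i + d).factorial := by
  induction i generalizing d with
  | zero => simp [sq]
  | succ i ih =>
    have h := ih (d + 1)
    have e1 : i + 1 + d = i + (d + 1) := by ring
    rw [e1]
    refine h.trans ?_
    rw [Nat.factorial_succ d, show 2 * (i + 1) + d = (2 * i + (d + 1)) + 1 by ring,
      Nat.factorial_succ (2 * i + (d + 1))]
    have : d + 1 ≤ 2 * i + (d + 1) + 1 := by omega
    calc (d + 1) * d.factorial * (2 * i + (d + 1)).factorial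
        = d.factorial * ((d + 1) * (2 * i + (d + 1)).factorial) := by ring
      _ ≤ d.factorial * ((2 * i + (d + 1) + 1) * (2 * i + (d + 1)).factorial) :=
          Nat.mul_le_mul_left _ (Nat.mul_le_mul_right _ this)

lemma ph_prod_le (K i : ℕ) (hi : 1 ≤ i) (hK : i < K) : ∏ j ∈ (range K).erase i, ph i j ≤ 2 := by
  obtain ⟨d, rfl⟩ : ∃ d, K = i + d + 1 := ⟨K - i - 1, by omega⟩
  have h := full_prod i d hi
  have h2 : (((i + d).factorial : ℝ)) ^ 2 ≤ (d.factorial : ℝ) * ((2 * i + d).factorial : ℝ) := by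
    exact_mod_cast fact_sq_le i d
  have h3 : (0 : ℝ) < (d.factorial : ℝ) * ((2 * i + d).factorial : ℝ) := by positivity
  have h4 : (∏ j ∈ (range (i + d + 1)).erase i, ph i j) * ((d.factorial : ℝ) * ((2 * i + d).factorial : ℝ)) ≤
      2 * ((d.factorial : ℝ) * ((2 * i + d).factorial : ℝ)) := by
    rw [h]; linarith
  exact le_of_mul_le_mul_right h4 h3

lemma ph_nonneg (i j : ℕ) : 0 ≤ ph i j := by
  unfold ph; split_ifs <;> positivity

/-- the small factor -/
noncomputable def gg (j : ℕ) : ℝ := 1 / (16 * (j : ℝ) ^ 2)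

lemma gg_nonneg (j : ℕ) : 0 ≤ gg j := by unfold gg; positivity

lemma sum_inv_sq_le (K : ℕ) : ∑ j ∈ range K, 1 / ((j : ℝ) ^ 2) ≤ 2 := by
  have h := sum_Ioo_inv_sq_le (α := ℝ) 0 K
  have h2 : ∑ j ∈ range K, 1 / ((j : ℝ) ^ 2) = ∑ j ∈ Ioo 0 K, ((j : ℝ) ^ 2)⁻¹ := by
    symm
    rw [← sum_subset (s₁ := Ioo 0 K) (s₂ := range K)]
    · refine sum_congr rfl fun j _ => by rw [one_div]
    · intro x hx; simp at hx ⊢; omega
    · intro x hx hx2
      simp at hx hx2
      have : x = 0 := by omega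
      subst this; simp
  rw [h2]
  simpa using h

lemma prod_gg_le (s : Finset ℕ) (K : ℕ) (hs : s ⊆ range K) : ∏ j ∈ s, (1 + gg j) ≤ 8 / 7 := by
  have h1 : ∏ j ∈ s, (1 + gg j) ≤ ∏ j ∈ s, Real.exp (gg j) := by
    apply prod_le_prod
    · intro j _; have := gg_nonneg j; linarith
    · intro j _; rw [add_comm]; exact Real.add_one_le_exp _
  rw [← Real.exp_sum] at h1
  have h2 : ∑ j ∈ s, gg j ≤ 1 / 8 := by
    calc ∑ j ∈ s, gg j ≤ ∑ j ∈ range K, gg j := sum_le_sum_of_subset_of_nonneg hs (fun j _ _ => gg_nonneg j)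
      _ = (1 / 16) * ∑ j ∈ range K, 1 / ((j : ℝ) ^ 2) := by
          rw [mul_sum]; refine sum_congr rfl fun j _ => ?_
          unfold gg
          rw [one_div_mul_one_div]
      _ ≤ (1 / 16) * 2 := by gcongr; exact sum_inv_sq_le K
      _ = 1 / 8 := by norm_num
  have h3 : Real.exp (1 / 8) ≤ 8 / 7 := by
    have := Real.exp_bound_div_one_sub_of_interval (x := 1 / 8) (by norm_num) (by norm_num)
    refine this.trans (by norm_num)
  exact h1.trans ((Real.exp_le_exp.mpr h2).trans h3)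

lemma abs_wt_zero (K : ℕ) : |wt K 0| ≤ 8 / 7 := by
  rw [abs_wt]
  refine le_trans (le_of_eq ?_) (prod_gg_le ((range K).erase 0) K (erase_subset _ _))
  refine prod_congr rfl fun j hj => ?_
  have hj0 : j ≠ 0 := (mem_erase.mp hj).1
  have hj1 : (0 : ℝ) < (j : ℝ) := by positivity
  unfold nd gg
  push_cast
  norm_num
  field_simp
  ring

lemma abs_wt_pos (K i : ℕ) (hi : 1 ≤ i) (hK : i < K) :
    |wt K i| ≤ (1 / 7) * (1 / (i : ℝ) ^ 2) := by
  rw [abs_wt]
  have hi0 : (0 : ℝ) < (i : ℝ) := by exact_mod_cast hi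
  have h0 : (0 : ℕ) ∈ (range K).erase i := by simp; omega
  rw [← mul_prod_erase _ _ h0]
  have e1 : ((nd 0 : ℕ) : ℝ) / |((nd i : ℕ) : ℝ) - ((nd 0 : ℕ) : ℝ)| = gg i := by
    unfold nd gg
    push_cast
    norm_num
  rw [e1]
  have e2 : ∏ x ∈ ((range K).erase i).erase 0, ((nd x : ℕ) : ℝ) / |((nd i : ℕ) : ℝ) - ((nd x : ℕ) : ℝ)|
      = (∏ x ∈ ((range K).erase i).erase 0, (1 + gg x)) * ∏ x ∈ ((range K).erase i).erase 0, ph i x := by
    rw [← prod_mul_distrib]
    refine prod_congr rfl fun x hx => ?_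
    have hx0 : x ≠ 0 := (mem_erase.mp hx).1
    have hxi : x ≠ i := (mem_erase.mp (mem_erase.mp hx).2).1
    have hx1 : (0 : ℝ) < (x : ℝ) := by positivity
    unfold nd gg ph
    rw [if_neg hx0]
    push_cast
    have h1 : (1 + 16 * (i : ℝ) ^ 2 - (1 + 16 * (x : ℝ) ^ 2)) = 16 * ((i : ℝ) ^ 2 - (x : ℝ) ^ 2) := by ring
    rw [h1, abs_mul, abs_of_pos (by norm_num : (0 : ℝ) < 16)]
    have h2 : |(i : ℝ) ^ 2 - (x : ℝ) ^ 2| ≠ 0 := by
      rw [abs_ne_zero, sub_ne_zero]
      intro h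
      have h3 : (i ^ 2 : ℕ) = x ^ 2 := by exact_mod_cast h
      exact hxi (Nat.pow_left_injective (n := 2) (by norm_num) h3).symm
    field_simp
    ring
  rw [e2]
  have e3 : ∏ x ∈ ((range K).erase i).erase 0, ph i x ≤ 2 := by
    have := ph_prod_le K i hi hK
    rw [← mul_prod_erase _ _ h0] at this
    simpa [ph] using this
  have e4 : ∏ x ∈ ((range K).erase i).erase 0, (1 + gg x) ≤ 8 / 7 :=
    prod_gg_le _ K ((erase_subset _ _).trans (erase_subset _ _))
  have e5 : 0 ≤ ∏ x ∈ ((range K).erase i).erase 0, (1 + gg x) :=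
    prod_nonneg fun x _ => by have := gg_nonneg x; linarith
  have e6 : 0 ≤ ∏ x ∈ ((range K).erase i).erase 0, ph i x := prod_nonneg fun x _ => ph_nonneg i x
  calc gg i * ((∏ x ∈ ((range K).erase i).erase 0, (1 + gg x)) * ∏ x ∈ ((range K).erase i).erase 0, ph i x)
      ≤ gg i * ((8 / 7) * 2) := by
        apply mul_le_mul_of_nonneg_left _ (gg_nonneg i)
        exact mul_le_mul e4 e3 e6 (by norm_num)
    _ = (1 / 7) * (1 / (i : ℝ) ^ 2) := by
        unfold gg
        field_simp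
        norm_num

lemma sum_abs_wt_le (K : ℕ) : ∑ i ∈ range K, |wt K i| ≤ 3 / 2 := by
  rcases Nat.eq_zero_or_pos K with rfl | hK
  · simp; norm_num
  · have h0 : (0 : ℕ) ∈ range K := by simpa using hK
    rw [← add_sum_erase _ _ h0]
    have h1 : ∑ i ∈ (range K).erase 0, |wt K i| ≤ ∑ i ∈ (range K).erase 0, (1 / 7) * (1 / (i : ℝ) ^ 2) := by
      apply sum_le_sum
      intro i hi
      have hi0 : i ≠ 0 := (mem_erase.mp hi).1
      have hiK : i < K := by simpa using (mem_erase.mp hi).2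
      exact abs_wt_pos K i (by omega) hiK
    have h2 : ∑ i ∈ (range K).erase 0, (1 / 7) * (1 / (i : ℝ) ^ 2) ≤ (1 / 7) * 2 := by
      rw [← mul_sum]
      apply mul_le_mul_of_nonneg_left _ (by norm_num)
      refine le_trans (sum_le_sum_of_subset_of_nonneg (erase_subset _ _) ?_) (sum_inv_sq_le K)
      intro i _ _; positivity
    have h3 := abs_wt_zero K
    linarith

end Pool.Agent.H766R2
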