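import Mathlib
import Pool.Agent.H766R2.LagWeights

/-!
# One-bit quantisation with high order noise shaping
-/

open Finset Polynomial

namespace Pool.Agent.H766R2

/-- truncated binomial expansion error -/
lemma trunc_binom (y : ℝ) (hy0 : 0 ≤ y) (hy1 : y ≤ 1) (n : ℕ) : ∀ K : ℕ,
    |(1 - y) ^ n - ∑ l ∈ range K, (n.choose l : ℝ) * (-y) ^ l| ≤ (n.choose K : ℝ) * y ^ K := by
  induction n with
  | zero =>
    intro K
    rcases Nat.eq_zero_or_pos K with rfl | hK
    · simp
    · have : ∑ l ∈ range K, ((0 : ℕ).choose l : ℝ) * (-y) ^ l = 1 := by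
        rw [sum_eq_single_of_mem 0 (by simpa using hK)]
        · simp
        · intro b _ hb
          obtain ⟨c, rfl⟩ : ∃ c, b = c + 1 := ⟨b - 1, by omega⟩
          simp
      rw [this]
      simp
      positivity
  | succ n ih =>
    intro K
    rcases K with _ | K
    · simp
      rw [abs_of_nonneg (by linarith)]
      exact pow_le_one₀ (by linarith) (by linarith)
    · have e1 : ∑ l ∈ range (K + 1), ((n + 1).choose l : ℝ) * (-y) ^ l =
          ∑ l ∈ range (K + 1), (n.choose l : ℝ) * (-y) ^ l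
          - y * ∑ l ∈ range K, (n.choose l : ℝ) * (-y) ^ l := by
        rw [sum_range_succ' (fun l => ((n + 1).choose l : ℝ) * (-y) ^ l),
          sum_range_succ' (fun l => (n.choose l : ℝ) * (-y) ^ l), mul_sum]
        have : ∀ l ∈ range K, ((n + 1).choose (l + 1) : ℝ) * (-y) ^ (l + 1) =
            (n.choose (l + 1) : ℝ) * (-y) ^ (l + 1) - y * ((n.choose l : ℝ) * (-y) ^ l) := by
          intro l _
          rw [Nat.choose_succ_succ]
          push_cast
          ring
        rw [sum_congr rfl this, sum_sub_distrib]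
        simp
        ring
      rw [e1]
      have h1 := ih (K + 1)
      have h2 := ih K
      have e2 : (1 - y) ^ (n + 1) - (∑ l ∈ range (K + 1), (n.choose l : ℝ) * (-y) ^ l
          - y * ∑ l ∈ range K, (n.choose l : ℝ) * (-y) ^ l) =
          ((1 - y) ^ n - ∑ l ∈ range (K + 1), (n.choose l : ℝ) * (-y) ^ l)
          - y * ((1 - y) ^ n - ∑ l ∈ range K, (n.choose l : ℝ) * (-y) ^ l) := by ring
      rw [e2]
      refine (abs_sub _ _).trans ?_
      rw [abs_mul, abs_of_nonneg hy0]
      calc _ ≤ (n.choose (K + 1) : ℝ) * y ^ (K + 1) + y * ((n.choose K : ℝ) * y ^ K) := by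
            gcongr
        _ = ((n + 1).choose (K + 1) : ℝ) * y ^ (K + 1) := by
            rw [Nat.choose_succ_succ]; push_cast; ring

/-- the polynomial `t ↦ ∑_{l<K} binom(t,l) (-y)^l` -/
noncomputable def bp (K : ℕ) (y : ℝ) : ℝ[X] :=
  ∑ l ∈ range K, C ((-y) ^ l / (l.factorial : ℝ)) * descPochhammer ℝ l

lemma bp_eval (K : ℕ) (y : ℝ) (n : ℕ) :
    (bp K y).eval (n : ℝ) = ∑ l ∈ range K, (n.choose l : ℝ) * (-y) ^ l := by
  unfold bp
  rw [eval_finsetSum]
  refine sum_congr rfl fun l _ => ?_
  rw [eval_mul, eval_C, descPochhammer_eval_eq_descFactorial, Nat.descFactorial_eq_factorial_mul_choose]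
  have : (l.factorial : ℝ) ≠ 0 := by positivity
  push_cast
  field_simp

lemma bp_degree (K : ℕ) (y : ℝ) : (bp K y).degree < (K : ℕ) := by
  rw [← mem_degreeLT]
  unfold bp
  refine Submodule.sum_mem _ fun l hl => ?_
  rw [mem_degreeLT]
  have h1 : (descPochhammer ℝ l).natDegree = l := by
    exact descPochhammer_natDegree ℝ l
  have h2 : (C ((-y) ^ l / (l.factorial : ℝ)) * descPochhammer ℝ l).natDegree ≤ l := by
    refine (natDegree_C_mul_le _ _).trans h1.le
  refine lt_of_le_of_lt (degree_le_natDegree) ?_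
  have h3 : l < K := by simpa using hl
  exact_mod_cast lt_of_le_of_lt h2 h3

/-- The noise shaping function is tiny near `1`. -/
lemma shaping_small (K : ℕ) (hK : 1 ≤ K) (y : ℝ) (hy0 : 0 ≤ y) (hy1 : y ≤ 1) :
    |1 - ∑ i ∈ range K, wt K i * (1 - y) ^ (nd i)| ≤ (3 / 2) * (48 * K * y) ^ K := by
  have h0 := wt_interp K (bp K y) (bp_degree K y)
  have h1 : (bp K y).eval 0 = 1 := by
    have := bp_eval K y 0
    rw [Nat.cast_zero] at this
    rw [this, sum_eq_single_of_mem 0 (mem_range.mpr hK)]
    · simp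
    · intro b _ hb
      obtain ⟨c, rfl⟩ : ∃ c, b = c + 1 := ⟨b - 1, by omega⟩
      simp
  rw [h1] at h0
  have e1 : 1 - ∑ i ∈ range K, wt K i * (1 - y) ^ (nd i) =
      -∑ i ∈ range K, wt K i * ((1 - y) ^ (nd i) - ∑ l ∈ range K, ((nd i).choose l : ℝ) * (-y) ^ l) := by
    have h0' : 1 - ∑ i ∈ range K, wt K i * (1 - y) ^ (nd i) =
        (∑ i ∈ range K, wt K i * (bp K y).eval ((nd i : ℕ) : ℝ)) -
          ∑ i ∈ range K, wt K i * (1 - y) ^ (nd i) := by rw [← h0]
    rw [h0', ← sum_sub_distrib, ← sum_neg_distrib]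
    refine sum_congr rfl fun i _ => ?_
    rw [bp_eval]
    ring
  rw [e1, abs_neg]
  have hfac : ∀ i ∈ range K, ((nd i).choose K : ℝ) * y ^ K ≤ (48 * K * y) ^ K := by
    intro i hi
    have hi' : i + 1 ≤ K := by simpa using hi
    have hnd : (nd i) ≤ 16 * K ^ 2 := by
      unfold nd
      have : (i + 1) ^ 2 ≤ K ^ 2 := Nat.pow_le_pow_left hi' 2
      nlinarith
    have h2 : ((nd i).choose K : ℝ) ≤ ((nd i : ℕ) : ℝ) ^ K / (K.factorial : ℝ) := Nat.choose_le_pow_div K (nd i)
    have h3 : ((nd i : ℕ) : ℝ) ≤ 16 * (K : ℝ) ^ 2 := by exact_mod_cast hnd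
    have h4 : (K : ℝ) ^ K / (K.factorial : ℝ) ≤ Real.exp K := Real.pow_div_factorial_le_exp (K : ℝ) (by positivity) K
    have h5 : Real.exp K ≤ 3 ^ K := by
      have : Real.exp (K : ℝ) = Real.exp 1 ^ K := by rw [← Real.exp_nat_mul]; simp
      rw [this]
      apply pow_le_pow_left₀ (by positivity)
      have := Real.exp_one_lt_d9
      linarith
    calc ((nd i).choose K : ℝ) * y ^ K ≤ (((nd i : ℕ) : ℝ) ^ K / (K.factorial : ℝ)) * y ^ K := by gcongr
      _ ≤ ((16 * (K : ℝ) ^ 2) ^ K / (K.factorial : ℝ)) * y ^ K := by gcongr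
      _ = ((K : ℝ) ^ K / (K.factorial : ℝ)) * (16 * K * y) ^ K := by
          rw [show (16 * (K : ℝ) ^ 2) = K * (16 * K) by ring, mul_pow, mul_pow (16 * (K : ℝ)) y]
          ring
      _ ≤ 3 ^ K * (16 * K * y) ^ K := by
          apply mul_le_mul_of_nonneg_right (h4.trans h5) (by positivity)
      _ = (48 * K * y) ^ K := by
          rw [← mul_pow]; congr 1; ring
  calc |∑ i ∈ range K, wt K i * ((1 - y) ^ (nd i) - ∑ l ∈ range K, ((nd i).choose l : ℝ) * (-y) ^ l)|
      ≤ ∑ i ∈ range K, |wt K i * ((1 - y) ^ (nd i) - ∑ l ∈ range K, ((nd i).choose l : ℝ) * (-y) ^ l)| :=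
        abs_sum_le_sum_abs _ _
    _ ≤ ∑ i ∈ range K, |wt K i| * (48 * K * y) ^ K := by
        apply sum_le_sum
        intro i hi
        rw [abs_mul]
        apply mul_le_mul_of_nonneg_left _ (abs_nonneg _)
        exact (trunc_binom y hy0 hy1 (nd i) K).trans (hfac i hi)
    _ = (∑ i ∈ range K, |wt K i|) * (48 * K * y) ^ K := by rw [sum_mul]
    _ ≤ (3 / 2) * (48 * K * y) ^ K := by
        apply mul_le_mul_of_nonneg_right (sum_abs_wt_le K) (by positivity)

/-- the one bit quantiser -/
lemma exists_quant (K : ℕ) (f : ℕ → ℝ) (hf : ∀ j, |f j| ≤ 1 / 2) (N : ℕ) :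
    ∃ q u : ℕ → ℝ, (∀ j, |u j| ≤ 1) ∧ ∀ j < N, (q j = 1 ∨ q j = -1) ∧
      q j = f j - u j + ∑ i ∈ range K, wt K i * (if nd i ≤ j then u (j - nd i) else 0) := by
  induction N with
  | zero => exact ⟨fun _ => 1, fun _ => 0, by simp, by simp⟩
  | succ N ih =>
    obtain ⟨q, u, hu, h⟩ := ih
    set S := ∑ i ∈ range K, wt K i * (if nd i ≤ N then u (N - nd i) else 0) with hS
    have hSabs : |S| ≤ 3 / 2 := by
      calc |S| ≤ ∑ i ∈ range K, |wt K i * (if nd i ≤ N then u (N - nd i) else 0)| := abs_sum_le_sum_abs _ _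
        _ ≤ ∑ i ∈ range K, |wt K i| := by
            apply sum_le_sum
            intro i _
            rw [abs_mul]
            have : |if nd i ≤ N then u (N - nd i) else 0| ≤ 1 := by
              split_ifs
              · exact hu _
              · simp
            calc _ ≤ |wt K i| * 1 := by gcongr
              _ = _ := mul_one _
        _ ≤ 3 / 2 := sum_abs_wt_le K
    have hnd : ∀ i, 1 ≤ nd i := fun i => by unfold nd; omega
    set v := f N + S with hv
    have hvabs : |v| ≤ 2 := by
      calc |v| ≤ |f N| + |S| := abs_add_le _ _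
        _ ≤ 1 / 2 + 3 / 2 := add_le_add (hf N) hSabs
        _ = 2 := by norm_num
    obtain ⟨s, hs, hvs⟩ : ∃ s : ℝ, (s = 1 ∨ s = -1) ∧ |v - s| ≤ 1 := by
      rw [abs_le] at hvabs
      rcases le_total 0 v with h0 | h0
      · exact ⟨1, Or.inl rfl, by rw [abs_le]; constructor <;> linarith⟩
      · exact ⟨-1, Or.inr rfl, by rw [abs_le]; constructor <;> linarith⟩
    refine ⟨Function.update q N s, Function.update u N (v - s), ?_, ?_⟩
    · intro j
      by_cases hj : j = N
      · subst hj; simpa using hvs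
      · rw [Function.update_of_ne hj]; exact hu j
    · intro j hj
      have key : ∀ j ≤ N, ∑ i ∈ range K, wt K i *
          (if nd i ≤ j then Function.update u N (v - s) (j - nd i) else 0) =
          ∑ i ∈ range K, wt K i * (if nd i ≤ j then u (j - nd i) else 0) := by
        intro j hj
        refine sum_congr rfl fun i _ => ?_
        by_cases h1 : nd i ≤ j
        · rw [if_pos h1, if_pos h1, Function.update_of_ne]
          have := hnd i
          omega
        · rw [if_neg h1, if_neg h1]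
      rcases Nat.lt_succ_iff_lt_or_eq.mp hj with hj' | rfl
      · rw [key j hj'.le, Function.update_of_ne (ne_of_lt hj'), Function.update_of_ne (ne_of_lt hj')]
        exact h j hj'
      · rw [key j le_rfl, Function.update_self, Function.update_self]
        refine ⟨hs, ?_⟩
        rw [hv]
        ring

/-- the quantised polynomial is close to the original one where the shaping function is small -/
lemma quant_close (K : ℕ) (f q u : ℕ → ℝ) (n : ℕ) (hu : ∀ j, |u j| ≤ 1)
    (h : ∀ j < n + 1, q j = f j - u j + ∑ i ∈ range K, wt K i * (if nd i ≤ j then u (j - nd i) else 0))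
    (x : ℝ) (hx0 : 0 ≤ x) (hx1 : x < 1) :
    |∑ j ∈ range (n + 1), q j * x ^ j - ∑ j ∈ range (n + 1), f j * x ^ j| ≤
      (|1 - ∑ i ∈ range K, wt K i * x ^ (nd i)| + (3 / 2) * x ^ (n + 1)) / (1 - x) := by
  have h1x : 0 < 1 - x := by linarith
  set U := ∑ j ∈ range (n + 1), u j * x ^ j with hU
  set T : ℕ → ℝ := fun i => ∑ j ∈ range (n + 1), (if nd i ≤ j then u (j - nd i) else 0) * x ^ j with hT
  have hUabs : |U| ≤ 1 / (1 - x) := by
    calc |U| ≤ ∑ j ∈ range (n + 1), |u j * x ^ j| := abs_sum_le_sum_abs _ _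
      _ ≤ ∑ j ∈ range (n + 1), x ^ j := by
          apply sum_le_sum
          intro j _
          rw [abs_mul, abs_of_nonneg (pow_nonneg hx0 j)]
          calc |u j| * x ^ j ≤ 1 * x ^ j := by gcongr; exact hu j
            _ = x ^ j := one_mul _
      _ ≤ 1 / (1 - x) := by
          have := geom_sum_Ico_le_of_lt_one (x := x) (m := 0) (n := n + 1) hx0 hx1
          simpa [Nat.Ico_zero_eq_range] using this
  have hTi : ∀ i, |T i - x ^ (nd i) * U| ≤ x ^ (n + 1) / (1 - x) := by
    intro i
    have e1 : x ^ (nd i) * U = ∑ j ∈ range (nd i + (n + 1)), (if nd i ≤ j then u (j - nd i) else 0) * x ^ j := by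
      rw [sum_range_add]
      have : ∑ j ∈ range (nd i), (if nd i ≤ j then u (j - nd i) else 0) * x ^ j = 0 := by
        apply sum_eq_zero
        intro j hj
        rw [if_neg (by simpa using hj)]
        simp
      rw [this, zero_add, hU, mul_sum]
      refine sum_congr rfl fun j _ => ?_
      rw [if_pos (by omega), Nat.add_sub_cancel_left, pow_add]
      ring
    have e2 : x ^ (nd i) * U - T i = ∑ j ∈ Ico (n + 1) (nd i + (n + 1)), (if nd i ≤ j then u (j - nd i) else 0) * x ^ j := by
      rw [e1, hT, ← sum_range_add_sum_Ico _ (show n + 1 ≤ nd i + (n + 1) by omega)]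
      simp
    rw [abs_sub_comm, e2]
    calc _ ≤ ∑ j ∈ Ico (n + 1) (nd i + (n + 1)), |(if nd i ≤ j then u (j - nd i) else 0) * x ^ j| :=
          abs_sum_le_sum_abs _ _
      _ ≤ ∑ j ∈ Ico (n + 1) (nd i + (n + 1)), x ^ j := by
          apply sum_le_sum
          intro j _
          rw [abs_mul, abs_of_nonneg (pow_nonneg hx0 j)]
          have : |if nd i ≤ j then u (j - nd i) else 0| ≤ 1 := by
            split_ifs
            · exact hu _
            · simp
          calc _ ≤ 1 * x ^ j := by gcongr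
            _ = x ^ j := one_mul _
      _ ≤ x ^ (n + 1) / (1 - x) := geom_sum_Ico_le_of_lt_one hx0 hx1
  have e : ∑ j ∈ range (n + 1), q j * x ^ j - ∑ j ∈ range (n + 1), f j * x ^ j =
      -(1 - ∑ i ∈ range K, wt K i * x ^ (nd i)) * U + ∑ i ∈ range K, wt K i * (T i - x ^ (nd i) * U) := by
    have e1 : ∑ j ∈ range (n + 1), q j * x ^ j = ∑ j ∈ range (n + 1), f j * x ^ j - U +
        ∑ i ∈ range K, wt K i * T i := by
      have : ∀ j ∈ range (n + 1), q j * x ^ j = f j * x ^ j - u j * x ^ j +
          ∑ i ∈ range K, wt K i * ((if nd i ≤ j then u (j - nd i) else 0) * x ^ j) := by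
        intro j hj
        rw [h j (by simpa using hj), add_mul, sub_mul, sum_mul]
        congr 1
        refine sum_congr rfl fun i _ => by ring
      rw [sum_congr rfl this, sum_add_distrib, sum_sub_distrib, sum_comm]
      congr 1
      refine sum_congr rfl fun i _ => ?_
      rw [hT, mul_sum]
    rw [e1]
    have : ∑ i ∈ range K, wt K i * (T i - x ^ (nd i) * U) = ∑ i ∈ range K, wt K i * T i -
        (∑ i ∈ range K, wt K i * x ^ (nd i)) * U := by
      rw [sum_mul, ← sum_sub_distrib]
      refine sum_congr rfl fun i _ => by ring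
    rw [this]
    ring
  rw [e]
  calc _ ≤ |-(1 - ∑ i ∈ range K, wt K i * x ^ (nd i)) * U| + |∑ i ∈ range K, wt K i * (T i - x ^ (nd i) * U)| :=
        abs_add_le _ _
    _ ≤ |1 - ∑ i ∈ range K, wt K i * x ^ (nd i)| * (1 / (1 - x)) + (3 / 2) * (x ^ (n + 1) / (1 - x)) := by
        apply add_le_add
        · rw [abs_mul, abs_neg]
          gcongr
        · calc _ ≤ ∑ i ∈ range K, |wt K i * (T i - x ^ (nd i) * U)| := abs_sum_le_sum_abs _ _
            _ ≤ ∑ i ∈ range K, |wt K i| * (x ^ (n + 1) / (1 - x)) := by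
                apply sum_le_sum
                intro i _
                rw [abs_mul]
                gcongr
                exact hTi i
            _ = (∑ i ∈ range K, |wt K i|) * (x ^ (n + 1) / (1 - x)) := by rw [sum_mul]
            _ ≤ (3 / 2) * (x ^ (n + 1) / (1 - x)) := by
                gcongr
                exact sum_abs_wt_le K
    _ = _ := by ring

end Pool.Agent.H766R2
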