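import Mathlib
import Pool.Agent.H766R2.Quant

/-!
# Littlewood polynomials with many distinct zeros in `(0,1)`
-/

open Finset Polynomial

namespace Pool.Agent.H766R2

/-- Chebyshev polynomial transported to `[1/4, 1/2]` -/
noncomputable def GG (J : ℕ) : ℝ[X] := (Chebyshev.T ℝ (J : ℤ)).comp (C 8 * X - C 3)

lemma GG_zero : GG 0 = 1 := by simp [GG]

lemma GG_one : GG 1 = C 8 * X - C 3 := by simp [GG]

lemma GG_add_two (J : ℕ) : GG (J + 2) = C 2 * (C 8 * X - C 3) * GG (J + 1) - GG J := by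
  unfold GG
  have := Chebyshev.T_add_two ℝ (J : ℤ)
  push_cast
  rw [this]
  simp
  left; left
  exact (map_ofNat C 2).symm

lemma GG_coeff (J : ℕ) : ∀ j, |(GG J).coeff j| ≤ 23 ^ J := by
  induction J using Nat.twoStepInduction with
  | zero =>
    intro j
    rw [GG_zero, coeff_one]
    split_ifs <;> simp
  | one =>
    intro j
    rw [GG_one, coeff_sub, coeff_C_mul, coeff_X, coeff_C]
    split_ifs <;> norm_num
  | more J h0 h1 =>
    intro j
    have e : (GG (J + 2)).coeff j = 16 * (X * GG (J + 1)).coeff j - 6 * (GG (J + 1)).coeff j - (GG J).coeff j := by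
      rw [GG_add_two]
      have : C (2 : ℝ) * (C 8 * X - C 3) * GG (J + 1) - GG J =
          C 16 * (X * GG (J + 1)) - C 6 * GG (J + 1) - GG J := by
        have e1 : (C (16 : ℝ)) = C 2 * C 8 := by rw [← C_mul]; norm_num
        have e2 : (C (6 : ℝ)) = C 2 * C 3 := by rw [← C_mul]; norm_num
        rw [e1, e2]; ring
      rw [this, coeff_sub, coeff_sub, coeff_C_mul, coeff_C_mul]
    have hx : |(X * GG (J + 1)).coeff j| ≤ 23 ^ (J + 1) := by
      rcases j with _ | j
      · simp
      · rw [coeff_X_mul]; exact h1 j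
    have h1j := h1 j
    have h0j := h0 j
    have hpow : (23 : ℝ) ^ J ≤ 23 ^ (J + 1) := by
      rw [pow_succ]; nlinarith [pow_pos (show (0 : ℝ) < 23 by norm_num) J]
    rw [e]
    have e3 : (23 : ℝ) ^ (J + 2) = 23 * 23 ^ (J + 1) := by ring
    rw [e3]
    rw [abs_le] at *
    constructor <;> nlinarith [hx.1, hx.2, h1j.1, h1j.2, h0j.1, h0j.2]

lemma GG_natDegree (J : ℕ) : (GG J).natDegree ≤ J := by
  induction J using Nat.twoStepInduction with
  | zero => rw [GG_zero]; simp
  | one =>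
    rw [GG_one]
    compute_degree
  | more J h0 h1 =>
    rw [GG_add_two]
    refine (natDegree_sub_le _ _).trans ?_
    apply max_le
    · refine natDegree_mul_le.trans ?_
      have : (C (2 : ℝ) * (C 8 * X - C 3)).natDegree ≤ 1 := by compute_degree
      omega
    · omega

lemma GG_eval (J : ℕ) (θ : ℝ) : (GG J).eval ((Real.cos θ + 3) / 8) = Real.cos (J * θ) := by
  unfold GG
  rw [eval_comp]
  have : (C (8 : ℝ) * X - C 3).eval ((Real.cos θ + 3) / 8) = Real.cos θ := by
    simp; ring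
  rw [this, Chebyshev.T_real_cos]
  simp

lemma pow4_gt (K : ℕ) (hK : 11 ≤ K) : (115200 : ℝ) * K < 4 ^ K := by
  induction K, hK using Nat.le_induction with
  | base => norm_num
  | succ K hK ih =>
    rw [pow_succ]
    push_cast
    have : (11 : ℝ) ≤ K := by exact_mod_cast hK
    nlinarith

/-- The alternation statement. -/
lemma core_alt (K n : ℕ) (hK : 11 ≤ K) (hn : 96000 * K ^ 2 ≤ n) :
    ∃ q : ℕ → ℝ, (∀ j < n + 1, q j = 1 ∨ q j = -1) ∧ ∃ x : ℕ → ℝ,
      (∀ l < K, x (l + 1) < x l) ∧ (∀ l ≤ K, 0 < x l ∧ x l ≤ 1 - 1 / (19200 * K)) ∧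
      ∀ l ≤ K, 0 < (-1) ^ l * ∑ j ∈ range (n + 1), q j * x l ^ j := by
  have hK0 : (0 : ℝ) < K := by
    have : 0 < K := by omega
    exact_mod_cast this
  have hK11 : (11 : ℝ) ≤ K := by exact_mod_cast hK
  set m : ℕ := 9600 * K with hm
  have hm0 : m ≠ 0 := by omega
  have hmR : (m : ℝ) = 9600 * K := by rw [hm]; push_cast; ring
  have hmpos : (0 : ℝ) < m := by rw [hmR]; positivity
  set A : ℝ := 1 / (2 * 23 ^ K) with hA
  have hApos : 0 < A := by rw [hA]; positivity
  set f : ℕ → ℝ := fun j => A * (expand ℝ m (GG K)).coeff j with hf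
  have hfb : ∀ j, |f j| ≤ 1 / 2 := by
    intro j
    rw [hf]
    simp only
    rw [abs_mul, abs_of_pos hApos, coeff_expand (Nat.pos_of_ne_zero hm0)]
    have h1 : |if m ∣ j then (GG K).coeff (j / m) else 0| ≤ 23 ^ K := by
      split_ifs
      · exact GG_coeff K _
      · simp
    calc A * |if m ∣ j then (GG K).coeff (j / m) else 0| ≤ A * 23 ^ K := by gcongr
      _ = 1 / 2 := by rw [hA]; field_simp
  obtain ⟨q, u, hu, hq⟩ := exists_quant K f hfb (n + 1)
  refine ⟨q, fun j hj => (hq j hj).1, ?_⟩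
  -- nodes
  set y : ℕ → ℝ := fun l => (Real.cos (l * (Real.pi / K)) + 3) / 8 with hy
  have hy_lb : ∀ l, 1 / 4 ≤ y l := by
    intro l
    have := Real.neg_one_le_cos (l * (Real.pi / K))
    rw [hy]; simp only; linarith
  have hy_ub : ∀ l, y l ≤ 1 / 2 := by
    intro l
    have := Real.cos_le_one (l * (Real.pi / K))
    rw [hy]; simp only; linarith
  have hy_anti : ∀ l < K, y (l + 1) < y l := by
    intro l hl
    have h1 : Real.cos (((l + 1 : ℕ) : ℝ) * (Real.pi / K)) < Real.cos ((l : ℝ) * (Real.pi / K)) := by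
      apply Real.cos_lt_cos_of_nonneg_of_le_pi
      · positivity
      · have : ((l + 1 : ℕ) : ℝ) ≤ K := by exact_mod_cast hl
        calc ((l + 1 : ℕ) : ℝ) * (Real.pi / K) ≤ K * (Real.pi / K) := by
              gcongr
          _ = Real.pi := by field_simp
      · have : (0 : ℝ) < Real.pi / K := by positivity
        push_cast
        nlinarith
    rw [hy]; simp only; linarith
  set x : ℕ → ℝ := fun l => (y l) ^ ((m : ℝ)⁻¹) with hx
  have hy_pos : ∀ l, 0 < y l := fun l => by linarith [hy_lb l]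
  have hx_pos : ∀ l, 0 < x l := fun l => Real.rpow_pos_of_pos (hy_pos l) _
  have hx_pow : ∀ l, x l ^ m = y l := fun l => Real.rpow_inv_natCast_pow (hy_pos l).le hm0
  have h2m : 0 ≤ 1 - 1 / (2 * (m : ℝ)) := by
    rw [sub_nonneg, div_le_one (by positivity)]
    rw [hmR]; nlinarith
  have hx_ub : ∀ l, x l ≤ 1 - 1 / (2 * (m : ℝ)) := by
    intro l
    by_contra hcon
    push Not at hcon
    have h1 : (1 - 1 / (2 * (m : ℝ))) ^ m < x l ^ m := pow_lt_pow_left₀ hcon h2m hm0
    have h2 : 1 + (m : ℝ) * (-(1 / (2 * (m : ℝ)))) ≤ (1 + -(1 / (2 * (m : ℝ)))) ^ m := by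
      apply one_add_mul_le_pow
      have : 1 / (2 * (m : ℝ)) ≤ 1 := by
        rw [div_le_one (by positivity)]; rw [hmR]; nlinarith
      linarith
    have h3 : 1 + (m : ℝ) * (-(1 / (2 * (m : ℝ)))) = 1 / 2 := by
      field_simp; ring
    rw [h3, ← sub_eq_add_neg] at h2
    rw [hx_pow] at h1
    linarith [hy_ub l]
  have hx_lb : ∀ l, 1 - 2 / (m : ℝ) ≤ x l := by
    intro l
    by_contra hcon
    push Not at hcon
    have h1 : x l ^ m < (1 - 2 / (m : ℝ)) ^ m := pow_lt_pow_left₀ hcon (hx_pos l).le hm0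
    have h2 : 1 - 2 / (m : ℝ) ≤ Real.exp (-(2 / (m : ℝ))) := Real.one_sub_le_exp_neg _
    have h3 : (1 - 2 / (m : ℝ)) ^ m ≤ Real.exp (-(2 / (m : ℝ))) ^ m := by
      apply pow_le_pow_left₀ _ h2
      linarith [hx_pos l]
    have h4 : Real.exp (-(2 / (m : ℝ))) ^ m = Real.exp (-2) := by
      rw [← Real.exp_nat_mul]; congr 1; field_simp
    have h5 : Real.exp (-2) ≤ 1 / 4 := by
      rw [Real.exp_neg, ← one_div]
      apply one_div_le_one_div_of_le (by norm_num)
      have : Real.exp 2 = Real.exp 1 * Real.exp 1 := by rw [← Real.exp_add]; norm_num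
      rw [this]
      have := Real.exp_one_gt_d9
      nlinarith
    rw [hx_pow] at h1
    linarith [hy_lb l]
  refine ⟨x, ?_, ?_, ?_⟩
  · intro l hl
    exact Real.rpow_lt_rpow (hy_pos _).le (hy_anti l hl) (by positivity)
  · intro l _
    refine ⟨hx_pos l, (hx_ub l).trans (le_of_eq ?_)⟩
    rw [hmR]; ring
  · intro l hl
    have hx1 : x l < 1 := by
      have : (0 : ℝ) < 1 / (2 * (m : ℝ)) := by positivity
      linarith [hx_ub l]
    have hclose := quant_close K f q u n hu (fun j hj => (hq j hj).2) (x l) (hx_pos l).le hx1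
    have hF : ∑ j ∈ range (n + 1), f j * x l ^ j = A * (-1) ^ l := by
      have hdeg : (expand ℝ m (GG K)).natDegree < n + 1 := by
        rw [natDegree_expand]
        have h1 := GG_natDegree K
        have h2 : (GG K).natDegree * m ≤ K * m := Nat.mul_le_mul_right m h1
        have h3 : K * m = 9600 * K ^ 2 := by rw [hm]; ring
        omega
      have h1 : ∑ j ∈ range (n + 1), f j * x l ^ j = A * (expand ℝ m (GG K)).eval (x l) := by
        rw [eval_eq_sum_range' hdeg, mul_sum]
        refine sum_congr rfl fun j _ => ?_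
        rw [hf]; ring
      rw [h1, expand_eval, hx_pow, hy]
      simp only
      rw [GG_eval]
      congr 1
      have : (K : ℝ) * ((l : ℝ) * (Real.pi / K)) = l * Real.pi := by field_simp
      rw [this, Real.cos_nat_mul_pi]
    rw [hF] at hclose
    have hsh := shaping_small K (by omega) (1 - x l) (by linarith) (by linarith [hx_pos l])
    rw [sub_sub_cancel] at hsh
    have h48 : (48 * K * (1 - x l)) ^ K ≤ (1 / 100 : ℝ) ^ K := by
      apply pow_le_pow_left₀
      · have : 0 ≤ 1 - x l := by linarith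
        positivity
      · have h1 : 1 - x l ≤ 2 / (m : ℝ) := by linarith [hx_lb l]
        calc 48 * K * (1 - x l) ≤ 48 * K * (2 / (m : ℝ)) := by gcongr
          _ = 1 / 100 := by rw [hmR]; field_simp; norm_num
    have hxn : x l ^ (n + 1) ≤ (1 / 100 : ℝ) ^ K := by
      have h1 : x l ≤ Real.exp (-(1 / (2 * (m : ℝ)))) := (hx_ub l).trans (Real.one_sub_le_exp_neg _)
      have h2 : x l ^ (n + 1) ≤ Real.exp (-(1 / (2 * (m : ℝ)))) ^ (n + 1) :=
        pow_le_pow_left₀ (hx_pos l).le h1 _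
      have h3 : Real.exp (-(1 / (2 * (m : ℝ)))) ^ (n + 1) ≤ Real.exp (-5) ^ K := by
        rw [← Real.exp_nat_mul, ← Real.exp_nat_mul]
        apply Real.exp_le_exp.mpr
        have h4 : (96000 : ℝ) * K ^ 2 ≤ n := by exact_mod_cast hn
        push_cast
        rw [hmR]
        have h5 : (K : ℝ) * 5 ≤ ((n : ℝ) + 1) * (1 / (2 * (9600 * K))) := by
          rw [mul_one_div, le_div_iff₀ (by positivity)]
          nlinarith
        linarith
      have h6 : Real.exp (-5) ≤ 1 / 100 := by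
        rw [Real.exp_neg, ← one_div]
        apply one_div_le_one_div_of_le (by norm_num)
        have : Real.exp 5 = Real.exp 1 ^ 5 := by rw [← Real.exp_nat_mul]; norm_num
        rw [this]
        have h7 : (2.7 : ℝ) ≤ Real.exp 1 := by linarith [Real.exp_one_gt_d9]
        calc (100 : ℝ) ≤ 2.7 ^ 5 := by norm_num
          _ ≤ Real.exp 1 ^ 5 := pow_le_pow_left₀ (by norm_num) h7 5
      exact h2.trans (h3.trans (pow_le_pow_left₀ (Real.exp_pos _).le h6 K))
    have hden : 1 / (2 * (m : ℝ)) ≤ 1 - x l := by linarith [hx_ub l]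
    have herr : |∑ j ∈ range (n + 1), q j * x l ^ j - A * (-1) ^ l| < A := by
      refine lt_of_le_of_lt hclose ?_
      have h1 : |1 - ∑ i ∈ range K, wt K i * x l ^ nd i| + 3 / 2 * x l ^ (n + 1) ≤ 3 * (1 / 100 : ℝ) ^ K := by
        linarith [hsh, h48, hxn]
      have h2 : (|1 - ∑ i ∈ range K, wt K i * x l ^ nd i| + 3 / 2 * x l ^ (n + 1)) / (1 - x l) ≤
          (3 * (1 / 100 : ℝ) ^ K) / (1 / (2 * (m : ℝ))) := by
        apply div_le_div₀ (by positivity) h1 (by positivity) hden
      refine lt_of_le_of_lt h2 ?_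
      rw [div_div_eq_mul_div, div_one, hmR, hA]
      rw [lt_div_iff₀ (by positivity)]
      have h3 := pow4_gt K hK
      have h4 : (92 : ℝ) ^ K ≤ 100 ^ K := pow_le_pow_left₀ (by norm_num) (by norm_num) K
      have h5 : (92 : ℝ) ^ K = 4 ^ K * 23 ^ K := by rw [← mul_pow]; norm_num
      have h6 : (0 : ℝ) < 23 ^ K := by positivity
      have h7 : (0 : ℝ) < 100 ^ K := by positivity
      have h8 : (115200 : ℝ) * K * 23 ^ K < 100 ^ K := by nlinarith
      rw [div_pow, one_pow]
      calc 3 * (1 / 100 ^ K) * (2 * (9600 * (K : ℝ))) * (2 * 23 ^ K)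
          = (115200 * K * 23 ^ K) / 100 ^ K := by field_simp; ring
        _ < 1 := by rw [div_lt_one h7]; exact h8
    -- sign conclusion
    have hs : ((-1 : ℝ) ^ l) * ((-1 : ℝ) ^ l) = 1 := by rw [← mul_pow]; norm_num
    have habs : |(-1 : ℝ) ^ l| = 1 := by rw [abs_pow]; simp
    have h9 : |(-1 : ℝ) ^ l * (∑ j ∈ range (n + 1), q j * x l ^ j) - A| < A := by
      have : (-1 : ℝ) ^ l * (∑ j ∈ range (n + 1), q j * x l ^ j) - A =
          (-1 : ℝ) ^ l * ((∑ j ∈ range (n + 1), q j * x l ^ j) - A * (-1) ^ l) := by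
        linear_combination A * hs
      rw [this, abs_mul, habs, one_mul]
      exact herr
    rw [abs_lt] at h9
    linarith [h9.1]

/-- **Littlewood polynomials with many distinct zeros.** -/
theorem core_zeros (K n : ℕ) (hK : 11 ≤ K) (hn : 96000 * K ^ 2 ≤ n) :
    ∃ q : ℕ → ℝ, (∀ j < n + 1, q j = 1 ∨ q j = -1) ∧ ∃ z : Fin K → ℝ, StrictAnti z ∧
      ∀ i, 0 < z i ∧ z i ≤ 1 - 1 / (19200 * K) ∧ ∑ j ∈ range (n + 1), q j * z i ^ j = 0 := by
  obtain ⟨q, hq, x, hx, hxb, hs⟩ := core_alt K n hK hn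
  refine ⟨q, hq, ?_⟩
  have hcont : Continuous (fun t : ℝ => ∑ j ∈ range (n + 1), q j * t ^ j) := by fun_prop
  have hz : ∀ l : Fin K, ∃ z : ℝ, x (l + 1) < z ∧ z < x l ∧ ∑ j ∈ range (n + 1), q j * z ^ j = 0 := by
    intro l
    have h1 := hs l l.2.le
    have h2 := hs (l + 1) l.2
    have hlt := hx l l.2
    set g : ℝ → ℝ := fun t => (-1) ^ (l : ℕ) * ∑ j ∈ range (n + 1), q j * t ^ j with hg
    have hgc : ContinuousOn g (Set.Icc (x (l + 1)) (x l)) := (continuous_const.mul hcont).continuousOn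
    have hga : g (x (l + 1)) < 0 := by
      rw [pow_succ] at h2
      simp only [hg]
      linarith
    have hgb : 0 < g (x l) := h1
    have := intermediate_value_Ioo hlt.le hgc
    obtain ⟨z, hz1, hz2⟩ := this ⟨hga, hgb⟩
    refine ⟨z, hz1.1, hz1.2, ?_⟩
    simp only [hg] at hz2
    rcases mul_eq_zero.mp hz2 with h | h
    · exact absurd h (by positivity)
    · exact h
  choose z hz1 hz2 hz3 using hz
  refine ⟨z, ?_, fun i => ⟨?_, ?_, hz3 i⟩⟩
  · rcases K with _ | K
    · omega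
    · rw [Fin.strictAnti_iff_succ_lt]
      intro i
      have h1 := hz1 i.castSucc
      have h2 := hz2 i.succ
      simp only [Fin.val_castSucc, Fin.val_succ] at h1 h2
      linarith
  · exact lt_trans (hxb (i + 1) i.2).1 (hz1 i)
  · exact ((hz2 i).le).trans (hxb i i.2.le).2

end Pool.Agent.H766R2
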