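import Mathlib
import Pool.Agent.H766R2.LittlewoodZeros

/-!
# Littlewood polynomials with at least `c / a` distinct zeros in `(0, 1 - a]`
-/

open Finset Polynomial

namespace Pool.Agent.H766R2

/-- from coefficient sequences to polynomials -/
lemma poly_of_seq (n : ℕ) (q : ℕ → ℝ) (hq : ∀ j < n + 1, q j = 1 ∨ q j = -1) :
    ∃ P : ℝ[X], P.natDegree = n ∧ (∀ j ≤ n, P.coeff j = 1 ∨ P.coeff j = -1) ∧
      (∀ j, n < j → P.coeff j = 0) ∧ ∀ x, P.eval x = ∑ j ∈ range (n + 1), q j * x ^ j := by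
  set P : ℝ[X] := ∑ j ∈ range (n + 1), C (q j) * X ^ j with hP
  have hcoeff : ∀ j, P.coeff j = if j < n + 1 then q j else 0 := by
    intro j
    rw [hP, finsetSum_coeff]
    simp only [coeff_C_mul, coeff_X_pow]
    by_cases hj : j < n + 1
    · rw [if_pos hj, sum_eq_single_of_mem j (by simpa using hj)]
      · simp
      · intro b _ hb
        rw [if_neg (Ne.symm hb), mul_zero]
    · rw [if_neg hj]
      apply sum_eq_zero
      intro b hb
      have : b < n + 1 := by simpa using hb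
      rw [if_neg (by omega), mul_zero]
  have hc1 : ∀ j ≤ n, P.coeff j = 1 ∨ P.coeff j = -1 := by
    intro j hj
    rw [hcoeff, if_pos (by omega)]
    exact hq j (by omega)
  have hc2 : ∀ j, n < j → P.coeff j = 0 := by
    intro j hj
    rw [hcoeff, if_neg (by omega)]
  refine ⟨P, ?_, hc1, hc2, ?_⟩
  · apply le_antisymm
    · exact natDegree_le_iff_coeff_eq_zero.mpr hc2
    · apply le_natDegree_of_ne_zero
      rcases hc1 n le_rfl with h | h <;> rw [h] <;> norm_num
  · intro x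
    rw [hP, eval_finsetSum]
    simp

/-- a Littlewood polynomial with a zero in `(0, 1 - a]` -/
lemma one_zero (n : ℕ) (hn : 9 ≤ n) (a : ℝ) (ha : a ≤ 1 / 3) :
    ∃ P : ℝ[X], P.natDegree = n ∧ (∀ j ≤ n, P.coeff j = 1 ∨ P.coeff j = -1) ∧
      ∃ x : ℝ, 0 < x ∧ x ≤ 1 - a ∧ P.eval x = 0 := by
  set q : ℕ → ℝ := fun j => if j = 0 then 1 else -1 with hq
  obtain ⟨P, h1, h2, _, h4⟩ := poly_of_seq n q (by
    intro j _; rw [hq]; simp only; split_ifs <;> simp)
  refine ⟨P, h1, h2, ?_⟩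
  have hP0 : P.eval 0 = 1 := by
    rw [h4, sum_range_succ']
    simp [hq]
  have hP1 : P.eval (2 / 3) < 0 := by
    rw [h4]
    have : ∑ j ∈ range (n + 1), q j * (2 / 3 : ℝ) ^ j = 2 - ∑ j ∈ range (n + 1), (2 / 3 : ℝ) ^ j := by
      rw [sum_range_succ', sum_range_succ' (fun j => (2 / 3 : ℝ) ^ j)]
      have : ∀ k ∈ range n, q (k + 1) * (2 / 3 : ℝ) ^ (k + 1) = -(2 / 3 : ℝ) ^ (k + 1) := by
        intro k _; simp [hq]
      rw [sum_congr rfl this, sum_neg_distrib]
      simp [hq]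
      ring
    rw [this, geom_sum_eq (by norm_num)]
    have h5 : (2 / 3 : ℝ) ^ (n + 1) ≤ (2 / 3) ^ 3 := pow_le_pow_of_le_one (by norm_num) (by norm_num) (by omega)
    have h6 : (2 / 3 : ℝ) ^ 3 = 8 / 27 := by norm_num
    rw [h6] at h5
    have h7 : ((2 / 3 : ℝ) ^ (n + 1) - 1) / (2 / 3 - 1) = 3 * (1 - (2 / 3 : ℝ) ^ (n + 1)) := by
      field_simp; ring
    rw [h7]
    linarith
  have hc : ContinuousOn (fun x => P.eval x) (Set.Icc 0 (2 / 3)) := P.continuous.continuousOn
  have := intermediate_value_Icc' (by norm_num : (0 : ℝ) ≤ 2 / 3) hc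
  obtain ⟨x, hx1, hx2⟩ := this ⟨hP1.le, by rw [hP0]; norm_num⟩
  refine ⟨x, ?_, ?_, hx2⟩
  · rcases eq_or_lt_of_le hx1.1 with h | h
    · rw [← h] at hx2
      simp only at hx2
      rw [hP0] at hx2
      norm_num at hx2
    · exact h
  · have := hx1.2
    linarith

/-- **Main construction.** For `n ≥ 1` and `1/√n ≤ a ≤ 1/3` there is a Littlewood polynomial of
degree `n` with at least `1/(230400 a)` distinct zeros in `(0, 1-a]`. -/
theorem littlewood_zeros (n : ℕ) (hn : 1 ≤ n) (a : ℝ) (ha : 1 / Real.sqrt n ≤ a) (ha3 : a ≤ 1 / 3) :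
    ∃ P : ℝ[X], P.natDegree = n ∧ (∀ j ≤ n, P.coeff j = 1 ∨ P.coeff j = -1) ∧
      ∃ s : Finset ℝ, 1 / 230400 / a ≤ (s.card : ℝ) ∧ ∀ x ∈ s, 0 < x ∧ x ≤ 1 - a ∧ P.eval x = 0 := by
  have hn0 : (0 : ℝ) < n := by exact_mod_cast hn
  have hsq : 0 < Real.sqrt n := Real.sqrt_pos.mpr hn0
  have ha0 : 0 < a := lt_of_lt_of_le (by positivity) ha
  have hna : 1 ≤ (n : ℝ) * a ^ 2 := by
    have h1 : 1 ≤ a * Real.sqrt n := by
      rw [div_le_iff₀ hsq] at ha
      exact ha
    have h2 : Real.sqrt n ^ 2 = n := Real.sq_sqrt hn0.le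
    nlinarith
  set K := ⌊1 / (19200 * a)⌋₊ with hK
  have hKle : (K : ℝ) ≤ 1 / (19200 * a) := Nat.floor_le (by positivity)
  have hKlt : 1 / (19200 * a) < K + 1 := Nat.lt_floor_add_one _
  by_cases hK11 : 11 ≤ K
  · have hKpos : (0 : ℝ) < K := by
      have : 0 < K := by omega
      exact_mod_cast this
    have hKa : (K : ℝ) * a ≤ 1 / 19200 := by
      rw [le_div_iff₀ (by positivity)] at hKle
      linarith
    have hnK : 96000 * K ^ 2 ≤ n := by
      have h1 : (96000 : ℝ) * K ^ 2 ≤ n := by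
        have h2 : (K : ℝ) ^ 2 * a ^ 2 ≤ (1 / 19200) ^ 2 := by
          rw [← mul_pow]
          exact pow_le_pow_left₀ (by positivity) hKa 2
        have h3 : (96000 * (K : ℝ) ^ 2) * a ^ 2 ≤ n * a ^ 2 := by
          nlinarith
        exact le_of_mul_le_mul_right h3 (by positivity)
      exact_mod_cast h1
    obtain ⟨q, hq, z, hz, hz2⟩ := core_zeros K n hK11 hnK
    obtain ⟨P, h1, h2, _, h4⟩ := poly_of_seq n q hq
    refine ⟨P, h1, h2, Finset.univ.image z, ?_, ?_⟩
    · rw [card_image_of_injective _ hz.injective]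
      simp only [card_univ, Fintype.card_fin]
      have hK11' : (11 : ℝ) ≤ K := by exact_mod_cast hK11
      have : 1 / 230400 / a = (1 / 12) * (1 / (19200 * a)) := by
        field_simp; norm_num
      rw [this]
      linarith
    · intro x hx
      rw [mem_image] at hx
      obtain ⟨i, _, rfl⟩ := hx
      obtain ⟨h5, h6, h7⟩ := hz2 i
      refine ⟨h5, h6.trans ?_, by rw [h4]; exact h7⟩
      have : a ≤ 1 / (19200 * K) := by
        rw [le_div_iff₀ (by positivity)]
        linarith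
      linarith
  · have hn9 : 9 ≤ n := by
      have h1 : (9 : ℝ) ≤ n := by
        have : a ^ 2 ≤ (1 / 3) ^ 2 := pow_le_pow_left₀ ha0.le ha3 2
        nlinarith
      exact_mod_cast h1
    obtain ⟨P, h1, h2, x, hx0, hx1, hx2⟩ := one_zero n hn9 a ha3
    refine ⟨P, h1, h2, {x}, ?_, ?_⟩
    · simp only [card_singleton, Nat.cast_one]
      have hK10 : (K : ℝ) ≤ 10 := by
        have : K ≤ 10 := by omega
        exact_mod_cast this
      have : 1 / 230400 / a = (1 / 12) * (1 / (19200 * a)) := by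
        field_simp; norm_num
      rw [this]
      linarith
    · intro y hy
      rw [mem_singleton] at hy
      subst hy
      exact ⟨hx0, hx1, hx2⟩

end Pool.Agent.H766R2
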