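import Mathlib
set_option autoImplicit false
open MeasureTheory Set Real

namespace Pool.Agent.H766R2.Pomp

/-- half width profile of a hyperbolic disc of radius `r` in the logarithmic height `u` -/
noncomputable def Wf (r u : ℝ) : ℝ := √(2 * cosh r - 2 * cosh u)

lemma Wf_cont (r : ℝ) : Continuous (Wf r) := by
  unfold Wf; fun_prop

lemma Wf_even (r u : ℝ) : Wf r (-u) = Wf r u := by simp [Wf]

lemma Wf_nonneg (r u : ℝ) : 0 ≤ Wf r u := Real.sqrt_nonneg _

lemma cosh_le_of_abs {r u : ℝ} (h : |u| ≤ r) : cosh u ≤ cosh r := by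
  rw [Real.cosh_le_cosh]
  exact le_trans h (le_abs_self r)

lemma Wf_concave (r : ℝ) : ConcaveOn ℝ (Icc (-r) r) (Wf r) := by
  have h1 : ConcaveOn ℝ (Icc (-r) r) (fun u => 2 * cosh r - 2 * cosh u) := by
    have h2 : ConvexOn ℝ (Icc (-r) r) (fun u => 2 * cosh u) := by
      have e : (fun u : ℝ => 2 * cosh u) = fun u => exp u + exp (-u) := by
        funext u; rw [Real.cosh_eq]; ring
      rw [e]
      have h1 : ConvexOn ℝ univ exp := convexOn_exp
      refine ⟨convex_Icc _ _, ?_⟩
      intro x _ y _ a b ha hb hab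
      have q1 := h1.2 (mem_univ x) (mem_univ y) ha hb hab
      have q2 := h1.2 (mem_univ (-x)) (mem_univ (-y)) ha hb hab
      have q3 : a • (-x) + b • (-y) = -(a • x + b • y) := by simp only [smul_eq_mul]; ring
      rw [q3] at q2
      simp only [smul_eq_mul] at q1 q2 ⊢
      linarith
    refine ⟨convex_Icc _ _, ?_⟩
    intro x hx y hy a b ha hb hab
    have := h2.2 hx hy ha hb hab
    simp only [smul_eq_mul] at this ⊢
    have e : a * (2 * cosh r) + b * (2 * cosh r) = 2 * cosh r := by rw [← add_mul, hab, one_mul]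
    linarith
  have hsq : ConcaveOn ℝ (Ici (0:ℝ)) Real.sqrt := Real.strictConcaveOn_sqrt.concaveOn
  refine ⟨convex_Icc _ _, ?_⟩
  intro x hx y hy a b ha hb hab
  have hx0 : (0:ℝ) ≤ 2 * cosh r - 2 * cosh x := by
    have := cosh_le_of_abs (abs_le.mpr hx); linarith
  have hy0 : (0:ℝ) ≤ 2 * cosh r - 2 * cosh y := by
    have := cosh_le_of_abs (abs_le.mpr hy); linarith
  have e1 := hsq.2 (show (2 * cosh r - 2 * cosh x) ∈ Ici (0:ℝ) from hx0)
    (show (2 * cosh r - 2 * cosh y) ∈ Ici (0:ℝ) from hy0) ha hb hab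
  have e2 := h1.2 hx hy ha hb hab
  exact le_trans e1 (Real.sqrt_le_sqrt e2)

/-- four point inequality from concavity -/
lemma Wf_four {r u : ℝ} (hr : 0 < r) (h0 : 0 ≤ u) (h1 : u ≤ r / 4) :
    Wf r u + Wf r (r - u) ≤ Wf r (r / 2 - u) + Wf r (r / 2 + u) := by
  have hc := Wf_concave r
  have hx : u ∈ Icc (-r) r := ⟨by linarith, by linarith⟩
  have hy : r - u ∈ Icc (-r) r := ⟨by linarith, by linarith⟩
  have hd : 0 < r - 2 * u := by linarith
  set t : ℝ := (r / 2) / (r - 2 * u) with ht
  have ht1 : t ≤ 1 := by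
    rw [ht, div_le_one hd]; linarith
  have ht0 : 0 ≤ t := by positivity
  have htm : t * (r - 2 * u) = r / 2 := by rw [ht]; field_simp
  have e1 := hc.2 hx hy ht0 (by linarith : (0:ℝ) ≤ 1 - t) (by ring)
  have e2 := hc.2 hx hy (by linarith : (0:ℝ) ≤ 1 - t) ht0 (by ring)
  have p1 : t • u + (1 - t) • (r - u) = r / 2 - u := by
    simp only [smul_eq_mul]; nlinarith [htm]
  have p2 : (1 - t) • u + t • (r - u) = r / 2 + u := by
    simp only [smul_eq_mul]; nlinarith [htm]
  rw [p1] at e1
  rw [p2] at e2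
  simp only [smul_eq_mul] at e1 e2
  nlinarith

/-- cosine transform of the profile -/
noncomputable def Cf (r l : ℝ) : ℝ := ∫ u in (0:ℝ)..r, cos (l * u) * Wf r u

lemma Cf_zero_pos {r : ℝ} (hr : 0 < r) : 0 < Cf r 0 := by
  unfold Cf
  have : ∀ u, cos (0 * u) * Wf r u = Wf r u := by intro u; simp
  simp only [this]
  apply intervalIntegral.intervalIntegral_pos_of_pos_on ((Wf_cont r).intervalIntegrable _ _) _ hr
  intro x hx
  unfold Wf
  apply Real.sqrt_pos.mpr
  have : cosh x < cosh r := by
    rw [Real.cosh_lt_cosh, abs_of_pos hx.1, abs_of_pos hr]; exact hx.2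
  linarith

lemma Cf_cont (r : ℝ) : Continuous (Cf r) := by
  unfold Cf
  apply intervalIntegral.continuous_parametric_intervalIntegral_of_continuous'
  have := Wf_cont r
  fun_prop

lemma Cf_neg {r : ℝ} (hr : 0 < r) : Cf r (2 * π / r) ≤ 0 := by
  unfold Cf
  set f : ℝ → ℝ := fun u => cos (2 * π / r * u) * Wf r u with hf
  have hfc : Continuous f := by
    have := Wf_cont r
    rw [hf]; fun_prop
  have hI : ∀ a b, IntervalIntegrable f volume a b := fun a b => hfc.intervalIntegrable a b
  have hsplit : (∫ u in (0:ℝ)..r, f u) = (∫ u in (0:ℝ)..(r/4), f u) + (∫ u in (r/4)..(r/2), f u)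
      + (∫ u in (r/2)..(3*r/4), f u) + (∫ u in (3*r/4)..r, f u) := by
    rw [intervalIntegral.integral_add_adjacent_intervals (hI _ _) (hI _ _),
      intervalIntegral.integral_add_adjacent_intervals (hI _ _) (hI _ _),
      intervalIntegral.integral_add_adjacent_intervals (hI _ _) (hI _ _)]
  have h2 : (∫ u in (r/4)..(r/2), f u) = ∫ u in (0:ℝ)..(r/4), f (r/2 - u) := by
    rw [intervalIntegral.integral_comp_sub_left (fun u => f u) (r/2)]
    congr 1 <;> ring
  have h3 : (∫ u in (r/2)..(3*r/4), f u) = ∫ u in (0:ℝ)..(r/4), f (r/2 + u) := by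
    rw [intervalIntegral.integral_comp_add_left (fun u => f u) (r/2)]
    congr 1 <;> ring
  have h4 : (∫ u in (3*r/4)..r, f u) = ∫ u in (0:ℝ)..(r/4), f (r - u) := by
    rw [intervalIntegral.integral_comp_sub_left (fun u => f u) r]
    congr 1 <;> ring
  rw [hsplit, h2, h3, h4]
  have c1 : Continuous fun u => f (r/2 - u) := by fun_prop
  have c2 : Continuous fun u => f (r/2 + u) := by fun_prop
  have c3 : Continuous fun u => f (r - u) := by fun_prop
  have a1 := intervalIntegral.integral_add (μ := volume) (a := 0) (b := r/4) (hI 0 (r/4)) (c1.intervalIntegrable 0 (r/4))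
  have d1 : Continuous fun u => f u + f (r/2 - u) := hfc.add c1
  have d2 : Continuous fun u => f u + f (r/2 - u) + f (r/2 + u) := d1.add c2
  have a2 := intervalIntegral.integral_add (μ := volume) (a := 0) (b := r/4) (d1.intervalIntegrable 0 (r/4)) (c2.intervalIntegrable 0 (r/4))
  have a3 := intervalIntegral.integral_add (μ := volume) (a := 0) (b := r/4) (d2.intervalIntegrable 0 (r/4)) (c3.intervalIntegrable 0 (r/4))
  rw [← a1, ← a2, ← a3]
  have key : ∀ u ∈ Icc (0:ℝ) (r/4), f u + f (r/2 - u) + f (r/2 + u) + f (r - u) ≤ 0 := by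
    intro u hu
    have e1 : cos (2 * π / r * (r/2 - u)) = - cos (2 * π / r * u) := by
      have : 2 * π / r * (r/2 - u) = π - 2 * π / r * u := by field_simp
      rw [this, Real.cos_pi_sub]
    have e2 : cos (2 * π / r * (r/2 + u)) = - cos (2 * π / r * u) := by
      have : 2 * π / r * (r/2 + u) = 2 * π / r * u + π := by field_simp; ring
      rw [this, Real.cos_add_pi]
    have e3 : cos (2 * π / r * (r - u)) = cos (2 * π / r * u) := by
      have : 2 * π / r * (r - u) = 2 * π - 2 * π / r * u := by field_simp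
      rw [this, Real.cos_two_pi_sub]
    simp only [hf]
    rw [e1, e2, e3]
    have hcos : 0 ≤ cos (2 * π / r * u) := by
      apply Real.cos_nonneg_of_mem_Icc
      constructor
      · have : 0 ≤ 2 * π / r * u := by have := hu.1; positivity
        linarith [Real.pi_pos]
      · have : 2 * π / r * u ≤ 2 * π / r * (r/4) := by
          apply mul_le_mul_of_nonneg_left hu.2; positivity
        have h5 : 2 * π / r * (r/4) = π / 2 := by field_simp; ring
        linarith
    have h4 := Wf_four hr hu.1 hu.2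
    nlinarith
  have h0 : (∫ u in (0:ℝ)..(r/4), (f u + f (r/2 - u) + f (r/2 + u) + f (r - u))) ≤ ∫ u in (0:ℝ)..(r/4), (0:ℝ) := by
    apply intervalIntegral.integral_mono_on (by linarith) _ _ key
    · exact (d2.add c3).intervalIntegrable _ _
    · exact continuous_const.intervalIntegrable _ _
  simpa using h0

/-- there is a frequency at which the cosine transform vanishes -/
lemma exists_freq {r : ℝ} (hr : 0 < r) : ∃ l : ℝ, Cf r l = 0 := by
  have h := (Cf_cont r).continuousOn (s := uIcc 0 (2 * π / r))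
  have := intermediate_value_uIcc h
  have h0 : (0:ℝ) ∈ uIcc (Cf r 0) (Cf r (2 * π / r)) := by
    rw [mem_uIcc]; right
    exact ⟨Cf_neg hr, (Cf_zero_pos hr).le⟩
  obtain ⟨l, -, hl⟩ := this h0
  exact ⟨l, hl⟩

/-- the full integral of a plane wave against the profile vanishes at such a frequency -/
lemma wave_zero {r l : ℝ} (hl : Cf r l = 0) (β : ℝ) :
    ∫ u in (-r)..r, cos (l * (β + u)) * Wf r u = 0 := by
  have hW := Wf_cont r
  have hc : Continuous fun u => cos (l * u) * Wf r u := by fun_prop
  have hs : Continuous fun u => sin (l * u) * Wf r u := by fun_prop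
  have e1 : ∀ u, cos (l * (β + u)) * Wf r u
      = cos (l * β) * (cos (l * u) * Wf r u) - sin (l * β) * (sin (l * u) * Wf r u) := by
    intro u; rw [mul_add, Real.cos_add]; ring
  simp only [e1]
  rw [intervalIntegral.integral_sub ((hc.const_mul _).intervalIntegrable _ _)
    ((hs.const_mul _).intervalIntegrable _ _), intervalIntegral.integral_const_mul,
    intervalIntegral.integral_const_mul]
  have hS : ∫ u in (-r)..r, sin (l * u) * Wf r u = 0 := by
    have h := intervalIntegral.integral_comp_neg (a := -r) (b := r) (fun u => sin (l * u) * Wf r u)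
    simp only [mul_neg, Real.sin_neg, Wf_even, neg_neg, neg_mul] at h
    rw [intervalIntegral.integral_neg] at h
    linarith
  have hC : ∫ u in (-r)..r, cos (l * u) * Wf r u = 0 := by
    rw [← intervalIntegral.integral_add_adjacent_intervals (a := -r) (b := 0) (c := r)
      (hc.intervalIntegrable _ _) (hc.intervalIntegrable _ _)]
    have h := intervalIntegral.integral_comp_neg (a := (0:ℝ)) (b := r) (fun u => cos (l * u) * Wf r u)
    simp only [mul_neg, Real.cos_neg, Wf_even, neg_zero] at h
    unfold Cf at hl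
    rw [← h, hl]; simp
  rw [hS, hC]; simp

end Pool.Agent.H766R2.Pomp
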