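import Mathlib
import Pool.Agent.H766R2.PompA
set_option autoImplicit false
open MeasureTheory Set Real UpperHalfPlane

namespace Pool.Agent.H766R2.Pomp

/-- integral of a function of the height over a Euclidean disc -/
lemma disc_integral (a c R : ℝ) (hR : 0 ≤ R) (G : ℝ → ℝ) (hG : ContinuousOn G (Icc (c - R) (c + R))) :
    ∫ w : ℂ, (Metric.closedBall (⟨a, c⟩ : ℂ) R).indicator (fun w => G w.im) w
      = ∫ y in (c - R)..(c + R), G y * (2 * √(R ^ 2 - (y - c) ^ 2)) := by
  have hmem : ∀ x y : ℝ, ((⟨x, y⟩ : ℂ) ∈ Metric.closedBall (⟨a, c⟩ : ℂ) R) ↔ (x - a) ^ 2 + (y - c) ^ 2 ≤ R ^ 2 := by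
    intro x y
    rw [Metric.mem_closedBall, Complex.dist_eq_re_im]
    rw [Real.sqrt_le_left hR]
  -- integrability on the disc
  have hint : Integrable ((Metric.closedBall (⟨a, c⟩ : ℂ) R).indicator (fun w => G w.im)) := by
    rw [integrable_indicator_iff Metric.isClosed_closedBall.measurableSet]
    apply ContinuousOn.integrableOn_compact (isCompact_closedBall _ _)
    apply hG.comp Complex.continuous_im.continuousOn
    intro w hw
    have h1 : ((⟨w.re, w.im⟩ : ℂ) ∈ Metric.closedBall (⟨a, c⟩ : ℂ) R) := hw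
    rw [hmem] at h1
    have h2 : (w.im - c) ^ 2 ≤ R ^ 2 := by nlinarith [sq_nonneg (w.re - a)]
    have h3 := abs_le.mp (abs_le_of_sq_le_sq h2 hR)
    exact ⟨by linarith [h3.1], by linarith [h3.2]⟩
  have hp := Complex.volume_preserving_equiv_real_prod
  have hint2 : Integrable (fun q : ℝ × ℝ => (Metric.closedBall (⟨a, c⟩ : ℂ) R).indicator (fun w => G w.im) (Complex.measurableEquivRealProd.symm q)) (volume.prod volume) := by
    have := (hp.symm).integrable_comp_emb (Complex.measurableEquivRealProd.symm.measurableEmbedding) (g := (Metric.closedBall (⟨a, c⟩ : ℂ) R).indicator (fun w => G w.im))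
    exact this.mpr hint
  have e1 : ∫ w : ℂ, (Metric.closedBall (⟨a, c⟩ : ℂ) R).indicator (fun w => G w.im) w
      = ∫ q : ℝ × ℝ, (Metric.closedBall (⟨a, c⟩ : ℂ) R).indicator (fun w => G w.im) (Complex.measurableEquivRealProd.symm q) ∂(volume.prod volume) := by
    exact (hp.symm.integral_comp Complex.measurableEquivRealProd.symm.measurableEmbedding _).symm
  rw [e1, integral_prod_symm _ hint2]
  have e2 : ∀ y : ℝ, (∫ x : ℝ, (Metric.closedBall (⟨a, c⟩ : ℂ) R).indicator (fun w => G w.im) (Complex.measurableEquivRealProd.symm (x, y)))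
      = G y * (2 * √(R ^ 2 - (y - c) ^ 2)) := by
    intro y
    have e3 : (fun x : ℝ => (Metric.closedBall (⟨a, c⟩ : ℂ) R).indicator (fun w => G w.im) (Complex.measurableEquivRealProd.symm (x, y)))
        = {x : ℝ | (x - a) ^ 2 + (y - c) ^ 2 ≤ R ^ 2}.indicator (fun _ => G y) := by
      funext x
      have : (Complex.measurableEquivRealProd.symm (x, y)) = (⟨x, y⟩ : ℂ) := by
        apply Complex.ext <;> simp [Complex.measurableEquivRealProd_symm_apply]
      rw [this]
      by_cases h : (x - a) ^ 2 + (y - c) ^ 2 ≤ R ^ 2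
      · rw [indicator_of_mem ((hmem x y).mpr h), indicator_of_mem (by exact h)]
      · rw [indicator_of_notMem (fun hh => h ((hmem x y).mp hh)), indicator_of_notMem (by exact h)]
    rw [e3]
    by_cases hy : (y - c) ^ 2 ≤ R ^ 2
    · have e4 : {x : ℝ | (x - a) ^ 2 + (y - c) ^ 2 ≤ R ^ 2}
          = Icc (a - √(R ^ 2 - (y - c) ^ 2)) (a + √(R ^ 2 - (y - c) ^ 2)) := by
        ext x
        simp only [mem_ofPred_eq, mem_Icc]
        have hs : 0 ≤ R ^ 2 - (y - c) ^ 2 := by linarith
        constructor
        · intro h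
          have h2 : |x - a| ≤ √(R ^ 2 - (y - c) ^ 2) := by
            apply Real.abs_le_sqrt; linarith
          have := abs_le.mp h2
          exact ⟨by linarith [this.1], by linarith [this.2]⟩
        · rintro ⟨h1, h2⟩
          have h3 : |x - a| ≤ √(R ^ 2 - (y - c) ^ 2) := abs_le.mpr ⟨by linarith, by linarith⟩
          have h4 : (x - a) ^ 2 ≤ (√(R ^ 2 - (y - c) ^ 2)) ^ 2 := by
            rw [← sq_abs (x - a)]
            exact pow_le_pow_left₀ (abs_nonneg _) h3 2
          rw [Real.sq_sqrt hs] at h4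
          linarith
      rw [e4, integral_indicator measurableSet_Icc, setIntegral_const]
      simp only [Measure.real, Real.volume_Icc, smul_eq_mul]
      rw [ENNReal.toReal_ofReal (by linarith [Real.sqrt_nonneg (R ^ 2 - (y - c) ^ 2)])]
      ring
    · have e4 : {x : ℝ | (x - a) ^ 2 + (y - c) ^ 2 ≤ R ^ 2} = ∅ := by
        ext x
        simp only [mem_ofPred_eq, mem_empty_iff_false, iff_false]
        intro h
        apply hy
        nlinarith [sq_nonneg (x - a)]
      have e5 : √(R ^ 2 - (y - c) ^ 2) = 0 := Real.sqrt_eq_zero_of_nonpos (by linarith [not_le.mp hy])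
      rw [e4, e5]; simp
  simp only [e2]
  rw [intervalIntegral.integral_of_le (by linarith), ← integral_Icc_eq_integral_Ioc,
    ← integral_indicator measurableSet_Icc]
  congr 1
  funext y
  by_cases hy : y ∈ Icc (c - R) (c + R)
  · rw [indicator_of_mem hy]
  · rw [indicator_of_notMem hy]
    have : R ^ 2 - (y - c) ^ 2 ≤ 0 := by
      rw [mem_Icc, not_and_or] at hy
      rcases hy with h | h
      · nlinarith
      · nlinarith
    rw [Real.sqrt_eq_zero_of_nonpos this]; ring

/-- integral over the upper half plane of a function supported in the upper half plane -/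
lemma integral_uhp (g : ℂ → ℝ) (hg : ∀ w : ℂ, w.im ≤ 0 → g w = 0) :
    ∫ z : ℍ, g (z : ℂ) = ∫ w : ℂ, g w * (1 / w.im) ^ 2 := by
  rw [UpperHalfPlane.volume_def]
  have hm : Measurable fun z : ℍ => ((1 / NNReal.mk z.im z.im_pos.le : NNReal) ^ 2) := by
    have : Continuous fun z : ℍ => ((1 / NNReal.mk z.im z.im_pos.le : NNReal) ^ 2) := by
      refine .pow (.div₀ continuous_const ?_ ?_) _
      · exact UpperHalfPlane.continuous_im.subtype_mk _
      · exact fun x ↦ NNReal.ne_iff.mp x.im_ne_zero
    exact this.measurable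
  have e0 := integral_withDensity_eq_integral_smul (μ := (volume.comap UpperHalfPlane.coe : Measure ℍ)) hm (fun z : ℍ => g (z : ℂ))
  rw [e0]
  have e1 : (fun z : ℍ => ((1 / NNReal.mk z.im z.im_pos.le : NNReal) ^ 2) • g (z : ℂ))
      = fun z : ℍ => (fun w : ℂ => g w * (1 / w.im) ^ 2) (z : ℂ) := by
    funext z
    rw [NNReal.smul_def]
    push_cast
    simp only [smul_eq_mul, UpperHalfPlane.coe_im]
    ring
  rw [e1]
  have hmp : MeasurePreserving UpperHalfPlane.coe (volume.comap UpperHalfPlane.coe)
      (volume.restrict (.range UpperHalfPlane.coe)) :=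
    ⟨UpperHalfPlane.measurable_coe, by rw [UpperHalfPlane.measurableEmbedding_coe.map_comap]⟩
  rw [hmp.integral_comp UpperHalfPlane.measurableEmbedding_coe (fun w : ℂ => g w * (1 / w.im) ^ 2)]
  rw [← integral_indicator UpperHalfPlane.measurableEmbedding_coe.measurableSet_range]
  congr 1
  funext w
  by_cases hw : w ∈ range UpperHalfPlane.coe
  · rw [indicator_of_mem hw]
  · rw [indicator_of_notMem hw]
    have : w.im ≤ 0 := by
      by_contra h
      exact hw ⟨⟨w, not_le.mp h⟩, rfl⟩
    rw [hg w this]; ring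

/-- the horocyclic wave -/
noncomputable def wv (l y : ℝ) : ℝ := √y * cos (l * log y)

lemma wv_contOn (l : ℝ) : ContinuousOn (wv l) (Ioi 0) := by
  unfold wv
  apply ContinuousOn.mul
  · exact Real.continuous_sqrt.continuousOn
  · apply Real.continuous_cos.comp_continuousOn
    apply ContinuousOn.mul continuousOn_const
    exact Real.continuousOn_log.mono (fun x hx => ne_of_gt hx)

/-- integral of the wave over a hyperbolic disc -/
lemma ball_integral (w : ℍ) (r l : ℝ) (hr : 0 < r) :
    ∫ z in Metric.closedBall w r, wv l z.im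
      = 2 * √w.im * ∫ u in (-r)..r, cos (l * (log w.im + u)) * Wf r u := by
  set b := w.im with hb
  have hb0 : 0 < b := w.im_pos
  set c := b * cosh r with hc
  set R := b * sinh r with hRd
  have hR0 : 0 < R := mul_pos hb0 (Real.sinh_pos_iff.mpr hr)
  have hcm : c - R = b * exp (-r) := by rw [hc, hRd, Real.cosh_eq, Real.sinh_eq]; ring
  have hcp : c + R = b * exp r := by rw [hc, hRd, Real.cosh_eq, Real.sinh_eq]; ring
  have himg : UpperHalfPlane.coe '' Metric.closedBall w r = Metric.closedBall (⟨w.re, c⟩ : ℂ) R := by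
    rw [UpperHalfPlane.image_coe_closedBall]
    congr 1
  -- the function on ℂ
  set g : ℂ → ℝ := (Metric.closedBall (⟨w.re, c⟩ : ℂ) R).indicator (fun z => wv l z.im) with hg
  have hgz : ∀ z : ℂ, z.im ≤ 0 → g z = 0 := by
    intro z hz
    rw [hg]
    apply indicator_of_notMem
    rw [← himg]
    rintro ⟨z', -, rfl⟩
    exact absurd z'.im_pos (not_lt.mpr hz)
  have h1 : ∫ z in Metric.closedBall w r, wv l z.im = ∫ z : ℍ, g (z : ℂ) := by
    rw [← integral_indicator Metric.isClosed_closedBall.measurableSet]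
    congr 1
    funext z
    by_cases hz : z ∈ Metric.closedBall w r
    · rw [indicator_of_mem hz, hg, indicator_of_mem]
      · rfl
      · rw [← himg]; exact mem_image_of_mem _ hz
    · rw [indicator_of_notMem hz, hg, indicator_of_notMem]
      rw [← himg]
      rintro ⟨z', hz', he⟩
      exact hz (by rwa [UpperHalfPlane.ext_iff.mpr he] at hz')
  rw [h1, integral_uhp g hgz]
  have h2 : (fun z : ℂ => g z * (1 / z.im) ^ 2)
      = (Metric.closedBall (⟨w.re, c⟩ : ℂ) R).indicator (fun z => (fun y => wv l y * (1 / y) ^ 2) z.im) := by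
    funext z
    rw [hg]
    by_cases hz : z ∈ Metric.closedBall (⟨w.re, c⟩ : ℂ) R
    · rw [indicator_of_mem hz, indicator_of_mem hz]
    · rw [indicator_of_notMem hz, indicator_of_notMem hz]; ring
  rw [h2]
  have hpos : ∀ y ∈ Icc (c - R) (c + R), 0 < y := by
    intro y hy
    have : 0 < c - R := by rw [hcm]; positivity
    linarith [hy.1]
  have hGc : ContinuousOn (fun y => wv l y * (1 / y) ^ 2) (Icc (c - R) (c + R)) := by
    apply ContinuousOn.mul ((wv_contOn l).mono fun y hy => hpos y hy)
    apply ContinuousOn.pow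
    apply ContinuousOn.div continuousOn_const continuousOn_id
    intro y hy; exact ne_of_gt (hpos y hy)
  rw [disc_integral w.re c R hR0.le _ hGc, hcm, hcp]
  -- substitution y = b exp u
  have hgc : ContinuousOn (fun y => wv l y * (1 / y) ^ 2 * (2 * √(R ^ 2 - (y - c) ^ 2)))
      ((fun u => b * exp u) '' uIcc (-r) r) := by
    have hsub : ((fun u => b * exp u) '' uIcc (-r) r) ⊆ Ioi (0:ℝ) := by
      rintro y ⟨u, -, rfl⟩
      exact mul_pos hb0 (Real.exp_pos u)
    apply ContinuousOn.mul
    · apply ContinuousOn.mul ((wv_contOn l).mono hsub)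
      apply ContinuousOn.pow
      apply ContinuousOn.div continuousOn_const continuousOn_id
      intro y hy; exact ne_of_gt (hsub hy)
    · fun_prop
  have hsub := intervalIntegral.integral_comp_mul_deriv'' (a := -r) (b := r)
    (f := fun u => b * exp u) (f' := fun u => b * exp u)
    (g := fun y => wv l y * (1 / y) ^ 2 * (2 * √(R ^ 2 - (y - c) ^ 2)))
    (by fun_prop) (fun u _ => ((Real.hasDerivAt_exp u).const_mul b).hasDerivWithinAt)
    (by fun_prop) hgc
  · rw [← hsub, ← intervalIntegral.integral_const_mul]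
    apply intervalIntegral.integral_congr
    intro u hu
    simp only [Function.comp]
    have hE : 0 < exp u := Real.exp_pos u
    have hlog : log (b * exp u) = log b + u := by rw [Real.log_mul hb0.ne' hE.ne', Real.log_exp]
    have e1 : R ^ 2 - (b * exp u - c) ^ 2 = (b ^ 2 * exp u) * (2 * cosh r - 2 * cosh u) := by
      have hcs : cosh r ^ 2 - sinh r ^ 2 = 1 := Real.cosh_sq_sub_sinh_sq r
      have hcu : 2 * cosh u = exp u + (exp u)⁻¹ := by rw [Real.cosh_eq, Real.exp_neg]; ring
      rw [hcu, hRd, hc]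
      field_simp
      nlinarith [hcs]
    have e2 : √(b ^ 2 * exp u) = b * √(exp u) := by
      rw [Real.sqrt_mul (by positivity), Real.sqrt_sq hb0.le]
    unfold wv Wf
    have e3 : √(b ^ 2 * exp u * (2 * cosh r - 2 * cosh u)) = b * √(exp u) * √(2 * cosh r - 2 * cosh u) := by
      rw [Real.sqrt_mul (by positivity), e2]
    rw [hlog, e1, e3, Real.sqrt_mul hb0.le]
    have hs : √(exp u) * √(exp u) = exp u := Real.mul_self_sqrt hE.le
    have hne : √(exp u) ≠ 0 := (Real.sqrt_pos.mpr hE).ne'
    field_simp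
    rw [Real.sq_sqrt hE.le]
    ring

/-- all discs of radius `r` have zero integral for a suitable frequency -/
lemma exists_wave {r : ℝ} (hr : 0 < r) : ∃ l : ℝ, ∀ w : ℍ,
    ∫ z in Metric.closedBall w r, wv l z.im = 0 := by
  obtain ⟨l, hl⟩ := exists_freq hr
  refine ⟨l, fun w => ?_⟩
  rw [ball_integral w r l hr, wave_zero hl]; ring

end Pool.Agent.H766R2.Pomp
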