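import Mathlib

/-!
Off-diagonal Ramsey numbers: basic facts (Erdős–Szekeres), used for the ratio theorem.
-/

namespace Pool.Agent.H766R2.RR

open Finset

variable {V : Type*} [DecidableEq V]

/-- Erdős–Szekeres inside a finite vertex set `U`. -/
theorem exists_clique_or_indep (G : SimpleGraph V) :
    ∀ (a b : ℕ) (U : Finset V), (a + b).choose a ≤ U.card →
      (∃ s ⊆ U, G.IsNClique (a + 1) s) ∨ (∃ s ⊆ U, Gᶜ.IsNClique (b + 1) s) := by
  classical
  have main : ∀ (n a b : ℕ), a + b = n → ∀ U : Finset V, (a + b).choose a ≤ U.card →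
      (∃ s ⊆ U, G.IsNClique (a + 1) s) ∨ (∃ s ⊆ U, Gᶜ.IsNClique (b + 1) s) := by
    intro n
    induction n with
    | zero =>
      intro a b hab U hU
      obtain ⟨rfl, rfl⟩ : a = 0 ∧ b = 0 := by omega
      have h1 : 1 ≤ U.card := by simpa using hU
      obtain ⟨v, hv⟩ := Finset.card_pos.mp h1
      left
      exact ⟨{v}, by simpa using hv, by simp [SimpleGraph.isNClique_iff]⟩
    | succ n ih =>
      intro a b hab U hU
      have hpos : 0 < (a + b).choose a := Nat.choose_pos (by omega)
      obtain ⟨v, hv⟩ := Finset.card_pos.mp (lt_of_lt_of_le hpos hU)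
      rcases Nat.eq_zero_or_pos a with rfl | ha
      · left
        exact ⟨{v}, by simpa using hv, by simp [SimpleGraph.isNClique_iff]⟩
      rcases Nat.eq_zero_or_pos b with rfl | hb
      · right
        exact ⟨{v}, by simpa using hv, by simp [SimpleGraph.isNClique_iff]⟩
      obtain ⟨a, rfl⟩ : ∃ a', a = a' + 1 := ⟨a - 1, by omega⟩
      obtain ⟨b, rfl⟩ : ∃ b', b = b' + 1 := ⟨b - 1, by omega⟩
      set N := U.filter (fun w => G.Adj v w) with hN
      set N' := U.filter (fun w => Gᶜ.Adj v w) with hN'
      have hcard : U.card = N.card + N'.card + 1 := by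
        have h1 : (U.erase v).card = N.card + N'.card := by
          rw [← Finset.card_union_of_disjoint]
          · congr 1
            ext w
            simp only [hN, hN', Finset.mem_erase, Finset.mem_union, Finset.mem_filter,
              SimpleGraph.compl_adj]
            constructor
            · rintro ⟨h1, h2⟩
              by_cases h : G.Adj v w
              · exact Or.inl ⟨h2, h⟩
              · exact Or.inr ⟨h2, fun h' => h1 h'.symm, h⟩
            · rintro (⟨h1, h2⟩ | ⟨h1, h2, h3⟩)
              · exact ⟨fun h => by subst h; exact (G.loopless.irrefl w) h2, h1⟩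
              · exact ⟨fun h => h2 h.symm, h1⟩
          · rw [Finset.disjoint_left]
            intro w h1 h2
            rw [hN, Finset.mem_filter] at h1
            rw [hN', Finset.mem_filter, SimpleGraph.compl_adj] at h2
            exact h2.2.2 h1.2
        rw [← h1, Finset.card_erase_of_mem hv]
        have := Finset.card_pos.mpr ⟨v, hv⟩
        omega
      have hch : (a + 1 + (b + 1)).choose (a + 1)
          = (a + (b + 1)).choose a + ((a + 1) + b).choose (a + 1) := by
        have : a + 1 + (b + 1) = (a + b + 1) + 1 := by ring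
        rw [this, Nat.choose_succ_succ]
        congr 2
        ring
      rw [hch, hcard] at hU
      have hor : (a + (b + 1)).choose a ≤ N.card ∨ ((a + 1) + b).choose (a + 1) ≤ N'.card := by
        omega
      rcases hor with h | h
      · rcases ih a (b + 1) (by omega) N h with ⟨s, hs, hc⟩ | ⟨s, hs, hc⟩
        · left
          refine ⟨insert v s, ?_, ?_⟩
          · intro x hx
            rcases Finset.mem_insert.mp hx with rfl | hx
            · exact hv
            · exact (Finset.mem_filter.mp (hs hx)).1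
          · exact hc.insert (fun w hw => (Finset.mem_filter.mp (hs hw)).2)
        · right
          exact ⟨s, hs.trans (Finset.filter_subset _ _), hc⟩
      · rcases ih (a + 1) b (by omega) N' h with ⟨s, hs, hc⟩ | ⟨s, hs, hc⟩
        · left
          exact ⟨s, hs.trans (Finset.filter_subset _ _), hc⟩
        · right
          refine ⟨insert v s, ?_, ?_⟩
          · intro x hx
            rcases Finset.mem_insert.mp hx with rfl | hx
            · exact hv
            · exact (Finset.mem_filter.mp (hs hx)).1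
          · exact hc.insert (fun w hw => (Finset.mem_filter.mp (hs hw)).2)
  intro a b U hU
  exact main (a + b) a b rfl U hU

/-- Every colouring of the edges of `K_n` with two colours (red = edges of `G`, blue = edges of the
complement of `G`) contains a red `K_k` or a blue `K_l`. -/
def Arrows (n k l : ℕ) : Prop :=
  ∀ G : SimpleGraph (Fin n), (∃ s : Finset (Fin n), G.IsNClique k s) ∨
    (∃ s : Finset (Fin n), Gᶜ.IsNClique l s)

/-- The Ramsey number `R(k,l)`: the least positive `n` with `Arrows n k l`. -/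
noncomputable def R (k l : ℕ) : ℕ := sInf {n : ℕ | 0 < n ∧ Arrows n k l}

omit [DecidableEq V] in
theorem arrows_transfer {n k l : ℕ} (h : Arrows n k l) (G : SimpleGraph V) (U : Finset V)
    (hU : n ≤ U.card) :
    (∃ s ⊆ U, G.IsNClique k s) ∨ (∃ s ⊆ U, Gᶜ.IsNClique l s) := by
  classical
  obtain ⟨U', hU', hc⟩ := Finset.exists_subset_card_eq hU
  let e : Fin n ↪ V := (U'.equivFinOfCardEq hc).symm.toEmbedding.trans (Function.Embedding.subtype _)
  have he : ∀ i, e i ∈ U := fun i => hU' ((U'.equivFinOfCardEq hc).symm i).2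
  have hcompl : (G.comap e)ᶜ = Gᶜ.comap e := by
    ext x y
    simp [SimpleGraph.compl_adj]
  rcases h (G.comap e) with ⟨s, hs⟩ | ⟨s, hs⟩
  · left
    refine ⟨s.map e, ?_, ?_⟩
    · intro x hx
      obtain ⟨i, _, rfl⟩ := Finset.mem_map.mp hx
      exact he i
    · rw [SimpleGraph.isNClique_iff] at hs ⊢
      refine ⟨?_, by rw [Finset.card_map]; exact hs.2⟩
      intro x hx y hy hxy
      rw [Finset.mem_coe, Finset.mem_map] at hx hy
      obtain ⟨i, hi, rfl⟩ := hx
      obtain ⟨j, hj, rfl⟩ := hy
      exact hs.1 hi hj (fun hij => hxy (by rw [hij]))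
  · right
    rw [hcompl] at hs
    refine ⟨s.map e, ?_, ?_⟩
    · intro x hx
      obtain ⟨i, _, rfl⟩ := Finset.mem_map.mp hx
      exact he i
    · rw [SimpleGraph.isNClique_iff] at hs ⊢
      refine ⟨?_, by rw [Finset.card_map]; exact hs.2⟩
      intro x hx y hy hxy
      rw [Finset.mem_coe, Finset.mem_map] at hx hy
      obtain ⟨i, hi, rfl⟩ := hx
      obtain ⟨j, hj, rfl⟩ := hy
      exact hs.1 hi hj (fun hij => hxy (by rw [hij]))

theorem arrows_choose {k l : ℕ} (hk : 1 ≤ k) (hl : 1 ≤ l) :
    0 < (k - 1 + (l - 1)).choose (k - 1) ∧ Arrows ((k - 1 + (l - 1)).choose (k - 1)) k l := by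
  refine ⟨Nat.choose_pos (by omega), ?_⟩
  intro G
  rcases exists_clique_or_indep G (k - 1) (l - 1) Finset.univ (by simp) with ⟨s, _, hs⟩ | ⟨s, _, hs⟩
  · left
    refine ⟨s, ?_⟩
    rwa [Nat.sub_add_cancel hk] at hs
  · right
    refine ⟨s, ?_⟩
    rwa [Nat.sub_add_cancel hl] at hs

theorem R_spec {k l : ℕ} (hk : 1 ≤ k) (hl : 1 ≤ l) : 0 < R k l ∧ Arrows (R k l) k l :=
  Nat.sInf_mem (s := {n : ℕ | 0 < n ∧ Arrows n k l}) ⟨_, arrows_choose hk hl⟩

theorem R_le {k l n : ℕ} (hn : 0 < n) (h : Arrows n k l) : R k l ≤ n :=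
  Nat.sInf_le ⟨hn, h⟩

theorem not_arrows_of_lt {k l n : ℕ} (hn : 0 < n) (h : n < R k l) : ¬ Arrows n k l := by
  intro h'
  exact absurd (R_le hn h') (not_le.mpr h)

/-- A set without red `K_k` and without blue `K_l` has fewer than `R(k,l)` elements. -/
theorem card_lt_R {k l : ℕ} (hk : 1 ≤ k) (hl : 1 ≤ l) (G : SimpleGraph V) (U : Finset V)
    (h1 : ∀ s ⊆ U, ¬ G.IsNClique k s) (h2 : ∀ s ⊆ U, ¬ Gᶜ.IsNClique l s) : U.card < R k l := by
  by_contra hcon
  push Not at hcon
  rcases arrows_transfer (R_spec hk hl).2 G U hcon with ⟨s, hs, hc⟩ | ⟨s, hs, hc⟩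
  · exact h1 s hs hc
  · exact h2 s hs hc

theorem arrows_symm {n k l : ℕ} (h : Arrows n k l) : Arrows n l k := by
  intro G
  rcases h Gᶜ with h | h
  · exact Or.inr h
  · rw [compl_compl] at h
    exact Or.inl h

theorem R_symm (k l : ℕ) : R k l = R l k := by
  unfold R
  congr 1
  ext n
  exact ⟨fun h => ⟨h.1, arrows_symm h.2⟩, fun h => ⟨h.1, arrows_symm h.2⟩⟩

theorem arrows_mono_left {n k l : ℕ} (h : Arrows n (k + 1) l) : Arrows n k l := by
  classical
  intro G
  rcases h G with ⟨s, hs⟩ | h
  · left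
    obtain ⟨t, ht, hc⟩ := Finset.exists_subset_card_eq (n := k) (s := s) (by rw [hs.card_eq]; omega)
    refine ⟨t, ?_⟩
    rw [SimpleGraph.isNClique_iff]
    exact ⟨hs.isClique.subset (by exact_mod_cast ht), hc⟩
  · exact Or.inr h

theorem R_mono_left {k l : ℕ} (hk : 1 ≤ k) (hl : 1 ≤ l) : R k l ≤ R (k + 1) l :=
  R_le (R_spec (by omega) hl).1 (arrows_mono_left (R_spec (by omega) hl).2)

theorem R_mono_right {k l : ℕ} (hk : 1 ≤ k) (hl : 1 ≤ l) : R k l ≤ R k (l + 1) := by
  rw [R_symm k l, R_symm k (l + 1)]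
  exact R_mono_left hl hk

theorem R_pos {k l : ℕ} (hk : 1 ≤ k) (hl : 1 ≤ l) : 0 < R k l := (R_spec hk hl).1

/-- The Erdős–Szekeres recursion. -/
theorem R_rec {k l : ℕ} (hk : 1 ≤ k) (hl : 1 ≤ l) :
    R (k + 1) (l + 1) ≤ R k (l + 1) + R (k + 1) l := by
  classical
  obtain ⟨n, hn⟩ : ∃ n, n = R k (l + 1) + R (k + 1) l := ⟨_, rfl⟩
  have hnpos : 0 < n := by have := R_pos hk (l := l + 1) (by omega); omega
  rw [← hn]
  apply R_le hnpos
  intro G
  let v : Fin n := ⟨0, hnpos⟩
  set N := (Finset.univ : Finset (Fin n)).filter (fun w => G.Adj v w) with hN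
  set N' := (Finset.univ : Finset (Fin n)).filter (fun w => Gᶜ.Adj v w) with hN'
  have hcard : n = N.card + N'.card + 1 := by
    have h1 : ((Finset.univ : Finset (Fin n)).erase v).card = N.card + N'.card := by
      rw [← Finset.card_union_of_disjoint]
      · congr 1
        ext w
        simp only [hN, hN', Finset.mem_erase, Finset.mem_union, Finset.mem_filter,
          SimpleGraph.compl_adj, Finset.mem_univ, true_and, and_true]
        constructor
        · intro h1
          by_cases h : G.Adj v w
          · exact Or.inl h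
          · exact Or.inr ⟨fun h' => h1 h'.symm, h⟩
        · rintro (h2 | ⟨h2, h3⟩)
          · exact fun h => by subst h; exact (G.loopless.irrefl _) h2
          · exact fun h => h2 h.symm
      · rw [Finset.disjoint_left]
        intro w h1 h2
        rw [hN, Finset.mem_filter] at h1
        rw [hN', Finset.mem_filter, SimpleGraph.compl_adj] at h2
        exact h2.2.2 h1.2
    rw [← h1, Finset.card_erase_of_mem (Finset.mem_univ v), Finset.card_univ, Fintype.card_fin]
    omega
  have hor : R k (l + 1) ≤ N.card ∨ R (k + 1) l ≤ N'.card := by omega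
  rcases hor with h | h
  · rcases arrows_transfer (R_spec hk (l := l + 1) (by omega)).2 G N h with ⟨s, hs, hc⟩ | ⟨s, hs, hc⟩
    · left
      exact ⟨insert v s, hc.insert (fun w hw => (Finset.mem_filter.mp (hs hw)).2)⟩
    · right
      exact ⟨s, hc⟩
  · rcases arrows_transfer (R_spec (k := k + 1) (by omega) hl).2 G N' h with
      ⟨s, hs, hc⟩ | ⟨s, hs, hc⟩
    · left
      exact ⟨s, hc⟩
    · right
      exact ⟨insert v s, hc.insert (fun w hw => (Finset.mem_filter.mp (hs hw)).2)⟩

theorem R_one_right {k : ℕ} (hk : 1 ≤ k) : R k 1 = 1 := by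
  have h1 : R k 1 ≤ 1 := by
    apply R_le one_pos
    intro G
    right
    exact ⟨{0}, by simp [SimpleGraph.isNClique_iff]⟩
  have := R_pos hk le_rfl
  omega

/-- The trivial ratio bound. -/
theorem R_ratio_trivial {k l : ℕ} (hk : 1 ≤ k) (hl : 1 ≤ l) : R (k + 1) l ≤ l * R k l := by
  induction l, hl using Nat.le_induction with
  | base => rw [R_one_right (by omega), R_one_right hk]
  | succ l hl ih =>
    calc R (k + 1) (l + 1) ≤ R k (l + 1) + R (k + 1) l := R_rec hk hl
      _ ≤ R k (l + 1) + l * R k l := by omega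
      _ ≤ R k (l + 1) + l * R k (l + 1) := by
          have := R_mono_right hk hl
          have := Nat.mul_le_mul_left l this
          omega
      _ = (l + 1) * R k (l + 1) := by ring

end Pool.Agent.H766R2.RR
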