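import Pool.Agent.H766R2.RR1

/-!
Probabilistic (counting) lower bound for off-diagonal Ramsey numbers with red probability `1/q`.
-/

namespace Pool.Agent.H766R2.RR

open Finset

/-- number of `Fin (p+1)`-colourings of the pairs that take values in `T` on `E`. -/
theorem card_restricted {α : Type*} [Fintype α] [DecidableEq α] (p : ℕ) (E : Finset α)
    (T : Finset (Fin (p + 1))) :
    ((Fintype.piFinset (fun a : α => if a ∈ E then T else (Finset.univ : Finset (Fin (p + 1))))).card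
      : ℝ) = ((p : ℝ) + 1) ^ Fintype.card α * ((T.card : ℝ) / ((p : ℝ) + 1)) ^ E.card := by
  rw [Fintype.card_piFinset]
  push_cast
  have hp : ((p : ℝ) + 1) ≠ 0 := by positivity
  have h1 : ∀ a : α, (((if a ∈ E then T else (Finset.univ : Finset (Fin (p + 1)))).card : ℕ) : ℝ)
      = ((p : ℝ) + 1) * (if a ∈ E then ((T.card : ℝ) / ((p : ℝ) + 1)) else 1) := by
    intro a
    split_ifs
    · field_simp
    · simp
  rw [Finset.prod_congr rfl (fun a _ => h1 a), Finset.prod_mul_distrib, Finset.prod_const,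
    Finset.card_univ]
  congr 1
  rw [Finset.prod_ite_mem]
  simp [div_pow]

/-- The pairs of a vertex set. -/
def pairs {n : ℕ} (S : Finset (Fin n)) : Finset (Sym2 (Fin n)) := S.offDiag.image (fun q => s(q.1, q.2))

theorem card_pairs {n : ℕ} (S : Finset (Fin n)) : (pairs S).card = S.card.choose 2 := by
  unfold pairs
  exact Sym2.card_image_offDiag S

theorem mem_pairs {n : ℕ} {S : Finset (Fin n)} {x y : Fin n} (hx : x ∈ S) (hy : y ∈ S)
    (hxy : x ≠ y) : s(x, y) ∈ pairs S := by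
  unfold pairs
  exact Finset.mem_image.mpr ⟨(x, y), Finset.mem_offDiag.mpr ⟨hx, hy, hxy⟩, rfl⟩

theorem exists_of_mem_pairs {n : ℕ} {S : Finset (Fin n)} {e : Sym2 (Fin n)} (h : e ∈ pairs S) :
    ∃ x ∈ S, ∃ y ∈ S, x ≠ y ∧ s(x, y) = e := by
  unfold pairs at h
  obtain ⟨⟨x, y⟩, hxy, he⟩ := Finset.mem_image.mp h
  rw [Finset.mem_offDiag] at hxy
  exact ⟨x, hxy.1, y, hxy.2.1, hxy.2.2, he⟩

theorem count_bound (n s z p : ℕ)
    (h : (n.choose s : ℝ) * (1 / ((p : ℝ) + 1)) ^ (s.choose 2)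
      + (n.choose z : ℝ) * ((p : ℝ) / ((p : ℝ) + 1)) ^ (z.choose 2) < 1) : ¬ Arrows n s z := by
  classical
  intro hA
  -- the graph of a colouring
  let Gf : (Sym2 (Fin n) → Fin (p + 1)) → SimpleGraph (Fin n) := fun f =>
    { Adj := fun x y => x ≠ y ∧ f s(x, y) = 0
      symm := ⟨fun x y hxy => ⟨hxy.1.symm, by rw [Sym2.eq_swap]; exact hxy.2⟩⟩
      loopless := ⟨fun x hx => hx.1 rfl⟩ }
  set T0 : Finset (Fin (p + 1)) := {0} with hT0
  set T1 : Finset (Fin (p + 1)) := Finset.univ.erase 0 with hT1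
  let A : Finset (Fin n) → Finset (Sym2 (Fin n) → Fin (p + 1)) := fun S =>
    Fintype.piFinset (fun a => if a ∈ pairs S then T0 else Finset.univ)
  let B : Finset (Fin n) → Finset (Sym2 (Fin n) → Fin (p + 1)) := fun S =>
    Fintype.piFinset (fun a => if a ∈ pairs S then T1 else Finset.univ)
  have hcover : (Finset.univ : Finset (Sym2 (Fin n) → Fin (p + 1))) ⊆
      ((Finset.univ : Finset (Fin n)).powersetCard s).biUnion A ∪
      ((Finset.univ : Finset (Fin n)).powersetCard z).biUnion B := by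
    intro f _
    rw [Finset.mem_union]
    rcases hA (Gf f) with ⟨S, hS⟩ | ⟨S, hS⟩
    · left
      rw [Finset.mem_biUnion]
      refine ⟨S, Finset.mem_powersetCard.mpr ⟨Finset.subset_univ _, hS.card_eq⟩, ?_⟩
      rw [Fintype.mem_piFinset]
      intro e
      split_ifs with he
      · obtain ⟨x, hx, y, hy, hxy, rfl⟩ := exists_of_mem_pairs he
        have := hS.isClique (by exact_mod_cast hx) (by exact_mod_cast hy) hxy
        rw [hT0, Finset.mem_singleton]
        exact this.2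
      · exact Finset.mem_univ _
    · right
      rw [Finset.mem_biUnion]
      refine ⟨S, Finset.mem_powersetCard.mpr ⟨Finset.subset_univ _, hS.card_eq⟩, ?_⟩
      rw [Fintype.mem_piFinset]
      intro e
      split_ifs with he
      · obtain ⟨x, hx, y, hy, hxy, rfl⟩ := exists_of_mem_pairs he
        have := hS.isClique (by exact_mod_cast hx) (by exact_mod_cast hy) hxy
        rw [SimpleGraph.compl_adj] at this
        rw [hT1, Finset.mem_erase]
        exact ⟨fun h0 => this.2 ⟨hxy, h0⟩, Finset.mem_univ _⟩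
      · exact Finset.mem_univ _
  have hcard := Finset.card_le_card hcover
  have hcard2 : Fintype.card (Sym2 (Fin n) → Fin (p + 1)) ≤
      ∑ S ∈ (Finset.univ : Finset (Fin n)).powersetCard s, (A S).card +
      ∑ S ∈ (Finset.univ : Finset (Fin n)).powersetCard z, (B S).card := by
    calc Fintype.card (Sym2 (Fin n) → Fin (p + 1))
        = (Finset.univ : Finset (Sym2 (Fin n) → Fin (p + 1))).card := Finset.card_univ.symm
      _ ≤ _ := hcard
      _ ≤ _ := Finset.card_union_le _ _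
      _ ≤ _ := Nat.add_le_add Finset.card_biUnion_le Finset.card_biUnion_le
  set N := Fintype.card (Sym2 (Fin n)) with hN
  have hApos : ∀ S ∈ (Finset.univ : Finset (Fin n)).powersetCard s, ((A S).card : ℝ)
      = ((p : ℝ) + 1) ^ N * (1 / ((p : ℝ) + 1)) ^ (s.choose 2) := by
    intro S hS
    have := card_restricted p (pairs S) T0
    rw [card_pairs, (Finset.mem_powersetCard.mp hS).2] at this
    rw [this, hT0, Finset.card_singleton]
    simp [hN]
  have hBpos : ∀ S ∈ (Finset.univ : Finset (Fin n)).powersetCard z, ((B S).card : ℝ)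
      = ((p : ℝ) + 1) ^ N * ((p : ℝ) / ((p : ℝ) + 1)) ^ (z.choose 2) := by
    intro S hS
    have := card_restricted p (pairs S) T1
    rw [card_pairs, (Finset.mem_powersetCard.mp hS).2] at this
    rw [this, hT1, Finset.card_erase_of_mem (Finset.mem_univ _), Finset.card_univ, Fintype.card_fin]
    simp [hN]
  have hreal : ((Fintype.card (Sym2 (Fin n) → Fin (p + 1)) : ℕ) : ℝ) ≤
      ∑ S ∈ (Finset.univ : Finset (Fin n)).powersetCard s, ((A S).card : ℝ) +
      ∑ S ∈ (Finset.univ : Finset (Fin n)).powersetCard z, ((B S).card : ℝ) := by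
    exact_mod_cast hcard2
  rw [Finset.sum_congr rfl hApos, Finset.sum_congr rfl hBpos, Finset.sum_const, Finset.sum_const,
    Finset.card_powersetCard, Finset.card_powersetCard, Finset.card_univ, Fintype.card_fin,
    Fintype.card_fun, Fintype.card_fin, nsmul_eq_mul, nsmul_eq_mul] at hreal
  push_cast at hreal
  have hpos : (0 : ℝ) < ((p : ℝ) + 1) ^ N := by positivity
  have h2 : ((p : ℝ) + 1) ^ N * ((n.choose s : ℝ) * (1 / ((p : ℝ) + 1)) ^ (s.choose 2)
      + (n.choose z : ℝ) * ((p : ℝ) / ((p : ℝ) + 1)) ^ (z.choose 2)) < ((p : ℝ) + 1) ^ N * 1 :=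
    mul_lt_mul_of_pos_left h hpos
  nlinarith [hreal, h2]

theorem not_arrows_of_small (n s z p : ℕ) (hs : 3 ≤ s) (hz : 3 ≤ z)
    (h1 : (n : ℝ) ^ 2 ≤ ((p : ℝ) + 1) ^ (s - 1))
    (h2 : (n : ℝ) ≤ Real.exp (((z : ℝ) - 1) / (2 * ((p : ℝ) + 1)))) : ¬ Arrows n s z := by
  apply count_bound n s z p
  have hp : (0 : ℝ) < (p : ℝ) + 1 := by positivity
  have hfac : ∀ t : ℕ, 3 ≤ t → (6 : ℝ) ≤ (t.factorial : ℝ) := by
    intro t ht
    have : (3 : ℕ).factorial ≤ t.factorial := Nat.factorial_le ht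
    have h6 : (3 : ℕ).factorial = 6 := by decide
    rw [h6] at this
    exact_mod_cast this
  have hchoose : ∀ t : ℕ, 3 ≤ t → (n.choose t : ℝ) ≤ (n : ℝ) ^ t / 6 := by
    intro t ht
    have h := Nat.choose_le_pow_div (α := ℝ) t n
    refine h.trans ?_
    exact div_le_div_of_nonneg_left (by positivity) (by norm_num) (hfac t ht)
  have hA : (n.choose s : ℝ) * (1 / ((p : ℝ) + 1)) ^ (s.choose 2) ≤ 1 / 6 := by
    have h3 : (n : ℝ) ^ s ≤ ((p : ℝ) + 1) ^ (s.choose 2) := by
      have h4 : ((n : ℝ) ^ s) ^ 2 ≤ (((p : ℝ) + 1) ^ (s.choose 2)) ^ 2 := by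
        calc ((n : ℝ) ^ s) ^ 2 = ((n : ℝ) ^ 2) ^ s := by rw [← pow_mul, ← pow_mul, mul_comm]
          _ ≤ (((p : ℝ) + 1) ^ (s - 1)) ^ s := pow_le_pow_left₀ (by positivity) h1 s
          _ = ((p : ℝ) + 1) ^ ((s - 1) * s) := by rw [← pow_mul]
          _ = ((p : ℝ) + 1) ^ (s.choose 2 * 2) := by
              congr 1
              have := Nat.triangle_succ (s - 1)
              rw [Nat.choose_two_right]
              have he : 2 ∣ s * (s - 1) := (Nat.even_mul_pred_self s).two_dvd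
              rw [Nat.div_mul_cancel he]
              ring
          _ = (((p : ℝ) + 1) ^ (s.choose 2)) ^ 2 := by rw [← pow_mul]
      exact (pow_le_pow_iff_left₀ (by positivity) (by positivity) (by norm_num)).mp h4
    have h5 : (1 / ((p : ℝ) + 1)) ^ (s.choose 2) = 1 / ((p : ℝ) + 1) ^ (s.choose 2) := by
      rw [div_pow, one_pow]
    rw [h5, mul_one_div, div_le_iff₀ (by positivity)]
    calc (n.choose s : ℝ) ≤ (n : ℝ) ^ s / 6 := hchoose s hs
      _ ≤ ((p : ℝ) + 1) ^ (s.choose 2) / 6 := by gcongr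
      _ = 1 / 6 * ((p : ℝ) + 1) ^ (s.choose 2) := by ring
  have hB : (n.choose z : ℝ) * ((p : ℝ) / ((p : ℝ) + 1)) ^ (z.choose 2) ≤ 1 / 6 := by
    have h3 : ((p : ℝ) / ((p : ℝ) + 1)) ≤ Real.exp (-(1 / ((p : ℝ) + 1))) := by
      have := Real.add_one_le_exp (-(1 / ((p : ℝ) + 1)))
      have h4 : (p : ℝ) / ((p : ℝ) + 1) = -(1 / ((p : ℝ) + 1)) + 1 := by
        field_simp
        ring
      rw [h4]
      exact this
    have h4 : ((p : ℝ) / ((p : ℝ) + 1)) ^ (z.choose 2)
        ≤ Real.exp (-(1 / ((p : ℝ) + 1)) * (z.choose 2 : ℝ)) := by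
      calc ((p : ℝ) / ((p : ℝ) + 1)) ^ (z.choose 2)
          ≤ (Real.exp (-(1 / ((p : ℝ) + 1)))) ^ (z.choose 2) :=
            pow_le_pow_left₀ (by positivity) h3 _
        _ = Real.exp (-(1 / ((p : ℝ) + 1)) * (z.choose 2 : ℝ)) := by
            rw [← Real.exp_nat_mul]
            ring_nf
    have h5 : (n : ℝ) ^ z ≤ Real.exp ((1 / ((p : ℝ) + 1)) * (z.choose 2 : ℝ)) := by
      calc (n : ℝ) ^ z ≤ (Real.exp (((z : ℝ) - 1) / (2 * ((p : ℝ) + 1)))) ^ z :=
            pow_le_pow_left₀ (by positivity) h2 z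
        _ = Real.exp ((1 / ((p : ℝ) + 1)) * (z.choose 2 : ℝ)) := by
            rw [← Real.exp_nat_mul]
            congr 1
            rw [Nat.cast_choose_two]
            field_simp
    calc (n.choose z : ℝ) * ((p : ℝ) / ((p : ℝ) + 1)) ^ (z.choose 2)
        ≤ ((n : ℝ) ^ z / 6) * Real.exp (-(1 / ((p : ℝ) + 1)) * (z.choose 2 : ℝ)) := by
          apply mul_le_mul (hchoose z hz) h4 (by positivity) (by positivity)
      _ ≤ (Real.exp ((1 / ((p : ℝ) + 1)) * (z.choose 2 : ℝ)) / 6)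
          * Real.exp (-(1 / ((p : ℝ) + 1)) * (z.choose 2 : ℝ)) := by gcongr
      _ = 1 / 6 := by
          rw [div_mul_eq_mul_div, ← Real.exp_add]
          have : (1 / ((p : ℝ) + 1)) * (z.choose 2 : ℝ) + -(1 / ((p : ℝ) + 1)) * (z.choose 2 : ℝ)
              = 0 := by ring
          rw [this, Real.exp_zero]
  linarith

theorem arrows_mono {m n k l : ℕ} (hmn : m ≤ n) (h : Arrows m k l) : Arrows n k l := by
  intro G
  rcases arrows_transfer h G Finset.univ (by simpa using hmn) with ⟨s, _, hs⟩ | ⟨s, _, hs⟩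
  · exact Or.inl ⟨s, hs⟩
  · exact Or.inr ⟨s, hs⟩

theorem lt_R_of {s z p : ℕ} (hs : 3 ≤ s) (hz : 3 ≤ z) (y : ℝ) (hy : 0 ≤ y)
    (h1 : y ^ 2 ≤ ((p : ℝ) + 1) ^ (s - 1))
    (h2 : y ≤ Real.exp (((z : ℝ) - 1) / (2 * ((p : ℝ) + 1)))) : y < (R s z : ℝ) := by
  have hfl : ((⌊y⌋₊ : ℕ) : ℝ) ≤ y := Nat.floor_le hy
  have hno : ¬ Arrows ⌊y⌋₊ s z := by
    apply not_arrows_of_small ⌊y⌋₊ s z p hs hz
    · exact (pow_le_pow_left₀ (by positivity) hfl 2).trans h1
    · exact hfl.trans h2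
  have hlt : ⌊y⌋₊ < R s z := by
    by_contra hcon
    push Not at hcon
    exact hno (arrows_mono hcon (R_spec (by omega) (by omega)).2)
  calc y < (⌊y⌋₊ : ℝ) + 1 := Nat.lt_floor_add_one y
    _ ≤ (R s z : ℝ) := by exact_mod_cast hlt

/-- **Lower bound** `R(s,z) > exp((s/24) log(2z/s))` for `3 ≤ s ≤ z`. -/
theorem R_lower {s z : ℕ} (hs : 3 ≤ s) (hsz : s ≤ z) :
    Real.exp ((s : ℝ) / 24 * Real.log (2 * ((z : ℝ) / s))) < (R s z : ℝ) := by
  have hs0 : (0 : ℝ) < (s : ℝ) := by positivity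
  have hs3 : (3 : ℝ) ≤ (s : ℝ) := by exact_mod_cast hs
  have hz0 : (0 : ℝ) < (z : ℝ) := by
    have : (s : ℝ) ≤ z := by exact_mod_cast hsz
    linarith
  have hz3 : (3 : ℝ) ≤ (z : ℝ) := by exact_mod_cast (hs.trans hsz)
  set x : ℝ := (z : ℝ) / s with hx
  have hx1 : 1 ≤ x := by
    rw [hx, le_div_iff₀ hs0]
    simpa using (by exact_mod_cast hsz : (s : ℝ) ≤ z)
  have hxpos : 0 < x := by linarith
  set r := Real.sqrt x with hr
  have hr1 : 1 ≤ r := by
    rw [hr]
    exact Real.one_le_sqrt.mpr hx1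
  have hrr : r * r = x := Real.mul_self_sqrt hxpos.le
  set p : ℕ := ⌊r⌋₊ with hp
  have hp1 : 1 ≤ p := by
    rw [hp]
    exact Nat.le_floor (by simpa using hr1)
  have hp1' : (1 : ℝ) ≤ (p : ℝ) := by exact_mod_cast hp1
  have hpr : (p : ℝ) ≤ r := Nat.floor_le (by linarith)
  have hrp : r < (p : ℝ) + 1 := Nat.lt_floor_add_one r
  -- log(2x) ≤ 3 log(p+1)
  have hlog2x : Real.log (2 * x) ≤ 3 * Real.log ((p : ℝ) + 1) := by
    have h1 : Real.log (2 * x) = Real.log 2 + 2 * Real.log r := by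
      rw [Real.log_mul (by norm_num) (by positivity), ← hrr,
        Real.log_mul (by positivity) (by positivity)]
      ring
    have h2 : Real.log 2 ≤ Real.log ((p : ℝ) + 1) := Real.log_le_log (by norm_num) (by linarith)
    have h3 : Real.log r ≤ Real.log ((p : ℝ) + 1) := Real.log_le_log (by linarith) hrp.le
    rw [h1]
    linarith
  have hlogpos : 0 ≤ Real.log (2 * x) := Real.log_nonneg (by linarith)
  have hlogqpos : 0 ≤ Real.log ((p : ℝ) + 1) := Real.log_nonneg (by linarith)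
  apply lt_R_of (p := p) hs (hs.trans hsz) _ (Real.exp_pos _).le
  · -- y^2 ≤ q^(s-1)
    rw [← Real.exp_nat_mul]
    have hq : ((p : ℝ) + 1) ^ (s - 1) = Real.exp (((s - 1 : ℕ) : ℝ) * Real.log ((p : ℝ) + 1)) := by
      rw [Real.exp_nat_mul, Real.exp_log (by positivity)]
    rw [hq]
    apply Real.exp_le_exp.mpr
    rw [Nat.cast_sub (by omega)]
    push_cast
    have h5 : (s : ℝ) / 24 * Real.log (2 * x) ≤ (s : ℝ) / 24 * (3 * Real.log ((p : ℝ) + 1)) :=
      mul_le_mul_of_nonneg_left hlog2x (by positivity)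
    nlinarith [h5, hlogqpos, hs3]
  · apply Real.exp_le_exp.mpr
    rw [le_div_iff₀ (by positivity)]
    -- log (2x) ≤ 3 r
    have hlog3 : Real.log (2 * x) ≤ 3 * r := by
      have h1 : Real.log (2 * x) = Real.log 2 + 2 * Real.log r := by
        rw [Real.log_mul (by norm_num) (by positivity), ← hrr,
          Real.log_mul (by positivity) (by positivity)]
        ring
      have h2 : Real.log r ≤ r - 1 := Real.log_le_sub_one_of_pos (by linarith)
      have h3 : Real.log 2 < 1 := by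
        have := Real.log_two_lt_d9
        linarith
      rw [h1]
      linarith
    have hzs : (z : ℝ) = s * (r * r) := by
      rw [hrr, hx]
      field_simp
    have h6 : (s : ℝ) / 24 * Real.log (2 * x) ≤ (s : ℝ) / 24 * (3 * r) :=
      mul_le_mul_of_nonneg_left hlog3 (by positivity)
    have h7 : 2 * ((p : ℝ) + 1) ≤ 4 * r := by linarith
    calc (s : ℝ) / 24 * Real.log (2 * x) * (2 * ((p : ℝ) + 1))
        ≤ (s : ℝ) / 24 * (3 * r) * (4 * r) := by
          apply mul_le_mul h6 h7 (by positivity) (by positivity)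
      _ = (z : ℝ) / 2 := by rw [hzs]; ring
      _ ≤ (z : ℝ) - 1 := by linarith

end Pool.Agent.H766R2.RR
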