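import Mathlib

/-!
Entropy selection lemma and the parallel Erdős–Szemerédi process.
-/

namespace Pool.Agent.H766R2.RR

open Finset Classical

variable {V : Type*}

/-- number of neighbours of `v` in `B`, as a real number -/
noncomputable def dg (G : SimpleGraph V) (B : Finset V) (v : V) : ℝ :=
  ((B.filter (fun w => G.Adj v w)).card : ℝ)

/-- edge density of a pair -/
noncomputable def dens (G : SimpleGraph V) (A B : Finset V) : ℝ :=
  (∑ v ∈ A, dg G B v) / ((A.card : ℝ) * (B.card : ℝ))

theorem dg_nonneg (G : SimpleGraph V) (B : Finset V) (v : V) : 0 ≤ dg G B v := by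
  unfold dg; positivity

theorem sum_dg_comm (G : SimpleGraph V) (A B : Finset V) :
    ∑ v ∈ A, dg G B v = ∑ w ∈ B, dg G A w := by
  unfold dg
  have h : ∀ (X : Finset V) (v : V), (((X.filter (fun w => G.Adj v w)).card : ℕ) : ℝ)
      = ∑ w ∈ X, (if G.Adj v w then (1 : ℝ) else 0) := by
    intro X v
    rw [Finset.card_filter]
    push_cast
    rfl
  simp_rw [h]
  rw [Finset.sum_comm]
  refine Finset.sum_congr rfl (fun w _ => Finset.sum_congr rfl (fun v _ => ?_))
  simp only [G.adj_comm]

theorem dens_symm (G : SimpleGraph V) (A B : Finset V) : dens G A B = dens G B A := by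
  unfold dens
  rw [sum_dg_comm, mul_comm]

theorem dens_nonneg (G : SimpleGraph V) (A B : Finset V) : 0 ≤ dens G A B := by
  unfold dens
  exact div_nonneg (Finset.sum_nonneg (fun v _ => dg_nonneg G B v)) (by positivity)

/-- Gibbs' inequality for the pattern classes. -/
theorem entropy_bound (A : Finset V) (hA : A.Nonempty) (S : Finset V) (f : V → Finset V)
    (hf : ∀ u ∈ A, f u ⊆ S) {θ : ℝ} (h0 : 0 < θ) (h1 : θ < 1) :
    ∑ u ∈ A, (Real.log A.card - Real.log ((A.filter (fun v => f v = f u)).card)) ≤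
      ∑ u ∈ A, (((f u).card : ℝ) * Real.log (1 / θ) + (S.card : ℝ) * Real.log (1 / (1 - θ))) := by
  have hApos : (0 : ℝ) < A.card := by exact_mod_cast Finset.card_pos.mpr hA
  have h1' : 0 < 1 - θ := by linarith
  let q : Finset V → ℝ := fun Q => θ ^ Q.card * (1 - θ) ^ (S.card - Q.card)
  have hqpos : ∀ Q, 0 < q Q := fun Q => by positivity
  have hPpos : ∀ u ∈ A, (0 : ℝ) < ((A.filter (fun v => f v = f u)).card : ℝ) := by
    intro u hu
    have : u ∈ A.filter (fun v => f v = f u) := by simp [hu]
    exact_mod_cast Finset.card_pos.mpr ⟨u, this⟩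
  -- total weight
  have hqsum : ∑ Q ∈ S.powerset, q Q = 1 := by
    have := Finset.sum_pow_mul_eq_add_pow θ (1 - θ) S
    simp only [q]
    rw [this]
    ring_nf
  have hw : ∑ u ∈ A, q (f u) / ((A.filter (fun v => f v = f u)).card : ℝ) ≤ 1 := by
    rw [← Finset.sum_fiberwise_of_maps_to (t := A.image f) (g := f)
      (fun u hu => Finset.mem_image_of_mem f hu)]
    calc ∑ Q ∈ A.image f, ∑ u ∈ A.filter (fun u => f u = Q),
          q (f u) / ((A.filter (fun v => f v = f u)).card : ℝ)
        = ∑ Q ∈ A.image f, q Q := by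
          refine Finset.sum_congr rfl (fun Q hQ => ?_)
          obtain ⟨u0, hu0, hu0Q⟩ := Finset.mem_image.mp hQ
          have hc : (0 : ℝ) < ((A.filter (fun v => f v = Q)).card : ℝ) := by
            have := hPpos u0 hu0
            rwa [hu0Q] at this
          have : ∀ u ∈ A.filter (fun u => f u = Q),
              q (f u) / ((A.filter (fun v => f v = f u)).card : ℝ)
              = q Q / ((A.filter (fun v => f v = Q)).card : ℝ) := by
            intro u hu
            rw [(Finset.mem_filter.mp hu).2]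
          rw [Finset.sum_congr rfl this, Finset.sum_const, nsmul_eq_mul]
          field_simp
      _ ≤ ∑ Q ∈ S.powerset, q Q := by
          apply Finset.sum_le_sum_of_subset_of_nonneg
          · intro Q hQ
            obtain ⟨u0, hu0, hu0Q⟩ := Finset.mem_image.mp hQ
            rw [Finset.mem_powerset, ← hu0Q]
            exact hf u0 hu0
          · intro Q _ _
            exact (hqpos Q).le
      _ = 1 := hqsum
  -- pointwise
  have hpt : ∀ u ∈ A, (Real.log A.card - Real.log ((A.filter (fun v => f v = f u)).card))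
      ≤ (((f u).card : ℝ) * Real.log (1 / θ) + (S.card : ℝ) * Real.log (1 / (1 - θ)))
        + ((A.card : ℝ) * (q (f u) / ((A.filter (fun v => f v = f u)).card : ℝ)) - 1) := by
    intro u hu
    have hP := hPpos u hu
    have hx : 0 < (A.card : ℝ) * (q (f u) / ((A.filter (fun v => f v = f u)).card : ℝ)) := by
      have := hqpos (f u)
      positivity
    have hlog := Real.log_le_sub_one_of_pos hx
    rw [Real.log_mul hApos.ne' (div_ne_zero (hqpos _).ne' hP.ne'),
      Real.log_div (hqpos _).ne' hP.ne'] at hlog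
    have hq : Real.log (q (f u)) = ((f u).card : ℝ) * Real.log θ
        + ((S.card - (f u).card : ℕ) : ℝ) * Real.log (1 - θ) := by
      simp only [q]
      rw [Real.log_mul (by positivity) (by positivity), Real.log_pow, Real.log_pow]
    have hcard : (((S.card - (f u).card : ℕ) : ℝ)) ≤ (S.card : ℝ) := by
      exact_mod_cast Nat.sub_le _ _
    have hl1 : Real.log (1 / θ) = - Real.log θ := by rw [one_div, Real.log_inv]
    have hl2 : Real.log (1 / (1 - θ)) = - Real.log (1 - θ) := by rw [one_div, Real.log_inv]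
    have hneg : Real.log (1 - θ) ≤ 0 := Real.log_nonpos h1'.le (by linarith)
    rw [hl1, hl2]
    rw [hq] at hlog
    nlinarith [mul_le_mul_of_nonpos_right hcard hneg]
  calc ∑ u ∈ A, (Real.log A.card - Real.log ((A.filter (fun v => f v = f u)).card))
      ≤ ∑ u ∈ A, ((((f u).card : ℝ) * Real.log (1 / θ) + (S.card : ℝ) * Real.log (1 / (1 - θ)))
        + ((A.card : ℝ) * (q (f u) / ((A.filter (fun v => f v = f u)).card : ℝ)) - 1)) :=
        Finset.sum_le_sum hpt
    _ = ∑ u ∈ A, (((f u).card : ℝ) * Real.log (1 / θ) + (S.card : ℝ) * Real.log (1 / (1 - θ)))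
        + ((A.card : ℝ) * (∑ u ∈ A, q (f u) / ((A.filter (fun v => f v = f u)).card : ℝ))
          - A.card) := by
        rw [Finset.sum_add_distrib, Finset.sum_sub_distrib, ← Finset.mul_sum, Finset.sum_const,
          nsmul_eq_mul, mul_one]
    _ ≤ _ := by nlinarith [hw, hApos]

/-- Averages over the classes average to the global average. -/
theorem sum_class_avg (A : Finset V) (f : V → Finset V) (g : V → ℝ) :
    ∑ u ∈ A, (∑ v ∈ A.filter (fun v => f v = f u), g v)
      / ((A.filter (fun v => f v = f u)).card : ℝ) = ∑ v ∈ A, g v := by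
  rw [← Finset.sum_fiberwise_of_maps_to (t := A.image f) (g := f)
      (fun u hu => Finset.mem_image_of_mem f hu)]
  conv_rhs => rw [← Finset.sum_fiberwise_of_maps_to (t := A.image f) (g := f)
      (fun u hu => Finset.mem_image_of_mem f hu)]
  refine Finset.sum_congr rfl (fun Q hQ => ?_)
  obtain ⟨u0, hu0, hu0Q⟩ := Finset.mem_image.mp hQ
  have hc : (0 : ℝ) < ((A.filter (fun v => f v = Q)).card : ℝ) := by
    have : u0 ∈ A.filter (fun v => f v = Q) := by simp [hu0, hu0Q]
    exact_mod_cast Finset.card_pos.mpr ⟨u0, this⟩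
  have : ∀ u ∈ A.filter (fun u => f u = Q),
      (∑ v ∈ A.filter (fun v => f v = f u), g v) / ((A.filter (fun v => f v = f u)).card : ℝ)
      = (∑ v ∈ A.filter (fun v => f v = Q), g v) / ((A.filter (fun v => f v = Q)).card : ℝ) := by
    intro u hu
    rw [(Finset.mem_filter.mp hu).2]
  rw [Finset.sum_congr rfl this, Finset.sum_const, nsmul_eq_mul]
  field_simp

/-- **Selection lemma.** -/
theorem select (G : SimpleGraph V) (A : Finset V) (hA : A.Nonempty) (S : Finset V) (g : V → ℝ)
    {lam nu θ : ℝ} (hlam : 0 ≤ lam) (h0 : 0 < θ) (h1 : θ < 1) :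
    ∃ P ⊆ A, P.Nonempty ∧ ∃ Q ⊆ S, (∀ u ∈ P, S.filter (fun w => G.Adj u w) = Q) ∧
      lam * (Real.log A.card - Real.log P.card) + nu * (Q.card : ℝ)
        + (∑ u ∈ P, g u) / (P.card : ℝ) ≤
      (lam * Real.log (1 / θ) + nu) * ((∑ u ∈ A, dg G S u) / (A.card : ℝ))
        + lam * ((S.card : ℝ) * Real.log (1 / (1 - θ))) + (∑ u ∈ A, g u) / (A.card : ℝ) := by
  have hApos : (0 : ℝ) < A.card := by exact_mod_cast Finset.card_pos.mpr hA
  set f : V → Finset V := fun u => S.filter (fun w => G.Adj u w) with hf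
  set X : V → ℝ := fun u => lam * (Real.log A.card - Real.log ((A.filter (fun v => f v = f u)).card))
    + nu * ((f u).card : ℝ)
    + (∑ v ∈ A.filter (fun v => f v = f u), g v) / ((A.filter (fun v => f v = f u)).card : ℝ) with hX
  set RHS : ℝ := (lam * Real.log (1 / θ) + nu) * ((∑ u ∈ A, dg G S u) / (A.card : ℝ))
        + lam * ((S.card : ℝ) * Real.log (1 / (1 - θ))) + (∑ u ∈ A, g u) / (A.card : ℝ) with hRHS
  have hsum : ∑ u ∈ A, X u ≤ ∑ _u ∈ A, RHS := by
    have hent := entropy_bound A hA S f (fun u _ => Finset.filter_subset _ _) h0 h1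
    have h2 := mul_le_mul_of_nonneg_left hent hlam
    rw [hX, Finset.sum_add_distrib, Finset.sum_add_distrib, sum_class_avg, ← Finset.mul_sum,
      ← Finset.mul_sum, Finset.sum_const, nsmul_eq_mul]
    have h3 : ∑ u ∈ A, ((f u).card : ℝ) = ∑ u ∈ A, dg G S u := rfl
    rw [Finset.sum_add_distrib, ← Finset.sum_mul, h3, Finset.sum_const, nsmul_eq_mul] at h2
    rw [h3, hRHS]
    have h4 : (A.card : ℝ) * ((lam * Real.log (1 / θ) + nu) * ((∑ u ∈ A, dg G S u) / (A.card : ℝ))
        + lam * ((S.card : ℝ) * Real.log (1 / (1 - θ))) + (∑ u ∈ A, g u) / (A.card : ℝ))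
        = (lam * Real.log (1 / θ) + nu) * (∑ u ∈ A, dg G S u)
        + lam * ((A.card : ℝ) * ((S.card : ℝ) * Real.log (1 / (1 - θ)))) + ∑ u ∈ A, g u := by
      field_simp
    rw [h4]
    nlinarith [h2]
  obtain ⟨u, hu, hle⟩ := Finset.exists_le_of_sum_le hA hsum
  refine ⟨A.filter (fun v => f v = f u), Finset.filter_subset _ _, ⟨u, by simp [hu]⟩, f u,
    Finset.filter_subset _ _, ?_, hle⟩
  intro v hv
  exact (Finset.mem_filter.mp hv).2

end Pool.Agent.H766R2.RR
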