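import Pool.Agent.H766R2.RR3

/-!
The parallel process: potential function.
-/

namespace Pool.Agent.H766R2.RR

open Finset Classical

variable {V : Type*} {ι : Type*}

/-- sum of the pair densities -/
noncomputable def Psi (G : SimpleGraph V) (I : Finset ι) (W : ι → Finset V) : ℝ :=
  ∑ i ∈ I, ∑ j ∈ I.erase i, dens G (W i) (W j)

/-- total loss of (logarithmic) size -/
noncomputable def Loss (L : ℝ) (I : Finset ι) (W : ι → Finset V) : ℝ :=
  ∑ i ∈ I, (L - Real.log ((W i).card : ℝ))

/-- potential -/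
noncomputable def Pot (G : SimpleGraph V) (lam L : ℝ) (I : Finset ι) (W : ι → Finset V) : ℝ :=
  lam * Loss L I W + Psi G I W

theorem Psi_erase (G : SimpleGraph V) (I : Finset ι) (W : ι → Finset V) {i : ι} (hi : i ∈ I) :
    Psi G I W = Psi G (I.erase i) W + 2 * ∑ j ∈ I.erase i, dens G (W i) (W j) := by
  unfold Psi
  rw [← Finset.add_sum_erase I _ hi]
  have h1 : ∑ x ∈ I.erase i, ∑ j ∈ I.erase x, dens G (W x) (W j)
      = ∑ x ∈ I.erase i, (∑ j ∈ (I.erase i).erase x, dens G (W x) (W j) + dens G (W i) (W x)) := by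
    refine Finset.sum_congr rfl (fun x hx => ?_)
    have hix : i ∈ I.erase x := by
      rw [Finset.mem_erase]
      exact ⟨fun h => (Finset.mem_erase.mp hx).1 h.symm, hi⟩
    rw [← Finset.add_sum_erase (I.erase x) _ hix, Finset.erase_right_comm, dens_symm G (W i) (W x)]
    ring
  rw [h1, Finset.sum_add_distrib]
  ring

theorem Loss_erase (L : ℝ) (I : Finset ι) (W : ι → Finset V) {i : ι} (hi : i ∈ I) :
    Loss L I W = Loss L (I.erase i) W + (L - Real.log ((W i).card : ℝ)) := by
  unfold Loss
  rw [← Finset.add_sum_erase I _ hi]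
  ring

theorem Psi_congr (G : SimpleGraph V) (I : Finset ι) {W W' : ι → Finset V}
    (h : ∀ i ∈ I, W i = W' i) : Psi G I W = Psi G I W' := by
  unfold Psi
  refine Finset.sum_congr rfl (fun i hi => Finset.sum_congr rfl (fun j hj => ?_))
  rw [h i hi, h j (Finset.mem_of_mem_erase hj)]

theorem Loss_congr (L : ℝ) (I : Finset ι) {W W' : ι → Finset V}
    (h : ∀ i ∈ I, W i = W' i) : Loss L I W = Loss L I W' := by
  unfold Loss
  refine Finset.sum_congr rfl (fun i hi => ?_)
  rw [h i hi]

theorem Psi_nonneg (G : SimpleGraph V) (I : Finset ι) (W : ι → Finset V) : 0 ≤ Psi G I W :=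
  Finset.sum_nonneg (fun _ _ => Finset.sum_nonneg (fun _ _ => dens_nonneg _ _ _))

theorem Loss_nonneg {L : ℝ} {I : Finset ι} {W : ι → Finset V}
    (h : ∀ i ∈ I, Real.log ((W i).card : ℝ) ≤ L) : 0 ≤ Loss L I W :=
  Finset.sum_nonneg (fun i hi => by have := h i hi; linarith)

/-- One vertex set is replaced by a pattern class. -/
theorem step_one (G : SimpleGraph V) (I : Finset ι) (W : ι → Finset V) (S : Finset V)
    {lam nu θ L : ℝ} (hlam : 0 ≤ lam) (h0 : 0 < θ) (h1 : θ < 1) {a : ι} (ha : a ∈ I)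
    (hW : (W a).Nonempty) :
    ∃ P ⊆ W a, P.Nonempty ∧ ∃ Q ⊆ S, (∀ u ∈ P, S.filter (fun w => G.Adj u w) = Q) ∧
      Pot G lam L I (Function.update W a P) + nu * (Q.card : ℝ) ≤ Pot G lam L I W +
        ((lam * Real.log (1 / θ) + nu) * ((∑ u ∈ W a, dg G S u) / ((W a).card : ℝ))
        + lam * ((S.card : ℝ) * Real.log (1 / (1 - θ)))) := by
  obtain ⟨P, hP, hPne, Q, hQ, hpat, hle⟩ := select G (W a) hW S
    (fun u => 2 * ∑ j ∈ I.erase a, dg G (W j) u / ((W j).card : ℝ)) hlam h0 h1 (nu := nu)
  refine ⟨P, hP, hPne, Q, hQ, hpat, ?_⟩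
  have havg : ∀ B : Finset V, (∑ u ∈ B, (2 * ∑ j ∈ I.erase a, dg G (W j) u / ((W j).card : ℝ)))
      / (B.card : ℝ) = 2 * ∑ j ∈ I.erase a, dens G B (W j) := by
    intro B
    rw [← Finset.mul_sum, Finset.sum_comm, mul_div_assoc, Finset.sum_div]
    congr 1
    refine Finset.sum_congr rfl (fun j _ => ?_)
    unfold dens
    rw [← Finset.sum_div, div_div, mul_comm ((W j).card : ℝ)]
  rw [havg, havg] at hle
  have hcong : ∀ i ∈ I.erase a, Function.update W a P i = W i := by
    intro i hi
    rw [Function.update_of_ne (Finset.ne_of_mem_erase hi)]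
  unfold Pot
  rw [Psi_erase G I (Function.update W a P) ha, Loss_erase L I (Function.update W a P) ha,
    Psi_erase G I W ha, Loss_erase L I W ha, Psi_congr G (I.erase a) hcong,
    Loss_congr L (I.erase a) hcong, Function.update_self]
  have h2 : ∑ j ∈ I.erase a, dens G P (Function.update W a P j)
      = ∑ j ∈ I.erase a, dens G P (W j) :=
    Finset.sum_congr rfl (fun j hj => by rw [hcong j hj])
  rw [h2]
  linarith

/-- All vertex sets are replaced by pattern classes. -/
theorem step_all (G : SimpleGraph V) (I : Finset ι) (W : ι → Finset V) (S : Finset V)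
    {lam nu θ L : ℝ} (hlam : 0 ≤ lam) (h0 : 0 < θ) (h1 : θ < 1)
    (hW : ∀ i ∈ I, (W i).Nonempty) :
    ∀ J ⊆ I, ∃ (W' : ι → Finset V) (Q : ι → Finset V),
      (∀ i ∈ I, W' i ⊆ W i ∧ (W' i).Nonempty) ∧ (∀ i, i ∉ J → W' i = W i) ∧
      (∀ i ∈ J, Q i ⊆ S ∧ ∀ u ∈ W' i, S.filter (fun w => G.Adj u w) = Q i) ∧
      Pot G lam L I W' + nu * (∑ i ∈ J, ((Q i).card : ℝ)) ≤ Pot G lam L I W +
        ∑ i ∈ J, ((lam * Real.log (1 / θ) + nu) * ((∑ u ∈ W i, dg G S u) / ((W i).card : ℝ))
        + lam * ((S.card : ℝ) * Real.log (1 / (1 - θ)))) := by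
  intro J
  induction J using Finset.induction_on with
  | empty =>
    intro _
    exact ⟨W, fun _ => ∅, fun i hi => ⟨subset_rfl, hW i hi⟩, fun _ _ => rfl, by simp, by simp⟩
  | insert a J haJ ih =>
    intro hJ
    have haI : a ∈ I := hJ (Finset.mem_insert_self a J)
    obtain ⟨W', Q, hsub, hout, hin, hle⟩ := ih (fun i hi => hJ (Finset.mem_insert_of_mem hi))
    have hWa : W' a = W a := hout a haJ
    obtain ⟨P, hP, hPne, Qa, hQa, hpat, hle2⟩ := step_one G I W' S hlam h0 h1 haI
      (by rw [hWa]; exact hW a haI) (nu := nu) (L := L)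
    rw [hWa] at hP hle2
    refine ⟨Function.update W' a P, Function.update Q a Qa, ?_, ?_, ?_, ?_⟩
    · intro i hi
      by_cases hia : i = a
      · subst hia
        rw [Function.update_self]
        exact ⟨hP, hPne⟩
      · rw [Function.update_of_ne hia]
        exact hsub i hi
    · intro i hi
      rw [Finset.mem_insert, not_or] at hi
      rw [Function.update_of_ne hi.1]
      exact hout i hi.2
    · intro i hi
      by_cases hia : i = a
      · subst hia
        rw [Function.update_self, Function.update_self]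
        exact ⟨hQa, hpat⟩
      · rw [Function.update_of_ne hia, Function.update_of_ne hia]
        exact hin i (by simpa [hia] using hi)
    · rw [Finset.sum_insert haJ, Finset.sum_insert haJ, Function.update_self]
      have hs : ∑ i ∈ J, ((Function.update Q a Qa i).card : ℝ) = ∑ i ∈ J, ((Q i).card : ℝ) := by
        refine Finset.sum_congr rfl (fun i hi => ?_)
        rw [Function.update_of_ne (by rintro rfl; exact haJ hi)]
      rw [hs]
      nlinarith [hle, hle2]

/-- Markov: at least half of the vertices have at most twice the average. -/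
theorem markov_half (A : Finset V) (f : V → ℝ) (hf : ∀ v ∈ A, 0 ≤ f v) (δ : ℝ) (hδ : 0 ≤ δ)
    (hsum : ∑ v ∈ A, f v ≤ (A.card : ℝ) * δ) :
    A.card ≤ 2 * (A.filter (fun v => f v ≤ 2 * δ)).card := by
  by_contra hcon
  push Not at hcon
  have hsplit := Finset.card_filter_add_card_filter_not (s := A) (fun v => f v ≤ 2 * δ)
  set bad := A.filter (fun v => ¬ f v ≤ 2 * δ) with hbad
  have h1 : A.card < 2 * bad.card := by omega
  have hne : bad.Nonempty := by
    rw [← Finset.card_pos]
    omega
  have h2 : ∑ v ∈ bad, (2 * δ) < ∑ v ∈ bad, f v := by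
    apply Finset.sum_lt_sum_of_nonempty hne
    intro v hv
    exact not_le.mp (Finset.mem_filter.mp hv).2
  have h3 : ∑ v ∈ bad, f v ≤ ∑ v ∈ A, f v :=
    Finset.sum_le_sum_of_subset_of_nonneg (Finset.filter_subset _ _) (fun v hv _ => hf v hv)
  rw [Finset.sum_const, nsmul_eq_mul] at h2
  have h4 : (A.card : ℝ) < 2 * (bad.card : ℝ) := by exact_mod_cast h1
  nlinarith [h2, h3, hsum, mul_le_mul_of_nonneg_right h4.le hδ]

/-- **The parallel process.** -/
theorem process (G : SimpleGraph V) (b c1 M T : ℕ) (hc1 : 1 ≤ c1) (hM : 1 ≤ M)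
    (hind : ∀ U : Finset V, c1 ≤ U.card → ∃ S ⊆ U, S.card = b ∧
      ∀ u ∈ S, ∀ v ∈ S, ¬ G.Adj u v)
    {lam nu θ L : ℝ} (hlam : 0 < lam) (hnu : 0 ≤ nu) (h0 : 0 < θ) (h1 : θ < 1) :
    ∀ (t : ℕ) (I : Finset ι) (W : ι → Finset V), I.card = M + t → I.card ≤ T →
      (∀ i ∈ I, (W i).Nonempty) → (∀ i ∈ I, Real.log ((W i).card : ℝ) ≤ L) →
      (∀ i ∈ I, ∀ j ∈ I, i ≠ j → Disjoint (W i) (W j)) →
      (1 + 2 * b * (lam * Real.log (1 / θ) + nu) / M) ^ t *
        (Pot G lam L I W + t * (lam * (T * (b * Real.log (1 / (1 - θ))))))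
        ≤ lam * M * (L - Real.log (2 * c1)) →
      ∃ J : Finset V, J ⊆ I.biUnion W ∧ (∀ u ∈ J, ∀ v ∈ J, ¬ G.Adj u v) ∧
        nu * (t * b - J.card) ≤ (1 + 2 * b * (lam * Real.log (1 / θ) + nu) / M) ^ t *
        (Pot G lam L I W + t * (lam * (T * (b * Real.log (1 / (1 - θ)))))) := by
  have hMpos : (0 : ℝ) < M := by exact_mod_cast hM
  have hl1 : 0 ≤ Real.log (1 / θ) := Real.log_nonneg (by rw [le_div_iff₀ h0]; linarith)
  have hl2 : 0 ≤ Real.log (1 / (1 - θ)) :=
    Real.log_nonneg (by rw [le_div_iff₀ (by linarith)]; linarith)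
  set κ : ℝ := 2 * b * (lam * Real.log (1 / θ) + nu) / M with hκ
  have hκ0 : 0 ≤ κ := by rw [hκ]; positivity
  set η : ℝ := lam * (T * (b * Real.log (1 / (1 - θ)))) with hη
  have hη0 : 0 ≤ η := by rw [hη]; positivity
  clear_value κ η
  have hPot : ∀ (I : Finset ι) (W : ι → Finset V),
      (∀ i ∈ I, Real.log ((W i).card : ℝ) ≤ L) → 0 ≤ Pot G lam L I W := by
    intro I W h
    unfold Pot
    have := Loss_nonneg h
    have := Psi_nonneg G I W
    positivity
  intro t
  induction t with
  | zero =>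
    intro I W _ _ _ hL _ _
    refine ⟨∅, by simp, by simp, ?_⟩
    have := hPot I W hL
    simp
    exact this
  | succ t ih =>
    intro I W hI hT hne hL hdisj hcond
    have hX0 := hPot I W hL
    set X := Pot G lam L I W with hX
    have hIpos : I.Nonempty := by
      rw [← Finset.card_pos]
      omega
    have hIcard : (M : ℝ) ≤ (I.card : ℝ) := by
      rw [hI]
      push_cast
      have : (0 : ℝ) ≤ (t : ℝ) := by positivity
      linarith
    -- choose s
    have hsumX : ∑ s ∈ I, (lam * (L - Real.log ((W s).card : ℝ))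
        + ∑ j ∈ I.erase s, dens G (W s) (W j)) = X := by
      rw [Finset.sum_add_distrib, ← Finset.mul_sum]
      rfl
    obtain ⟨s, hs, hsle⟩ : ∃ s ∈ I, (lam * (L - Real.log ((W s).card : ℝ))
        + ∑ j ∈ I.erase s, dens G (W s) (W j)) ≤ X / M := by
      by_contra hcon
      push Not at hcon
      have h2 : ∑ _s ∈ I, X / M < ∑ s ∈ I, (lam * (L - Real.log ((W s).card : ℝ))
        + ∑ j ∈ I.erase s, dens G (W s) (W j)) := Finset.sum_lt_sum_of_nonempty hIpos hcon
      rw [hsumX, Finset.sum_const, nsmul_eq_mul] at h2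
      have h3 : X = (M : ℝ) * (X / M) := by field_simp
      have h4 : (M : ℝ) * (X / M) ≤ (I.card : ℝ) * (X / M) :=
        mul_le_mul_of_nonneg_right hIcard (by positivity)
      linarith
    set δ := ∑ j ∈ I.erase s, dens G (W s) (W j) with hδ
    have hδ0 : 0 ≤ δ := Finset.sum_nonneg (fun _ _ => dens_nonneg _ _ _)
    have hlosss : 0 ≤ lam * (L - Real.log ((W s).card : ℝ)) := by
      have := hL s hs
      have h3 : 0 ≤ L - Real.log ((W s).card : ℝ) := by linarith
      positivity
    have hδM : δ ≤ X / M := by linarith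
    have hone : (1 : ℝ) ≤ (1 + κ) ^ t := one_le_pow₀ (by linarith)
    have hone' : (1 : ℝ) ≤ (1 + κ) ^ (t + 1) := one_le_pow₀ (by linarith)
    have hXY : X ≤ lam * M * (L - Real.log (2 * c1)) := by
      refine le_trans ?_ hcond
      have h3 : X ≤ X + ((t + 1 : ℕ) : ℝ) * η := by
        have : 0 ≤ ((t + 1 : ℕ) : ℝ) * η := by positivity
        linarith
      calc X ≤ X + ((t + 1 : ℕ) : ℝ) * η := h3
        _ = 1 * (X + ((t + 1 : ℕ) : ℝ) * η) := by ring
        _ ≤ (1 + κ) ^ (t + 1) * (X + ((t + 1 : ℕ) : ℝ) * η) :=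
          mul_le_mul_of_nonneg_right hone' (by positivity)
    have hsize : 2 * c1 ≤ (W s).card := by
      have h3 : X / M ≤ lam * (L - Real.log (2 * c1)) := by
        rw [div_le_iff₀ hMpos]
        linarith
      have h4 : lam * (L - Real.log ((W s).card : ℝ)) ≤ lam * (L - Real.log (2 * c1)) := by
        linarith
      have h5 : Real.log (2 * c1) ≤ Real.log ((W s).card : ℝ) := by
        have := le_of_mul_le_mul_left h4 hlam
        linarith
      have hc1' : (0 : ℝ) < 2 * (c1 : ℝ) := by
        have : (1 : ℝ) ≤ (c1 : ℝ) := by exact_mod_cast hc1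
        linarith
      have hWs : (0 : ℝ) < ((W s).card : ℝ) := by
        exact_mod_cast Finset.card_pos.mpr (hne s hs)
      have h6 := (Real.log_le_log_iff hc1' hWs).mp h5
      exact_mod_cast h6
    -- half of the vertices
    let fv : V → ℝ := fun v => ∑ j ∈ I.erase s, dg G (W j) v / ((W j).card : ℝ)
    have hfv0 : ∀ v, 0 ≤ fv v := fun v =>
      Finset.sum_nonneg (fun j _ => div_nonneg (dg_nonneg _ _ _) (by positivity))
    have hWs : (0 : ℝ) < ((W s).card : ℝ) := by
      exact_mod_cast Finset.card_pos.mpr (hne s hs)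
    have hfsum : ∑ v ∈ W s, fv v = ((W s).card : ℝ) * δ := by
      simp only [fv]
      rw [Finset.sum_comm, hδ, Finset.mul_sum]
      refine Finset.sum_congr rfl (fun j _ => ?_)
      unfold dens
      rw [← Finset.sum_div]
      field_simp
    have hhalf := markov_half (W s) fv (fun v _ => hfv0 v) δ hδ0 hfsum.le
    obtain ⟨S, hSsub, hScard, hSind⟩ := hind ((W s).filter (fun v => fv v ≤ 2 * δ)) (by omega)
    have hSW : S ⊆ W s := hSsub.trans (Finset.filter_subset _ _)
    have hSf : ∑ v ∈ S, fv v ≤ 2 * b * δ := by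
      calc ∑ v ∈ S, fv v ≤ ∑ _v ∈ S, 2 * δ :=
            Finset.sum_le_sum (fun v hv => (Finset.mem_filter.mp (hSsub hv)).2)
        _ = 2 * b * δ := by rw [Finset.sum_const, nsmul_eq_mul, hScard]; ring
    -- multi step
    obtain ⟨W', Q, hsub, _, hin, hle⟩ := step_all G (I.erase s) W S hlam.le h0 h1
      (fun i hi => hne i (Finset.mem_of_mem_erase hi)) (nu := nu) (L := L) (I.erase s) subset_rfl
    set D : ℝ := ∑ i ∈ I.erase s, ((Q i).card : ℝ) with hD
    have hD0 : 0 ≤ D := Finset.sum_nonneg (fun _ _ => by positivity)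
    have hmu : ∑ i ∈ I.erase s, (∑ u ∈ W i, dg G S u) / ((W i).card : ℝ) ≤ 2 * b * δ := by
      calc ∑ i ∈ I.erase s, (∑ u ∈ W i, dg G S u) / ((W i).card : ℝ)
          = ∑ i ∈ I.erase s, ∑ v ∈ S, dg G (W i) v / ((W i).card : ℝ) := by
            refine Finset.sum_congr rfl (fun i _ => ?_)
            rw [sum_dg_comm, Finset.sum_div]
        _ = ∑ v ∈ S, fv v := by rw [Finset.sum_comm]
        _ ≤ 2 * b * δ := hSf
    have hPotle : Pot G lam L (I.erase s) W ≤ X := by
      rw [hX]
      unfold Pot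
      rw [Psi_erase G I W hs, Loss_erase L I W hs]
      have h3 : 0 ≤ ∑ j ∈ I.erase s, dens G (W s) (W j) := hδ0
      nlinarith [hlosss]
    have hIe : ((I.erase s).card : ℝ) ≤ T := by
      have : (I.erase s).card ≤ T := (Finset.card_le_card (Finset.erase_subset _ _)).trans hT
      exact_mod_cast this
    have hX' : Pot G lam L (I.erase s) W' + nu * D ≤ (1 + κ) * X + η := by
      rw [Finset.sum_add_distrib, ← Finset.mul_sum, Finset.sum_const, nsmul_eq_mul, hScard] at hle
      have h3 : (lam * Real.log (1 / θ) + nu) *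
          ∑ i ∈ I.erase s, (∑ u ∈ W i, dg G S u) / ((W i).card : ℝ) ≤ κ * X := by
        calc (lam * Real.log (1 / θ) + nu) *
            ∑ i ∈ I.erase s, (∑ u ∈ W i, dg G S u) / ((W i).card : ℝ)
            ≤ (lam * Real.log (1 / θ) + nu) * (2 * b * (X / M)) := by
              apply mul_le_mul_of_nonneg_left _ (by positivity)
              refine hmu.trans ?_
              exact mul_le_mul_of_nonneg_left hδM (by positivity)
          _ = κ * X := by rw [hκ]; ring
      have h4 : ((I.erase s).card : ℝ) * (lam * (b * Real.log (1 / (1 - θ)))) ≤ η := by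
        rw [hη]
        calc ((I.erase s).card : ℝ) * (lam * (b * Real.log (1 / (1 - θ))))
            ≤ (T : ℝ) * (lam * (b * Real.log (1 / (1 - θ)))) :=
              mul_le_mul_of_nonneg_right hIe (by positivity)
          _ = lam * (T * (b * Real.log (1 / (1 - θ)))) := by ring
      linarith
    have hcardI' : (I.erase s).card = M + t := by
      rw [Finset.card_erase_of_mem hs]
      omega
    have hL' : ∀ i ∈ I.erase s, Real.log ((W' i).card : ℝ) ≤ L := by
      intro i hi
      refine le_trans ?_ (hL i (Finset.mem_of_mem_erase hi))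
      apply Real.log_le_log
      · exact_mod_cast Finset.card_pos.mpr (hsub i hi).2
      · exact_mod_cast Finset.card_le_card (hsub i hi).1
    clear_value D δ X
    have hnuD : 0 ≤ nu * D := mul_nonneg hnu hD0
    have hbig : (1 + κ) ^ t * ((1 + κ) * X + η + t * η)
        ≤ (1 + κ) ^ (t + 1) * (X + ((t + 1 : ℕ) : ℝ) * η) := by
      rw [pow_succ, mul_assoc]
      apply mul_le_mul_of_nonneg_left _ (by positivity)
      push_cast
      have h3 : 0 ≤ κ * ((t + 1 : ℝ) * η) :=
        mul_nonneg hκ0 (mul_nonneg (by positivity) hη0)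
      have h4 : (1 + κ) * (X + ((t : ℝ) + 1) * η) - ((1 + κ) * X + η + t * η)
          = κ * ((t + 1 : ℝ) * η) := by ring
      linarith
    have hcond' : (1 + κ) ^ t * (Pot G lam L (I.erase s) W' + t * η)
        ≤ lam * M * (L - Real.log (2 * c1)) := by
      refine le_trans ?_ (hbig.trans hcond)
      apply mul_le_mul_of_nonneg_left _ (by positivity)
      linarith
    obtain ⟨J', hJ'sub, hJ'ind, hJ'le⟩ := ih (I.erase s) W' hcardI'
      ((Finset.card_le_card (Finset.erase_subset _ _)).trans hT)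
      (fun i hi => (hsub i hi).2) hL'
      (by
        intro i hi j hj hij
        exact Finset.disjoint_of_subset_left (hsub i hi).1
          (Finset.disjoint_of_subset_right (hsub j hj).1
            (hdisj i (Finset.mem_of_mem_erase hi) j (Finset.mem_of_mem_erase hj) hij)))
      hcond'
    -- the final independent set
    set Qall : Finset V := (I.erase s).biUnion Q with hQall
    have hQcard : ((Qall.card : ℕ) : ℝ) ≤ D := by
      rw [hD]
      have : Qall.card ≤ ∑ i ∈ I.erase s, (Q i).card := Finset.card_biUnion_le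
      exact_mod_cast this
    have hJ'W : ∀ v ∈ J', ∃ i ∈ I.erase s, v ∈ W' i := fun v hv =>
      Finset.mem_biUnion.mp (hJ'sub hv)
    have hdisjJ : Disjoint (S \ Qall) J' := by
      rw [Finset.disjoint_left]
      intro v hv1 hv2
      obtain ⟨i, hi, hvi⟩ := hJ'W v hv2
      have h3 := hdisj s hs i (Finset.mem_of_mem_erase hi) (Finset.ne_of_mem_erase hi).symm
      exact (Finset.disjoint_left.mp h3) (hSW (Finset.mem_sdiff.mp hv1).1) ((hsub i hi).1 hvi)
    have hcross : ∀ u ∈ S \ Qall, ∀ v ∈ J', ¬ G.Adj v u := by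
      intro u hu v hv hadj
      obtain ⟨i, hi, hvi⟩ := hJ'W v hv
      have h3 := (hin i hi).2 v hvi
      have h4 : u ∈ Q i := by
        rw [← h3]
        exact Finset.mem_filter.mpr ⟨(Finset.mem_sdiff.mp hu).1, hadj⟩
      exact (Finset.mem_sdiff.mp hu).2 (Finset.mem_biUnion.mpr ⟨i, hi, h4⟩)
    refine ⟨(S \ Qall) ∪ J', ?_, ?_, ?_⟩
    · intro v hv
      rw [Finset.mem_biUnion]
      rcases Finset.mem_union.mp hv with hv | hv
      · exact ⟨s, hs, hSW (Finset.mem_sdiff.mp hv).1⟩
      · obtain ⟨i, hi, hvi⟩ := hJ'W v hv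
        exact ⟨i, Finset.mem_of_mem_erase hi, (hsub i hi).1 hvi⟩
    · intro u hu v hv hadj
      rcases Finset.mem_union.mp hu with hu | hu
      · rcases Finset.mem_union.mp hv with hv | hv
        · exact hSind u (Finset.mem_sdiff.mp hu).1 v (Finset.mem_sdiff.mp hv).1 hadj
        · exact hcross u hu v hv hadj.symm
      · rcases Finset.mem_union.mp hv with hv | hv
        · exact hcross v hv u hu hadj
        · exact hJ'ind u hu v hv hadj
    · rw [Finset.card_union_of_disjoint hdisjJ]
      have h3 : (b : ℝ) - D ≤ ((S \ Qall).card : ℝ) := by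
        have h4 : S.card ≤ (S \ Qall).card + Qall.card := by
          have := Finset.le_card_sdiff Qall S
          omega
        have h5 : (S.card : ℝ) ≤ ((S \ Qall).card : ℝ) + (Qall.card : ℝ) := by exact_mod_cast h4
        rw [hScard] at h5
        linarith
      push_cast
      have h6 : nu * (((t : ℝ) + 1) * b - (((S \ Qall).card : ℝ) + (J'.card : ℝ)))
          ≤ nu * (t * b - J'.card) + nu * D := by
        have h31 : nu * ((b : ℝ) - D) ≤ nu * ((S \ Qall).card : ℝ) :=
          mul_le_mul_of_nonneg_left h3 hnu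
        have h32 : nu * (((t : ℝ) + 1) * b - (((S \ Qall).card : ℝ) + (J'.card : ℝ)))
          = nu * (t * b - J'.card) + nu * D + (nu * ((b : ℝ) - D) - nu * ((S \ Qall).card : ℝ)) := by
          ring
        linarith
      have h7 : (1 + κ) ^ t * (Pot G lam L (I.erase s) W' + t * η) + nu * D
          ≤ (1 + κ) ^ t * ((1 + κ) * X + η + t * η) := by
        have h8 : nu * D ≤ (1 + κ) ^ t * (nu * D) := le_mul_of_one_le_left hnuD hone
        have h9 : (1 + κ) ^ t * (Pot G lam L (I.erase s) W' + t * η)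
            ≤ (1 + κ) ^ t * ((1 + κ) * X + η - nu * D + t * η) := by
          apply mul_le_mul_of_nonneg_left _ (by positivity)
          linarith
        have h10 : (1 + κ) ^ t * ((1 + κ) * X + η - nu * D + t * η)
            = (1 + κ) ^ t * ((1 + κ) * X + η + t * η) - (1 + κ) ^ t * (nu * D) := by ring
        linarith
      push_cast at hbig
      linarith

end Pool.Agent.H766R2.RR
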