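import Pool.Agent.H766R2.RR4
import Pool.Agent.H766R2.RR2

/-!
Main lemma (a quantitative Erdős–Szemerédi theorem) and the ratio theorem.
-/

namespace Pool.Agent.H766R2.RR

open Finset Classical

variable {V : Type*}

/-- `T` disjoint subsets of size `w`. -/
theorem exists_parts (U : Finset V) (T w : ℕ) (h : T * w ≤ U.card) :
    ∃ (ι : Type) (I : Finset ι) (W : ι → Finset V), I.card = T ∧ (∀ i, W i ⊆ U) ∧
      (∀ i, (W i).card = w) ∧ (∀ i j, i ≠ j → Disjoint (W i) (W j)) := by
  obtain ⟨U', hU', hc⟩ := Finset.exists_subset_card_eq h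
  let e : Fin T × Fin w ↪ V :=
    (finProdFinEquiv.toEmbedding.trans (U'.equivFinOfCardEq hc).symm.toEmbedding).trans
      (Function.Embedding.subtype _)
  have he : ∀ i, e i ∈ U := fun i => hU' ((U'.equivFinOfCardEq hc).symm (finProdFinEquiv i)).2
  refine ⟨Fin T, Finset.univ, fun i => Finset.univ.image (fun j => e (i, j)), by simp, ?_, ?_, ?_⟩
  · intro i x hx
    obtain ⟨j, _, rfl⟩ := Finset.mem_image.mp hx
    exact he _
  · intro i
    rw [Finset.card_image_of_injective, Finset.card_univ, Fintype.card_fin]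
    intro j j' hjj
    have := e.injective hjj
    simpa using this
  · intro i j hij
    rw [Finset.disjoint_left]
    intro x hx hx'
    obtain ⟨a, _, rfl⟩ := Finset.mem_image.mp hx
    obtain ⟨a', _, h'⟩ := Finset.mem_image.mp hx'
    have := e.injective h'
    simp only [Prod.mk.injEq] at this
    exact hij this.1.symm

theorem dg_sum_le (G : SimpleGraph V) {ι : Type*} (I : Finset ι) (W : ι → Finset V)
    (U : Finset V) (hsub : ∀ i ∈ I, W i ⊆ U)
    (hdisj : ∀ i ∈ I, ∀ j ∈ I, i ≠ j → Disjoint (W i) (W j)) (v : V) :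
    ∑ j ∈ I, dg G (W j) v ≤ dg G U v := by
  unfold dg
  have h1 : (I.biUnion (fun j => (W j).filter (fun w => G.Adj v w))).card
      = ∑ j ∈ I, ((W j).filter (fun w => G.Adj v w)).card := by
    apply Finset.card_biUnion
    intro i hi j hj hij
    exact Finset.disjoint_filter_filter (hdisj i hi j hj hij)
  have h2 : I.biUnion (fun j => (W j).filter (fun w => G.Adj v w)) ⊆
      U.filter (fun w => G.Adj v w) := by
    intro x hx
    obtain ⟨j, hj, hx⟩ := Finset.mem_biUnion.mp hx
    rw [Finset.mem_filter] at hx ⊢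
    exact ⟨hsub j hj hx.1, hx.2⟩
  have h3 := Finset.card_le_card h2
  rw [h1] at h3
  exact_mod_cast h3

/-- `(1 + 1/M)^M ≤ 3`. -/
theorem one_add_inv_pow_le (M : ℕ) (hM : 1 ≤ M) : (1 + 1 / (M : ℝ)) ^ M ≤ 3 := by
  have hMpos : (0 : ℝ) < M := by exact_mod_cast hM
  have h1 : (1 + 1 / (M : ℝ)) ≤ Real.exp (1 / (M : ℝ)) := by
    have := Real.add_one_le_exp (1 / (M : ℝ))
    linarith
  calc (1 + 1 / (M : ℝ)) ^ M ≤ (Real.exp (1 / (M : ℝ))) ^ M :=
        pow_le_pow_left₀ (by positivity) h1 M
    _ = Real.exp 1 := by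
        rw [← Real.exp_nat_mul]
        congr 1
        field_simp
    _ ≤ 3 := by
        have := Real.exp_one_lt_d9
        linarith

/-- **Main lemma** (quantitative Erdős–Szemerédi). -/
theorem main_lemma (G : SimpleGraph V) (U : Finset V) (b c1 M w : ℕ) (D : ℝ) (hb : 1 ≤ b)
    (hc1 : 1 ≤ c1) (hM : 1 ≤ M) (hw : 1 ≤ w) (hU : 2 * M * w ≤ U.card)
    (hdeg : ∀ v ∈ U, dg G U v ≤ D) (hD : 64 * D ≤ w)
    (hind : ∀ A : Finset V, c1 ≤ A.card → ∃ S ⊆ A, S.card = b ∧
      ∀ u ∈ S, ∀ v ∈ S, ¬ G.Adj u v)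
    (hlog : Real.log (2 * c1) + 15 / 32 * (b * Real.log (128 * M)) ≤ Real.log w) :
    ∃ J ⊆ U, (∀ u ∈ J, ∀ v ∈ J, ¬ G.Adj u v) ∧ M * b ≤ 2 * J.card := by
  have hb' : (1 : ℝ) ≤ b := by exact_mod_cast hb
  have hM' : (1 : ℝ) ≤ M := by exact_mod_cast hM
  have hw' : (1 : ℝ) ≤ w := by exact_mod_cast hw
  have hbpos : (0 : ℝ) < b := by linarith
  have hMpos : (0 : ℝ) < M := by linarith
  have hwpos : (0 : ℝ) < w := by linarith
  obtain ⟨ι, I, W, hI, hWsub, hWcard, hWdisj⟩ := exists_parts U (2 * M) w hU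
  -- parameters
  set ell : ℝ := Real.log (128 * M) with hell
  have hell1 : 1 ≤ ell := by
    rw [hell, Real.le_log_iff_exp_le (by positivity)]
    have := Real.exp_one_lt_d9
    nlinarith
  have hellpos : 0 < ell := by linarith
  set θ : ℝ := 1 / (128 * M) with hθ
  have hθ0 : 0 < θ := by rw [hθ]; positivity
  have hθ128 : θ ≤ 1 / 128 := by
    rw [hθ]
    apply one_div_le_one_div_of_le (by norm_num)
    linarith
  have hθ1 : θ < 1 := by linarith
  have hlogθ : Real.log (1 / θ) = ell := by
    rw [hθ, one_div_one_div]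
  set lam : ℝ := 1 / (4 * b * ell) with hlam
  have hlampos : 0 < lam := by rw [hlam]; positivity
  set nu : ℝ := 1 / (4 * b) with hnu
  have hnupos : 0 < nu := by rw [hnu]; positivity
  have hκ : 2 * b * (lam * Real.log (1 / θ) + nu) / M = 1 / (M : ℝ) := by
    rw [hlogθ, hlam, hnu]
    field_simp
    ring
  -- the bound on η
  have hη : lam * ((2 * M : ℕ) * (b * Real.log (1 / (1 - θ)))) ≤ 1 / 128 := by
    have h1 : Real.log (1 / (1 - θ)) ≤ 2 * θ := by
      have hpos : (0 : ℝ) < 1 / (1 - θ) := by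
        apply one_div_pos.mpr
        linarith
      have h2 := Real.log_le_sub_one_of_pos hpos
      have h3 : 1 / (1 - θ) - 1 ≤ 2 * θ := by
        rw [sub_le_iff_le_add, div_le_iff₀ (by linarith)]
        nlinarith
      linarith
    have h1' : 0 ≤ Real.log (1 / (1 - θ)) := by
      apply Real.log_nonneg
      rw [le_div_iff₀ (by linarith)]
      linarith
    push_cast
    calc lam * (2 * M * (b * Real.log (1 / (1 - θ))))
        ≤ lam * (2 * M * (b * (2 * θ))) := by
          gcongr
      _ = 1 / (128 * ell) := by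
          rw [hlam, hθ]
          field_simp
          ring
      _ ≤ 1 / 128 := by
          apply one_div_le_one_div_of_le (by norm_num)
          linarith
  have hη0 : 0 ≤ lam * ((2 * M : ℕ) * (b * Real.log (1 / (1 - θ)))) := by
    have h1' : 0 ≤ Real.log (1 / (1 - θ)) := by
      apply Real.log_nonneg
      rw [le_div_iff₀ (by linarith)]
      linarith
    positivity
  -- the initial potential
  have hPot : Pot G lam (Real.log w) I W ≤ 2 * M / 64 := by
    unfold Pot
    have hloss : Loss (Real.log w) I W = 0 := by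
      unfold Loss
      apply Finset.sum_eq_zero
      intro i _
      rw [hWcard i, sub_self]
    rw [hloss, mul_zero, zero_add]
    unfold Psi
    have hrow : ∀ i ∈ I,
        ∑ j ∈ I.erase i, dens G (W i) (W j) ≤ 1 / 64 := by
      intro i _
      have h1 : ∑ j ∈ I.erase i, dens G (W i) (W j)
          = (∑ v ∈ W i, ∑ j ∈ I.erase i, dg G (W j) v)
            / ((w : ℝ) * w) := by
        rw [Finset.sum_comm, Finset.sum_div]
        refine Finset.sum_congr rfl (fun j _ => ?_)
        unfold dens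
        rw [hWcard i, hWcard j]
      rw [h1, div_le_iff₀ (by positivity)]
      calc ∑ v ∈ W i, ∑ j ∈ I.erase i, dg G (W j) v
          ≤ ∑ _v ∈ W i, D := by
            apply Finset.sum_le_sum
            intro v hv
            refine le_trans (dg_sum_le G _ W U (fun i _ => hWsub i)
              (fun i _ j _ hij => hWdisj i j hij) v) (hdeg v (hWsub i hv))
        _ = (w : ℝ) * D := by rw [Finset.sum_const, hWcard i, nsmul_eq_mul]
        _ ≤ 1 / 64 * ((w : ℝ) * w) := by nlinarith
    calc ∑ i ∈ I,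
          ∑ j ∈ I.erase i, dens G (W i) (W j)
        ≤ ∑ _i ∈ I, (1 / 64 : ℝ) := Finset.sum_le_sum hrow
      _ = 2 * M / 64 := by
          rw [Finset.sum_const, hI, nsmul_eq_mul]
          push_cast
          ring
  have hPot0 : 0 ≤ Pot G lam (Real.log w) I W := by
    unfold Pot
    have h1 : 0 ≤ Loss (Real.log w) I W :=
      Loss_nonneg (fun i _ => by rw [hWcard i])
    have h2 := Psi_nonneg G I W
    positivity
  have hAbound : (1 + 2 * b * (lam * Real.log (1 / θ) + nu) / M) ^ M *
        (Pot G lam (Real.log w) I W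
          + M * (lam * ((2 * M : ℕ) * (b * Real.log (1 / (1 - θ)))))) ≤ 15 / 128 * M := by
    rw [hκ]
    have h1 := one_add_inv_pow_le M hM
    have h2 : Pot G lam (Real.log w) I W
          + M * (lam * ((2 * M : ℕ) * (b * Real.log (1 / (1 - θ))))) ≤ 5 / 128 * M := by
      have := mul_le_mul_of_nonneg_left hη hMpos.le
      linarith
    calc (1 + 1 / (M : ℝ)) ^ M * (Pot G lam (Real.log w) I W
          + M * (lam * ((2 * M : ℕ) * (b * Real.log (1 / (1 - θ))))))
        ≤ 3 * (5 / 128 * M) := by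
          apply mul_le_mul h1 h2 _ (by norm_num)
          have := mul_nonneg hMpos.le hη0
          linarith
      _ = 15 / 128 * M := by ring
  have hlogw : (15 : ℝ) / 128 * M ≤ lam * M * (Real.log w - Real.log (2 * c1)) := by
    have h1 : 15 / 32 * (b * ell) ≤ Real.log w - Real.log (2 * c1) := by linarith
    have h2 : lam * (15 / 32 * (b * ell)) = 15 / 128 := by
      rw [hlam]
      field_simp
      ring
    calc (15 : ℝ) / 128 * M = lam * M * (15 / 32 * (b * ell)) := by rw [← h2]; ring
      _ ≤ lam * M * (Real.log w - Real.log (2 * c1)) :=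
        mul_le_mul_of_nonneg_left h1 (by positivity)
  obtain ⟨J, hJsub, hJind, hJle⟩ := process G b c1 M (2 * M) hc1 hM hind hlampos hnupos.le hθ0 hθ1
    M I W (by omega) (by omega)
    (fun i _ => by rw [← Finset.card_pos, hWcard i]; omega)
    (fun i _ => by rw [hWcard i]) (fun i _ j _ hij => hWdisj i j hij) (hAbound.trans hlogw)
  refine ⟨J, ?_, hJind, ?_⟩
  · intro v hv
    obtain ⟨i, _, hvi⟩ := Finset.mem_biUnion.mp (hJsub hv)
    exact hWsub i hvi
  · have h1 := hJle.trans hAbound
    have h2 : (M : ℝ) * b - J.card ≤ 15 / 32 * (M * b) := by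
      have h3 : nu * ((M : ℝ) * b - J.card) * (4 * b) ≤ 15 / 128 * M * (4 * b) :=
        mul_le_mul_of_nonneg_right h1 (by positivity)
      have h4 : nu * ((M : ℝ) * b - J.card) * (4 * b) = (M : ℝ) * b - J.card := by
        rw [hnu]
        field_simp
      rw [h4] at h3
      linarith
    have h5 : (0 : ℝ) ≤ (M : ℝ) * b := by positivity
    have h6 : ((M * b : ℕ) : ℝ) ≤ ((2 * J.card : ℕ) : ℝ) := by
      push_cast
      linarith
    exact_mod_cast h6

end Pool.Agent.H766R2.RR
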