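import Pool.Agent.H766R2.RR5

/-!
Edge density of Ramsey graphs and the ratio theorem.
-/

namespace Pool.Agent.H766R2.RR

open Finset Classical

/-- `C(n,b) ≤ (e n / b)^b`. -/
theorem choose_le_exp (n b : ℕ) (hb : 1 ≤ b) (hbn : b ≤ n) :
    Real.log (n.choose b : ℝ) ≤ b * (1 + Real.log ((n : ℝ) / b)) := by
  have hb' : (0 : ℝ) < b := by exact_mod_cast hb
  have hn' : (0 : ℝ) < n := by exact_mod_cast (lt_of_lt_of_le hb hbn)
  set x : ℝ := (b : ℝ) / n with hx
  have hx0 : 0 < x := by positivity
  have h1 : (n.choose b : ℝ) * x ^ b ≤ (1 + x) ^ n := by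
    rw [add_comm, add_pow]
    have h2 := Finset.single_le_sum (f := fun m => x ^ m * 1 ^ (n - m) * (n.choose m : ℝ))
      (s := Finset.range (n + 1)) (fun i _ => by positivity)
      (Finset.mem_range.mpr (Nat.lt_succ_of_le hbn))
    simp only [one_pow, mul_one] at h2 ⊢
    linarith
  have h2 : (1 + x) ^ n ≤ Real.exp b := by
    calc (1 + x) ^ n ≤ (Real.exp x) ^ n := by
          apply pow_le_pow_left₀ (by positivity)
          have := Real.add_one_le_exp x
          linarith
      _ = Real.exp b := by
          rw [← Real.exp_nat_mul]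
          congr 1
          rw [hx]
          field_simp
  have hcpos : (0 : ℝ) < (n.choose b : ℝ) := by exact_mod_cast Nat.choose_pos hbn
  have h3 := Real.log_le_log (by positivity) (h1.trans h2)
  rw [Real.log_mul hcpos.ne' (by positivity), Real.log_pow, Real.log_exp] at h3
  have h4 : Real.log ((n : ℝ) / b) = - Real.log x := by
    rw [hx, ← Real.log_inv, inv_div]
  rw [h4]
  linarith

/-- The numerical heart: with `y = log (2x)`. -/
theorem numeric {s b : ℝ} {y : ℝ} (hs : 2048 ≤ s) (hb1 : 1 ≤ b) (hb : b ≤ s / 1024)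
    (hy : Real.log 2 ≤ y) :
    Real.log 2 + b * (1 + (11 * Real.log 2 + y)) + 15 / 32 * (b * (19 * Real.log 2 + y)) + 1
      + (14 * Real.log 2 + y)
      ≤ s / 24 * y := by
  have h2 := Real.log_two_gt_d9
  have h2' := Real.log_two_lt_d9
  have hy0 : 0 < y := by linarith
  have h1 : (1 : ℝ) ≤ 1.45 * y := by linarith
  have h3 : b * (1 + (11 * Real.log 2 + y)) ≤ b * (13.45 * y) := by
    apply mul_le_mul_of_nonneg_left _ (by linarith)
    linarith
  have h4 : b * (19 * Real.log 2 + y) ≤ b * (20 * y) := by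
    apply mul_le_mul_of_nonneg_left _ (by linarith)
    linarith
  have h5 : b * y ≤ s / 1024 * y := mul_le_mul_of_nonneg_right hb hy0.le
  have h6 : 2048 * y ≤ s * y := mul_le_mul_of_nonneg_right hs hy0.le
  nlinarith

/-- **Edge density of Ramsey graphs.** -/
theorem density {V : Type*} [Fintype V] (G : SimpleGraph V) {k l : ℕ} (hk : 2048 ≤ k)
    (hl : 2048 ≤ l) (hn : R k l ≤ Fintype.card V)
    (h1 : ∀ s : Finset V, ¬ G.IsNClique (k + 1) s) (h2 : ∀ s : Finset V, ¬ Gᶜ.IsNClique l s) :
    (k : ℝ) * (Fintype.card V : ℝ) ^ 2 ≤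
      4195328 * ((k : ℝ) + l) * ∑ v : V, dg G Finset.univ v := by
  set n := Fintype.card V with hnV
  set s := min k l with hs
  set z := max k l with hz
  have hs2048 : 2048 ≤ s := by omega
  have hsz : s ≤ z := by omega
  have hsz2 : s * z = k * l := by rw [hs, hz]; exact min_mul_max k l
  have hs' : (2048 : ℝ) ≤ s := by exact_mod_cast hs2048
  have hspos : (0 : ℝ) < s := by linarith
  have hkz : (k : ℝ) ≤ z := by exact_mod_cast le_max_left k l
  have hlz : (l : ℝ) ≤ z := by exact_mod_cast le_max_right k l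
  have hsl : (s : ℝ) ≤ l := by exact_mod_cast min_le_right k l
  have hsz' : (s : ℝ) ≤ z := by exact_mod_cast hsz
  have hzkl : (z : ℝ) ≤ (k : ℝ) + l := by
    have : z ≤ k + l := by omega
    exact_mod_cast this
  have hkpos : (0 : ℝ) < k := by
    have : (2048 : ℝ) ≤ k := by exact_mod_cast hk
    linarith
  have hlpos : (0 : ℝ) < l := by
    have : (2048 : ℝ) ≤ l := by exact_mod_cast hl
    linarith
  set x : ℝ := (z : ℝ) / s with hx
  have hx1 : 1 ≤ x := by
    rw [hx, le_div_iff₀ hspos]
    linarith
  set y : ℝ := Real.log (2 * x) with hy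
  have hylog : Real.log 2 ≤ y := by
    rw [hy]
    exact Real.log_le_log (by norm_num) (by linarith)
  have hlog2x : y = Real.log 2 + Real.log x := by
    rw [hy, Real.log_mul (by norm_num) (by linarith)]
  -- lower bound for R
  have hR : Real.exp ((s : ℝ) / 24 * y) < (R k l : ℝ) := by
    have := R_lower (s := s) (z := z) (by omega) hsz
    rw [← hx, ← hy] at this
    rcases le_total k l with h | h
    · have e1 : s = k := by omega
      have e2 : z = l := by omega
      rw [e1, e2] at this
      rw [e1]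
      exact this
    · have e1 : s = l := by omega
      have e2 : z = k := by omega
      rw [R_symm k l]
      rw [e1, e2] at this
      rw [e1]
      exact this
  have hnR : Real.exp ((s : ℝ) / 24 * y) < (n : ℝ) :=
    lt_of_lt_of_le hR (by exact_mod_cast hn)
  have hnpos : (0 : ℝ) < n := lt_trans (Real.exp_pos _) hnR
  -- parameters
  set b : ℕ := s / 2048 + 1 with hb
  have hb1 : 1 ≤ b := by omega
  have hb1' : (1 : ℝ) ≤ b := by exact_mod_cast hb1
  have hbpos : (0 : ℝ) < b := by linarith
  have hblow : (s : ℝ) / 2048 ≤ b := by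
    rw [div_le_iff₀ (by norm_num)]
    have : s ≤ b * 2048 := by omega
    exact_mod_cast this
  have hbup : (b : ℝ) ≤ s / 1024 := by
    rw [le_div_iff₀ (by norm_num)]
    have : b * 1024 ≤ s := by omega
    exact_mod_cast this
  set M : ℕ := 2 * l / b + 1 with hM
  have hM1 : 1 ≤ M := by rw [hM]; exact Nat.le_add_left 1 _
  have hM1' : (1 : ℝ) ≤ M := by exact_mod_cast hM1
  have hMb : 2 * l ≤ M * b := by
    rw [hM]
    have := Nat.lt_mul_div_succ (2 * l) (show 0 < b by omega)
    nlinarith
  have hMup : (M : ℝ) * s ≤ 4097 * l := by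
    have h3 : ((2 * l / b : ℕ) : ℝ) ≤ ((2 * l : ℕ) : ℝ) / b := Nat.cast_div_le
    have h4 : ((2 * l : ℕ) : ℝ) / b ≤ 4096 * l / s := by
      rw [div_le_div_iff₀ hbpos hspos]
      push_cast
      have h5 : (s : ℝ) ≤ 2048 * b := by
        rw [div_le_iff₀ (by norm_num)] at hblow
        linarith
      nlinarith
    have h5 : (M : ℝ) ≤ 4096 * l / s + 1 := by
      rw [hM]
      push_cast
      push_cast at h3 h4
      linarith
    calc (M : ℝ) * s ≤ (4096 * l / s + 1) * s := mul_le_mul_of_nonneg_right h5 hspos.le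
      _ = 4096 * l + s := by field_simp
      _ ≤ 4097 * l := by linarith
  have hMx : (M : ℝ) ≤ 4097 * x := by
    rw [hx, ← mul_div_assoc, le_div_iff₀ hspos]
    linarith
  -- logarithms
  have hlog128M : Real.log (128 * M) ≤ 19 * Real.log 2 + y := by
    have h3 : (128 : ℝ) * M ≤ 2 ^ 19 * (2 * x) := by nlinarith
    have h4 := Real.log_le_log (by positivity) h3
    have h5 : Real.log (2 ^ 19 * (2 * x)) = 19 * Real.log 2 + y := by
      rw [Real.log_mul (by norm_num) (by positivity), Real.log_pow, ← hy]
      push_cast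
      ring
    rw [h5] at h4
    exact h4
  have hlog4M : Real.log (4 * M) ≤ 14 * Real.log 2 + y := by
    have h3 : (4 : ℝ) * M ≤ 2 ^ 14 * (2 * x) := by nlinarith
    have h4 := Real.log_le_log (by positivity) h3
    have h5 : Real.log (2 ^ 14 * (2 * x)) = 14 * Real.log 2 + y := by
      rw [Real.log_mul (by norm_num) (by positivity), Real.log_pow, ← hy]
      push_cast
      ring
    rw [h5] at h4
    exact h4
  set c1 : ℕ := (k + b).choose k with hc1
  have hc1pos : 1 ≤ c1 := Nat.choose_pos (by omega)
  have hc1pos' : (1 : ℝ) ≤ c1 := by exact_mod_cast hc1pos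
  have hlogc1 : Real.log c1 ≤ b * (1 + (11 * Real.log 2 + y)) := by
    have h3 : c1 = (k + b).choose b := by
      rw [hc1]
      exact Nat.choose_symm_add
    have h4 := choose_le_exp (k + b) b hb1 (by omega)
    rw [← h3] at h4
    refine h4.trans ?_
    apply mul_le_mul_of_nonneg_left _ hbpos.le
    have h5 : (((k + b : ℕ) : ℝ)) / b ≤ 2 ^ 11 * (2 * x) := by
      rw [div_le_iff₀ hbpos]
      push_cast
      have h6 : (k : ℝ) ≤ 2048 * x * b := by
        have h7 : (s : ℝ) ≤ 2048 * b := by
          rw [div_le_iff₀ (by norm_num)] at hblow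
          linarith
        have h8 : (k : ℝ) ≤ x * s := by
          rw [hx]
          field_simp
          exact hkz
        nlinarith
      nlinarith
    have h6 := Real.log_le_log (by positivity) h5
    have h7 : Real.log (2 ^ 11 * (2 * x)) = 11 * Real.log 2 + y := by
      rw [Real.log_mul (by norm_num) (by positivity), Real.log_pow, ← hy]
      push_cast
      ring
    rw [h7] at h6
    linarith
  have hnum := numeric (s := s) (b := b) (y := y) hs' hb1' hbup hylog
  set E : ℝ := Real.log (2 * c1) + 15 / 32 * (b * Real.log (128 * M)) with hE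
  have hEle : E + 1 + Real.log (4 * M) ≤ (s : ℝ) / 24 * y := by
    have h3 : Real.log (2 * c1) ≤ Real.log 2 + b * (1 + (11 * Real.log 2 + y)) := by
      rw [Real.log_mul (by norm_num) (by positivity)]
      linarith
    have h4 : b * Real.log (128 * M) ≤ b * (19 * Real.log 2 + y) :=
      mul_le_mul_of_nonneg_left hlog128M hbpos.le
    rw [hE]
    linarith
  have hE0 : 0 ≤ E := by
    rw [hE]
    have h3 : 0 ≤ Real.log (2 * c1) := Real.log_nonneg (by linarith)
    have h4 : 0 ≤ Real.log (128 * M) := Real.log_nonneg (by linarith)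
    positivity
  -- n is larger than 4 M (exp E + 1)
  have hnbig : 4 * (M : ℝ) * (Real.exp E + 1) < n := by
    have h3 : Real.exp E + 1 ≤ Real.exp (E + 1) := by
      have h4 : 1 ≤ Real.exp E := Real.one_le_exp hE0
      have h6 : Real.exp (E + 1) = Real.exp E * Real.exp 1 := Real.exp_add E 1
      rw [h6]
      have h5 := Real.exp_one_gt_d9
      nlinarith
    calc 4 * (M : ℝ) * (Real.exp E + 1) ≤ 4 * (M : ℝ) * Real.exp (E + 1) := by gcongr
      _ = Real.exp (Real.log (4 * M)) * Real.exp (E + 1) := by
          rw [Real.exp_log (by positivity)]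
      _ = Real.exp (E + 1 + Real.log (4 * M)) := by rw [← Real.exp_add]; ring_nf
      _ ≤ Real.exp ((s : ℝ) / 24 * y) := Real.exp_le_exp.mpr hEle
      _ < n := hnR
  -- average degree
  set Sd : ℝ := ∑ v : V, dg G Finset.univ v with hSd
  have hSd0 : 0 ≤ Sd := Finset.sum_nonneg (fun v _ => dg_nonneg _ _ _)
  set a : ℝ := Sd / n with ha
  have ha0 : 0 ≤ a := by positivity
  set U : Finset V := Finset.univ.filter (fun v => dg G Finset.univ v ≤ 2 * a) with hU
  have hUcard : n ≤ 2 * U.card := by
    have h3 := markov_half (Finset.univ : Finset V) (dg G Finset.univ)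
      (fun v _ => dg_nonneg _ _ _) a ha0
      (by
        rw [Finset.card_univ, ← hnV, ← hSd, ha]
        apply le_of_eq
        field_simp)
    rwa [Finset.card_univ] at h3
  -- the contradiction argument
  have key : ∀ w : ℕ, 128 * a ≤ w → Real.exp E ≤ w → (n : ℝ) < 4 * M * w := by
    intro w hw1 hw2
    by_contra hcon
    push Not at hcon
    have hwpos : (0 : ℝ) < w := lt_of_lt_of_le (Real.exp_pos E) hw2
    have hw1' : 1 ≤ w := by exact_mod_cast hwpos
    have h3 : 2 * M * w ≤ U.card := by
      have h4 : ((2 * M * w : ℕ) : ℝ) ≤ ((U.card : ℕ) : ℝ) := by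
        have h5 : (n : ℝ) ≤ 2 * (U.card : ℝ) := by exact_mod_cast hUcard
        push_cast
        linarith
      exact_mod_cast h4
    obtain ⟨J, _, hJind, hJcard⟩ := main_lemma G U b c1 M w (2 * a) hb1 hc1pos hM1 hw1' h3
      (by
        intro v hv
        have h4 : dg G Finset.univ v ≤ 2 * a := (Finset.mem_filter.mp hv).2
        refine le_trans ?_ h4
        unfold dg
        have : (U.filter (fun w => G.Adj v w)).card ≤
            ((Finset.univ : Finset V).filter (fun w => G.Adj v w)).card :=
          Finset.card_le_card (Finset.filter_subset_filter _ (Finset.subset_univ _))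
        exact_mod_cast this)
      (by linarith)
      (by
        intro A hA
        rcases exists_clique_or_indep G k b A hA with ⟨t, _, ht⟩ | ⟨t, htA, ht⟩
        · exact absurd ht (h1 t)
        · obtain ⟨t', ht', htc⟩ := Finset.exists_subset_card_eq (n := b) (s := t)
            (by rw [ht.card_eq]; omega)
          refine ⟨t', ht'.trans htA, htc, ?_⟩
          intro u hu v hv hadj
          have := ht.isClique (by exact_mod_cast ht' hu) (by exact_mod_cast ht' hv) hadj.ne
          rw [SimpleGraph.compl_adj] at this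
          exact this.2 hadj)
      (by
        have h4 : E ≤ Real.log w := (Real.le_log_iff_exp_le hwpos).mpr hw2
        exact h4)
    have hJl : l ≤ J.card := by omega
    obtain ⟨J', hJ', hJ'c⟩ := Finset.exists_subset_card_eq hJl
    apply h2 J'
    rw [SimpleGraph.isNClique_iff]
    refine ⟨?_, hJ'c⟩
    intro u hu v hv huv
    rw [SimpleGraph.compl_adj]
    exact ⟨huv, hJind u (hJ' (by exact_mod_cast hu)) v (hJ' (by exact_mod_cast hv))⟩
  -- conclusion
  have hfin : (n : ℝ) ≤ 1024 * M * a := by
    by_contra hcon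
    push Not at hcon
    set w : ℕ := max ⌈128 * a⌉₊ ⌈Real.exp E⌉₊ with hw
    have hw1 : 128 * a ≤ w := by
      refine (Nat.le_ceil _).trans ?_
      exact_mod_cast le_max_left _ _
    have hw2 : Real.exp E ≤ w := by
      refine (Nat.le_ceil _).trans ?_
      exact_mod_cast le_max_right _ _
    have h3 := key w hw1 hw2
    rcases le_total ⌈128 * a⌉₊ ⌈Real.exp E⌉₊ with h | h
    · have e : w = ⌈Real.exp E⌉₊ := by rw [hw]; exact max_eq_right h
      have h4 : (w : ℝ) ≤ Real.exp E + 1 := by
        rw [e]
        exact (Nat.ceil_lt_add_one (Real.exp_pos E).le).le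
      have h5 : 4 * (M : ℝ) * w ≤ 4 * M * (Real.exp E + 1) := by gcongr
      linarith
    · have e : w = ⌈128 * a⌉₊ := by rw [hw]; exact max_eq_left h
      have h4 : (w : ℝ) ≤ 128 * a + 1 := by
        rw [e]
        exact (Nat.ceil_lt_add_one (by positivity)).le
      have h5 : 4 * (M : ℝ) * w ≤ 4 * M * (128 * a + 1) := by gcongr
      have h6 : 4 * (M : ℝ) * 2 ≤ n := by
        have h7 : 1 ≤ Real.exp E := Real.one_le_exp hE0
        have h8 : 4 * (M : ℝ) * 2 ≤ 4 * (M : ℝ) * (Real.exp E + 1) := by
          apply mul_le_mul_of_nonneg_left _ (by positivity)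
          linarith
        linarith
      linarith
  -- k n^2 ≤ C (k+l) Σ
  have hkM : (k : ℝ) * M ≤ 4097 * ((k : ℝ) + l) := by
    have h3 : (k : ℝ) * M * s ≤ 4097 * z * s := by
      have h4 : (s : ℝ) * z = k * l := by exact_mod_cast hsz2
      calc (k : ℝ) * M * s = k * (M * s) := by ring
        _ ≤ k * (4097 * l) := mul_le_mul_of_nonneg_left hMup hkpos.le
        _ = 4097 * z * s := by rw [← mul_assoc, mul_comm (k : ℝ) 4097, mul_assoc, ← h4]; ring
    have h4 := le_of_mul_le_mul_right h3 hspos
    linarith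
  calc (k : ℝ) * (n : ℝ) ^ 2 = (k : ℝ) * n * n := by ring
    _ ≤ (k : ℝ) * n * (1024 * M * a) := mul_le_mul_of_nonneg_left hfin (by positivity)
    _ = 1024 * (k * M) * (n * a) := by ring
    _ = 1024 * (k * M) * Sd := by rw [ha]; field_simp
    _ ≤ 1024 * (4097 * ((k : ℝ) + l)) * Sd :=
        mul_le_mul_of_nonneg_right (mul_le_mul_of_nonneg_left hkM (by norm_num)) hSd0
    _ = 4195328 * ((k : ℝ) + l) * Sd := by ring

end Pool.Agent.H766R2.RR
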