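import Pool.Agent.H766R2.RR6

/-!
The ratio theorem and its consequences for the diagonal Ramsey numbers.
-/

namespace Pool.Agent.H766R2.RR

open Finset Classical

/-- In a `K_{k+1}`-free graph without independent `l`-set all degrees are below `R(k,l)`. -/
theorem dg_lt_R {V : Type*} [Fintype V] (G : SimpleGraph V) {k l : ℕ} (hk : 1 ≤ k) (hl : 1 ≤ l)
    (h1 : ∀ s : Finset V, ¬ G.IsNClique (k + 1) s) (h2 : ∀ s : Finset V, ¬ Gᶜ.IsNClique l s)
    (v : V) : dg G Finset.univ v ≤ (R k l : ℝ) := by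
  have h := card_lt_R hk hl G ((Finset.univ : Finset V).filter (fun w => G.Adj v w))
    (by
      intro s hs hc
      exact h1 (insert v s) (hc.insert (fun w hw => (Finset.mem_filter.mp (hs hw)).2)))
    (fun s _ hc => h2 s hc)
  unfold dg
  exact_mod_cast h.le

/-- **Ratio theorem.** -/
theorem ratio {k l : ℕ} (hk : 1 ≤ k) (hl : 1 ≤ l) :
    k * R (k + 1) l ≤ 5000000 * ((k + l) * R k l) := by
  by_cases hsmall : k < 2048 ∨ l < 2048
  · have h1 := R_ratio_trivial hk hl
    have h2 : k * l ≤ 5000000 * (k + l) := by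
      rcases hsmall with h | h
      · nlinarith
      · nlinarith
    calc k * R (k + 1) l ≤ k * (l * R k l) := Nat.mul_le_mul_left k h1
      _ = (k * l) * R k l := by ring
      _ ≤ (5000000 * (k + l)) * R k l := Nat.mul_le_mul_right _ h2
      _ = 5000000 * ((k + l) * R k l) := by ring
  · push Not at hsmall
    obtain ⟨hk2, hl2⟩ := hsmall
    by_cases hn : R (k + 1) l ≤ R k l
    · calc k * R (k + 1) l ≤ k * R k l := Nat.mul_le_mul_left k hn
        _ ≤ (k + l) * R k l := Nat.mul_le_mul_right _ (by omega)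
        _ ≤ 5000000 * ((k + l) * R k l) := by omega
    · push Not at hn
      obtain ⟨n, hnR⟩ : ∃ n, R (k + 1) l = n + 1 := ⟨R (k + 1) l - 1, by omega⟩
      have hRpos := R_pos hk hl
      have hn1 : R k l ≤ n := by omega
      have hnA := not_arrows_of_lt (k := k + 1) (l := l) (n := n) (by omega) (by omega)
      unfold Arrows at hnA
      push Not at hnA
      obtain ⟨G, hG1, hG2⟩ := hnA
      have hd := density G hk2 hl2 (by rw [Fintype.card_fin]; exact hn1) hG1 hG2
      rw [Fintype.card_fin] at hd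
      have hsum : ∑ v : Fin n, dg G Finset.univ v ≤ (n : ℝ) * (R k l : ℝ) := by
        calc ∑ v : Fin n, dg G Finset.univ v ≤ ∑ _v : Fin n, (R k l : ℝ) :=
              Finset.sum_le_sum (fun v _ => dg_lt_R G hk hl hG1 hG2 v)
          _ = (n : ℝ) * (R k l : ℝ) := by
              rw [Finset.sum_const, Finset.card_univ, Fintype.card_fin, nsmul_eq_mul]
      have hnpos : (0 : ℝ) < n := by
        have : 0 < n := by omega
        exact_mod_cast this
      have h3 : (k : ℝ) * (n : ℝ) ^ 2 ≤ 4195328 * ((k : ℝ) + l) * ((n : ℝ) * (R k l : ℝ)) :=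
        hd.trans (mul_le_mul_of_nonneg_left hsum (by positivity))
      have h4 : (k : ℝ) * n ≤ 4195328 * ((k : ℝ) + l) * (R k l : ℝ) := by
        have h5 : ((k : ℝ) * n) * n ≤ (4195328 * ((k : ℝ) + l) * (R k l : ℝ)) * n := by
          calc ((k : ℝ) * n) * n = (k : ℝ) * (n : ℝ) ^ 2 := by ring
            _ ≤ _ := h3
            _ = (4195328 * ((k : ℝ) + l) * (R k l : ℝ)) * n := by ring
        exact le_of_mul_le_mul_right h5 hnpos
      have h5 : k * n ≤ 4195328 * (k + l) * R k l := by exact_mod_cast h4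
      rw [hnR]
      calc k * (n + 1) = k * n + k := by ring
        _ ≤ 4195328 * (k + l) * R k l + (k + l) * R k l := by
            have : k ≤ (k + l) * R k l := by nlinarith
            omega
        _ ≤ 5000000 * ((k + l) * R k l) := by nlinarith

theorem ratio_right {k l : ℕ} (hk : 1 ≤ k) (hl : 1 ≤ l) :
    l * R k (l + 1) ≤ 5000000 * ((k + l) * R k l) := by
  rw [R_symm k (l + 1), R_symm k l, add_comm k l]
  exact ratio hl hk

/-- `R(k+1,k) ≤ 10^7 R(k,k)`. -/
theorem ratio_half {k : ℕ} (hk : 1 ≤ k) : R (k + 1) k ≤ 10000000 * R k k := by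
  have h := ratio hk hk
  have h2 : k * R (k + 1) k ≤ k * (10000000 * R k k) := by
    calc k * R (k + 1) k ≤ 5000000 * ((k + k) * R k k) := h
      _ = k * (10000000 * R k k) := by ring
  exact Nat.le_of_mul_le_mul_left h2 (by omega)

/-- `R(k+1,k+1) ≤ 2·10^7 R(k,k)`. -/
theorem ratio_diag {k : ℕ} (hk : 1 ≤ k) : R (k + 1) (k + 1) ≤ 20000000 * R k k := by
  have h1 := R_rec hk hk
  rw [R_symm k (k + 1)] at h1
  have h2 := ratio_half hk
  omega

/-- Erdős' lower bound `R(k,k) > y` whenever `y^2 ≤ 2^(k-1)`. -/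
theorem erdos_lower {k : ℕ} (hk : 3 ≤ k) (y : ℝ) (hy : 0 ≤ y) (h1 : y ^ 2 ≤ 2 ^ (k - 1)) :
    y < (R k k : ℝ) := by
  have hfl : ((⌊y⌋₊ : ℕ) : ℝ) ≤ y := Nat.floor_le hy
  have hno : ¬ Arrows ⌊y⌋₊ k k := by
    apply count_bound ⌊y⌋₊ k k 1
    set n := ⌊y⌋₊ with hn
    have hfac : (6 : ℝ) ≤ (k.factorial : ℝ) := by
      have : (3 : ℕ).factorial ≤ k.factorial := Nat.factorial_le hk
      have h6 : (3 : ℕ).factorial = 6 := by decide
      rw [h6] at this
      exact_mod_cast this
    have hch : (n.choose k : ℝ) ≤ (n : ℝ) ^ k / 6 := by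
      have h := Nat.choose_le_pow_div (α := ℝ) k n
      refine h.trans ?_
      exact div_le_div_of_nonneg_left (by positivity) (by norm_num) hfac
    have h3 : (n : ℝ) ^ k ≤ (2 : ℝ) ^ (k.choose 2) := by
      have h4 : ((n : ℝ) ^ k) ^ 2 ≤ ((2 : ℝ) ^ (k.choose 2)) ^ 2 := by
        calc ((n : ℝ) ^ k) ^ 2 = ((n : ℝ) ^ 2) ^ k := by rw [← pow_mul, ← pow_mul, mul_comm]
          _ ≤ ((2 : ℝ) ^ (k - 1)) ^ k := by
              apply pow_le_pow_left₀ (by positivity)
              exact (pow_le_pow_left₀ (by positivity) hfl 2).trans h1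
          _ = (2 : ℝ) ^ ((k - 1) * k) := by rw [← pow_mul]
          _ = (2 : ℝ) ^ (k.choose 2 * 2) := by
              congr 1
              rw [Nat.choose_two_right]
              have he : 2 ∣ k * (k - 1) := (Nat.even_mul_pred_self k).two_dvd
              rw [Nat.div_mul_cancel he]
              ring
          _ = ((2 : ℝ) ^ (k.choose 2)) ^ 2 := by rw [← pow_mul]
      exact (pow_le_pow_iff_left₀ (by positivity) (by positivity) (by norm_num)).mp h4
    have h5 : (n.choose k : ℝ) * (1 / 2) ^ (k.choose 2) ≤ 1 / 6 := by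
      rw [div_pow, one_pow, mul_one_div, div_le_iff₀ (by positivity)]
      linarith
    norm_num
    norm_num at h5
    linarith
  have hlt : ⌊y⌋₊ < R k k := by
    by_contra hcon
    push Not at hcon
    exact hno (arrows_mono hcon (R_spec (by omega) (by omega)).2)
  calc y < (⌊y⌋₊ : ℝ) + 1 := Nat.lt_floor_add_one y
    _ ≤ (R k k : ℝ) := by exact_mod_cast hlt

/-- For a positive proportion of `k`, `R(k+1,k+1) ≥ 2^(1/4) R(k,k)`. -/
theorem positive_proportion {N : ℕ} (hN : 100 ≤ N) :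
    N ≤ 100 * ((Finset.Ico 1 N).filter
      (fun k => 2 * (R k k) ^ 4 ≤ (R (k + 1) (k + 1)) ^ 4)).card := by
  set A := (Finset.Ico 1 N).filter (fun k => 2 * (R k k) ^ 4 ≤ (R (k + 1) (k + 1)) ^ 4) with hA
  set r : ℕ → ℝ := fun k => Real.log (R k k : ℝ) with hr
  have hpos : ∀ k : ℕ, 1 ≤ k → (0 : ℝ) < (R k k : ℝ) := by
    intro k hk
    exact_mod_cast R_pos hk hk
  have hl2 := Real.log_two_gt_d9
  have hl2' := Real.log_two_lt_d9
  -- lower bound for r N
  have hrN : ((N : ℝ) - 1) / 2 * Real.log 2 ≤ r N := by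
    have hy : (Real.exp (((N : ℝ) - 1) / 2 * Real.log 2)) ^ 2 ≤ 2 ^ (N - 1) := by
      rw [← Real.exp_nat_mul]
      have : ((2 : ℕ) : ℝ) * (((N : ℝ) - 1) / 2 * Real.log 2) = ((N - 1 : ℕ) : ℝ) * Real.log 2 := by
        rw [Nat.cast_sub (by omega)]
        push_cast
        ring
      rw [this, Real.exp_nat_mul, Real.exp_log (by norm_num)]
    have h := erdos_lower (k := N) (by omega) _ (Real.exp_pos _).le hy
    rw [hr]
    simp only
    rw [Real.le_log_iff_exp_le (hpos N (by omega))]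
    exact h.le
  -- telescoping
  have htel : ∑ k ∈ Finset.Ico 1 N, (r (k + 1) - r k) = r N - r 1 := by
    have h := Finset.sum_Ico_consecutive (fun k => r (k + 1) - r k) (Nat.zero_le 1)
      (show 1 ≤ N by omega)
    have h2 : ∀ m : ℕ, ∑ k ∈ Finset.Ico 0 m, (r (k + 1) - r k) = r m - r 0 := by
      intro m
      rw [← Finset.range_eq_Ico, Finset.sum_range_sub]
    rw [h2, h2] at h
    linarith
  have hr1 : r 1 = 0 := by
    rw [hr]
    simp only
    rw [R_one_right le_rfl]
    simp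
  have hinc : ∀ k ∈ Finset.Ico 1 N, r (k + 1) - r k ≤
      (if 2 * (R k k) ^ 4 ≤ (R (k + 1) (k + 1)) ^ 4 then (17 : ℝ) else 0) + 1 / 4 * Real.log 2 := by
    intro k hk
    have hk1 : 1 ≤ k := (Finset.mem_Ico.mp hk).1
    have hp := hpos k hk1
    have hp' := hpos (k + 1) (by omega)
    split_ifs with h
    · have h1 : (R (k + 1) (k + 1) : ℝ) ≤ 20000000 * (R k k : ℝ) := by
        exact_mod_cast ratio_diag hk1
      have h2 : (20000000 : ℝ) ≤ Real.exp 17 := by
        have h3 := Real.exp_one_gt_d9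
        have h4 : Real.exp 17 = (Real.exp 1) ^ 17 := by
          rw [← Real.exp_nat_mul]
          norm_num
        rw [h4]
        calc (20000000 : ℝ) ≤ (2.7182818283 : ℝ) ^ 17 := by norm_num
          _ ≤ (Real.exp 1) ^ 17 := pow_le_pow_left₀ (by norm_num) h3.le 17
      have h3 : (R (k + 1) (k + 1) : ℝ) ≤ Real.exp 17 * (R k k : ℝ) :=
        h1.trans (mul_le_mul_of_nonneg_right h2 hp.le)
      have h4 := Real.log_le_log hp' h3
      rw [Real.log_mul (Real.exp_pos _).ne' hp.ne', Real.log_exp] at h4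
      have h5 : r (k + 1) ≤ 17 + r k := h4
      linarith
    · push Not at h
      have h1 : ((R (k + 1) (k + 1) : ℝ)) ^ 4 ≤ 2 * (R k k : ℝ) ^ 4 := by exact_mod_cast h.le
      have h2 := Real.log_le_log (by positivity) h1
      rw [Real.log_mul (by norm_num) (by positivity), Real.log_pow, Real.log_pow] at h2
      push_cast at h2
      have h3 : 4 * r (k + 1) ≤ Real.log 2 + 4 * r k := h2
      linarith
  have hsum := Finset.sum_le_sum hinc
  rw [htel, hr1, Finset.sum_add_distrib, Finset.sum_const, Nat.card_Ico, nsmul_eq_mul,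
    ← Finset.sum_filter, Finset.sum_const, nsmul_eq_mul, Nat.cast_sub (by omega)] at hsum
  push_cast at hsum
  have hN' : (100 : ℝ) ≤ N := by exact_mod_cast hN
  have hfinal : (N : ℝ) ≤ 100 * (A.card : ℝ) := by
    have h1 : ((N : ℝ) - 1) / 2 * Real.log 2 ≤ (A.card : ℝ) * 17 + ((N : ℝ) - 1) * (1 / 4 * Real.log 2) := by
      linarith
    nlinarith
  exact_mod_cast hfinal

end Pool.Agent.H766R2.RR
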