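import Pool.Agent.H766R2.RR7

/-!
Near-diagonal Ramsey numbers have the same exponential growth as the diagonal ones.
-/

namespace Pool.Agent.H766R2.RR

open Finset Classical Filter Topology

theorem step_log {k l : ℕ} (hk : 1 ≤ k) (hl : 1 ≤ l) (h : k ≤ 2 * l) :
    0 ≤ Real.log (R k (l + 1) : ℝ) - Real.log (R k l : ℝ) ∧
      Real.log (R k (l + 1) : ℝ) - Real.log (R k l : ℝ) ≤ 17 := by
  have hp : (0 : ℝ) < (R k l : ℝ) := by exact_mod_cast R_pos hk hl
  have hp' : (0 : ℝ) < (R k (l + 1) : ℝ) := by exact_mod_cast R_pos hk (l := l + 1) (by omega)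
  constructor
  · have h1 : (R k l : ℝ) ≤ (R k (l + 1) : ℝ) := by exact_mod_cast R_mono_right hk hl
    have := Real.log_le_log hp h1
    linarith
  · have h1 := ratio_right hk hl
    have h2 : l * R k (l + 1) ≤ l * (15000000 * R k l) := by
      calc l * R k (l + 1) ≤ 5000000 * ((k + l) * R k l) := h1
        _ ≤ 5000000 * ((3 * l) * R k l) := by
            apply Nat.mul_le_mul_left
            apply Nat.mul_le_mul_right
            omega
        _ = l * (15000000 * R k l) := by ring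
    have h3 : R k (l + 1) ≤ 15000000 * R k l := Nat.le_of_mul_le_mul_left h2 (by omega)
    have h4 : (R k (l + 1) : ℝ) ≤ 15000000 * (R k l : ℝ) := by exact_mod_cast h3
    have h5 : (15000000 : ℝ) ≤ Real.exp 17 := by
      have h3 := Real.exp_one_gt_d9
      have h4 : Real.exp 17 = (Real.exp 1) ^ 17 := by
        rw [← Real.exp_nat_mul]
        norm_num
      rw [h4]
      calc (15000000 : ℝ) ≤ (2.7182818283 : ℝ) ^ 17 := by norm_num
        _ ≤ (Real.exp 1) ^ 17 := pow_le_pow_left₀ (by norm_num) h3.le 17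
    have h6 : (R k (l + 1) : ℝ) ≤ Real.exp 17 * (R k l : ℝ) :=
      h4.trans (mul_le_mul_of_nonneg_right h5 hp.le)
    have h7 := Real.log_le_log hp' h6
    rw [Real.log_mul (Real.exp_pos _).ne' hp.ne', Real.log_exp] at h7
    linarith

theorem steps_log {k l m : ℕ} (hk : 1 ≤ k) (hl : 1 ≤ l) (h : k ≤ 2 * l) (hlm : l ≤ m) :
    0 ≤ Real.log (R k m : ℝ) - Real.log (R k l : ℝ) ∧
      Real.log (R k m : ℝ) - Real.log (R k l : ℝ) ≤ 17 * ((m : ℝ) - l) := by
  induction m, hlm using Nat.le_induction with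
  | base => simp
  | succ m hm ih =>
    have h1 := step_log hk (l := m) (by omega) (by omega)
    push_cast
    constructor
    · linarith [h1.1, ih.1]
    · linarith [h1.2, ih.2]

/-- `|log R(k,l) - log R(k,k)| ≤ 17 |l - k|` for `l ≥ k/2`. -/
theorem near_diag {k l : ℕ} (hk : 1 ≤ k) (hl : 1 ≤ l) (h : k ≤ 2 * l) :
    |Real.log (R k l : ℝ) - Real.log (R k k : ℝ)| ≤ 17 * |(l : ℝ) - k| := by
  rcases le_total k l with hkl | hkl
  · have h1 := steps_log hk hk (by omega) hkl
    have h2 : (0 : ℝ) ≤ (l : ℝ) - k := by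
      have : (k : ℝ) ≤ l := by exact_mod_cast hkl
      linarith
    rw [abs_of_nonneg h1.1, abs_of_nonneg h2]
    exact h1.2
  · have h1 := steps_log hk hl h hkl
    have h2 : (l : ℝ) - k ≤ 0 := by
      have : (l : ℝ) ≤ k := by exact_mod_cast hkl
      linarith
    rw [abs_of_nonpos (by linarith [h1.1]), abs_of_nonpos h2]
    linarith [h1.2]

/-- If `l_k / k → 1` then `(log R(k,l_k) - log R(k,k))/k → 0`. -/
theorem near_diag_tendsto (l : ℕ → ℕ)
    (hl : Tendsto (fun k => (l k : ℝ) / (k : ℝ)) atTop (𝓝 1)) :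
    Tendsto (fun k => (Real.log (R k (l k) : ℝ) - Real.log (R k k : ℝ)) / (k : ℝ)) atTop (𝓝 0) := by
  have h1 : Tendsto (fun k => 17 * |(l k : ℝ) / (k : ℝ) - 1|) atTop (𝓝 0) := by
    have h2 : Tendsto (fun k => (l k : ℝ) / (k : ℝ) - 1) atTop (𝓝 (1 - 1)) := hl.sub_const 1
    have h3 := (h2.abs).const_mul 17
    simpa using h3
  apply squeeze_zero_norm' _ h1
  have h4 : ∀ᶠ k in atTop, (1 / 2 : ℝ) < (l k : ℝ) / (k : ℝ) :=
    hl.eventually (lt_mem_nhds (by norm_num))
  filter_upwards [h4, eventually_ge_atTop 1] with k hk1 hk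
  have hkpos : (0 : ℝ) < k := by exact_mod_cast hk
  have h5 : (k : ℝ) < 2 * l k := by
    rw [lt_div_iff₀ hkpos] at hk1
    linarith
  have h6 : k < 2 * l k := by exact_mod_cast h5
  have h7 := near_diag hk (l := l k) (by omega) h6.le
  rw [Real.norm_eq_abs, abs_div, abs_of_pos hkpos, div_le_iff₀ hkpos]
  refine h7.trans (le_of_eq ?_)
  rw [mul_assoc]
  congr 1
  rw [← abs_of_pos hkpos, ← abs_mul, abs_of_pos hkpos]
  congr 1
  field_simp

end Pool.Agent.H766R2.RR
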