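import Pool.Agent.H766R2.RR7

/-!
Average degree of Ramsey-critical `(k+1,k)`-graphs.
-/

namespace Pool.Agent.H766R2.RR

open Finset Classical

/-- Strict monotonicity `R(k,l) < R(k+1,l)` for `l ≥ 2`. -/
theorem R_lt {k l : ℕ} (hk : 1 ≤ k) (hl : 2 ≤ l) : R k l < R (k + 1) l := by
  by_contra hcon
  push Not at hcon
  have hA : Arrows (R k l) (k + 1) l := arrows_mono hcon (R_spec (by omega) (by omega)).2
  have hpos := R_pos hk (l := l) (by omega)
  obtain ⟨m, hm⟩ : ∃ m, R k l = m + 1 := ⟨R k l - 1, by omega⟩
  -- a graph on `m` vertices without `K_k` and independent `l`-set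
  have hG : ∃ G : SimpleGraph (Fin m), (∀ s : Finset (Fin m), ¬ G.IsNClique k s) ∧
      (∀ s : Finset (Fin m), ¬ Gᶜ.IsNClique l s) := by
    rcases Nat.eq_zero_or_pos m with rfl | hm0
    · refine ⟨⊥, ?_, ?_⟩
      · intro s hs
        have := hs.card_eq
        have h2 : s = ∅ := Finset.eq_empty_of_isEmpty s
        rw [h2, Finset.card_empty] at this
        omega
      · intro s hs
        have := hs.card_eq
        have h2 : s = ∅ := Finset.eq_empty_of_isEmpty s
        rw [h2, Finset.card_empty] at this
        omega
    · have hnA := not_arrows_of_lt (k := k) (l := l) (n := m) hm0 (by omega)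
      unfold Arrows at hnA
      push Not at hnA
      exact hnA
  obtain ⟨G0, hG1, hG2⟩ := hG
  -- the cone over `G0`
  let G : SimpleGraph (Option (Fin m)) :=
    { Adj := fun x y => x ≠ y ∧ ∀ a b, x = some a → y = some b → G0.Adj a b
      symm := ⟨fun x y h => ⟨h.1.symm, fun a b ha hb => (h.2 b a hb ha).symm⟩⟩
      loopless := ⟨fun x h => h.1 rfl⟩ }
  rw [hm] at hA
  rcases arrows_transfer hA G Finset.univ (by simp) with ⟨s, _, hs⟩ | ⟨s, _, hs⟩
  · -- clique of size k+1
    set t : Finset (Fin m) := Finset.univ.filter (fun a => some a ∈ s) with ht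
    have hcard : s.card ≤ t.card + 1 := by
      have h1 : s ⊆ insert none (t.image some) := by
        intro x hx
        rcases x with _ | a
        · exact Finset.mem_insert_self _ _
        · apply Finset.mem_insert_of_mem
          exact Finset.mem_image_of_mem _ (by rw [ht]; simp [hx])
      calc s.card ≤ (insert none (t.image some)).card := Finset.card_le_card h1
        _ ≤ (t.image some).card + 1 := Finset.card_insert_le _ _
        _ ≤ t.card + 1 := by
            have : (t.image (some : Fin m → Option (Fin m))).card ≤ t.card := Finset.card_image_le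
            omega
    have hsc := hs.card_eq
    obtain ⟨t', ht', htc⟩ := Finset.exists_subset_card_eq (n := k) (s := t) (by omega)
    apply hG1 t'
    rw [SimpleGraph.isNClique_iff]
    refine ⟨?_, htc⟩
    intro a ha b hb hab
    have ha' : some a ∈ s := by
      have := ht' (Finset.mem_coe.mp ha)
      rw [ht] at this
      exact (Finset.mem_filter.mp this).2
    have hb' : some b ∈ s := by
      have := ht' (Finset.mem_coe.mp hb)
      rw [ht] at this
      exact (Finset.mem_filter.mp this).2
    have := hs.isClique (Finset.mem_coe.mpr ha') (Finset.mem_coe.mpr hb')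
      (fun h => hab (Option.some_injective _ h))
    exact this.2 a b rfl rfl
  · -- independent set of size l
    have hsc := hs.card_eq
    have hnone : none ∉ s := by
      intro hn
      obtain ⟨x, hx, hxn⟩ := Finset.exists_mem_ne (show 1 < s.card by omega) (none : Option (Fin m))
      have := hs.isClique (Finset.mem_coe.mpr hx) (Finset.mem_coe.mpr hn) hxn
      rw [SimpleGraph.compl_adj] at this
      exact this.2 ⟨hxn, fun a b _ hb => by simp at hb⟩
    set t : Finset (Fin m) := Finset.univ.filter (fun a => some a ∈ s) with ht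
    have hcard : s.card ≤ t.card := by
      have h1 : s ⊆ t.image some := by
        intro x hx
        rcases x with _ | a
        · exact absurd hx hnone
        · exact Finset.mem_image_of_mem _ (by rw [ht]; simp [hx])
      exact (Finset.card_le_card h1).trans Finset.card_image_le
    obtain ⟨t', ht', htc⟩ := Finset.exists_subset_card_eq (n := l) (s := t) (by omega)
    apply hG2 t'
    rw [SimpleGraph.isNClique_iff]
    refine ⟨?_, htc⟩
    intro a ha b hb hab
    have ha' : some a ∈ s := by
      have := ht' (Finset.mem_coe.mp ha)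
      rw [ht] at this
      exact (Finset.mem_filter.mp this).2
    have hb' : some b ∈ s := by
      have := ht' (Finset.mem_coe.mp hb)
      rw [ht] at this
      exact (Finset.mem_filter.mp this).2
    have := hs.isClique (Finset.mem_coe.mpr ha') (Finset.mem_coe.mpr hb')
      (fun h => hab (Option.some_injective _ h))
    rw [SimpleGraph.compl_adj] at this ⊢
    refine ⟨hab, fun hadj => this.2 ⟨this.1, ?_⟩⟩
    intro a' b' ha'' hb''
    rw [Option.some.injEq] at ha'' hb''
    subst ha''
    subst hb''
    exact hadj

/-- Greedy independent sets. -/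
theorem greedy {V : Type*} (G : SimpleGraph V) (D : ℕ) : ∀ (m : ℕ) (U : Finset V), U.card = m →
    (∀ v ∈ U, (U.filter (fun w => G.Adj v w)).card ≤ D) →
    ∃ J ⊆ U, (∀ u ∈ J, ∀ v ∈ J, ¬ G.Adj u v) ∧ U.card ≤ J.card * (D + 1) := by
  intro m
  induction m using Nat.strong_induction_on with
  | _ m ih =>
    intro U hU hD
    rcases U.eq_empty_or_nonempty with rfl | ⟨v, hv⟩
    · exact ⟨∅, subset_rfl, by simp, by simp⟩
    · set N := insert v (U.filter (fun w => G.Adj v w)) with hN
      have hNU : N ⊆ U := by
        intro x hx
        rcases Finset.mem_insert.mp hx with rfl | hx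
        · exact hv
        · exact (Finset.mem_filter.mp hx).1
      have hNc : N.card ≤ D + 1 :=
        (Finset.card_insert_le _ _).trans (Nat.add_le_add_right (hD v hv) 1)
      have hvN : v ∈ N := Finset.mem_insert_self _ _
      have hNpos : 0 < N.card := Finset.card_pos.mpr ⟨v, hvN⟩
      have hc : (U \ N).card = U.card - N.card := Finset.card_sdiff_of_subset hNU
      have hNle := Finset.card_le_card hNU
      obtain ⟨J, hJ, hJi, hJc⟩ := ih (U \ N).card (by omega) (U \ N) rfl (by
        intro w hw
        refine le_trans (Finset.card_le_card ?_) (hD w (Finset.mem_sdiff.mp hw).1)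
        exact Finset.filter_subset_filter _ Finset.sdiff_subset)
      have hvJ : v ∉ J := fun h => (Finset.mem_sdiff.mp (hJ h)).2 hvN
      have hJv : ∀ u ∈ J, ¬ G.Adj v u := by
        intro u hu hadj
        have h1 := Finset.mem_sdiff.mp (hJ hu)
        exact h1.2 (Finset.mem_insert_of_mem (Finset.mem_filter.mpr ⟨h1.1, hadj⟩))
      refine ⟨insert v J, ?_, ?_, ?_⟩
      · intro x hx
        rcases Finset.mem_insert.mp hx with rfl | hx
        · exact hv
        · exact (Finset.mem_sdiff.mp (hJ hx)).1
      · intro x hx y hy hadj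
        rcases Finset.mem_insert.mp hx with hx | hx
        · rcases Finset.mem_insert.mp hy with hy | hy
          · rw [hx, hy] at hadj
            exact (G.loopless.irrefl _) hadj
          · rw [hx] at hadj
            exact hJv y hy hadj
        · rcases Finset.mem_insert.mp hy with hy | hy
          · rw [hy] at hadj
            exact hJv x hx hadj.symm
          · exact hJi x hx y hy hadj
      · rw [Finset.card_insert_of_notMem hvJ]
        have : (J.card + 1) * (D + 1) = J.card * (D + 1) + (D + 1) := by ring
        omega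

/-- **Average degree of Ramsey-critical `(k+1,k)`-graphs.** -/
theorem critical {k : ℕ} (hk : 2 ≤ k) {n : ℕ} (hn : R (k + 1) k = n + 1)
    (G : SimpleGraph (Fin n)) (h1 : ∀ s : Finset (Fin n), ¬ G.IsNClique (k + 1) s)
    (h2 : ∀ s : Finset (Fin n), ¬ Gᶜ.IsNClique k s) :
    ((n : ℝ) + 1) * n ≤ 100000000 * ∑ v : Fin n, dg G Finset.univ v := by
  -- n ≥ k
  have hnk : k ≤ n := by
    by_contra hcon
    push Not at hcon
    have hA : Arrows k (k + 1) k := arrows_mono (by omega) (R_spec (k := k + 1) (l := k)
      (by omega) (by omega)).2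
    rcases hA ⊤ with ⟨s, hs⟩ | ⟨s, hs⟩
    · have h3 := hs.card_eq
      have h4 := Finset.card_le_univ s
      rw [Fintype.card_fin] at h4
      omega
    · have h3 := hs.card_eq
      obtain ⟨a, ha, b, hb, hab⟩ := Finset.one_lt_card.mp (show 1 < s.card by omega)
      have := hs.isClique (Finset.mem_coe.mpr ha) (Finset.mem_coe.mpr hb) hab
      simp at this
  have hnpos : (0 : ℝ) < n := by
    have : 0 < n := by omega
    exact_mod_cast this
  have hn1 : (1 : ℝ) ≤ n := by
    have : 1 ≤ n := by omega
    exact_mod_cast this
  set Sd : ℝ := ∑ v : Fin n, dg G Finset.univ v with hSd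
  have hSd0 : 0 ≤ Sd := Finset.sum_nonneg (fun v _ => dg_nonneg _ _ _)
  -- no large independent sets
  have hind : ∀ J : Finset (Fin n), (∀ u ∈ J, ∀ v ∈ J, ¬ G.Adj u v) → J.card < k := by
    intro J hJ
    by_contra hcon
    push Not at hcon
    obtain ⟨J', hJ', hJc⟩ := Finset.exists_subset_card_eq hcon
    apply h2 J'
    rw [SimpleGraph.isNClique_iff]
    refine ⟨?_, hJc⟩
    intro u hu v hv huv
    rw [SimpleGraph.compl_adj]
    exact ⟨huv, hJ u (hJ' (by exact_mod_cast hu)) v (hJ' (by exact_mod_cast hv))⟩
  by_cases hbig : 2048 ≤ k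
  · have hlt := R_lt (k := k) (l := k) (by omega) hk
    have hd := density G hbig hbig (by rw [Fintype.card_fin]; omega) h1 h2
    rw [Fintype.card_fin, ← hSd] at hd
    have hkpos : (0 : ℝ) < k := by
      have : 0 < k := by omega
      exact_mod_cast this
    have h3 : (n : ℝ) ^ 2 ≤ 8390656 * Sd := by
      have h4 : (k : ℝ) * (n : ℝ) ^ 2 ≤ (k : ℝ) * (8390656 * Sd) := by
        calc (k : ℝ) * (n : ℝ) ^ 2 ≤ 4195328 * ((k : ℝ) + k) * Sd := hd
          _ = (k : ℝ) * (8390656 * Sd) := by ring
      exact le_of_mul_le_mul_left h4 hkpos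
    nlinarith
  · push Not at hbig
    -- there is at least one edge
    have hSd1 : 1 ≤ Sd := by
      by_contra hcon
      push Not at hcon
      have hz : ∀ v : Fin n, dg G Finset.univ v = 0 := by
        intro v
        have h3 : dg G Finset.univ v ≤ Sd :=
          Finset.single_le_sum (f := fun v => dg G Finset.univ v)
            (fun v _ => dg_nonneg _ _ _) (Finset.mem_univ v)
        have h4 : dg G Finset.univ v < 1 := lt_of_le_of_lt h3 hcon
        unfold dg at h4 ⊢
        have h5 : ((Finset.univ : Finset (Fin n)).filter (fun w => G.Adj v w)).card < 1 := by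
          exact_mod_cast h4
        have h6 : ((Finset.univ : Finset (Fin n)).filter (fun w => G.Adj v w)).card = 0 := by omega
        rw [h6]
        simp
      have h3 := hind Finset.univ (by
        intro u _ v _ hadj
        have h4 := hz u
        unfold dg at h4
        have h5 : ((Finset.univ : Finset (Fin n)).filter (fun w => G.Adj u w)).card = 0 := by
          exact_mod_cast h4
        rw [Finset.card_eq_zero] at h5
        have h6 : v ∈ (Finset.univ : Finset (Fin n)).filter (fun w => G.Adj u w) := by
          simp [hadj]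
        rw [h5] at h6
        simp at h6)
      rw [Finset.card_univ, Fintype.card_fin] at h3
      omega
    set a : ℝ := Sd / n with ha
    have ha0 : 0 ≤ a := by positivity
    set U : Finset (Fin n) := Finset.univ.filter (fun v => dg G Finset.univ v ≤ 2 * a) with hU
    have hUcard : n ≤ 2 * U.card := by
      have h3 := markov_half (Finset.univ : Finset (Fin n)) (dg G Finset.univ)
        (fun v _ => dg_nonneg _ _ _) a ha0
        (by
          rw [Finset.card_univ, Fintype.card_fin, ← hSd, ha]
          apply le_of_eq
          field_simp)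
      rwa [Finset.card_univ, Fintype.card_fin] at h3
    obtain ⟨J, _, hJi, hJc⟩ := greedy G ⌊2 * a⌋₊ U.card U rfl (by
      intro v hv
      have h4 : dg G Finset.univ v ≤ 2 * a := (Finset.mem_filter.mp hv).2
      apply Nat.le_floor
      refine le_trans ?_ h4
      unfold dg
      have : (U.filter (fun w => G.Adj v w)).card ≤
          ((Finset.univ : Finset (Fin n)).filter (fun w => G.Adj v w)).card :=
        Finset.card_le_card (Finset.filter_subset_filter _ (Finset.subset_univ _))
      exact_mod_cast this)
    have hJk := hind J hJi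
    have h5 : n ≤ 2 * (2046 * (⌊2 * a⌋₊ + 1)) := by
      have : J.card * (⌊2 * a⌋₊ + 1) ≤ 2046 * (⌊2 * a⌋₊ + 1) :=
        Nat.mul_le_mul_right _ (by omega)
      omega
    have h6 : (n : ℝ) ≤ 4092 * (2 * a + 1) := by
      have h7 : (n : ℝ) ≤ 2 * (2046 * ((⌊2 * a⌋₊ : ℝ) + 1)) := by exact_mod_cast h5
      have h8 : ((⌊2 * a⌋₊ : ℕ) : ℝ) ≤ 2 * a := Nat.floor_le (by positivity)
      linarith
    have hna : (n : ℝ) * a = Sd := by rw [ha]; field_simp
    rcases le_total (n : ℝ) 8184 with h | h
    · nlinarith
    · have h7 : (n : ℝ) ≤ 16368 * a := by linarith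
      have h8 : (n : ℝ) * n ≤ 16368 * Sd := by
        calc (n : ℝ) * n ≤ n * (16368 * a) := mul_le_mul_of_nonneg_left h7 hnpos.le
          _ = 16368 * Sd := by rw [← hna]; ring
      nlinarith

end Pool.Agent.H766R2.RR
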