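import Mathlib

/-!
# Upper bound for the number of zeros in `[-1+a,1-a]` of polynomials with `|a_0| = 1`, `|a_j| ≤ 1`

Proof via the Mahler measure of `p((w+w^2)/2)`.
-/

open Finset Polynomial

namespace Pool.Agent.H766R2

/-- the Mahler measure is at most the maximum modulus on the unit circle (version with bound `≥ 1`) -/
lemma mahler_le_of_bound (p : ℂ[X]) (S : ℝ) (hS : 1 ≤ S) (h : ∀ z : ℂ, ‖z‖ = 1 → ‖p.eval z‖ ≤ S) :
    p.mahlerMeasure ≤ S := by
  by_cases hp : p = 0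
  · rw [hp, mahlerMeasure_zero]; linarith
  rw [mahlerMeasure_def_of_ne_zero hp]
  have hS0 : 0 < S := by linarith
  rw [← Real.le_log_iff_exp_le hS0]
  change Real.circleAverage (fun z => Real.log ‖p.eval z‖) 0 1 ≤ Real.log S
  apply Real.circleAverage_mono_on_of_le_circle
  · have := p.intervalIntegrable_mahlerMeasure
    exact this
  · intro z hz
    have hz1 : ‖z‖ = 1 := by simpa using hz
    rcases eq_zero_or_norm_pos (p.eval z) with h0 | h0
    · simp only [h0, norm_zero, Real.log_zero]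
      exact Real.log_nonneg hS
    · exact Real.log_le_log h0 (h z hz1)

/-- pointwise bound -/
lemma eval_bound (p : ℂ[X]) (hc : ∀ j, ‖p.coeff j‖ ≤ 1) (z : ℂ) (hz : ‖z‖ < 1) :
    ‖p.eval z‖ ≤ 1 / (1 - ‖z‖) := by
  rw [eval_eq_sum_range]
  calc ‖∑ i ∈ range (p.natDegree + 1), p.coeff i * z ^ i‖
      ≤ ∑ i ∈ range (p.natDegree + 1), ‖p.coeff i * z ^ i‖ := norm_sum_le _ _
    _ ≤ ∑ i ∈ range (p.natDegree + 1), ‖z‖ ^ i := by
        apply sum_le_sum
        intro i _
        rw [norm_mul, norm_pow]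
        calc ‖p.coeff i‖ * ‖z‖ ^ i ≤ 1 * ‖z‖ ^ i := by gcongr; exact hc i
          _ = _ := one_mul _
    _ ≤ 1 / (1 - ‖z‖) := by
        have := geom_sum_Ico_le_of_lt_one (x := ‖z‖) (m := 0) (n := p.natDegree + 1) (norm_nonneg z) hz
        simpa [Nat.Ico_zero_eq_range] using this

/-- the Mahler measure of `p((X+X^2)/2)` is at most `8` -/
lemma mahler_comp_le (p : ℂ[X]) (hc : ∀ j, ‖p.coeff j‖ ≤ 1) :
    (p.comp (C (1 / 2) * (X + X ^ 2))).mahlerMeasure ≤ 8 := by
  set F := p.comp (C (1 / 2) * (X + X ^ 2)) with hF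
  have h1 : (F * (X - C 1) ^ 2).mahlerMeasure = F.mahlerMeasure := by
    rw [pow_two, mahlerMeasure_mul, mahlerMeasure_mul, mahlerMeasure_X_sub_C]
    simp
  rw [← h1]
  apply mahler_le_of_bound _ 8 (by norm_num)
  intro w hw
  rw [eval_mul, eval_pow, eval_sub, eval_X, eval_C, norm_mul, norm_pow]
  have hFe : F.eval w = p.eval (1 / 2 * (w + w ^ 2)) := by
    rw [hF, eval_comp]; simp
  have hφ : ‖(1 / 2 * (w + w ^ 2) : ℂ)‖ = ‖w + 1‖ / 2 := by
    have : (1 / 2 * (w + w ^ 2) : ℂ) = (1 / 2) * (w * (w + 1)) := by ring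
    rw [this, norm_mul, norm_mul, hw]
    norm_num
    ring
  have hpar : ‖w - 1‖ ^ 2 = 4 - ‖w + 1‖ ^ 2 := by
    have := parallelogram_law_with_norm ℝ w 1
    rw [hw] at this
    norm_num at this
    nlinarith [this]
  have hle2 : ‖w + 1‖ ≤ 2 := by
    calc ‖w + 1‖ ≤ ‖w‖ + ‖(1 : ℂ)‖ := norm_add_le _ _
      _ = 2 := by rw [hw]; norm_num
  rcases lt_or_eq_of_le hle2 with hlt | heq
  · have hb := eval_bound p hc (1 / 2 * (w + w ^ 2)) (by rw [hφ]; linarith)
    rw [hFe]
    rw [hφ] at hb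
    have hpos : 0 < 1 - ‖w + 1‖ / 2 := by linarith
    calc ‖p.eval (1 / 2 * (w + w ^ 2))‖ * ‖w - 1‖ ^ 2 ≤ (1 / (1 - ‖w + 1‖ / 2)) * ‖w - 1‖ ^ 2 := by gcongr
      _ = (4 - ‖w + 1‖ ^ 2) / (1 - ‖w + 1‖ / 2) := by rw [hpar]; ring
      _ ≤ 8 := by
          rw [div_le_iff₀ hpos]
          nlinarith [norm_nonneg (w + 1)]
  · have : ‖w - 1‖ ^ 2 = 0 := by rw [hpar, heq]; norm_num
    rw [this]; norm_num

/-- bound on the number of positive zeros -/
lemma card_pos_zeros (p : ℂ[X]) (h0 : ‖p.coeff 0‖ = 1) (hc : ∀ j, ‖p.coeff j‖ ≤ 1) (a : ℝ)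
    (ha0 : 0 < a) (s : Finset ℝ) (hs : ∀ x ∈ s, 0 < x ∧ x ≤ 1 - a ∧ p.eval (x : ℂ) = 0) :
    (s.card : ℝ) ≤ 21 / 2 / a := by
  rcases s.eq_empty_or_nonempty with rfl | ⟨x0, hx0⟩
  · simp; positivity
  have ha1 : a < 1 := by have := hs x0 hx0; linarith
  set F := p.comp (C (1 / 2) * (X + X ^ 2)) with hF
  have hM := mahler_comp_le p hc
  rw [← hF] at hM
  -- the preimages
  set τ : ℝ → ℝ := fun x => (-1 + Real.sqrt (1 + 8 * x)) / 2 with hτ
  have hτsq : ∀ x, 0 < x → τ x * (1 + τ x) / 2 = x := by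
    intro x hx
    have := Real.sq_sqrt (show 0 ≤ 1 + 8 * x by linarith)
    rw [hτ]; simp only
    nlinarith
  have hτpos : ∀ x, 0 < x → 0 < τ x := by
    intro x hx
    have : 1 < Real.sqrt (1 + 8 * x) := by
      rw [Real.lt_sqrt (by norm_num)]; linarith
    rw [hτ]; simp only; linarith
  have hτub : ∀ x, 0 < x → x ≤ 1 - a → τ x ≤ 1 - 2 / 3 * a := by
    intro x hx hxa
    have h1 := hτsq x hx
    have h2 := hτpos x hx
    by_contra hcon
    push Not at hcon
    have h3 : τ x ≤ 1 := by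
      by_contra h4
      push Not at h4
      nlinarith
    nlinarith
  have hτinj : Set.InjOn (fun x : ℝ => ((τ x : ℝ) : ℂ)) s := by
    intro x hx y hy hxy
    have h1 : τ x = τ y := Complex.ofReal_injective hxy
    rw [← hτsq x (hs x hx).1, ← hτsq y (hs y hy).1, h1]
  set R : ℂ[X] := ∏ x ∈ s, (X - C ((τ x : ℝ) : ℂ)) with hR
  have hdvd : R ∣ F := by
    rw [hR]
    apply Finset.prod_dvd_of_coprime
    · intro x hx y hy hxy
      apply isCoprime_X_sub_C_of_isUnit_sub
      rw [isUnit_iff_ne_zero, sub_ne_zero]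
      intro h
      exact hxy (hτinj hx hy h)
    · intro x hx
      rw [dvd_iff_isRoot, IsRoot.def, hF, eval_comp]
      have h1 : (C (1 / 2 : ℂ) * (X + X ^ 2)).eval ((τ x : ℝ) : ℂ) = (x : ℂ) := by
        have h2 := hτsq x (hs x hx).1
        simp only [eval_mul, eval_C, eval_add, eval_X, eval_pow]
        have h3 : ((τ x * (1 + τ x) / 2 : ℝ) : ℂ) = (x : ℂ) := by rw [h2]
        rw [← h3]
        push_cast
        ring
      rw [h1]
      exact (hs x hx).2.2
  obtain ⟨G, hG⟩ := hdvd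
  have hMR : R.mahlerMeasure = 1 := by
    rw [hR]
    have : ∀ t : Finset ℝ, t ⊆ s → (∏ x ∈ t, (X - C ((τ x : ℝ) : ℂ))).mahlerMeasure = 1 := by
      intro t
      induction t using Finset.induction_on with
      | empty => intro _; simp
      | insert x t hx ih =>
        intro hts
        rw [prod_insert hx, mahlerMeasure_mul, ih ((subset_insert x t).trans hts), mahlerMeasure_X_sub_C]
        have hxs : x ∈ s := hts (mem_insert_self x t)
        have h1 := hτpos x (hs x hxs).1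
        have h2 := hτub x (hs x hxs).1 (hs x hxs).2.1
        rw [Complex.norm_real, Real.norm_of_nonneg h1.le]
        rw [max_eq_left (by linarith)]
        norm_num
    exact this s subset_rfl
  have hMG : G.mahlerMeasure ≤ 8 := by
    rw [hG, mahlerMeasure_mul, hMR, one_mul] at hM
    exact hM
  have hG0 : ‖G.coeff 0‖ ≤ 8 := by
    have := norm_coeff_le_choose_mul_mahlerMeasure 0 G
    simp at this
    exact this.trans hMG
  have hF0 : ‖F.coeff 0‖ = 1 := by
    rw [coeff_zero_eq_eval_zero, hF, eval_comp]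
    simp only [eval_mul, eval_C, eval_add, eval_X, eval_pow]
    norm_num
    rw [← coeff_zero_eq_eval_zero]
    exact h0
  have hR0 : ‖R.coeff 0‖ = ∏ x ∈ s, τ x := by
    rw [hR, coeff_zero_eq_eval_zero, eval_prod, norm_prod]
    refine prod_congr rfl fun x hx => ?_
    simp
    exact (hτpos x (hs x hx).1).le
  have hprod : 1 ≤ 8 * ∏ x ∈ s, τ x := by
    have h1 : F.coeff 0 = R.coeff 0 * G.coeff 0 := by rw [hG, mul_coeff_zero]
    have h2 : 1 = ‖R.coeff 0‖ * ‖G.coeff 0‖ := by rw [← norm_mul, ← h1, hF0]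
    rw [← hR0]
    nlinarith [norm_nonneg (R.coeff 0)]
  have hprod2 : ∏ x ∈ s, τ x ≤ (1 - 2 / 3 * a) ^ s.card := by
    rw [← Finset.prod_const]
    apply prod_le_prod
    · intro x hx; exact (hτpos x (hs x hx).1).le
    · intro x hx; exact hτub x (hs x hx).1 (hs x hx).2.1
  -- conclude
  have hb : 0 < 1 - 2 / 3 * a := by linarith
  have h3 : (1 + 2 / 3 * a) ^ s.card * (1 - 2 / 3 * a) ^ s.card ≤ 1 := by
    rw [← mul_pow]
    apply pow_le_one₀
    · have : 0 < 1 + 2 / 3 * a := by linarith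
      positivity
    · nlinarith
  have h4 : 1 + (s.card : ℝ) * (2 / 3 * a) ≤ (1 + 2 / 3 * a) ^ s.card :=
    one_add_mul_le_pow (by linarith) _
  have h5 : 0 < (1 - 2 / 3 * a) ^ s.card := by positivity
  have h6 : 1 ≤ 8 * (1 - 2 / 3 * a) ^ s.card := by linarith
  have h7 : 1 + (s.card : ℝ) * (2 / 3 * a) ≤ 8 := by
    have h8 : (1 + 2 / 3 * a) ^ s.card ≤ 8 := by
      nlinarith [show 0 < (1 + 2 / 3 * a) ^ s.card by positivity]
    linarith
  rw [le_div_iff₀ ha0]
  nlinarith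

/-- bound on the number of nonzero zeros -/
lemma card_zeros (p : ℂ[X]) (h0 : ‖p.coeff 0‖ = 1) (hc : ∀ j, ‖p.coeff j‖ ≤ 1) (a : ℝ)
    (ha0 : 0 < a) (s : Finset ℝ) (hs : ∀ x ∈ s, -1 + a ≤ x ∧ x ≤ 1 - a ∧ p.eval (x : ℂ) = 0) :
    (s.card : ℝ) ≤ 21 / a := by
  have hx0 : ∀ x ∈ s, x ≠ 0 := by
    intro x hx h
    have := (hs x hx).2.2
    rw [h] at this
    simp only [Complex.ofReal_zero, ← coeff_zero_eq_eval_zero] at this
    rw [this] at h0
    simp at h0
  have hsplit : s.card = (s.filter (fun x => 0 < x)).card + (s.filter (fun x => ¬ 0 < x)).card :=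
    (card_filter_add_card_filter_not (s := s) (fun x => 0 < x)).symm
  have h1 : ((s.filter (fun x => 0 < x)).card : ℝ) ≤ 21 / 2 / a := by
    apply card_pos_zeros p h0 hc a ha0
    intro x hx
    rw [mem_filter] at hx
    exact ⟨hx.2, (hs x hx.1).2⟩
  have h2 : ((s.filter (fun x => ¬ 0 < x)).card : ℝ) ≤ 21 / 2 / a := by
    set t := (s.filter (fun x => ¬ 0 < x)).image (fun x => -x) with ht
    have hcard : t.card = (s.filter (fun x => ¬ 0 < x)).card := by
      rw [ht, card_image_of_injective _ neg_injective]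
    rw [← hcard]
    set q := p.comp (C (-1) * X) with hq
    have hqc : ∀ j, q.coeff j = (-1) ^ j * p.coeff j := by
      intro j
      rw [hq, comp_C_mul_X_coeff]
      ring
    apply card_pos_zeros q _ _ a ha0
    · intro x hx
      rw [ht, mem_image] at hx
      obtain ⟨y, hy, rfl⟩ := hx
      rw [mem_filter] at hy
      have hy0 := hx0 y hy.1
      have hy1 := hs y hy.1
      refine ⟨?_, by linarith, ?_⟩
      · rcases lt_or_gt_of_ne hy0 with h | h
        · linarith
        · exact absurd h hy.2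
      · rw [hq, eval_comp]
        simp
        exact hy1.2.2
    · rw [hqc]; simpa using h0
    · intro j
      rw [hqc, norm_mul]
      simpa using hc j
  rw [hsplit]
  push_cast
  have : 21 / a = 21 / 2 / a + 21 / 2 / a := by ring
  linarith

end Pool.Agent.H766R2
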